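import Pool.Agent.H647R3.DC

open Set Topology Cardinal

universe u v

namespace H647R3.Fac

lemma exists_iota (E : Type u) :
    ∃ ι : (Set E × Finset (Set (E ⊕ ℕ) × ℚ × ℚ)) × ℕ → Set (E ⊕ ℕ), Function.Injective ι := by
  have hinf : ℵ₀ ≤ #(Set (E ⊕ ℕ)) := Cardinal.aleph0_le_mk _
  have h1 : #(Set E) ≤ #(Set (E ⊕ ℕ)) :=
    Cardinal.mk_le_of_injective (f := fun s : Set E => (Sum.inl '' s : Set (E ⊕ ℕ)))
      (Set.image_injective.2 Sum.inl_injective)
  have h2 : #(Finset (Set (E ⊕ ℕ) × ℚ × ℚ)) ≤ #(Set (E ⊕ ℕ)) := by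
    rw [Cardinal.mk_finset_of_infinite]
    simp only [Cardinal.mk_prod, Cardinal.lift_uzero, Cardinal.mkRat, Cardinal.lift_aleph0,
      Cardinal.lift_id, Cardinal.aleph0_mul_aleph0]
    exact Cardinal.mul_le_of_le hinf le_rfl hinf
  have h3 : #((Set E × Finset (Set (E ⊕ ℕ) × ℚ × ℚ)) × ℕ) ≤ #(Set (E ⊕ ℕ)) := by
    rw [Cardinal.mk_prod, Cardinal.mk_prod]
    simp only [Cardinal.lift_uzero, Cardinal.lift_id, Cardinal.mk_nat, Cardinal.lift_aleph0]
    exact Cardinal.mul_le_of_le hinf (Cardinal.mul_le_of_le hinf h1 h2) hinf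
  obtain ⟨e⟩ := (Cardinal.le_def _ _).1 h3
  exact ⟨e, e.injective⟩

section

variable {E : Type u} [AddCommGroup E] [Module ℝ E] [TopologicalSpace E]
  [IsTopologicalAddGroup E] [ContinuousSMul ℝ E]

lemma singleton_bdd (h : E) : ({h} : Set E) ∈ bdd E :=
  Bornology.isVonNBounded_singleton h

lemma fst_bdd {Γ : Type u} {B : Set (E × FS Γ)} (hB : B ∈ bdd (E × FS Γ)) :
    Prod.fst '' B ∈ bdd E :=
  Bornology.IsVonNBounded.image hB (ContinuousLinearMap.fst ℝ E (FS Γ))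

lemma coord_bdd {Γ : Type u} {B : Set (E × FS Γ)} (hB : B ∈ bdd (E × FS Γ)) (a : Γ) :
    ∃ C : ℝ, ∀ h ∈ B, |h.2.1 a| ≤ C := by
  let φ : E × FS Γ →L[ℝ] ℝ :=
    { toFun := fun h => h.2.1 a
      map_add' := fun _ _ => rfl
      map_smul' := fun _ _ => rfl
      cont := (FS_cont a).comp continuous_snd }
  have h1 : Bornology.IsVonNBounded ℝ (φ '' B) := Bornology.IsVonNBounded.image hB φ
  rw [NormedSpace.isVonNBounded_iff, isBounded_iff_forall_norm_le] at h1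
  obtain ⟨C, hC⟩ := h1
  exact ⟨C, fun h hh => hC _ ⟨h, hh, rfl⟩⟩

lemma frechet_factor {F : Type u} [AddCommGroup F] [Module ℝ F] [TopologicalSpace F]
    [IsTopologicalAddGroup F] [ContinuousSMul ℝ F] {D : Set E} {f : E → ℝ} {x : E} {y : F}
    (h : FrechetAt (Prod.fst ⁻¹' D) (fun z : E × F => f z.1) (x, y)) : FrechetAt D f x := by
  obtain ⟨φ, hφ⟩ := h
  refine ⟨φ.comp (ContinuousLinearMap.inl ℝ E F), fun B hB ε hε => ?_⟩
  obtain ⟨δ, hδ, h1⟩ := hφ _ (Bornology.IsVonNBounded.image hB (ContinuousLinearMap.inl ℝ E F))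
    ε hε
  refine ⟨δ, hδ, fun t ht1 ht2 b hb => ?_⟩
  obtain ⟨h2, h3⟩ := h1 t ht1 ht2 _ ⟨b, hb, rfl⟩
  exact ⟨h2, h3⟩

lemma gateaux_factor {F : Type u} [AddCommGroup F] [Module ℝ F] [TopologicalSpace F]
    [IsTopologicalAddGroup F] [ContinuousSMul ℝ F] {D : Set E} {f : E → ℝ} {x : E} {y : F}
    (h : GateauxAt (Prod.fst ⁻¹' D) (fun z : E × F => f z.1) (x, y)) : GateauxAt D f x := by
  obtain ⟨φ, hφ⟩ := h
  refine ⟨φ.comp (ContinuousLinearMap.inl ℝ E F), fun b ε hε => ?_⟩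
  obtain ⟨δ, hδ, h1⟩ := hφ (b, 0) ε hε
  exact ⟨δ, hδ, fun t ht1 ht2 => h1 t ht1 ht2⟩

/-- restriction of density to a factor -/
lemma dense_factor {F : Type u} [AddCommGroup F] [Module ℝ F] [TopologicalSpace F]
    {P : Set E → (E → ℝ) → E → Prop} {Q : Set (E × F) → (E × F → ℝ) → E × F → Prop}
    (hPQ : ∀ (D : Set E) (f : E → ℝ) (z : E × F), Q (Prod.fst ⁻¹' D) (fun z => f z.1) z →
      P D f z.1)
    (h : ∀ D : Set (E × F), D.Nonempty → IsOpen D → Convex ℝ D → ∀ f : E × F → ℝ,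
      ContinuousOn f D → ConvexOn ℝ D f →
      ∃ S : Set (E × F), S ⊆ D ∧ IsGδ S ∧ D ⊆ closure S ∧ ∀ x ∈ S, Q D f x) :
    ∀ D : Set E, D.Nonempty → IsOpen D → Convex ℝ D → ∀ f : E → ℝ, ContinuousOn f D →
      ConvexOn ℝ D f → D ⊆ closure {x | x ∈ D ∧ P D f x} := by
  intro D hne hD hDc f hfc hf x hx
  obtain ⟨S, hS1, -, hS2, hS3⟩ := h (Prod.fst ⁻¹' D) ⟨(x, 0), hx⟩ (hD.preimage continuous_fst)
    (hDc.linear_preimage (LinearMap.fst ℝ E F)) (fun z => f z.1)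
    (hfc.comp continuous_fst.continuousOn fun z hz => hz)
    (by
      refine ⟨hDc.linear_preimage (LinearMap.fst ℝ E F), fun z hz w hw a b ha hb hab => ?_⟩
      exact hf.2 hz hw ha hb hab)
  rw [mem_closure_iff]
  intro O hO hxO
  obtain ⟨z, hz1, hz2⟩ := mem_closure_iff.1 (hS2 (show ((x, 0) : E × F) ∈ Prod.fst ⁻¹' D from hx))
    (Prod.fst ⁻¹' O) (hO.preimage continuous_fst) hxO
  exact ⟨z.1, hz1, hS1 hz2, hPQ D f z (hS3 z hz2)⟩

theorem frechet_main [LocallyConvexSpace ℝ E] : IsFDS E ↔ ∃ (F : Type u) (_ : AddCommGroup F)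
    (_ : Module ℝ F) (_ : TopologicalSpace F) (_ : IsTopologicalAddGroup F)
    (_ : ContinuousSMul ℝ F) (_ : LocallyConvexSpace ℝ F) (_ : T2Space F), IsAsplund (E × F) := by
  constructor
  · intro h
    refine ⟨FS (Set (E ⊕ ℕ)), inferInstance, inferInstance, inferInstance, inferInstance,
      inferInstance, inferInstance, inferInstance, ?_⟩
    intro D hne hD hDc g hgc hg
    obtain ⟨ι, hι⟩ := exists_iota E
    have hdense := dense_prod (𝓑E := bdd E) (𝓑 := bdd (E × FS (Set (E ⊕ ℕ))))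
      (fun B hB => fst_bdd hB) (fun B hB a => coord_bdd hB a)
      (fun D hne hD hDc f hfc hf => (h D hne hD hDc f hfc hf).trans
        (closure_mono fun x hx => ⟨hx.1, sd_of_diff (frechet_iff.1 hx.2)⟩)) hD hgc hg
    obtain ⟨S, hS1, hS2, hS3, hS4⟩ := gdelta (fun B hB => hB) ι hι hD hgc hg hdense
    exact ⟨S, hS1, hS2, hS3, fun x hx => frechet_iff.2 (diff_of_sd hD hgc hg (hS1 hx)
      (fun h => singleton_bdd h) (hS4 x hx))⟩
  · rintro ⟨F, _, _, _, _, _, _, _, h⟩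
    exact dense_factor (fun D f z hz => frechet_factor hz) h

theorem gateaux_main [LocallyConvexSpace ℝ E] : IsGDS E ↔ ∃ (F : Type u) (_ : AddCommGroup F)
    (_ : Module ℝ F) (_ : TopologicalSpace F) (_ : IsTopologicalAddGroup F)
    (_ : ContinuousSMul ℝ F) (_ : LocallyConvexSpace ℝ F) (_ : T2Space F),
      IsWeakAsplund (E × F) := by
  constructor
  · intro h
    refine ⟨FS (Set (E ⊕ ℕ)), inferInstance, inferInstance, inferInstance, inferInstance,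
      inferInstance, inferInstance, inferInstance, ?_⟩
    intro D hne hD hDc g hgc hg
    obtain ⟨ι, hι⟩ := exists_iota E
    have hsub : ∀ B ∈ sing (E × FS (Set (E ⊕ ℕ))), B ∈ bdd (E × FS (Set (E ⊕ ℕ))) := by
      rintro B ⟨h, rfl⟩
      exact singleton_bdd h
    have hdense := dense_prod (𝓑E := sing E) (𝓑 := sing (E × FS (Set (E ⊕ ℕ))))
      (by
        rintro B ⟨h, rfl⟩
        exact ⟨h.1, image_singleton⟩) (fun B hB a => coord_bdd (hsub B hB) a)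
      (fun D hne hD hDc f hfc hf => (h D hne hD hDc f hfc hf).trans
        (closure_mono fun x hx => ⟨hx.1, sd_of_diff (gateaux_iff.1 hx.2)⟩)) hD hgc hg
    obtain ⟨S, hS1, hS2, hS3, hS4⟩ := gdelta hsub ι hι hD hgc hg hdense
    exact ⟨S, hS1, hS2, hS3, fun x hx => gateaux_iff.2 (diff_of_sd hD hgc hg (hS1 hx)
      (fun h => ⟨h, rfl⟩) (hS4 x hx))⟩
  · rintro ⟨F, _, _, _, _, _, _, _, h⟩
    exact dense_factor (fun D f z hz => gateaux_factor hz) h

end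

end H647R3.Fac
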