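import Mathlib

set_option autoImplicit false

namespace Pool.Agent.H647R3.AG

open Finset Filter Topology

/-- vertex on the line with parameters `e` at abscissa `i` -/
def vert {m Q : ℕ} (e : Fin Q × Fin Q) (i : Fin m) : Fin m × Fin (m * Q) :=
  (i, ⟨e.1.1 + e.2.1 * i.1, by
    have h1 := e.1.2
    have h2 := e.2.2
    have h3 := i.2
    have hQ : 0 < Q := by omega
    obtain ⟨m', rfl⟩ : ∃ m', m = m' + 1 := ⟨m - 1, by omega⟩
    have h4 : e.2.1 * i.1 ≤ (Q - 1) * m' := Nat.mul_le_mul (by omega) (by omega)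
    have h5 : (Q - 1) * m' + Q ≤ (m' + 1) * Q := by
      obtain ⟨Q', rfl⟩ : ∃ Q', Q = Q' + 1 := ⟨Q - 1, by omega⟩
      simp only [Nat.add_sub_cancel]
      nlinarith
    omega⟩)

/-- Counting: a labelling of the lines that defeats every ranking. -/
theorem exists_labelling_fin (m Q : ℕ)
    (hQ : ((m * (m * Q) : ℕ) : ℝ) ^ (m * (m * Q)) * (1 - 1 / (m.factorial : ℝ)) ^ (Q * Q) < 1) :
    ∃ F : Fin Q × Fin Q → Equiv.Perm (Fin m),
      ∀ r : Fin m × Fin (m * Q) → Fin (m * (m * Q)), ∃ e : Fin Q × Fin Q,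
        Monotone (fun t : Fin m => r (vert e (F e t))) := by
  classical
  by_contra hcon
  push Not at hcon
  -- bad labellings for a ranking `r`
  let Bd : (Fin m × Fin (m * Q) → Fin (m * (m * Q))) → Finset (Fin Q × Fin Q → Equiv.Perm (Fin m)) :=
    fun r => Fintype.piFinset (fun e => univ.filter
      (fun τ : Equiv.Perm (Fin m) => ¬ Monotone (fun t : Fin m => r (vert e (τ t)))))
  have hcover : (univ : Finset (Fin Q × Fin Q → Equiv.Perm (Fin m))) ⊆
      (univ : Finset (Fin m × Fin (m * Q) → Fin (m * (m * Q)))).biUnion Bd := by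
    intro F _
    obtain ⟨r, hr⟩ := hcon F
    rw [mem_biUnion]
    refine ⟨r, mem_univ _, ?_⟩
    simp only [Bd, Fintype.mem_piFinset, mem_filter, mem_univ, true_and]
    exact hr
  have hcardBd : ∀ r, (Bd r).card ≤ (m.factorial - 1) ^ (Q * Q) := by
    intro r
    simp only [Bd]
    rw [Fintype.card_piFinset]
    have : ∀ e ∈ (univ : Finset (Fin Q × Fin Q)), (univ.filter
      (fun τ : Equiv.Perm (Fin m) => ¬ Monotone (fun t : Fin m => r (vert e (τ t))))).card
        ≤ m.factorial - 1 := by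
      intro e _
      have hsort : Monotone (fun t : Fin m => r (vert e ((Tuple.sort (fun i => r (vert e i))) t))) :=
        Tuple.monotone_sort (fun i => r (vert e i))
      have hsub : (univ.filter
        (fun τ : Equiv.Perm (Fin m) => ¬ Monotone (fun t : Fin m => r (vert e (τ t)))))
          ⊆ univ.erase (Tuple.sort (fun i => r (vert e i))) := by
        intro τ hτ
        rw [mem_erase]
        refine ⟨?_, mem_univ _⟩
        rintro rfl
        exact (mem_filter.1 hτ).2 hsort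
      refine (card_le_card hsub).trans ?_
      rw [card_erase_of_mem (mem_univ _), card_univ, Fintype.card_perm, Fintype.card_fin]
    refine (prod_le_prod' this).trans ?_
    rw [prod_const, card_univ, Fintype.card_prod, Fintype.card_fin]
  have h1 : m.factorial ^ (Q * Q) ≤ (m * (m * Q)) ^ (m * (m * Q)) * (m.factorial - 1) ^ (Q * Q) := by
    have h2 := (card_le_card hcover).trans card_biUnion_le
    have h3 : (univ : Finset (Fin Q × Fin Q → Equiv.Perm (Fin m))).card = m.factorial ^ (Q * Q) := by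
      rw [card_univ, Fintype.card_fun, Fintype.card_perm, Fintype.card_prod, Fintype.card_fin,
        Fintype.card_fin]
    rw [h3] at h2
    refine h2.trans ?_
    refine (sum_le_card_nsmul _ _ _ (fun r _ => hcardBd r)).trans ?_
    rw [card_univ, Fintype.card_fun, Fintype.card_prod, Fintype.card_fin, Fintype.card_fin,
      Fintype.card_fin, smul_eq_mul]
  -- contradiction with the numerical hypothesis
  have hfac : (0 : ℝ) < (m.factorial : ℝ) := by exact_mod_cast m.factorial_pos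
  have h1' : ((m.factorial : ℝ)) ^ (Q * Q) ≤
      ((m * (m * Q) : ℕ) : ℝ) ^ (m * (m * Q)) * ((m.factorial : ℝ) - 1) ^ (Q * Q) := by
    have : ((m.factorial ^ (Q * Q) : ℕ) : ℝ) ≤
      (((m * (m * Q)) ^ (m * (m * Q)) * (m.factorial - 1) ^ (Q * Q) : ℕ) : ℝ) := by exact_mod_cast h1
    rw [Nat.cast_mul, Nat.cast_pow, Nat.cast_pow, Nat.cast_pow, Nat.cast_sub m.factorial_pos,
      Nat.cast_one] at this
    exact this
  have h4 : (1 - 1 / (m.factorial : ℝ)) = ((m.factorial : ℝ) - 1) / m.factorial := by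
    field_simp
  rw [h4, div_pow, mul_div_assoc', div_lt_one (by positivity)] at hQ
  linarith

theorem exists_Q (m : ℕ) : ∃ Q : ℕ, 0 < Q ∧
    ((m * (m * Q) : ℕ) : ℝ) ^ (m * (m * Q)) * (1 - 1 / (m.factorial : ℝ)) ^ (Q * Q) < 1 := by
  set ρ : ℝ := 1 - 1 / (m.factorial : ℝ) with hρ
  have hfac : (1 : ℝ) ≤ (m.factorial : ℝ) := by exact_mod_cast m.factorial_pos
  have hρ0 : 0 ≤ ρ := by
    rw [hρ, sub_nonneg, div_le_one (by linarith)]; exact hfac
  have hρ1 : ρ < 1 := by
    rw [hρ]; have : 0 < 1 / (m.factorial : ℝ) := by positivity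
    linarith
  have ht : Tendsto (fun n : ℕ => ((n : ℝ) ^ (m * m)) * ρ ^ n) atTop (𝓝 0) :=
    tendsto_pow_const_mul_const_pow_of_abs_lt_one _ (by rwa [abs_of_nonneg hρ0])
  have ht2 : Tendsto (fun n : ℕ => ((m * m : ℝ) ^ (m * m)) * (((n : ℝ) ^ (m * m)) * ρ ^ n)) atTop (𝓝 0) := by
    simpa using ht.const_mul ((m * m : ℝ) ^ (m * m))
  have hev := (ht2.eventually (gt_mem_nhds (show (0 : ℝ) < 1 / 2 by norm_num))).and (eventually_gt_atTop 0)
  obtain ⟨Q, hQ, hQ0⟩ := hev.exists
  refine ⟨Q, hQ0, ?_⟩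
  have hkey : ((m * (m * Q) : ℕ) : ℝ) ^ (m * (m * Q)) * ρ ^ (Q * Q)
      = (((m * m : ℝ) ^ (m * m)) * (((Q : ℝ) ^ (m * m)) * ρ ^ Q)) ^ Q := by
    have e1 : ((m * (m * Q) : ℕ) : ℝ) = ((m : ℝ) * m) * Q := by push_cast; ring
    have e2 : m * (m * Q) = (m * m) * Q := by ring
    rw [e1, e2]
    generalize ((m : ℝ) * m) = a
    generalize (m * m) = b
    rw [mul_pow a (Q : ℝ), pow_mul a, pow_mul (Q : ℝ), pow_mul ρ]
    rw [mul_pow, mul_pow]
    ring
  rw [hkey]
  have hnn : 0 ≤ ((m * m : ℝ) ^ (m * m)) * (((Q : ℝ) ^ (m * m)) * ρ ^ Q) := by positivity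
  exact pow_lt_one₀ hnn (by linarith) (by omega)

/-- code of a vertex as a natural number -/
def code (n i y : ℕ) : ℕ := Nat.pair n (Nat.pair i y)

theorem code_inj {n i y n' i' y' : ℕ} (h : code n i y = code n' i' y') :
    n = n' ∧ i = i' ∧ y = y' := by
  unfold code at h
  have h1 := Nat.pair_eq_pair.1 h
  have h2 := Nat.pair_eq_pair.1 h1.2
  exact ⟨h1.1, h2.1, h2.2⟩

/-- The labelling lemma: for every injective ranking of `ℕ` some line is sorted by its labelling. -/
theorem exists_labelling (m : ℕ) : ∃ (Q : ℕ) (F : Fin Q × Fin Q → Equiv.Perm (Fin m)),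
    ∀ (n : ℕ) (r : ℕ → ℕ), ∃ e : Fin Q × Fin Q,
      Monotone (fun t : Fin m => r (code n (F e t).1 (e.1.1 + e.2.1 * (F e t).1))) := by
  classical
  obtain ⟨Q, hQ0, hQ⟩ := exists_Q m
  obtain ⟨F, hF⟩ := exists_labelling_fin m Q hQ
  refine ⟨Q, F, fun n r => ?_⟩
  -- compressed ranking
  let r0 : Fin m × Fin (m * Q) → ℕ := fun x => r (code n x.1.1 x.2.1)
  have hlt : ∀ x : Fin m × Fin (m * Q),
      (univ.filter (fun y : Fin m × Fin (m * Q) => r0 y < r0 x)).card < m * (m * Q) := by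
    intro x
    have h1 : (univ.filter (fun y : Fin m × Fin (m * Q) => r0 y < r0 x)) ⊂ univ := by
      rw [Finset.ssubset_univ_iff]
      intro h
      have : x ∈ (univ.filter (fun y : Fin m × Fin (m * Q) => r0 y < r0 x)) := by
        rw [h]; exact mem_univ _
      exact lt_irrefl _ (mem_filter.1 this).2
    have h2 := card_lt_card h1
    simpa [card_univ, Fintype.card_prod, Fintype.card_fin] using h2
  obtain ⟨e, he⟩ := hF (fun x => ⟨_, hlt x⟩)
  refine ⟨e, ?_⟩
  intro s t hst
  have h3 := he hst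
  simp only [Fin.mk_le_mk] at h3
  change r0 (vert e (F e s)) ≤ r0 (vert e (F e t))
  by_contra hcon
  push Not at hcon
  have h4 : (univ.filter (fun y : Fin m × Fin (m * Q) => r0 y < r0 (vert e (F e t)))) ⊂
      (univ.filter (fun y : Fin m × Fin (m * Q) => r0 y < r0 (vert e (F e s)))) := by
    rw [Finset.ssubset_iff_of_subset]
    · refine ⟨vert e (F e t), ?_, ?_⟩
      · simp [hcon]
      · simp
    · intro y hy
      simp only [mem_filter, mem_univ, true_and] at hy ⊢
      exact hy.trans hcon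
  have h5 := card_lt_card h4
  omega

end Pool.Agent.H647R3.AG
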