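import Mathlib

set_option autoImplicit false

namespace Pool.Agent.H647R3.AG

open Finset

/-- the conditional functional attached to a structure `S` (a sequence of blocks) -/
noncomputable def L (S : ℕ → Finset ℕ) (l : ℕ) (f : ℕ → ℝ) : ℝ :=
  ∑ k ∈ range l, (1 / 2 : ℝ) ^ k * ∑ j ∈ S k, f j

theorem L_add (S : ℕ → Finset ℕ) (l : ℕ) (f g : ℕ → ℝ) :
    L S l (fun j => f j + g j) = L S l f + L S l g := by
  unfold L
  rw [← sum_add_distrib]
  refine sum_congr rfl fun k _ => ?_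
  rw [sum_add_distrib]; ring

theorem L_smul (S : ℕ → Finset ℕ) (l : ℕ) (c : ℝ) (f : ℕ → ℝ) :
    L S l (fun j => c * f j) = c * L S l f := by
  unfold L
  rw [mul_sum]
  refine sum_congr rfl fun k _ => ?_
  rw [← mul_sum]; ring

theorem geom_le (k0 l : ℕ) : ∑ k ∈ Ico k0 l, (1 / 2 : ℝ) ^ k ≤ 2 * (1 / 2 : ℝ) ^ k0 := by
  by_cases h : k0 ≤ l
  · have : ∀ l, k0 ≤ l → ∑ k ∈ Ico k0 l, (1 / 2 : ℝ) ^ k = 2 * (1 / 2 : ℝ) ^ k0 - 2 * (1 / 2 : ℝ) ^ l := by
      intro l hl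
      induction l, hl using Nat.le_induction with
      | base => simp
      | succ n hn ih =>
        rw [Finset.sum_Ico_succ_top hn, ih, pow_succ]; ring
    rw [this l h]
    have : (0 : ℝ) ≤ 2 * (1 / 2 : ℝ) ^ l := by positivity
    linarith
  · rw [Ico_eq_empty_of_le (by omega)]
    simp

theorem geom2_le (l : ℕ) : ∑ k ∈ range l, (1 / 2 : ℝ) ^ k * (4 : ℝ) ^ k ≤ (2 : ℝ) ^ l := by
  have h1 : ∀ k : ℕ, (1 / 2 : ℝ) ^ k * (4 : ℝ) ^ k = 2 ^ k := by
    intro k; rw [← mul_pow]; norm_num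
  simp_rw [h1]
  have : ∀ l : ℕ, ∑ k ∈ range l, (2 : ℝ) ^ k = 2 ^ l - 1 := by
    intro l
    induction l with
    | zero => simp
    | succ n ih => rw [sum_range_succ, ih, pow_succ]; ring
  rw [this]; linarith

/-- bound on the functional when all entries are small -/
theorem L_small (S : ℕ → Finset ℕ) (hS : ∀ k, (S k).card ≤ 4 ^ k) (h : ℕ → ℝ) (α : ℝ)
    (hα : ∀ j, |h j| ≤ α) (l : ℕ) : |L S l h| ≤ α * 2 ^ l := by
  have hα0 : 0 ≤ α := (abs_nonneg _).trans (hα 0)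
  unfold L
  refine (abs_sum_le_sum_abs _ _).trans ?_
  calc ∑ k ∈ range l, |(1 / 2 : ℝ) ^ k * ∑ j ∈ S k, h j|
      ≤ ∑ k ∈ range l, α * ((1 / 2 : ℝ) ^ k * (4 : ℝ) ^ k) := by
        refine sum_le_sum fun k _ => ?_
        rw [abs_mul, abs_of_nonneg (by positivity : (0 : ℝ) ≤ (1 / 2 : ℝ) ^ k)]
        have h1 : |∑ j ∈ S k, h j| ≤ (4 : ℝ) ^ k * α := by
          refine (abs_sum_le_sum_abs _ _).trans ?_
          refine (sum_le_card_nsmul _ _ α (fun j _ => hα j)).trans ?_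
          rw [nsmul_eq_mul]
          gcongr
          exact_mod_cast hS k
        calc (1 / 2 : ℝ) ^ k * |∑ j ∈ S k, h j| ≤ (1 / 2 : ℝ) ^ k * ((4 : ℝ) ^ k * α) := by gcongr
          _ = α * ((1 / 2 : ℝ) ^ k * (4 : ℝ) ^ k) := by ring
    _ = α * ∑ k ∈ range l, (1 / 2 : ℝ) ^ k * (4 : ℝ) ^ k := by rw [mul_sum]
    _ ≤ α * 2 ^ l := by gcongr; exact geom2_le l

/-- bound on the tail of the functional when the total mass is small -/
theorem tail_small (S : ℕ → Finset ℕ) (f : ℕ → ℝ) (D : Finset ℕ) (c : ℝ) (hc : ∑ j ∈ D, |f j| ≤ c)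
    (k0 l : ℕ) :
    |∑ k ∈ Ico k0 l, (1 / 2 : ℝ) ^ k * ∑ j ∈ S k, (if j ∈ D then f j else 0)|
      ≤ 2 * (1 / 2 : ℝ) ^ k0 * c := by
  have hc0 : 0 ≤ c := (sum_nonneg fun _ _ => abs_nonneg _).trans hc
  refine (abs_sum_le_sum_abs _ _).trans ?_
  calc ∑ k ∈ Ico k0 l, |(1 / 2 : ℝ) ^ k * ∑ j ∈ S k, (if j ∈ D then f j else 0)|
      ≤ ∑ k ∈ Ico k0 l, (1 / 2 : ℝ) ^ k * c := by
        refine sum_le_sum fun k _ => ?_
        rw [abs_mul, abs_of_nonneg (by positivity : (0 : ℝ) ≤ (1 / 2 : ℝ) ^ k)]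
        gcongr
        refine le_trans ?_ hc
        rw [← sum_filter]
        refine (abs_sum_le_sum_abs _ _).trans ?_
        refine sum_le_sum_of_subset_of_nonneg ?_ (fun _ _ _ => abs_nonneg _)
        intro j hj
        exact (mem_filter.1 hj).2
    _ = (∑ k ∈ Ico k0 l, (1 / 2 : ℝ) ^ k) * c := by rw [sum_mul]
    _ ≤ 2 * (1 / 2 : ℝ) ^ k0 * c := by gcongr; exact geom_le k0 l

theorem core (S : ℕ → Finset ℕ) (hS : ∀ k, (S k).card ≤ 4 ^ k) (F : ℕ → ℝ) (A B : Finset ℕ)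
    (M : ℝ) (hM : 0 ≤ M)
    (hgr : ∀ i ∈ A, ∀ j, j ∉ A → |F j| ≤ |F i|) (hcard : B.card ≤ A.card)
    (h2 : ∀ D : Finset ℕ, Disjoint D B → ∑ j ∈ D, F j ^ 2 ≤ M ^ 2)
    (hL : ∀ l, |L S l (fun j => if j ∈ B then 0 else F j)| ≤ M) (l : ℕ) :
    |L S l (fun j => if j ∈ A then 0 else F j)| ≤ 11 * M := by
  by_cases hAB : A \ B = ∅
  · have hsub : A ⊆ B := by rwa [sdiff_eq_empty_iff_subset] at hAB
    have : A = B := eq_of_subset_of_card_le hsub hcard
    subst this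
    exact (hL l).trans (by linarith)
  · have hne : (A \ B).Nonempty := nonempty_iff_ne_empty.2 hAB
    obtain ⟨i0, hi0, hmin⟩ := exists_min_image (A \ B) (fun j => |F j|) hne
    set α := |F i0| with hα
    set a := (A \ B).card with ha
    have ha1 : 1 ≤ a := card_pos.2 hne
    set k0 := Nat.log 4 a with hk0
    have hk0a : 4 ^ k0 ≤ a := Nat.pow_log_le_self 4 (by omega)
    have hk0b : a < 4 ^ (k0 + 1) := Nat.lt_pow_succ_log_self (by norm_num) a
    set t : ℝ := 2 ^ k0 with ht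
    have ht0 : 0 < t := by positivity
    have ht2 : t ^ 2 ≤ (a : ℝ) := by
      have : (4 : ℝ) ^ k0 ≤ (a : ℝ) := by exact_mod_cast hk0a
      calc t ^ 2 = (4 : ℝ) ^ k0 := by rw [ht, ← pow_mul, mul_comm, pow_mul]; norm_num
        _ ≤ a := this
    have ht4 : (a : ℝ) ≤ 4 * t ^ 2 := by
      have : (a : ℝ) ≤ (4 : ℝ) ^ (k0 + 1) := by exact_mod_cast hk0b.le
      calc (a : ℝ) ≤ (4 : ℝ) ^ (k0 + 1) := this
        _ = 4 * t ^ 2 := by rw [ht, ← pow_mul, mul_comm k0 2, pow_mul, pow_succ]; norm_num; ring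
    have hα0 : 0 ≤ α := abs_nonneg _
    have hsmallout : ∀ j, j ∉ A → |F j| ≤ α := fun j hj =>
      hgr i0 (mem_sdiff.1 hi0).1 j hj
    have hsq : ∑ j ∈ A \ B, F j ^ 2 ≤ M ^ 2 := h2 _ sdiff_disjoint
    have hαa : α ^ 2 * a ≤ M ^ 2 := by
      refine le_trans ?_ hsq
      have : (a : ℝ) * α ^ 2 ≤ ∑ j ∈ A \ B, F j ^ 2 := by
        rw [← nsmul_eq_mul]
        refine card_nsmul_le_sum _ _ _ (fun j hj => ?_)
        rw [← sq_abs (F j)]
        exact pow_le_pow_left₀ hα0 (hmin j hj) 2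
      linarith
    have hαt : α * t ≤ M := by
      have : (α * t) ^ 2 ≤ M ^ 2 := by
        calc (α * t) ^ 2 = α ^ 2 * t ^ 2 := by ring
          _ ≤ α ^ 2 * a := by gcongr
          _ ≤ M ^ 2 := hαa
      exact (abs_le_of_sq_le_sq' this hM).2
    -- small head
    set h : ℕ → ℝ := fun j => if j ∈ A then 0 else F j with hh
    have hhsmall : ∀ j, |h j| ≤ α := by
      intro j
      by_cases hj : j ∈ A
      · simp [hh, hj, hα0]
      · simp only [hh, hj, if_false]; exact hsmallout j hj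
    have hhead : ∀ l, l ≤ k0 → |L S l h| ≤ M := by
      intro l hl
      refine (L_small S hS h α hhsmall l).trans ?_
      refine le_trans ?_ hαt
      rw [ht]
      gcongr
      norm_num
    by_cases hlk : l ≤ k0
    · exact (hhead l hlk).trans (by linarith)
    push Not at hlk
    set g : ℕ → ℝ := fun j => if j ∈ B then 0 else F j with hg
    have hdecomp : ∀ j, h j = g j - (if j ∈ A \ B then F j else 0) + (if j ∈ B \ A then F j else 0) := by
      intro j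
      by_cases h1 : j ∈ A <;> by_cases h2 : j ∈ B <;> simp [hh, hg, h1, h2]
    have hsplit : ∀ f : ℕ → ℝ, L S l f = L S k0 f + ∑ k ∈ Ico k0 l, (1 / 2 : ℝ) ^ k * ∑ j ∈ S k, f j := by
      intro f
      unfold L
      rw [Finset.range_eq_Ico, Finset.range_eq_Ico, Finset.sum_Ico_consecutive _ (Nat.zero_le _) hlk.le]
    have htail : ∑ k ∈ Ico k0 l, (1 / 2 : ℝ) ^ k * ∑ j ∈ S k, h j
        = ∑ k ∈ Ico k0 l, (1 / 2 : ℝ) ^ k * ∑ j ∈ S k, g j
          - ∑ k ∈ Ico k0 l, (1 / 2 : ℝ) ^ k * ∑ j ∈ S k, (if j ∈ A \ B then F j else 0)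
          + ∑ k ∈ Ico k0 l, (1 / 2 : ℝ) ^ k * ∑ j ∈ S k, (if j ∈ B \ A then F j else 0) := by
      rw [← sum_sub_distrib, ← sum_add_distrib]
      refine sum_congr rfl fun k _ => ?_
      rw [← mul_sub, ← mul_add, ← sum_sub_distrib, ← sum_add_distrib]
      congr 1
      exact sum_congr rfl fun j _ => hdecomp j
    have hg1 : |∑ k ∈ Ico k0 l, (1 / 2 : ℝ) ^ k * ∑ j ∈ S k, g j| ≤ 2 * M := by
      have : ∑ k ∈ Ico k0 l, (1 / 2 : ℝ) ^ k * ∑ j ∈ S k, g j = L S l g - L S k0 g := by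
        rw [hsplit g]; ring
      rw [this]
      refine (abs_sub _ _).trans ?_
      linarith [hL l, hL k0]
    have hinv : (1 / 2 : ℝ) ^ k0 * t = 1 := by
      rw [ht, ← mul_pow]; norm_num
    have hsumA : ∑ j ∈ A \ B, |F j| ≤ 2 * t * M := by
      have hcs : (∑ j ∈ A \ B, |F j|) ^ 2 ≤ a * ∑ j ∈ A \ B, |F j| ^ 2 :=
        sq_sum_le_card_mul_sum_sq
      have : (∑ j ∈ A \ B, |F j|) ^ 2 ≤ (2 * t * M) ^ 2 := by
        calc (∑ j ∈ A \ B, |F j|) ^ 2 ≤ a * ∑ j ∈ A \ B, |F j| ^ 2 := hcs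
          _ ≤ (4 * t ^ 2) * M ^ 2 := by
            simp_rw [sq_abs]
            gcongr
          _ = (2 * t * M) ^ 2 := by ring
      exact (abs_le_of_sq_le_sq' this (by positivity)).2
    have hg2 : |∑ k ∈ Ico k0 l, (1 / 2 : ℝ) ^ k * ∑ j ∈ S k, (if j ∈ A \ B then F j else 0)| ≤ 4 * M := by
      refine (tail_small S F (A \ B) (2 * t * M) hsumA k0 l).trans (le_of_eq ?_)
      calc 2 * (1 / 2 : ℝ) ^ k0 * (2 * t * M) = 4 * ((1 / 2 : ℝ) ^ k0 * t) * M := by ring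
        _ = 4 * M := by rw [hinv]; ring
    have hcardBA : (B \ A).card ≤ a := by
      have h3 : (B \ A).card + (A ∩ B).card = B.card := by
        rw [Finset.inter_comm, add_comm]; exact Finset.card_inter_add_card_sdiff B A
      have h4 : (A \ B).card + (A ∩ B).card = A.card := by
        rw [add_comm]; exact Finset.card_inter_add_card_sdiff A B
      omega
    have hsumB : ∑ j ∈ B \ A, |F j| ≤ 2 * t * M := by
      have h5 : ∑ j ∈ B \ A, |F j| ≤ a * α := by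
        refine (sum_le_card_nsmul _ _ α (fun j hj => hsmallout j (mem_sdiff.1 hj).2)).trans ?_
        rw [nsmul_eq_mul]
        gcongr
      have h6 : (a * α) ^ 2 ≤ (2 * t * M) ^ 2 := by
        calc (a * α) ^ 2 = (a : ℝ) * (α ^ 2 * a) := by ring
          _ ≤ (4 * t ^ 2) * M ^ 2 := by gcongr
          _ = (2 * t * M) ^ 2 := by ring
      exact h5.trans (abs_le_of_sq_le_sq' h6 (by positivity)).2
    have hg3 : |∑ k ∈ Ico k0 l, (1 / 2 : ℝ) ^ k * ∑ j ∈ S k, (if j ∈ B \ A then F j else 0)| ≤ 4 * M := by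
      refine (tail_small S F (B \ A) (2 * t * M) hsumB k0 l).trans (le_of_eq ?_)
      calc 2 * (1 / 2 : ℝ) ^ k0 * (2 * t * M) = 4 * ((1 / 2 : ℝ) ^ k0 * t) * M := by ring
        _ = 4 * M := by rw [hinv]; ring
    rw [hsplit h, htail]
    have h7 := hhead k0 le_rfl
    rw [abs_le] at *
    constructor <;> linarith [h7.1, h7.2, hg1.1, hg1.2, hg2.1, hg2.2, hg3.1, hg3.2]

end Pool.Agent.H647R3.AG
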