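import Pool.Agent.H647R3.AGNeg

set_option autoImplicit false

namespace Pool.Agent.H647R3.AG

open Finset Filter Topology
open scoped ENNReal

theorem norm_e_le (j : ℕ) : ‖e j‖ ≤ 2 := by
  rw [norm_le_iff _ (by norm_num)]
  constructor
  · change ‖(lp.single (E := fun _ : ℕ => ℝ) 2 j (1 : ℝ) : H2)‖ ≤ 2
    rw [lp.norm_single (by norm_num)]
    norm_num
  · intro s l
    have : (fun i => e' i (e j)) = dl j := by
      funext i
      rw [biorth]; rfl
    rw [this]
    exact L_dl_bound s l j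

theorem abs_e'_le (j : ℕ) (x : X) : |e' j x| ≤ ‖x‖ := by
  have h1 := ((norm_le_iff x (norm_nonneg _)).1 le_rfl).1
  refine le_trans ?_ h1
  rw [← coord_fst, ← Real.norm_eq_abs]
  exact lp.norm_apply_le_norm (by norm_num) _ _

theorem one_le_norm_e (j : ℕ) : 1 ≤ ‖e j‖ := by
  have h := abs_e'_le j (e j)
  rw [biorth, if_pos rfl, abs_one] at h
  exact h

theorem quasi_greedy (x : X) (A : Finset ℕ) (hA : ∀ i ∈ A, ∀ j, j ∉ A → |e' j x| ≤ |e' i x|) :
    ‖∑ i ∈ A, e' i x • e i‖ ≤ 12 * ‖x‖ := by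
  have h := almost_greedy x A ∅ (fun i hi j hj => by
    rw [Real.norm_eq_abs, Real.norm_eq_abs]; exact hA i hi j hj) (by simp)
  simp only [sum_empty, sub_zero] at h
  have h2 : ∑ i ∈ A, e' i x • e i = x - (x - ∑ i ∈ A, e' i x • e i) := by abel
  rw [h2]
  refine (norm_sub_le _ _).trans ?_
  linarith

end Pool.Agent.H647R3.AG
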