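import Pool.Agent.H647R3.AGSpace

set_option autoImplicit false

namespace Pool.Agent.H647R3.AG

open Finset Filter Topology
open scoped ENNReal

/-- test coefficients adapted to the structure `s` -/
noncomputable def fs (s : Idx) (j : ℕ) : ℝ :=
  ∑ k ∈ range s.1, if j ∈ S s k then (-1 : ℝ) ^ k * (1 / 2 : ℝ) ^ k else 0

noncomputable def J (s : Idx) : Finset ℕ := (range s.1).biUnion (S s)

theorem fs_mem {s : Idx} {k j : ℕ} (hj : j ∈ S s k) : fs s j = (-1 : ℝ) ^ k * (1 / 2 : ℝ) ^ k := by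
  unfold fs
  have hk : k < s.1 := (mem_S.1 hj).1
  rw [sum_eq_single k]
  · rw [if_pos hj]
  · intro b _ hb
    rw [if_neg]
    intro hjb
    exact disjoint_left.1 (S_disj hb) hjb hj
  · intro h; exact absurd (mem_range.2 hk) h

theorem fs_not_mem {s : Idx} {j : ℕ} (hj : j ∉ J s) : fs s j = 0 := by
  unfold fs
  refine sum_eq_zero fun k hk => ?_
  rw [if_neg]
  intro h
  exact hj (mem_biUnion.2 ⟨k, hk, h⟩)

theorem mem_J {s : Idx} {j : ℕ} : j ∈ J s ↔ ∃ k, j ∈ S s k := by
  unfold J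
  rw [mem_biUnion]
  constructor
  · rintro ⟨k, _, h⟩; exact ⟨k, h⟩
  · rintro ⟨k, h⟩; exact ⟨k, mem_range.2 (mem_S.1 h).1, h⟩

theorem abs_fs_le (s : Idx) (j : ℕ) : |fs s j| ≤ 1 := by
  by_cases h : j ∈ J s
  · obtain ⟨k, hk⟩ := mem_J.1 h
    rw [fs_mem hk, abs_mul, abs_pow, abs_neg, abs_one, one_pow, one_mul,
      abs_of_nonneg (by positivity)]
    exact pow_le_one₀ (by norm_num) (by norm_num)
  · rw [fs_not_mem h]; simp

/-- the test vector -/
noncomputable def tv (s : Idx) : X := ∑ j ∈ J s, fs s j • e j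

theorem e'_tv (s : Idx) (j : ℕ) : e' j (tv s) = fs s j := by
  unfold tv
  rw [map_sum]
  simp_rw [map_smul, biorth, smul_eq_mul, mul_ite, mul_one, mul_zero]
  rw [sum_ite_eq]
  split_ifs with h
  · rfl
  · exact (fs_not_mem h).symm

theorem fst_tv (s : Idx) : ‖((tv s : X) : H2 × HI).1‖ ^ 2 = s.1 := by
  unfold tv
  rw [fst_sum]
  have h := lp.norm_sum_single (E := fun _ : ℕ => ℝ) (p := 2) (by norm_num) (fs s) (J s)
  simp only [ENNReal.toReal_ofNat, Real.rpow_ofNat] at h
  rw [h]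
  unfold J
  rw [sum_biUnion]
  · have : ∀ k ∈ range s.1, ∑ j ∈ S s k, ‖fs s j‖ ^ 2 = 1 := by
      intro k hk
      have h1 : ∀ j ∈ S s k, ‖fs s j‖ ^ 2 = (1 / 4 : ℝ) ^ k := by
        intro j hj
        rw [fs_mem hj, norm_mul, norm_pow, norm_neg, norm_one, one_pow, one_mul, norm_pow,
          ← pow_mul, mul_comm, pow_mul]
        norm_num
      rw [sum_congr rfl h1, sum_const, S_card_eq (mem_range.1 hk), nsmul_eq_mul]
      push_cast
      rw [← mul_pow]; norm_num
    rw [sum_congr rfl this]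
    simp
  · intro a _ b _ hab
    exact S_disj hab

/-- value of the own functional, restricted to a set of labels -/
theorem L_own (s : Idx) (l : ℕ) (g : ℕ → ℝ) (c : ℕ → ℝ)
    (hg : ∀ k, ∀ j ∈ S s k, g j = c k * ((-1 : ℝ) ^ k * (1 / 2 : ℝ) ^ k)) :
    L (S s) l g = ∑ k ∈ range l, if k < s.1 then c k * (-1 : ℝ) ^ k else 0 := by
  unfold L
  refine sum_congr rfl fun k _ => ?_
  split_ifs with h
  · rw [sum_congr rfl (hg k), sum_const, S_card_eq h, nsmul_eq_mul]
    push_cast
    have : (1 / 2 : ℝ) ^ k * ((4 : ℝ) ^ k * (c k * ((-1) ^ k * (1 / 2) ^ k)))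
      = ((1 / 2 : ℝ) ^ k * (4 : ℝ) ^ k * (1 / 2) ^ k) * (c k * (-1) ^ k) := by ring
    rw [this, ← mul_pow, ← mul_pow]
    norm_num
  · rw [S_empty (by omega)]; simp

theorem L_tv_own (s : Idx) (l : ℕ) : |L (S s) l (fs s)| ≤ 2 := by
  rw [L_own s l (fs s) (fun _ => 1) (fun k j hj => by rw [fs_mem hj, one_mul])]
  have h1 : ∑ k ∈ range l, (if k < s.1 then 1 * (-1 : ℝ) ^ k else 0)
      = ∑ k ∈ range (min l s.1), (-1 : ℝ) ^ k := by
    rw [← sum_filter]
    have : (range l).filter (fun k => k < s.1) = range (min l s.1) := by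
      ext k; simp [lt_min_iff]
    rw [this]
    simp
  rw [h1, neg_one_geom_sum]
  split_ifs <;> norm_num

theorem L_tv_other {s s' : Idx} (hs : s ≠ s') (l : ℕ) : |L (S s') l (fs s)| ≤ 2 := by
  unfold L
  refine (abs_sum_le_sum_abs _ _).trans ?_
  calc ∑ k ∈ range l, |(1 / 2 : ℝ) ^ k * ∑ i ∈ S s' k, fs s i|
      ≤ ∑ k ∈ range l, (1 / 2 : ℝ) ^ k := by
        refine sum_le_sum fun k _ => ?_
        rw [abs_mul, abs_of_nonneg (by positivity : (0 : ℝ) ≤ (1 / 2 : ℝ) ^ k)]
        have : |∑ i ∈ S s' k, fs s i| ≤ 1 := by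
          by_cases hne : ∃ i ∈ S s' k, i ∈ J s
          · obtain ⟨i, hi, hiJ⟩ := hne
            obtain ⟨q, hq⟩ := mem_J.1 hiJ
            rw [sum_eq_single_of_mem i hi]
            · exact abs_fs_le s i
            · intro b hb hbi
              by_contra hb0
              have hbJ : b ∈ J s := by
                by_contra hcon
                exact hb0 (fs_not_mem hcon)
              obtain ⟨q', hq'⟩ := mem_J.1 hbJ
              exact hbi (S_lin hs hq hi hq' hb)
          · push Not at hne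
            rw [sum_eq_zero (fun i hi => fs_not_mem (hne i hi))]
            simp
        calc (1 / 2 : ℝ) ^ k * |∑ i ∈ S s' k, fs s i| ≤ (1 / 2 : ℝ) ^ k * 1 := by gcongr
          _ = _ := mul_one _
    _ ≤ 2 := by
      have := geom_le 0 l
      rw [← Finset.range_eq_Ico] at this
      simpa using this

theorem norm_tv_le (s : Idx) (hs : 4 ≤ s.1) : ‖tv s‖ ≤ Real.sqrt s.1 := by
  rw [norm_le_iff _ (Real.sqrt_nonneg _)]
  have h2 : (2 : ℝ) ≤ Real.sqrt s.1 := by
    rw [show (2 : ℝ) = Real.sqrt 4 by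
      rw [show (4 : ℝ) = 2 ^ 2 by norm_num, Real.sqrt_sq (by norm_num)]]
    exact Real.sqrt_le_sqrt (by exact_mod_cast hs)
  constructor
  · rw [← fst_tv s, Real.sqrt_sq (norm_nonneg _)]
  · intro s' l
    rw [show (fun j => e' j (tv s)) = fs s from funext (e'_tv s)]
    refine le_trans ?_ h2
    by_cases h : s = s'
    · subst h; exact L_tv_own s l
    · exact L_tv_other h l

theorem count_even (n : ℕ) : (n : ℝ) / 2 ≤ ∑ k ∈ range n, (if Even k then (1 : ℝ) else 0) := by
  induction n using Nat.strong_induction_on with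
  | _ n ih =>
    match n with
    | 0 => simp
    | 1 => rw [sum_range_one]; norm_num
    | (m + 2) =>
      rw [sum_range_succ, sum_range_succ]
      have h := ih m (by omega)
      have h3 : (if Even m then (1 : ℝ) else 0) + (if Even (m + 1) then (1 : ℝ) else 0) = 1 := by
        by_cases hm : Even m
        · have : ¬ Even (m + 1) := by
            rw [Nat.even_add_one]; simpa using hm
          simp [hm, this]
        · have : Even (m + 1) := by
            rw [Nat.even_add_one]; exact hm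
          simp [hm, this]
      push_cast
      linarith

/-- partial sum projections along a permutation -/
noncomputable def Tn (π : ℕ → ℕ) (n : ℕ) : X →L[ℝ] X :=
  ∑ k ∈ range n, (e' (π k)).smulRight (e (π k))

theorem Tn_apply (π : ℕ → ℕ) (n : ℕ) (x : X) : Tn π n x = ∑ k ∈ range n, e' (π k) x • e (π k) := by
  unfold Tn
  rw [_root_.sum_apply]
  rfl

theorem e'_Tn (π : Equiv.Perm ℕ) (n : ℕ) (x : X) (j : ℕ) :
    e' j (Tn π n x) = if π.symm j < n then e' j x else 0 := by
  rw [Tn_apply, map_sum]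
  simp_rw [map_smul, biorth, smul_eq_mul, mul_ite, mul_one, mul_zero]
  split_ifs with h
  · rw [sum_eq_single_of_mem (π.symm j) (mem_range.2 h)]
    · simp
    · intro b _ hb
      rw [if_neg]
      rintro rfl
      exact hb (by simp)
  · refine sum_eq_zero fun k hk => ?_
    rw [if_neg]
    rintro rfl
    apply h
    simpa using hk

theorem not_bounded (π : Equiv.Perm ℕ) (C : ℝ) : ¬ ∀ (n : ℕ) (x : X), ‖Tn π n x‖ ≤ C * ‖x‖ := by
  intro hC
  obtain ⟨m, hm⟩ := exists_nat_gt (4 * C ^ 2)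
  set n := m + 4 with hn
  obtain ⟨s, N, hsn, hord⟩ := S_order n (by omega) (fun j => π.symm j) π.symm.injective
  have h1 := hC N (tv s)
  have hC0 : 0 ≤ C := by
    have h2 : 0 ≤ C * ‖e 0‖ := (norm_nonneg _).trans (hC 0 (e 0))
    have h3 : 0 < ‖e 0‖ := by
      rw [norm_pos_iff]
      intro h0
      have := biorth 0 0
      rw [h0, map_zero] at this
      simp at this
    by_contra hneg
    push Not at hneg
    nlinarith
  have h4 : (n : ℝ) / 2 ≤ ‖Tn π N (tv s)‖ := by
    obtain ⟨-, h5⟩ := (norm_le_iff (Tn π N (tv s)) (norm_nonneg _)).1 le_rfl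
    have h6 := h5 s n
    have h7 : L (S s) n (fun j => e' j (Tn π N (tv s)))
        = ∑ k ∈ range n, if k < s.1 then (if Even k then (1 : ℝ) else 0) * (-1 : ℝ) ^ k else 0 := by
      apply L_own
      intro k j hj
      rw [e'_Tn, e'_tv, fs_mem hj]
      have h8 := hord k j hj
      by_cases hev : Even k
      · rw [if_pos (h8.2 hev), if_pos hev, one_mul]
      · rw [if_neg (fun h => hev (h8.1 h)), if_neg hev, zero_mul]
    rw [h7] at h6
    have h9 : ∑ k ∈ range n, (if k < s.1 then (if Even k then (1 : ℝ) else 0) * (-1 : ℝ) ^ k else 0)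
        = ∑ k ∈ range n, (if Even k then (1 : ℝ) else 0) := by
      refine sum_congr rfl fun k hk => ?_
      rw [if_pos (by rw [hsn]; exact mem_range.1 hk)]
      by_cases hev : Even k
      · rw [if_pos hev, Even.neg_one_pow hev]; norm_num
      · rw [if_neg hev]; norm_num
    rw [h9] at h6
    exact (count_even n).trans ((le_abs_self _).trans h6)
  have h10 : ‖tv s‖ ≤ Real.sqrt n := by
    have := norm_tv_le s (by rw [hsn]; omega)
    rwa [hsn] at this
  have h11 : (n : ℝ) / 2 ≤ C * Real.sqrt n := by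
    calc (n : ℝ) / 2 ≤ ‖Tn π N (tv s)‖ := h4
      _ ≤ C * ‖tv s‖ := h1
      _ ≤ C * Real.sqrt n := by gcongr
  have hnpos : (0 : ℝ) < n := by rw [hn]; positivity
  have hsq : Real.sqrt n * Real.sqrt n = n := Real.mul_self_sqrt hnpos.le
  have hspos : 0 < Real.sqrt n := Real.sqrt_pos.2 hnpos
  have h12 : Real.sqrt n ≤ 2 * C := by
    have : Real.sqrt n * Real.sqrt n ≤ (2 * C) * Real.sqrt n := by rw [hsq]; linarith
    exact le_of_mul_le_mul_right this hspos
  have h13 : (n : ℝ) ≤ 4 * C ^ 2 := by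
    calc (n : ℝ) = Real.sqrt n * Real.sqrt n := hsq.symm
      _ ≤ (2 * C) * (2 * C) := by gcongr
      _ = 4 * C ^ 2 := by ring
  have h14 : (m : ℝ) ≤ n := by rw [hn]; push_cast; linarith
  linarith

/-- no reordering is a Schauder basis -/
theorem no_order (π : Equiv.Perm ℕ) :
    ¬ ∀ x : X, Tendsto (fun n : ℕ => ∑ k ∈ Finset.range n, e' (π k) x • e (π k)) atTop (𝓝 x) := by
  intro h
  have hb : ∀ x : X, ∃ C, ∀ n : ℕ, ‖Tn π n x‖ ≤ C := by
    intro x
    have h1 : Tendsto (fun n : ℕ => ‖Tn π n x‖) atTop (𝓝 ‖x‖) := by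
      have : (fun n : ℕ => Tn π n x) = fun n : ℕ => ∑ k ∈ Finset.range n, e' (π k) x • e (π k) :=
        funext fun n => Tn_apply π n x
      exact (this ▸ h x).norm
    obtain ⟨C, hC⟩ := h1.bddAbove_range
    exact ⟨C, fun n => hC ⟨n, rfl⟩⟩
  obtain ⟨C, hC⟩ := banach_steinhaus hb
  exact not_bounded π C (fun n x => (ContinuousLinearMap.le_opNorm _ _).trans (by gcongr; exact hC n))

end Pool.Agent.H647R3.AG
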