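import Pool.Agent.H647R3.AGMore

set_option autoImplicit false

namespace Pool.Agent.H647R3.AG

open Finset Filter Topology
open scoped ENNReal

/-- A positive null sequence can be listed in decreasing order. -/
theorem exists_perm_antitone (κ : ℕ → ℝ) (hpos : ∀ j, 0 < κ j) (hlim : Tendsto κ atTop (𝓝 0)) :
    ∃ σ : Equiv.Perm ℕ, ∀ i j, i ≤ j → κ (σ j) ≤ κ (σ i) := by
  classical
  let r : ℕ → ℕ → Prop := fun i j => κ j < κ i ∨ (κ i = κ j ∧ i < j)
  have hfin : ∀ j, {i | r i j}.Finite := by
    intro j
    have h1 : ∀ᶠ i in atTop, κ i < κ j := hlim.eventually (gt_mem_nhds (hpos j))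
    obtain ⟨N, hN⟩ := eventually_atTop.1 h1
    refine (Set.finite_lt_nat N).subset ?_
    intro i hi
    by_contra hcon
    simp only [Set.mem_ofPred_eq, not_lt] at hcon
    have := hN i hcon
    rcases hi with h | h
    · linarith
    · linarith [h.1]
  have htrans : ∀ i j k, r i j → r j k → r i k := by
    intro i j k hij hjk
    rcases hij with h | h <;> rcases hjk with h' | h'
    · left; linarith
    · left; linarith [h'.1]
    · left; linarith [h.1]
    · right; exact ⟨h.1.trans h'.1, h.2.trans h'.2⟩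
  have hirr : ∀ i, ¬ r i i := by
    intro i h
    rcases h with h | h
    · exact lt_irrefl _ h
    · exact lt_irrefl _ h.2
  have htri : ∀ i j, i ≠ j → r i j ∨ r j i := by
    intro i j hij
    rcases lt_trichotomy (κ i) (κ j) with h | h | h
    · right; left; exact h
    · rcases lt_or_gt_of_ne hij with h' | h'
      · left; right; exact ⟨h, h'⟩
      · right; right; exact ⟨h.symm, h'⟩
    · left; left; exact h
  let ρ : ℕ → ℕ := fun j => (hfin j).toFinset.card
  have hmono : ∀ i j, r i j → ρ i < ρ j := by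
    intro i j hij
    apply card_lt_card
    rw [Finset.ssubset_iff_of_subset]
    · refine ⟨i, ?_, ?_⟩
      · simpa using hij
      · simpa using hirr i
    · intro k hk
      simp only [Set.Finite.mem_toFinset, Set.mem_ofPred_eq] at hk ⊢
      exact htrans k i j hk hij
  have hinj : Function.Injective ρ := by
    intro i j hij
    by_contra hne
    rcases htri i j hne with h | h
    · have := hmono i j h; omega
    · have := hmono j i h; omega
  have hsurj : Function.Surjective ρ := by
    intro n
    -- find `j` with `ρ j > n`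
    have hunb : ∃ j, n < ρ j := by
      by_contra hcon
      push Not at hcon
      have : Set.Finite (Set.range ρ) := (Set.finite_le_nat n).subset (by
        rintro _ ⟨j, rfl⟩; exact hcon j)
      exact Set.infinite_range_of_injective hinj this
    obtain ⟨j, hj⟩ := hunb
    have himg : ((hfin j).toFinset).image ρ = range (ρ j) := by
      apply eq_of_subset_of_card_le
      · intro m hm
        obtain ⟨i, hi, rfl⟩ := mem_image.1 hm
        simp only [Set.Finite.mem_toFinset, Set.mem_ofPred_eq] at hi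
        exact mem_range.2 (hmono i j hi)
      · rw [card_range, card_image_of_injective _ hinj]
    have : n ∈ ((hfin j).toFinset).image ρ := by
      rw [himg]; exact mem_range.2 hj
    obtain ⟨i, _, hi⟩ := mem_image.1 this
    exact ⟨i, hi⟩
  let σ : Equiv.Perm ℕ := (Equiv.ofBijective ρ ⟨hinj, hsurj⟩).symm
  have hσ : ∀ i, ρ (σ i) = i := fun i => (Equiv.ofBijective ρ ⟨hinj, hsurj⟩).apply_symm_apply i
  refine ⟨σ, fun i j hij => ?_⟩
  by_contra hcon
  push Not at hcon
  have h1 : r (σ j) (σ i) := Or.inl hcon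
  have h2 := hmono _ _ h1
  rw [hσ, hσ] at h2
  omega

/-- coefficients tend to zero -/
theorem coef_tendsto (x : X) : Tendsto (fun j => e' j x) atTop (𝓝 0) := by
  have h := lp.hasSum_norm (p := 2) (by norm_num) (x : H2 × HI).1
  have h2 := h.summable.tendsto_atTop_zero
  simp only [ENNReal.toReal_ofNat, Real.rpow_ofNat] at h2
  have h3 : Tendsto (fun j => |e' j x|) atTop (𝓝 0) := by
    have h4 := (Real.continuous_sqrt.tendsto 0).comp h2
    rw [Real.sqrt_zero] at h4
    refine h4.congr (fun j => ?_)
    simp only [Function.comp]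
    rw [Real.sqrt_sq (norm_nonneg _)]
    rfl
  exact (tendsto_zero_iff_abs_tendsto_zero _).2 h3

/-- projection onto a greedy-type set is close to the vector -/
theorem greedy_close (x y : X) (F A : Finset ℕ) (t ε : ℝ) (hyF : ∀ j, j ∉ F → e' j y = 0)
    (hxy : ‖x - y‖ ≤ ε) (hFA : F ⊆ A)
    (hA : ∀ i ∈ A, e' i x ≠ 0 → t ≤ |e' i x|) (hout : ∀ j, j ∉ A → |e' j x| ≤ t) (ht : 0 < t) :
    ‖x - ∑ i ∈ A, e' i x • e i‖ ≤ 13 * ε + 2 * t * F.card := by
  set w := x - y with hw
  have hy : y = ∑ i ∈ A, e' i y • e i := by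
    have h1 : y - ∑ i ∈ A, e' i y • e i = 0 := by
      apply total
      intro j
      rw [e'_compl]
      split_ifs with h
      · rfl
      · exact hyF j (fun hj => h (hFA hj))
    exact sub_eq_zero.1 h1
  have hPx : x - ∑ i ∈ A, e' i x • e i = w - ∑ i ∈ A, e' i w • e i := by
    have h2 : ∑ i ∈ A, e' i w • e i = ∑ i ∈ A, e' i x • e i - ∑ i ∈ A, e' i y • e i := by
      rw [← sum_sub_distrib]
      refine sum_congr rfl fun i _ => ?_
      have h9 : e' i w = e' i x - e' i y := by rw [hw, map_sub]
      rw [h9]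
      module
    rw [h2, ← hy, hw]; abel
  rw [hPx]
  -- the greedy set of `w`
  let G : Finset ℕ := A.filter (fun i => t ≤ |e' i w|)
  have hwoff : ∀ j, j ∉ F → e' j w = e' j x := by
    intro j hj
    rw [hw, map_sub, hyF j hj, sub_zero]
  have hG : ∀ i ∈ G, ∀ j, j ∉ G → |e' j w| ≤ |e' i w| := by
    intro i hi j hj
    have h1 : t ≤ |e' i w| := (mem_filter.1 hi).2
    refine le_trans ?_ h1
    by_cases hjA : j ∈ A
    · by_contra hcon
      push Not at hcon
      exact hj (mem_filter.2 ⟨hjA, hcon.le⟩)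
    · rw [hwoff j (fun h => hjA (hFA h))]
      exact hout j hjA
  have h3 := quasi_greedy w G hG
  have h4 : ∑ i ∈ A, e' i w • e i = ∑ i ∈ G, e' i w • e i + ∑ i ∈ A.filter (fun i => ¬ t ≤ |e' i w|), e' i w • e i := by
    exact (sum_filter_add_sum_filter_not A _ _).symm
  have h5 : ‖∑ i ∈ A.filter (fun i => ¬ t ≤ |e' i w|), e' i w • e i‖ ≤ 2 * t * F.card := by
    have h6 : ∑ i ∈ A.filter (fun i => ¬ t ≤ |e' i w|), e' i w • e i
        = ∑ i ∈ F.filter (fun i => ¬ t ≤ |e' i w|), e' i w • e i := by
      symm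
      apply sum_subset
      · intro i hi
        rw [mem_filter] at hi ⊢
        exact ⟨hFA hi.1, hi.2⟩
      · intro i hi hiF
        rw [mem_filter] at hi
        have hiF' : i ∉ F := fun h => hiF (mem_filter.2 ⟨h, hi.2⟩)
        have h7 : e' i w = 0 := by
          by_contra hne
          rw [hwoff i hiF'] at hne hi
          exact hi.2 (hA i hi.1 hne)
        rw [h7, zero_smul]
    rw [h6]
    refine (norm_sum_le _ _).trans ?_
    calc ∑ i ∈ F.filter (fun i => ¬ t ≤ |e' i w|), ‖e' i w • e i‖
        ≤ ∑ i ∈ F.filter (fun i => ¬ t ≤ |e' i w|), t * 2 := by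
          refine sum_le_sum fun i hi => ?_
          rw [norm_smul, Real.norm_eq_abs]
          have h8 := (mem_filter.1 hi).2
          push Not at h8
          gcongr
          exact norm_e_le i
      _ = (F.filter (fun i => ¬ t ≤ |e' i w|)).card * (t * 2) := by
          rw [sum_const, nsmul_eq_mul]
      _ ≤ F.card * (t * 2) := by
          gcongr
          exact filter_subset _ _
      _ = 2 * t * F.card := by ring
  calc ‖w - ∑ i ∈ A, e' i w • e i‖
      = ‖(w - ∑ i ∈ G, e' i w • e i) - ∑ i ∈ A.filter (fun i => ¬ t ≤ |e' i w|), e' i w • e i‖ := by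
        rw [h4]; congr 1; abel
    _ ≤ ‖w - ∑ i ∈ G, e' i w • e i‖ + ‖∑ i ∈ A.filter (fun i => ¬ t ≤ |e' i w|), e' i w • e i‖ := norm_sub_le _ _
    _ ≤ (‖w‖ + ‖∑ i ∈ G, e' i w • e i‖) + 2 * t * F.card := by
        gcongr
        exact norm_sub_le _ _
    _ ≤ 13 * ε + 2 * t * F.card := by
        have : ‖w‖ ≤ ε := hxy
        linarith

/-- every element of the span has finitely many nonzero coefficients -/
theorem span_finite (y : X) (hy : y ∈ Submodule.span ℝ (Set.range e)) :
    ∃ F : Finset ℕ, ∀ j, j ∉ F → e' j y = 0 := by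
  classical
  induction hy using Submodule.span_induction with
  | mem x hx =>
    obtain ⟨i, rfl⟩ := hx
    refine ⟨{i}, fun j hj => ?_⟩
    rw [biorth, if_neg]
    rintro rfl
    exact hj (mem_singleton_self _)
  | zero => exact ⟨∅, fun j _ => map_zero _⟩
  | add x y _ _ hx hy =>
    obtain ⟨F, hF⟩ := hx
    obtain ⟨G, hG⟩ := hy
    refine ⟨F ∪ G, fun j hj => ?_⟩
    rw [mem_union, not_or] at hj
    rw [map_add, hF j hj.1, hG j hj.2, add_zero]
  | smul a x _ hx =>
    obtain ⟨F, hF⟩ := hx
    exact ⟨F, fun j hj => by rw [map_smul, hF j hj, smul_zero]⟩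

/-- Every vector is the sum of its expansion in a suitable order. -/
theorem exists_order (x : X) : ∃ σ : Equiv.Perm ℕ,
    Tendsto (fun n : ℕ => ∑ k ∈ range n, e' (σ k) x • e (σ k)) atTop (𝓝 x) := by
  classical
  by_cases hfin : {j | e' j x ≠ 0}.Finite
  · -- finitely supported vector: any order works
    refine ⟨Equiv.refl ℕ, ?_⟩
    obtain ⟨N, hN⟩ := hfin.bddAbove
    have hx : ∀ n, N < n → ∑ k ∈ range n, e' k x • e k = x := by
      intro n hn
      have h1 : x - ∑ i ∈ range n, e' i x • e i = 0 := by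
        apply total
        intro j
        rw [e'_compl]
        split_ifs with h
        · rfl
        · by_contra hne
          have := hN hne
          rw [mem_range] at h
          omega
      exact (sub_eq_zero.1 h1).symm
    refine tendsto_atTop_of_eventually_const (i₀ := N + 1) (fun n hn => ?_)
    exact hx n (by omega)
  · have hinf : {j | e' j x ≠ 0}.Infinite := hfin
    let κ : ℕ → ℝ := fun j => if e' j x = 0 then (1 / 2 : ℝ) ^ j else |e' j x|
    have hpos : ∀ j, 0 < κ j := by
      intro j
      simp only [κ]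
      split_ifs with h
      · positivity
      · exact abs_pos.2 h
    have hlim : Tendsto κ atTop (𝓝 0) := by
      have h1 : Tendsto (fun j : ℕ => (1 / 2 : ℝ) ^ j + |e' j x|) atTop (𝓝 0) := by
        have h2 := (tendsto_pow_atTop_nhds_zero_of_lt_one (r := (1 / 2 : ℝ)) (by norm_num) (by norm_num)).add
          ((tendsto_zero_iff_abs_tendsto_zero _).1 (coef_tendsto x))
        simpa using h2
      refine squeeze_zero (fun j => (hpos j).le) (fun j => ?_) h1
      simp only [κ]
      split_ifs with h
      · linarith [abs_nonneg (e' j x)]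
      · have : (0 : ℝ) ≤ (1 / 2 : ℝ) ^ j := by positivity
        linarith
    obtain ⟨σ, hσ⟩ := exists_perm_antitone κ hpos hlim
    refine ⟨σ, ?_⟩
    rw [Metric.tendsto_atTop]
    intro ε hε
    obtain ⟨y, hy, hxy⟩ := Metric.mem_closure_iff.1 (dense_span x) (ε / 28) (by positivity)
    rw [dist_eq_norm] at hxy
    obtain ⟨F, hF⟩ := span_finite y hy
    -- small threshold
    set δ : ℝ := ε / (4 * (F.card + 1)) with hδ
    have hδ0 : 0 < δ := by positivity
    obtain ⟨i0, hi0, hi0'⟩ : ∃ i, e' i x ≠ 0 ∧ |e' i x| < δ := by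
      have h1 : ∀ᶠ j in atTop, |e' j x| < δ :=
        ((tendsto_zero_iff_abs_tendsto_zero _).1 (coef_tendsto x)).eventually (gt_mem_nhds hδ0)
      obtain ⟨N, hN⟩ := eventually_atTop.1 h1
      obtain ⟨i, hi, hNi⟩ := hinf.exists_gt N
      exact ⟨i, hi, hN i hNi.le⟩
    -- large initial segment
    obtain ⟨N0, hN0⟩ : ∃ N0, ∀ j ∈ insert i0 F, σ.symm j < N0 := by
      refine ⟨((insert i0 F).sup (fun j => σ.symm j)) + 1, fun j hj => ?_⟩
      exact Nat.lt_succ_of_le (Finset.le_sup (f := fun j => σ.symm j) hj)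
    refine ⟨N0, fun n hn => ?_⟩
    let A : Finset ℕ := (range n).image σ
    have hAmem : ∀ j, j ∈ A ↔ σ.symm j < n := by
      intro j
      simp only [A, mem_image, mem_range]
      constructor
      · rintro ⟨k, hk, rfl⟩; simpa using hk
      · intro h; exact ⟨σ.symm j, h, by simp⟩
    have hsum : ∑ k ∈ range n, e' (σ k) x • e (σ k) = ∑ i ∈ A, e' i x • e i := by
      simp only [A]
      rw [sum_image]
      intro a _ b _ hab
      exact σ.injective hab
    have hFA : F ⊆ A := fun j hj => (hAmem j).2 ((hN0 j (mem_insert_of_mem hj)).trans_le hn)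
    have hi0A : i0 ∈ A := (hAmem i0).2 ((hN0 i0 (mem_insert_self _ _)).trans_le hn)
    -- exact threshold
    obtain ⟨i1, hi1, hmin⟩ := exists_min_image (A.filter (fun i => e' i x ≠ 0)) (fun i => |e' i x|)
      ⟨i0, mem_filter.2 ⟨hi0A, hi0⟩⟩
    have hi1' := mem_filter.1 hi1
    have hκorder : ∀ i ∈ A, ∀ j, j ∉ A → κ j ≤ κ i := by
      intro i hi j hj
      have h1 := (hAmem i).1 hi
      have h2 : ¬ σ.symm j < n := fun h => hj ((hAmem j).2 h)
      have := hσ (σ.symm i) (σ.symm j) (by omega)
      simpa using this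
    have hcl := greedy_close x y F A (|e' i1 x|) (ε / 28) hF hxy.le hFA
      (fun i hi hne => hmin i (mem_filter.2 ⟨hi, hne⟩))
      (fun j hj => by
        by_cases h0 : e' j x = 0
        · rw [h0, abs_zero]; exact abs_nonneg _
        · have h1 := hκorder i1 hi1'.1 j hj
          simp only [κ] at h1
          rwa [if_neg h0, if_neg hi1'.2] at h1)
      (abs_pos.2 hi1'.2)
    rw [hsum, dist_comm, dist_eq_norm]
    refine lt_of_le_of_lt hcl ?_
    have h2 : |e' i1 x| ≤ δ := (hmin i0 (mem_filter.2 ⟨hi0A, hi0⟩)).trans hi0'.le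
    have h3 : 2 * |e' i1 x| * F.card ≤ ε / 2 := by
      calc 2 * |e' i1 x| * F.card ≤ 2 * δ * (F.card + 1) := by
            gcongr
            linarith
        _ = ε / 2 := by
            rw [hδ]; field_simp; ring
    linarith

end Pool.Agent.H647R3.AG
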