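import Pool.Agent.H647R3.AGStruct

set_option autoImplicit false

namespace Pool.Agent.H647R3.AG

open Finset Filter Topology
open scoped ENNReal

abbrev H2 : Type := lp (fun _ : ℕ => ℝ) 2
abbrev HI : Type := lp (fun _ : Idx × ℕ => ℝ) ∞

/-- indicator of a single index -/
def dl (j : ℕ) : ℕ → ℝ := fun i => if i = j then 1 else 0

theorem L_dl_bound (s : Idx) (l j : ℕ) : |L (S s) l (dl j)| ≤ 2 := by
  unfold L
  refine (abs_sum_le_sum_abs _ _).trans ?_
  calc ∑ k ∈ range l, |(1 / 2 : ℝ) ^ k * ∑ i ∈ S s k, dl j i|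
      ≤ ∑ k ∈ range l, (1 / 2 : ℝ) ^ k := by
        refine sum_le_sum fun k _ => ?_
        rw [abs_mul, abs_of_nonneg (by positivity : (0 : ℝ) ≤ (1 / 2 : ℝ) ^ k)]
        have : |∑ i ∈ S s k, dl j i| ≤ 1 := by
          unfold dl
          rw [sum_ite_eq']
          split_ifs <;> simp
        calc (1 / 2 : ℝ) ^ k * |∑ i ∈ S s k, dl j i| ≤ (1 / 2 : ℝ) ^ k * 1 := by gcongr
          _ = _ := mul_one _
    _ ≤ 2 := by
      have := geom_le 0 l
      rw [← Finset.range_eq_Ico] at this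
      simpa using this

noncomputable def uI (j : ℕ) : HI :=
  ⟨fun p => L (S p.1) p.2 (dl j), memℓp_infty ⟨2, by
    rintro _ ⟨p, rfl⟩
    exact L_dl_bound p.1 p.2 j⟩⟩

/-- ambient basis vectors -/
noncomputable def u (j : ℕ) : H2 × HI := (lp.single 2 j (1 : ℝ), uI j)

noncomputable def XS : Submodule ℝ (H2 × HI) := (Submodule.span ℝ (Set.range u)).topologicalClosure

abbrev X : Type := XS

noncomputable instance : CompleteSpace X :=
  (Submodule.isClosed_topologicalClosure _).completeSpace_coe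

theorem u_mem (j : ℕ) : u j ∈ XS :=
  Submodule.le_topologicalClosure _ (Submodule.subset_span ⟨j, rfl⟩)

noncomputable def e (j : ℕ) : X := ⟨u j, u_mem j⟩

noncomputable def e' (j : ℕ) : X →L[ℝ] ℝ :=
  ((lp.evalCLM ℝ (fun _ : ℕ => ℝ) 2 j).comp (ContinuousLinearMap.fst ℝ H2 HI)).comp XS.subtypeL

theorem e'_apply (j : ℕ) (x : X) : e' j x = (x : H2 × HI).1 j := rfl

theorem coord_fst (x : X) (j : ℕ) : (x : H2 × HI).1 j = e' j x := rfl

/-- functional comparing the second coordinate with the first -/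
noncomputable def cmp (p : Idx × ℕ) : (H2 × HI) →L[ℝ] ℝ :=
  (lp.evalCLM ℝ (fun _ : Idx × ℕ => ℝ) ∞ p).comp (ContinuousLinearMap.snd ℝ H2 HI) -
    ∑ k ∈ range p.2, (1 / 2 : ℝ) ^ k • ∑ j ∈ S p.1 k,
      (lp.evalCLM ℝ (fun _ : ℕ => ℝ) 2 j).comp (ContinuousLinearMap.fst ℝ H2 HI)

theorem cmp_apply (p : Idx × ℕ) (x : H2 × HI) :
    cmp p x = x.2 p - L (S p.1) p.2 (fun j => x.1 j) := by
  unfold cmp L
  simp only [sub_apply, _root_.sum_apply,
    smul_apply, smul_eq_mul]
  rfl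

theorem cmp_u (p : Idx × ℕ) (j : ℕ) : cmp p (u j) = 0 := by
  rw [cmp_apply]
  have : (fun i => (u j).1 i) = dl j := by
    funext i
    simp only [u, dl]
    rw [lp.single_apply]
    by_cases h : i = j
    · subst h; simp
    · rw [Pi.single_eq_of_ne h]; simp [h]
  rw [this]
  change L (S p.1) p.2 (dl j) - _ = 0
  ring

theorem snd_eq (x : X) (p : Idx × ℕ) :
    (x : H2 × HI).2 p = L (S p.1) p.2 (fun j => e' j x) := by
  have h1 : XS ≤ LinearMap.ker (cmp p).toLinearMap := by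
    refine Submodule.topologicalClosure_minimal _ ?_ ?_
    · rw [Submodule.span_le]
      rintro _ ⟨j, rfl⟩
      exact cmp_u p j
    · exact ContinuousLinearMap.isClosed_ker (cmp p)
  have h2 : cmp p (x : H2 × HI) = 0 := h1 x.2
  rw [cmp_apply] at h2
  have : (fun j => (x : H2 × HI).1 j) = (fun j => e' j x) := rfl
  rw [this] at h2
  linarith

theorem biorth (i j : ℕ) : e' i (e j) = if i = j then (1 : ℝ) else 0 := by
  rw [e'_apply]
  change (lp.single 2 j (1 : ℝ) : H2) i = _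
  rw [lp.single_apply]
  by_cases h : i = j
  · subst h; simp
  · rw [Pi.single_eq_of_ne h]; simp [h]

theorem total (x : X) (h : ∀ i, e' i x = 0) : x = 0 := by
  apply Subtype.ext
  apply Prod.ext
  · apply lp.ext
    funext i
    exact h i
  · apply lp.ext
    funext p
    have := snd_eq x p
    rw [this]
    have h0 : (fun j => e' j x) = fun _ => 0 := funext h
    rw [h0]
    unfold L
    simp

theorem norm_le_iff (x : X) {M : ℝ} (hM : 0 ≤ M) :
    ‖x‖ ≤ M ↔ ‖(x : H2 × HI).1‖ ≤ M ∧ ∀ (s : Idx) (l : ℕ), |L (S s) l (fun j => e' j x)| ≤ M := by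
  have h0 : ‖x‖ = ‖(x : H2 × HI)‖ := rfl
  rw [h0, Prod.norm_def, max_le_iff]
  constructor
  · rintro ⟨h1, h2⟩
    refine ⟨h1, fun s l => ?_⟩
    rw [← snd_eq x (s, l)]
    exact (lp.norm_apply_le_norm (by simp) _ _).trans h2
  · rintro ⟨h1, h2⟩
    refine ⟨h1, lp.norm_le_of_forall_le hM ?_⟩
    rintro ⟨s, l⟩
    rw [snd_eq x (s, l)]
    exact h2 s l

theorem dense_span : Dense ((Submodule.span ℝ (Set.range e) : Submodule ℝ X) : Set X) := by
  intro x
  rw [Metric.mem_closure_iff]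
  intro ε hε
  have hx : (x : H2 × HI) ∈ closure ((Submodule.span ℝ (Set.range u) : Submodule ℝ (H2 × HI)) : Set (H2 × HI)) :=
    x.2
  obtain ⟨y, hy, hxy⟩ := Metric.mem_closure_iff.1 hx ε hε
  have hyX : y ∈ XS := Submodule.le_topologicalClosure _ hy
  refine ⟨⟨y, hyX⟩, ?_, hxy⟩
  have hmap : Submodule.map XS.subtype (Submodule.span ℝ (Set.range e)) = Submodule.span ℝ (Set.range u) := by
    rw [Submodule.map_span, ← Set.range_comp]
    rfl
  rw [← hmap] at hy
  obtain ⟨z, hz, hzy⟩ := hy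
  have : z = ⟨y, hyX⟩ := Subtype.ext hzy
  rw [← this]
  exact hz

/-- coefficients of a projection -/
theorem e'_sum (x : X) (A : Finset ℕ) (j : ℕ) :
    e' j (∑ i ∈ A, e' i x • e i) = if j ∈ A then e' j x else 0 := by
  rw [map_sum]
  simp_rw [map_smul, biorth, smul_eq_mul, mul_ite, mul_one, mul_zero]
  rw [sum_ite_eq]

theorem e'_compl (x : X) (A : Finset ℕ) (j : ℕ) :
    e' j (x - ∑ i ∈ A, e' i x • e i) = if j ∈ A then 0 else e' j x := by
  rw [map_sub, e'_sum]
  split_ifs <;> simp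

theorem fst_sum (c : ℕ → ℝ) (A : Finset ℕ) :
    ((∑ i ∈ A, c i • e i : X) : H2 × HI).1
      = ∑ i ∈ A, (lp.single (E := fun _ : ℕ => ℝ) 2 i (c i) : H2) := by
  rw [Submodule.coe_sum, Prod.fst_sum]
  refine sum_congr rfl fun i _ => ?_
  change c i • (lp.single (E := fun _ : ℕ => ℝ) 2 i (1 : ℝ) : H2) = lp.single (E := fun _ : ℕ => ℝ) 2 i (c i)
  rw [← lp.single_smul, smul_eq_mul, mul_one]

theorem fst_norm_compl (x : X) (A : Finset ℕ) :
    ‖((x - ∑ i ∈ A, e' i x • e i : X) : H2 × HI).1‖ ^ 2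
      = ‖(x : H2 × HI).1‖ ^ 2 - ∑ i ∈ A, (e' i x) ^ 2 := by
  have h1 : ((x - ∑ i ∈ A, e' i x • e i : X) : H2 × HI).1
      = (x : H2 × HI).1 - ∑ i ∈ A, lp.single 2 i ((x : H2 × HI).1 i) := by
    have h0 := fst_sum (fun i => e' i x) A
    change (x : H2 × HI).1 - ((∑ i ∈ A, e' i x • e i : X) : H2 × HI).1 = _
    rw [h0]
    rfl
  rw [h1]
  have h2 := lp.norm_sub_norm_compl_sub_single (p := 2) (by norm_num) (x : H2 × HI).1 A
  simp only [ENNReal.toReal_ofNat, Real.rpow_ofNat] at h2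
  have h3 : ∑ i ∈ A, ‖(x : H2 × HI).1 i‖ ^ 2 = ∑ i ∈ A, (e' i x) ^ 2 := by
    refine sum_congr rfl fun i _ => ?_
    rw [Real.norm_eq_abs, sq_abs]
    rfl
  rw [h3] at h2
  linarith

/-- The system is almost greedy with constant 11. -/
theorem almost_greedy (x : X) (A B : Finset ℕ)
    (hgr : ∀ i ∈ A, ∀ j : ℕ, j ∉ A → ‖e' j x‖ ≤ ‖e' i x‖) (hcard : B.card ≤ A.card) :
    ‖x - ∑ i ∈ A, e' i x • e i‖ ≤ 11 * ‖x - ∑ i ∈ B, e' i x • e i‖ := by
  set M := ‖x - ∑ i ∈ B, e' i x • e i‖ with hMdef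
  have hM : 0 ≤ M := norm_nonneg _
  obtain ⟨hB1, hB2⟩ := (norm_le_iff (x - ∑ i ∈ B, e' i x • e i) hM).1 le_rfl
  have hgr' : ∀ i ∈ A, ∀ j, j ∉ A → |e' j x| ≤ |e' i x| := fun i hi j hj => by
    have := hgr i hi j hj
    rwa [Real.norm_eq_abs, Real.norm_eq_abs] at this
  rw [norm_le_iff _ (by positivity)]
  constructor
  · refine le_trans ?_ (by linarith : M ≤ 11 * M)
    have hsum : ∑ i ∈ B, (e' i x) ^ 2 ≤ ∑ i ∈ A, (e' i x) ^ 2 := by
      rw [← sum_inter_add_sum_sdiff B A, ← sum_inter_add_sum_sdiff A B, inter_comm B A]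
      gcongr 1
      by_cases hne : (A \ B) = ∅
      · have hsub : A ⊆ B := by rwa [sdiff_eq_empty_iff_subset] at hne
        have : A = B := eq_of_subset_of_card_le hsub hcard
        subst this; simp
      · obtain ⟨i0, hi0, hmin⟩ := exists_min_image (A \ B) (fun j => |e' j x|) (nonempty_iff_ne_empty.2 hne)
        have hcardBA : (B \ A).card ≤ (A \ B).card := by
          have h3 : (B \ A).card + (A ∩ B).card = B.card := by
            rw [Finset.inter_comm, add_comm]; exact Finset.card_inter_add_card_sdiff B A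
          have h4 : (A \ B).card + (A ∩ B).card = A.card := by
            rw [add_comm]; exact Finset.card_inter_add_card_sdiff A B
          omega
        calc ∑ i ∈ B \ A, (e' i x) ^ 2 ≤ (B \ A).card • (|e' i0 x| ^ 2) := by
              refine sum_le_card_nsmul _ _ _ (fun j hj => ?_)
              rw [← sq_abs (e' j x)]
              exact pow_le_pow_left₀ (abs_nonneg _) (hgr' i0 (mem_sdiff.1 hi0).1 j (mem_sdiff.1 hj).2) 2
          _ ≤ (A \ B).card • (|e' i0 x| ^ 2) := by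
              rw [nsmul_eq_mul, nsmul_eq_mul]
              gcongr
          _ ≤ ∑ i ∈ A \ B, (e' i x) ^ 2 := by
              refine card_nsmul_le_sum _ _ _ (fun j hj => ?_)
              rw [← sq_abs (e' j x)]
              exact pow_le_pow_left₀ (abs_nonneg _) (hmin j hj) 2
    have h1 := fst_norm_compl x A
    have h2 := fst_norm_compl x B
    have h3 : ‖((x - ∑ i ∈ A, e' i x • e i : X) : H2 × HI).1‖ ^ 2 ≤ M ^ 2 := by
      have : ‖((x - ∑ i ∈ B, e' i x • e i : X) : H2 × HI).1‖ ^ 2 ≤ M ^ 2 :=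
        pow_le_pow_left₀ (norm_nonneg _) hB1 2
      linarith
    exact (abs_le_of_sq_le_sq' h3 hM).2
  · intro s l
    have hfun : (fun j => e' j (x - ∑ i ∈ A, e' i x • e i)) = fun j => if j ∈ A then 0 else e' j x :=
      funext (e'_compl x A)
    rw [hfun]
    refine core (S s) (S_card_le s) (fun j => e' j x) A B M hM hgr' hcard ?_ ?_ l
    · intro D hD
      have h5 := lp.sum_rpow_le_norm_rpow (p := 2) (by norm_num)
        ((x - ∑ i ∈ B, e' i x • e i : X) : H2 × HI).1 D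
      simp only [ENNReal.toReal_ofNat, Real.rpow_ofNat] at h5
      have h6 : ∑ j ∈ D, (e' j x) ^ 2
          = ∑ j ∈ D, ‖((x - ∑ i ∈ B, e' i x • e i : X) : H2 × HI).1 j‖ ^ 2 := by
        refine sum_congr rfl fun j hj => ?_
        have h7 : ((x - ∑ i ∈ B, e' i x • e i : X) : H2 × HI).1 j = e' j x := by
          rw [coord_fst, e'_compl, if_neg (disjoint_left.1 hD hj)]
        rw [h7, Real.norm_eq_abs, sq_abs]
      rw [h6]
      exact h5.trans (pow_le_pow_left₀ (norm_nonneg _) hB1 2)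
    · intro l
      have := hB2 s l
      rwa [funext (e'_compl x B)] at this

end Pool.Agent.H647R3.AG
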