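import Pool.Agent.H647R3.AGComb
import Pool.Agent.H647R3.AGCore

set_option autoImplicit false

namespace Pool.Agent.H647R3.AG

open Finset

noncomputable def Qn (n : ℕ) : ℕ := (exists_labelling (2 * 4 ^ n)).choose

noncomputable def Fn (n : ℕ) : Fin (Qn n) × Fin (Qn n) → Equiv.Perm (Fin (2 * 4 ^ n)) :=
  (exists_labelling (2 * 4 ^ n)).choose_spec.choose

theorem Fn_spec (n : ℕ) (r : ℕ → ℕ) : ∃ e : Fin (Qn n) × Fin (Qn n),
    Monotone (fun t : Fin (2 * 4 ^ n) => r (code n (Fn n e t).1 (e.1.1 + e.2.1 * (Fn n e t).1))) :=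
  (exists_labelling (2 * 4 ^ n)).choose_spec.choose_spec n r

/-- index set of the structures -/
abbrev Idx : Type := Σ n : ℕ, Fin (Qn n) × Fin (Qn n)

noncomputable def vtx (s : Idx) (t : ℕ) : ℕ :=
  if h : t < 2 * 4 ^ s.1 then
    code s.1 (Fn s.1 s.2 ⟨t, h⟩).1 (s.2.1.1 + s.2.2.1 * (Fn s.1 s.2 ⟨t, h⟩).1) else 0

def pos (k n : ℕ) : ℕ := (if Even k then 0 else 4 ^ n) + 4 ^ k

noncomputable def S (s : Idx) (k : ℕ) : Finset ℕ :=
  if k < s.1 then (Ico (pos k s.1) (pos k s.1 + 4 ^ k)).image (vtx s) else ∅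

theorem vtx_inj (s : Idx) {t t' : ℕ} (ht : t < 2 * 4 ^ s.1) (ht' : t' < 2 * 4 ^ s.1)
    (h : vtx s t = vtx s t') : t = t' := by
  unfold vtx at h
  rw [dif_pos ht, dif_pos ht'] at h
  have h1 := (code_inj h).2.1
  have h2 : Fn s.1 s.2 ⟨t, ht⟩ = Fn s.1 s.2 ⟨t', ht'⟩ := Fin.ext h1
  have h3 := (Fn s.1 s.2).injective h2
  exact congrArg Fin.val h3

theorem four_pow_lt {k n : ℕ} (h : k < n) : 4 * 4 ^ k ≤ 4 ^ n := by
  calc 4 * 4 ^ k = 4 ^ (k + 1) := by rw [pow_succ]; ring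
    _ ≤ 4 ^ n := Nat.pow_le_pow_right (by norm_num) h

theorem pos_lt {k n : ℕ} (h : k < n) : pos k n + 4 ^ k < 2 * 4 ^ n := by
  unfold pos
  have h1 := four_pow_lt h
  have h2 : 0 < 4 ^ k := by positivity
  split_ifs <;> omega

theorem mem_S {s : Idx} {k j : ℕ} : j ∈ S s k ↔
    k < s.1 ∧ ∃ t, pos k s.1 ≤ t ∧ t < pos k s.1 + 4 ^ k ∧ vtx s t = j := by
  unfold S
  split_ifs with h
  · simp only [mem_image, mem_Ico]
    constructor
    · rintro ⟨t, ⟨h1, h2⟩, h3⟩; exact ⟨h, t, h1, h2, h3⟩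
    · rintro ⟨_, t, h1, h2, h3⟩; exact ⟨t, ⟨h1, h2⟩, h3⟩
  · simp [h]

theorem S_card_eq {s : Idx} {k : ℕ} (h : k < s.1) : (S s k).card = 4 ^ k := by
  unfold S
  rw [if_pos h, card_image_of_injOn, Nat.card_Ico]
  · simp
  · intro t ht t' ht' heq
    simp only [coe_Ico, Set.mem_Ico] at ht ht'
    have := pos_lt h
    exact vtx_inj s (by omega) (by omega) heq

theorem S_empty {s : Idx} {k : ℕ} (h : s.1 ≤ k) : S s k = ∅ := by
  unfold S
  rw [if_neg (by omega)]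

theorem S_card_le (s : Idx) (k : ℕ) : (S s k).card ≤ 4 ^ k := by
  by_cases h : k < s.1
  · exact (S_card_eq h).le
  · rw [S_empty (by omega)]; simp

theorem pow4_mono {k k' : ℕ} (h : k < k') : 4 * 4 ^ k ≤ 4 ^ k' := four_pow_lt h

theorem S_disj {s : Idx} {k k' : ℕ} (h : k ≠ k') : Disjoint (S s k) (S s k') := by
  rw [Finset.disjoint_left]
  intro j hj hj'
  obtain ⟨hk, t, h1, h2, h3⟩ := mem_S.1 hj
  obtain ⟨hk', t', h1', h2', h3'⟩ := mem_S.1 hj'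
  have p1 := pos_lt hk
  have p2 := pos_lt hk'
  have htt : t = t' := vtx_inj s (by omega) (by omega) (h3.trans h3'.symm)
  subst htt
  have q1 := four_pow_lt hk
  have q2 := four_pow_lt hk'
  have q3 : 0 < 4 ^ k := by positivity
  have q4 : 0 < 4 ^ k' := by positivity
  unfold pos at h1 h2 h1' h2'
  rcases lt_or_gt_of_ne h with hlt | hlt
  · have q5 := pow4_mono hlt
    split_ifs at h1 h2 h1' h2' <;> omega
  · have q5 := pow4_mono hlt
    split_ifs at h1 h2 h1' h2' <;> omega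

theorem S_lin {s s' : Idx} (hs : s ≠ s') {k k' l l' j i : ℕ} (hj : j ∈ S s k) (hj' : j ∈ S s' k')
    (hi : i ∈ S s l) (hi' : i ∈ S s' l') : i = j := by
  obtain ⟨hk, t, h1, h2, h3⟩ := mem_S.1 hj
  obtain ⟨hk', t', h1', h2', h3'⟩ := mem_S.1 hj'
  obtain ⟨hl, u, g1, g2, g3⟩ := mem_S.1 hi
  obtain ⟨hl', u', g1', g2', g3'⟩ := mem_S.1 hi'
  have p1 := pos_lt hk
  have p2 := pos_lt hk'
  have p3 := pos_lt hl
  have p4 := pos_lt hl'
  obtain ⟨n, e⟩ := s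
  obtain ⟨n', e'⟩ := s'
  simp only at *
  unfold vtx at h3 h3' g3 g3'
  rw [dif_pos (by simp only; omega)] at h3 h3' g3 g3'
  simp only at h3 h3' g3 g3'
  have c1 := code_inj (h3.trans h3'.symm)
  have c2 := code_inj (g3.trans g3'.symm)
  obtain ⟨rfl, c1b, c1c⟩ := c1
  obtain ⟨-, c2b, c2c⟩ := c2
  rw [← h3, ← g3]
  set x := (Fn n e ⟨t, _⟩).1 with hx
  set y := (Fn n e ⟨u, _⟩).1 with hy
  rw [← c1b] at c1c
  rw [← c2b] at c2c
  by_cases hxy : x = y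
  · rw [hxy]
  · exfalso
    apply hs
    have hb : e.2.1 = e'.2.1 := by
      zify at c1c c2c hxy ⊢
      have h5 : ((e.2.1 : ℤ) - e'.2.1) * ((x : ℤ) - y) = 0 := by linarith
      rcases mul_eq_zero.1 h5 with h6 | h6
      · linarith
      · exact absurd (by linarith) hxy
    have ha : e.1.1 = e'.1.1 := by
      rw [hb] at c1c; omega
    have : e = e' := Prod.ext (Fin.ext ha) (Fin.ext hb)
    rw [this]

theorem S_order (n : ℕ) (hn : 0 < n) (r : ℕ → ℕ) (hr : Function.Injective r) :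
    ∃ (s : Idx) (N : ℕ), s.1 = n ∧ ∀ k j, j ∈ S s k → (r j < N ↔ Even k) := by
  obtain ⟨e, he⟩ := Fn_spec n r
  have h0 : 4 ^ n < 2 * 4 ^ n := by
    have : 0 < 4 ^ n := by positivity
    omega
  refine ⟨⟨n, e⟩, r (vtx ⟨n, e⟩ (4 ^ n)), rfl, ?_⟩
  have hmono : ∀ t t', t < 2 * 4 ^ n → t' < 2 * 4 ^ n → t ≤ t' → r (vtx ⟨n, e⟩ t) ≤ r (vtx ⟨n, e⟩ t') := by
    intro t t' ht ht' htt
    have := he (show (⟨t, ht⟩ : Fin (2 * 4 ^ n)) ≤ ⟨t', ht'⟩ from htt)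
    unfold vtx
    rw [dif_pos ht, dif_pos ht']
    exact this
  intro k j hj
  obtain ⟨hk, t, h1, h2, h3⟩ := mem_S.1 hj
  have p1 := pos_lt hk
  simp only at hk h1 h2 p1
  have q1 := four_pow_lt hk
  rw [← h3]
  unfold pos at h1 h2 p1
  by_cases hev : Even k
  · simp only [hev, if_true, iff_true] at h1 h2 p1 ⊢
    have ht : t < 4 ^ n := by omega
    refine lt_of_le_of_ne (hmono t (4 ^ n) (by omega) h0 ht.le) ?_
    intro heq
    have := vtx_inj ⟨n, e⟩ (show t < 2 * 4 ^ n by omega) h0 (hr heq)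
    omega
  · simp only [hev, if_false, iff_false, not_lt] at h1 h2 p1 ⊢
    exact hmono (4 ^ n) t h0 (by omega) (by omega)

end Pool.Agent.H647R3.AG
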