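import Mathlib

open Set Cardinal

namespace H647R3.Baire

/-- index set: a well ordered set of size continuum with small initial segments -/
abbrev I : Type := Cardinal.continuum.{0}.ord.ToType

/-- description of a box -/
abbrev Dat (X : Type) := X × ℝ × List (I × ℝ)

/-- a binary tree of boxes -/
abbrev Code (X : Type) := (Σ n : ℕ, (Fin n → Bool)) → Dat X

/-- the indices used by a code -/
def supp {X : Type} (c : Code X) : Set I := {β | ∃ s, ∃ p ∈ (c s).2.2, p.1 = β}

/-- `(x, y)` lies in all the boxes along the branch `σ` -/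
def G {X : Type} [NormedAddCommGroup X] (c : Code X) (σ : ℕ → Bool) (x : X) (y : I → ℝ) : Prop :=
  ∀ n : ℕ, ‖x - (c ⟨n, fun i => σ i⟩).1‖ ≤ (c ⟨n, fun i => σ i⟩).2.1 ∧
    ∀ p ∈ (c ⟨n, fun i => σ i⟩).2.2, |y p.1 - p.2| ≤ (c ⟨n, fun i => σ i⟩).2.1

lemma supp_countable {X : Type} (c : Code X) : (supp c).Countable := by
  have : supp c = ⋃ s, (Prod.fst '' {p | p ∈ (c s).2.2}) := by
    ext β
    simp [supp]
  rw [this]
  refine Set.countable_iUnion fun s => ?_
  exact ((List.finite_toSet _).image _).countable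

lemma G_congr {X : Type} [NormedAddCommGroup X] {c : Code X} {σ : ℕ → Bool} {x : X}
    {y y' : I → ℝ} (h : ∀ β ∈ supp c, y β = y' β) (hG : G c σ x y) : G c σ x y' := by
  intro n
  refine ⟨(hG n).1, fun p hp => ?_⟩
  rw [← h p.1 ⟨_, p, hp, rfl⟩]
  exact (hG n).2 p hp

/-! ### linear algebra -/

lemma li_of_notMem {X : Type} [AddCommGroup X] [Module ℝ X] {ι : Type} [LinearOrder ι]
    (v : ι → X) (h : ∀ i, v i ∉ Submodule.span ℝ (v '' Iio i)) : LinearIndependent ℝ v := by
  classical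
  rw [linearIndependent_iff']
  intro s g hs
  by_contra hcon
  push Not at hcon
  obtain ⟨i₀, hi₀, hg₀⟩ := hcon
  set t := s.filter (fun i => g i ≠ 0) with ht
  have htne : t.Nonempty := ⟨i₀, by simp [ht, hi₀, hg₀]⟩
  set m := t.max' htne with hm
  have hmt : m ∈ t := t.max'_mem htne
  have hgm : g m ≠ 0 := by
    have := hmt
    rw [ht, Finset.mem_filter] at this
    exact this.2
  have hsum : ∑ i ∈ t, g i • v i = 0 := by
    rw [ht, Finset.sum_filter_of_ne, hs]
    intro i hi hne h0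
    rw [h0, zero_smul] at hne
    exact hne rfl
  rw [← Finset.add_sum_erase t _ hmt] at hsum
  have h1 : g m • v m = - ∑ i ∈ t.erase m, g i • v i := eq_neg_of_add_eq_zero_left hsum
  apply h m
  have h2 : v m = (g m)⁻¹ • (- ∑ i ∈ t.erase m, g i • v i) := by
    rw [← h1, smul_smul, inv_mul_cancel₀ hgm, one_smul]
  rw [h2]
  refine Submodule.smul_mem _ _ (Submodule.neg_mem _ (Submodule.sum_mem _ fun i hi => ?_))
  refine Submodule.smul_mem _ _ (Submodule.subset_span ⟨i, ?_, rfl⟩)
  rw [Finset.mem_erase] at hi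
  exact lt_of_le_of_ne (t.le_max' i hi.2) hi.1

lemma exists_functional {X : Type} [AddCommGroup X] [Module ℝ X] {ι : Type}
    (v : ι → X) (h : LinearIndependent ℝ v) (r : ι → ℝ) :
    ∃ φ : X →ₗ[ℝ] ℝ, ∀ i, φ (v i) = r i := by
  obtain ⟨g, hg⟩ := LinearMap.exists_extend ((Module.Basis.span h).constr ℝ r)
  refine ⟨g, fun i => ?_⟩
  have h1 : (((Module.Basis.span h) i : Submodule.span ℝ (range v)) : X) = v i := by
    rw [Module.Basis.span_apply]
  have h2 : g.comp (Submodule.subtype _) ((Module.Basis.span h) i) = r i := by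
    rw [hg, Module.Basis.constr_basis]
  rw [← h1]
  exact h2

/-! ### the transfinite construction -/

variable {X : Type} [NormedAddCommGroup X] [NormedSpace ℝ X]

/-- forbidden vectors at stage `α` -/
def forb (code : I → Code X) (sq : I → ℕ → X) (α : I)
    (prev : ∀ γ, γ < α → Option (X × (I → ℝ))) : Set X :=
  {x | ∃ γ, ∃ h : γ < α, ∃ y, prev γ h = some (x, y)} ∪
    {x | ∃ β ∈ supp (code α), ∃ n, x = sq β n}

open Classical in
/-- one step -/
noncomputable def pickStep (code : I → Code X) (sq : I → ℕ → X) (α : I)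
    (prev : ∀ γ, γ < α → Option (X × (I → ℝ))) : Option (X × (I → ℝ)) :=
  if h : ∃ q : X × (I → ℝ), (∃ σ, G (code α) σ q.1 q.2) ∧
      q.1 ∉ Submodule.span ℝ (forb code sq α prev) then some h.choose else none

/-- the picked points -/
noncomputable def pick (code : I → Code X) (sq : I → ℕ → X) : I → Option (X × (I → ℝ)) :=
  (wellFounded_lt : WellFounded ((· < ·) : I → I → Prop)).fix (pickStep code sq)

lemma pick_eq (code : I → Code X) (sq : I → ℕ → X) (α : I) :
    pick code sq α = pickStep code sq α (fun γ _ => pick code sq γ) := by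
  unfold pick
  rw [WellFounded.fix_eq]

lemma pick_some {code : I → Code X} {sq : I → ℕ → X} {α : I} {q : X × (I → ℝ)}
    (h : pick code sq α = some q) :
    (∃ σ, G (code α) σ q.1 q.2) ∧
      q.1 ∉ Submodule.span ℝ (forb code sq α (fun γ _ => pick code sq γ)) := by
  rw [pick_eq, pickStep] at h
  split_ifs at h with hh
  have := hh.choose_spec
  rw [Option.some.injEq] at h
  rw [h] at this
  exact this

lemma card_forb (code : I → Code X) (sq : I → ℕ → X) (α : I) :
    #(forb code sq α (fun γ _ => pick code sq γ)) < 𝔠 := by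
  have h1 : #({x | ∃ γ, ∃ _ : γ < α, ∃ y, pick code sq γ = some (x, y)} : Set X) < 𝔠 := by
    have hsub : ({x | ∃ γ, ∃ _ : γ < α, ∃ y, pick code sq γ = some (x, y)} : Set X) ⊆
        (fun γ => ((pick code sq γ).elim 0 Prod.fst : X)) '' (Iio α) := by
      rintro x ⟨γ, hγ, y, hy⟩
      refine ⟨γ, hγ, ?_⟩
      simp [hy]
    refine lt_of_le_of_lt ((Cardinal.mk_le_mk_of_subset hsub).trans Cardinal.mk_image_le) ?_
    exact Cardinal.mk_Iio_toType_ord_lt α
  have h2 : #({x | ∃ β ∈ supp (code α), ∃ n, x = sq β n} : Set X) < 𝔠 := by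
    have hc : ({x | ∃ β ∈ supp (code α), ∃ n, x = sq β n} : Set X).Countable := by
      have : ({x | ∃ β ∈ supp (code α), ∃ n, x = sq β n} : Set X) =
          ⋃ β ∈ supp (code α), range (sq β) := by
        ext x
        simp [eq_comm]
      rw [this]
      exact (supp_countable _).biUnion fun β _ => countable_range _
    exact lt_of_le_of_lt hc.le_aleph0 Cardinal.aleph0_lt_continuum
  exact lt_of_le_of_lt (Cardinal.mk_union_le _ _)
    (Cardinal.add_lt_of_lt Cardinal.aleph0_le_continuum h1 h2)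

lemma pick_ne_none {code : I → Code X} {sq : I → ℕ → X} {α : I}
    (h : ∀ W : Set X, #W < 𝔠 → ∃ σ x y, G (code α) σ x y ∧ x ∉ Submodule.span ℝ W) :
    ∃ q, pick code sq α = some q := by
  obtain ⟨σ, x, y, h1, h2⟩ := h _ (card_forb code sq α)
  rw [pick_eq, pickStep, dif_pos ⟨(x, y), ⟨σ, h1⟩, h2⟩]
  exact ⟨_, rfl⟩

lemma exists_phi (code : I → Code X) (sq : I → ℕ → X) (β : I) :
    ∃ φ : X →ₗ[ℝ] ℝ, (LinearIndependent ℝ (sq β) → ∀ n, φ (sq β n) = n) ∧
      ∀ α q, β ∈ supp (code α) → pick code sq α = some q → φ q.1 = q.2 β := by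
  classical
  let J : Type := {α : I // β ∈ supp (code α) ∧ ∃ q, pick code sq α = some q}
  let px : I → X := fun α => (pick code sq α).elim 0 Prod.fst
  let py : I → (I → ℝ) := fun α => (pick code sq α).elim 0 Prod.snd
  have hpx : ∀ α q, pick code sq α = some q → px α = q.1 := by
    intro α q h
    simp [px, h]
  have hpy : ∀ α q, pick code sq α = some q → py α = q.2 := by
    intro α q h
    simp [py, h]
  have key : ∀ j : J, px j.1 ∉ Submodule.span ℝ
      (range (sq β) ∪ (fun j : J => px j.1) '' (Iio j)) := by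
    intro j hj
    obtain ⟨q, hq⟩ := j.2.2
    apply (pick_some hq).2
    rw [hpx _ _ hq] at hj
    refine Submodule.span_mono ?_ hj
    rintro x (⟨n, rfl⟩ | ⟨j', hj', rfl⟩)
    · exact Or.inr ⟨β, j.2.1, n, rfl⟩
    · left
      obtain ⟨q', hq'⟩ := j'.2.2
      refine ⟨j'.1, hj', q'.2, ?_⟩
      simp only [hpx _ _ hq', hq']
  by_cases hli : LinearIndependent ℝ (sq β)
  · let v : ℕ ⊕ₗ J → X := fun i => Sum.elim (sq β) (fun j : J => px j.1) (ofLex i)
    have hv : LinearIndependent ℝ v := by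
      apply li_of_notMem
      intro i
      induction i using Lex.rec with
      | _ i =>
      cases i with
      | inl n =>
        have h1 : v (toLex (Sum.inl n)) = sq β n := rfl
        rw [h1]
        have h2 : sq β n ∉ Submodule.span ℝ (sq β '' Iio n) :=
          hli.notMem_span_image (by simp)
        intro h3
        apply h2
        refine Submodule.span_mono ?_ h3
        rintro x ⟨i', hi', rfl⟩
        induction i' using Lex.rec with
        | _ i' =>
        cases i' with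
        | inl m =>
          refine ⟨m, ?_, rfl⟩
          simpa using hi'
        | inr j => simp at hi'
      | inr j =>
        have h1 : v (toLex (Sum.inr j)) = px j.1 := rfl
        rw [h1]
        intro h3
        apply key j
        refine Submodule.span_mono ?_ h3
        rintro x ⟨i', hi', rfl⟩
        induction i' using Lex.rec with
        | _ i' =>
        cases i' with
        | inl m => exact Or.inl ⟨m, rfl⟩
        | inr j' =>
          refine Or.inr ⟨j', ?_, rfl⟩
          simpa using hi'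
    obtain ⟨φ, hφ⟩ := exists_functional v hv
      (fun i => Sum.elim (fun n : ℕ => (n : ℝ)) (fun j : J => py j.1 β) (ofLex i))
    refine ⟨φ, fun _ n => ?_, fun α q hα hq => ?_⟩
    · exact hφ (toLex (Sum.inl n))
    · have := hφ (toLex (Sum.inr ⟨α, hα, q, hq⟩))
      simp only [v, ofLex_toLex, Sum.elim_inr, hpx _ _ hq, hpy _ _ hq] at this
      exact this
  · have hv : LinearIndependent ℝ (fun j : J => px j.1) := by
      apply li_of_notMem
      intro j h3
      exact key j (Submodule.span_mono subset_union_right h3)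
    obtain ⟨φ, hφ⟩ := exists_functional _ hv (fun j : J => py j.1 β)
    refine ⟨φ, fun h => absurd h hli, fun α q hα hq => ?_⟩
    have := hφ ⟨α, hα, q, hq⟩
    simp only [hpx _ _ hq, hpy _ _ hq] at this
    exact this

lemma mk_I : #I = 𝔠 := Cardinal.mk_ord_toType _

lemma exists_surj (A : Type) [Nonempty A] (h : #A ≤ 𝔠) : ∃ f : I → A, Function.Surjective f := by
  rw [← mk_I] at h
  obtain ⟨e⟩ := h
  exact ⟨Function.invFun e, Function.invFun_surjective e.injective⟩

lemma card_code (hX : #X ≤ 𝔠) : #(Code X) ≤ 𝔠 := by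
  have h1 : #(List (I × ℝ)) ≤ 𝔠 := by
    haveI : Infinite I := by
      rw [Cardinal.infinite_iff, mk_I]; exact Cardinal.aleph0_le_continuum
    rw [Cardinal.mk_list_eq_mk, Cardinal.mk_prod, mk_I, Cardinal.mk_real]
    simp
  have h2 : #(Dat X) ≤ 𝔠 := by
    rw [Cardinal.mk_prod, Cardinal.mk_prod, Cardinal.lift_id, Cardinal.lift_id, Cardinal.lift_id,
      Cardinal.lift_id, Cardinal.mk_real]
    calc #X * (𝔠 * #(List (I × ℝ))) ≤ 𝔠 * (𝔠 * 𝔠) := by gcongr
      _ = 𝔠 := by simp
  have h3 : #(Code X) = #(Dat X) ^ #(Σ n : ℕ, (Fin n → Bool)) := by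
    simp [Code]
  rw [h3]
  calc #(Dat X) ^ #(Σ n : ℕ, (Fin n → Bool)) ≤ 𝔠 ^ #(Σ n : ℕ, (Fin n → Bool)) :=
        Cardinal.power_le_power_right h2
    _ ≤ 𝔠 ^ (ℵ₀ : Cardinal.{0}) :=
        Cardinal.power_le_power_left (Cardinal.continuum_ne_zero) (Cardinal.mk_le_aleph0)
    _ = 𝔠 := Cardinal.continuum_power_aleph0

lemma card_seq (hX : #X ≤ 𝔠) : #(ℕ → X) ≤ 𝔠 := by
  have h3 : #(ℕ → X) = #X ^ (ℵ₀ : Cardinal.{0}) := by simp
  rw [h3]
  calc #X ^ (ℵ₀ : Cardinal.{0}) ≤ 𝔠 ^ (ℵ₀ : Cardinal.{0}) := Cardinal.power_le_power_right hX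
    _ = 𝔠 := Cardinal.continuum_power_aleph0

theorem exists_T (hX : #X ≤ 𝔠) : ∃ T : X →ₗ[ℝ] (I → ℝ),
    (∀ z : ℕ → X, LinearIndependent ℝ z → ∃ β, ∀ n, T (z n) β = n) ∧
    (∀ c : Code X, (∀ W : Set X, #W < 𝔠 → ∃ σ x y, G c σ x y ∧ x ∉ Submodule.span ℝ W) →
      ∃ σ x, G c σ x (T x)) := by
  obtain ⟨code, hcode⟩ := exists_surj (Code X) (card_code hX)
  obtain ⟨sq, hsq⟩ := exists_surj (ℕ → X) (card_seq hX)
  choose φ hφ1 hφ2 using exists_phi code sq
  refine ⟨LinearMap.pi φ, fun z hz => ?_, fun c hc => ?_⟩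
  · obtain ⟨β, rfl⟩ := hsq z
    exact ⟨β, fun n => hφ1 β hz n⟩
  · obtain ⟨α, rfl⟩ := hcode c
    obtain ⟨q, hq⟩ := pick_ne_none (sq := sq) hc
    obtain ⟨σ, hσ⟩ := (pick_some hq).1
    refine ⟨σ, q.1, G_congr (fun β hβ => ?_) hσ⟩
    exact (hφ2 β α q hβ hq).symm

end H647R3.Baire
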