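import Pool.Agent.H647R3.BaireA

open Set Cardinal Topology

namespace H647R3.Baire

variable {X : Type} [NormedAddCommGroup X] [NormedSpace ℝ X]

/-- the space: the graph of `T` -/
abbrev Es (T : X →ₗ[ℝ] (I → ℝ)) : Type := ↥(LinearMap.graph T)

/-- the point over `x` -/
def pt (T : X →ₗ[ℝ] (I → ℝ)) (x : X) : Es T := ⟨(x, T x), rfl⟩

lemma Es_snd {T : X →ₗ[ℝ] (I → ℝ)} (z : Es T) : z.1.2 = T z.1.1 := by
  have := z.2
  rwa [LinearMap.mem_graph_iff] at this

lemma pt_fst {T : X →ₗ[ℝ] (I → ℝ)} (z : Es T) : pt T z.1.1 = z := by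
  apply Subtype.ext
  apply Prod.ext
  · rfl
  · exact (Es_snd z).symm

/-- a box -/
structure Bx (X : Type) where
  a : X
  ε : ℝ
  F : Finset I

/-- points in the closed box -/
def Bx.mem (T : X →ₗ[ℝ] (I → ℝ)) (b : Bx X) (x : X) : Prop :=
  ‖x - b.a‖ ≤ b.ε ∧ ∀ β ∈ b.F, |T x β - T b.a β| ≤ b.ε

/-- box inclusion -/
def Bx.Sub (T : X →ₗ[ℝ] (I → ℝ)) (b' b : Bx X) : Prop :=
  ‖b'.a - b.a‖ + b'.ε ≤ b.ε ∧ (∀ β ∈ b.F, |T b'.a β - T b.a β| + b'.ε ≤ b.ε) ∧ b.F ⊆ b'.F

/-- open box -/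
def Bx.op (T : X →ₗ[ℝ] (I → ℝ)) (b : Bx X) : Set (Es T) :=
  {z | ‖z.1.1 - b.a‖ < b.ε ∧ ∀ β ∈ b.F, |z.1.2 β - T b.a β| < b.ε}

lemma Bx.isOpen_op (T : X →ₗ[ℝ] (I → ℝ)) (b : Bx X) : IsOpen (b.op T) := by
  have h1 : IsOpen {z : Es T | ‖z.1.1 - b.a‖ < b.ε} :=
    isOpen_lt (by fun_prop) continuous_const
  have h2 : IsOpen {z : Es T | ∀ β ∈ b.F, |z.1.2 β - T b.a β| < b.ε} := by
    have : {z : Es T | ∀ β ∈ b.F, |z.1.2 β - T b.a β| < b.ε} =
        ⋂ β ∈ b.F, {z : Es T | |z.1.2 β - T b.a β| < b.ε} := by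
      ext z; simp
    rw [this]
    exact isOpen_biInter_finset fun β _ => isOpen_lt (by fun_prop) continuous_const
  exact h1.inter h2

lemma Bx.op_nonempty (T : X →ₗ[ℝ] (I → ℝ)) (b : Bx X) (hb : 0 < b.ε) : (b.op T).Nonempty := by
  refine ⟨pt T b.a, ?_⟩
  simp [Bx.op, pt, hb]

lemma nhds_box {T : X →ₗ[ℝ] (I → ℝ)} {U : Set (Es T)} (hU : IsOpen U) {z : Es T} (hz : z ∈ U) :
    ∃ ε > 0, ∃ F : Finset I, ∀ x : X, ‖x - z.1.1‖ ≤ ε →
      (∀ β ∈ F, |T x β - T z.1.1 β| ≤ ε) → pt T x ∈ U := by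
  rw [isOpen_induced_iff] at hU
  obtain ⟨V, hV, rfl⟩ := hU
  have h1 : V ∈ 𝓝 (z.1.1, z.1.2) := hV.mem_nhds hz
  rw [mem_nhds_prod_iff] at h1
  obtain ⟨u, hu, v, hv, huv⟩ := h1
  rw [nhds_pi, Filter.mem_pi] at hv
  obtain ⟨J, hJ, t, ht, htv⟩ := hv
  obtain ⟨ε₁, hε₁, h1⟩ := Metric.nhds_basis_closedBall.mem_iff.1 hu
  have h2 : ∀ β, ∃ ε > 0, Metric.closedBall (z.1.2 β) ε ⊆ t β := fun β =>
    Metric.nhds_basis_closedBall.mem_iff.1 (ht β)
  choose e he1 he2 using h2
  classical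
  have hmin : ∃ ε > 0, ε ≤ ε₁ ∧ ∀ β ∈ hJ.toFinset, ε ≤ e β := by
    induction hJ.toFinset using Finset.induction_on with
    | empty => exact ⟨ε₁, hε₁, le_rfl, by simp⟩
    | insert β s _ ih =>
      obtain ⟨ε, h1, h2, h3⟩ := ih
      refine ⟨min ε (e β), lt_min h1 (he1 β), (min_le_left _ _).trans h2, ?_⟩
      intro γ hγ
      rw [Finset.mem_insert] at hγ
      rcases hγ with rfl | hγ
      · exact min_le_right _ _
      · exact (min_le_left _ _).trans (h3 γ hγ)
  obtain ⟨ε, hε0, hε1, hε2⟩ := hmin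
  refine ⟨ε, hε0, hJ.toFinset, fun x hx hy => huv ⟨h1 ?_, htv fun β hβ => he2 β ?_⟩⟩
  · rw [Metric.mem_closedBall, dist_eq_norm]
    exact hx.trans hε1
  · have h3 : β ∈ hJ.toFinset := hJ.mem_toFinset.2 hβ
    rw [Metric.mem_closedBall, Real.dist_eq]
    have := hy β h3
    rw [← Es_snd z] at this
    exact this.trans (hε2 β h3)

lemma exists_li (T : X →ₗ[ℝ] (I → ℝ)) (hinf : ¬ FiniteDimensional ℝ X) {κ : Type} [Fintype κ]
    (O : κ → Set (Es T)) (hO : ∀ k, IsOpen (O k)) (hne : ∀ k, (O k).Nonempty) :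
    ∃ z : κ → X, (∀ k, pt T (z k) ∈ O k) ∧ LinearIndependent ℝ z := by
  classical
  have key : ∀ s : Finset κ, ∃ z : κ → Es T, (∀ k ∈ s, z k ∈ O k) ∧
      LinearIndepOn ℝ z (s : Set κ) := by
    intro s
    induction s using Finset.induction_on with
    | empty => exact ⟨fun k => pt T 0, by simp, by simp⟩
    | insert k s hk ih =>
      obtain ⟨z, hz1, hz2⟩ := ih
      have hex : ∃ w ∈ O k, w ∉ Submodule.span ℝ (z '' s) := by
        by_contra hcon
        push Not at hcon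
        have hint : (interior ((Submodule.span ℝ (z '' s) : Submodule ℝ (Es T)) :
            Set (Es T))).Nonempty := by
          obtain ⟨w, hw⟩ := hne k
          exact ⟨w, mem_interior.2 ⟨O k, fun y hy => hcon y hy, hO k, hw⟩⟩
        have htop := Submodule.eq_top_of_nonempty_interior' _ hint
        apply hinf
        have hfd : FiniteDimensional ℝ (Es T) := by
          have : Module.Finite ℝ (⊤ : Submodule ℝ (Es T)) := by
            rw [← htop]
            exact FiniteDimensional.span_of_finite ℝ ((s.finite_toSet).image z)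
          exact Module.finite_def.2 (Module.Finite.iff_fg.1 this)
        let π : Es T →ₗ[ℝ] X := (LinearMap.fst ℝ X (I → ℝ)).comp (Submodule.subtype _)
        have hπ : Function.Surjective π := fun x => ⟨pt T x, rfl⟩
        exact Module.Finite.of_surjective π hπ
      obtain ⟨w, hw1, hw2⟩ := hex
      have hupd : ∀ j ∈ s, Function.update z k w j = z j := by
        intro j hj
        apply Function.update_of_ne
        rintro rfl
        exact hk hj
      have himg : Function.update z k w '' (s : Set κ) = z '' s := by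
        apply Set.image_congr
        intro j hj
        exact hupd j hj
      refine ⟨Function.update z k w, ?_, ?_⟩
      · intro j hj
        rw [Finset.mem_insert] at hj
        rcases hj with rfl | hj
        · rw [Function.update_self]; exact hw1
        · rw [hupd j hj]; exact hz1 j hj
      · rw [Finset.coe_insert, linearIndepOn_insert (by simpa using hk)]
        refine ⟨?_, ?_⟩
        · exact (linearIndepOn_congr (fun j hj => hupd j hj)).2 hz2
        · rw [himg, Function.update_self]; exact hw2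
  obtain ⟨z, hz1, hz2⟩ := key Finset.univ
  refine ⟨fun k => (z k).1.1, fun k => ?_, ?_⟩
  · rw [pt_fst]; exact hz1 k (Finset.mem_univ k)
  · rw [Finset.coe_univ, linearIndepOn_univ_iff] at hz2
    let π : Es T →ₗ[ℝ] X := (LinearMap.fst ℝ X (I → ℝ)).comp (Submodule.subtype _)
    have hπ : LinearMap.ker π = ⊥ := by
      rw [LinearMap.ker_eq_bot]
      intro z z' h
      rw [← pt_fst z, ← pt_fst z']
      exact congrArg (pt T) h
    exact hz2.map' π hπ

lemma step (T : X →ₗ[ℝ] (I → ℝ)) (hinf : ¬ FiniteDimensional ℝ X) {κ : Type} [Fintype κ]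
    {U : Set (Es T)} (hU : IsOpen U) (hUd : Dense U) (B : κ → Bx X) (hB : ∀ k, 0 < (B k).ε)
    {η : ℝ} (hη : 0 < η) :
    ∃ B' : κ → Bx X, (∀ k, 0 < (B' k).ε ∧ (B' k).ε ≤ η ∧ (B' k).Sub T (B k) ∧
      ∀ x, (B' k).mem T x → pt T x ∈ U) ∧
      ∀ x : κ → X, (∀ k, ‖x k - (B' k).a‖ ≤ (B' k).ε) → LinearIndependent ℝ x := by
  classical
  obtain ⟨z, hz1, hz2⟩ := exists_li T hinf (fun k => U ∩ (B k).op T)
    (fun k => hU.inter ((B k).isOpen_op T))
    (fun k => by
      obtain ⟨w, hw⟩ := (dense_iff_inter_open.1 hUd) _ ((B k).isOpen_op T)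
        ((B k).op_nonempty T (hB k))
      exact ⟨w, hw.2, hw.1⟩)
  -- openness of linear independence
  have hopen : ∃ δ > 0, ∀ x : κ → X, (∀ k, ‖x k - z k‖ ≤ δ) → LinearIndependent ℝ x := by
    have h1 : IsOpen {f : κ → X | LinearIndependent ℝ f} := isOpen_setOfPred_linearIndependent
    obtain ⟨δ, hδ, h2⟩ := Metric.nhds_basis_closedBall.mem_iff.1 (h1.mem_nhds hz2)
    refine ⟨δ, hδ, fun x hx => h2 ?_⟩
    rw [Metric.mem_closedBall, dist_pi_le_iff hδ.le]
    intro k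
    rw [dist_eq_norm]
    exact hx k
  obtain ⟨δ, hδ, hδ2⟩ := hopen
  have hk : ∀ k, ∃ b' : Bx X, b'.a = z k ∧ 0 < b'.ε ∧ b'.ε ≤ η ∧ b'.ε ≤ δ ∧ b'.Sub T (B k) ∧
      ∀ x, b'.mem T x → pt T x ∈ U := by
    intro k
    obtain ⟨ε, hε, F, hF⟩ := nhds_box hU (hz1 k).1
    have hop := (hz1 k).2
    have hop1 : ‖z k - (B k).a‖ < (B k).ε := hop.1
    have hop2 : ∀ β ∈ (B k).F, |T (z k) β - T (B k).a β| < (B k).ε := hop.2
    have hmin : ∃ r > 0, ∀ β ∈ (B k).F, |T (z k) β - T (B k).a β| + r ≤ (B k).ε := by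
      revert hop2
      induction (B k).F using Finset.induction_on with
      | empty => exact fun _ => ⟨1, one_pos, by simp⟩
      | insert β s _ ih =>
        intro hop2
        obtain ⟨r, h1, h2⟩ := ih (fun γ hγ => hop2 γ (Finset.mem_insert_of_mem hγ))
        have h3 := hop2 β (Finset.mem_insert_self _ _)
        refine ⟨min r ((B k).ε - |T (z k) β - T (B k).a β|), lt_min h1 (by linarith), ?_⟩
        intro γ hγ
        rw [Finset.mem_insert] at hγ
        rcases hγ with rfl | hγ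
        · have := min_le_right r ((B k).ε - |T (z k) γ - T (B k).a γ|)
          linarith
        · have := min_le_left r ((B k).ε - |T (z k) β - T (B k).a β|)
          have := h2 γ hγ
          linarith
    obtain ⟨r, hr, hr2⟩ := hmin
    set e : ℝ := min (min η δ) (min (min ε r) ((B k).ε - ‖z k - (B k).a‖)) with he
    have he0 : 0 < e := lt_min (lt_min hη hδ) (lt_min (lt_min hε hr) (by linarith))
    have he1 : e ≤ η := (min_le_left _ _).trans (min_le_left _ _)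
    have he2 : e ≤ δ := (min_le_left _ _).trans (min_le_right _ _)
    have he3 : e ≤ ε := (min_le_right _ _).trans ((min_le_left _ _).trans (min_le_left _ _))
    have he4 : e ≤ r := (min_le_right _ _).trans ((min_le_left _ _).trans (min_le_right _ _))
    have he5 : e ≤ (B k).ε - ‖z k - (B k).a‖ := (min_le_right _ _).trans (min_le_right _ _)
    refine ⟨⟨z k, e, F ∪ (B k).F⟩, rfl, he0, he1, he2, ⟨?_, ?_, ?_⟩, ?_⟩
    · change ‖z k - (B k).a‖ + e ≤ (B k).ε
      linarith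
    · intro β hβ
      change |T (z k) β - T (B k).a β| + e ≤ (B k).ε
      have := hr2 β hβ
      linarith
    · exact Finset.subset_union_right
    · intro x hx
      apply hF x
      · exact hx.1.trans he3
      · intro β hβ
        exact (hx.2 β (Finset.mem_union_left _ hβ)).trans he3
  choose B' hB1 hB2 hB3 hB4 hB5 hB6 using hk
  refine ⟨B', fun k => ⟨hB2 k, hB3 k, hB5 k, hB6 k⟩, fun x hx => hδ2 x fun k => ?_⟩
  rw [← hB1 k]
  exact (hx k).trans (hB4 k)

/-- limit of centres -/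
lemma exists_limit {Y : Type} [MetricSpace Y] [CompleteSpace Y] (a : ℕ → Y) (ε : ℕ → ℝ) (N : ℕ)
    (h : ∀ n m, N ≤ n → n ≤ m → dist (a m) (a n) ≤ ε n) (hε : ∀ n, N ≤ n → ε n ≤ (1/2 : ℝ) ^ n) :
    ∃ y, ∀ n, N ≤ n → dist y (a n) ≤ ε n := by
  have hc : CauchySeq (fun n => a (n + N)) := by
    apply cauchySeq_of_le_geometric (1/2 : ℝ) 1 (by norm_num)
    intro n
    rw [dist_comm]
    refine (h (n + N) (n + 1 + N) (by omega) (by omega)).trans ?_
    refine (hε _ (by omega)).trans ?_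
    rw [one_mul]
    exact pow_le_pow_of_le_one (by norm_num) (by norm_num) (by omega)
  obtain ⟨y, hy⟩ := cauchySeq_tendsto_of_complete hc
  refine ⟨y, fun n hn => ?_⟩
  have h1 : Filter.Tendsto (fun m => dist (a (m + N)) (a n)) Filter.atTop (𝓝 (dist y (a n))) :=
    hy.dist tendsto_const_nhds
  refine le_of_tendsto h1 ?_
  filter_upwards [Filter.eventually_ge_atTop n] with m hm
  exact h n (m + N) hn (by omega)

lemma Bx.Sub.trans {T : X →ₗ[ℝ] (I → ℝ)} {a b c : Bx X} (h1 : a.Sub T b) (h2 : b.Sub T c) :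
    a.Sub T c := by
  refine ⟨?_, ?_, h2.2.2.trans h1.2.2⟩
  · have := norm_sub_le_norm_sub_add_norm_sub a.a b.a c.a
    have := h1.1
    have := h2.1
    linarith
  · intro β hβ
    have e1 := h1.2.1 β (h2.2.2 hβ)
    have e2 := h2.2.1 β hβ
    have e3 := abs_sub_le (T a.a β) (T b.a β) (T c.a β)
    linarith

lemma Bx.Sub.refl' (T : X →ₗ[ℝ] (I → ℝ)) (a : Bx X) : a.Sub T a := by
  refine ⟨by simp, by simp, Finset.Subset.refl _⟩

/-- the limit point of a nested sequence of boxes -/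
lemma exists_branch [CompleteSpace X] (T : X →ₗ[ℝ] (I → ℝ)) (b : ℕ → Bx X)
    (hb : ∀ n, (b (n + 1)).Sub T (b n)) (hpos : ∀ n, 0 < (b n).ε)
    (hε : ∀ n, (b (n + 1)).ε ≤ (1/2 : ℝ) ^ (n + 1)) :
    ∃ (x : X) (y : I → ℝ), ∀ n, ‖x - (b n).a‖ ≤ (b n).ε ∧
      ∀ β ∈ (b n).F, |y β - T (b n).a β| ≤ (b n).ε := by
  have hmono : ∀ n m, n ≤ m → (b m).Sub T (b n) := by
    intro n m hnm
    induction hnm with
    | refl => exact Bx.Sub.refl' T _
    | step _ ih => exact (hb _).trans ih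
  have hε' : ∀ n, 1 ≤ n → (b n).ε ≤ (1/2 : ℝ) ^ n := by
    intro n hn
    obtain ⟨m, rfl⟩ := Nat.exists_eq_add_of_le' hn
    exact hε m
  have hx : ∃ x : X, ∀ n, 1 ≤ n → dist x (b n).a ≤ (b n).ε := by
    apply exists_limit (fun n => (b n).a) (fun n => (b n).ε) 1 _ hε'
    intro n m _ hnm
    rw [dist_eq_norm]
    have := (hmono n m hnm).1
    have := hpos m
    linarith
  obtain ⟨x, hx⟩ := hx
  have hy : ∀ β, ∃ r : ℝ, ∀ n, β ∈ (b n).F → |r - T (b n).a β| ≤ (b n).ε := by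
    intro β
    by_cases hβ : ∃ n, β ∈ (b n).F
    · obtain ⟨n₀, hn₀⟩ := hβ
      have hF : ∀ n, n₀ ≤ n → β ∈ (b n).F := fun n hn => (hmono n₀ n hn).2.2 hn₀
      have hlim : ∃ r : ℝ, ∀ n, n₀ + 1 ≤ n → dist r (T (b n).a β) ≤ (b n).ε := by
        apply exists_limit (fun n => T (b n).a β) (fun n => (b n).ε) (n₀ + 1) _
          (fun n hn => hε' n (by omega))
        intro n m hn hnm
        rw [Real.dist_eq]
        have := (hmono n m hnm).2.1 β (hF n (by omega))
        have := hpos m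
        linarith
      obtain ⟨r, hr⟩ := hlim
      refine ⟨r, fun n hn => ?_⟩
      have h1 := hr (n + n₀ + 1) (by omega)
      have h2 := (hmono n (n + n₀ + 1) (by omega)).2.1 β hn
      rw [Real.dist_eq] at h1
      have h3 := abs_sub_le r (T (b (n + n₀ + 1)).a β) (T (b n).a β)
      linarith
    · push Not at hβ
      exact ⟨0, fun n hn => absurd hn (hβ n)⟩
  choose y hy using hy
  refine ⟨x, y, fun n => ⟨?_, fun β hβ => hy β n hβ⟩⟩
  have h1 := hx (n + 1) (by omega)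
  have h2 := (hmono n (n + 1) (by omega)).1
  rw [dist_eq_norm] at h1
  have h3 := norm_sub_le_norm_sub_add_norm_sub x (b (n + 1)).a (b n).a
  linarith

/-- a linearly independent family indexed by the branches escapes small spans -/
lemma escape (x : (ℕ → Bool) → X) (hx : LinearIndependent ℝ x) (W : Set X) (hW : #W < 𝔠) :
    ∃ σ, x σ ∉ Submodule.span ℝ W := by
  by_contra hcon
  push Not at hcon
  let x' : (ℕ → Bool) → Submodule.span ℝ W := fun σ => ⟨x σ, hcon σ⟩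
  have hx' : LinearIndependent ℝ x' := by
    apply LinearIndependent.of_comp (Submodule.subtype _)
    exact hx
  have h1 := hx'.cardinal_le_rank
  have h2 : #(ℕ → Bool) = 𝔠 := by simp
  rw [h2] at h1
  exact absurd (h1.trans (rank_span_le W)) (not_le.2 hW)

lemma li_branches (x : (ℕ → Bool) → X) (L : ∀ n : ℕ, (Fin n → Bool) → Bx X)
    (hpos : ∀ n w, 0 < (L n w).ε)
    (hL : ∀ n, ∀ z : (Fin (n + 1) → Bool) → X,
      (∀ w, ‖z w - (L (n + 1) w).a‖ ≤ (L (n + 1) w).ε) → LinearIndependent ℝ z)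
    (hx : ∀ σ : ℕ → Bool, ∀ n, ‖x σ - (L n (fun i => σ i)).a‖ ≤ (L n (fun i => σ i)).ε) :
    LinearIndependent ℝ x := by
  classical
  rw [linearIndependent_iff_finset_linearIndependent]
  intro s
  have hn : ∃ n : ℕ, ∀ σ ∈ s, ∀ τ ∈ s, (∀ i < n, σ i = τ i) → σ = τ := by
    have h1 : ∀ᶠ n : ℕ in Filter.atTop, ∀ σ ∈ s, ∀ τ ∈ s, (∀ i < n, σ i = τ i) → σ = τ := by
      rw [Filter.eventually_all_finset]
      intro σ _
      rw [Filter.eventually_all_finset]
      intro τ _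
      by_cases h : σ = τ
      · exact Filter.Eventually.of_forall fun n _ => h
      · obtain ⟨i, hi⟩ := Function.ne_iff.1 h
        filter_upwards [Filter.eventually_gt_atTop i] with n hn h'
        exact absurd (h' i hn) hi
    exact h1.exists
  obtain ⟨n, hn⟩ := hn
  have hn' : ∀ σ ∈ s, ∀ τ ∈ s, (∀ i < n + 1, σ i = τ i) → σ = τ :=
    fun σ hσ τ hτ h => hn σ hσ τ hτ fun i hi => h i (by omega)
  let z : (Fin (n + 1) → Bool) → X := fun w =>
    if h : ∃ σ ∈ s, (fun i : Fin (n + 1) => σ i) = w then x h.choose else (L (n + 1) w).a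
  have hz : LinearIndependent ℝ z := by
    apply hL
    intro w
    by_cases h : ∃ σ ∈ s, (fun i : Fin (n + 1) => σ i) = w
    · simp only [z, dif_pos h]
      have h2 := h.choose_spec.2
      have h3 := hx h.choose (n + 1)
      rwa [h2] at h3
    · simp only [z, dif_neg h, sub_self, norm_zero]
      exact (hpos _ _).le
  have hcomp : x ∘ (Subtype.val : s → (ℕ → Bool)) =
      z ∘ (fun σ : s => (fun i : Fin (n + 1) => σ.1 i)) := by
    funext σ
    have h : ∃ τ ∈ s, (fun i : Fin (n + 1) => τ i) = (fun i : Fin (n + 1) => σ.1 i) :=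
      ⟨σ.1, σ.2, rfl⟩
    simp only [Function.comp, z, dif_pos h]
    congr 1
    symm
    apply hn' _ h.choose_spec.1 _ σ.2
    intro i hi
    exact congrFun h.choose_spec.2 ⟨i, hi⟩
  rw [hcomp]
  apply hz.comp
  intro σ τ h
  apply Subtype.ext
  apply hn' _ σ.2 _ τ.2
  intro i hi
  exact congrFun h ⟨i, hi⟩

theorem baire [CompleteSpace X] (T : X →ₗ[ℝ] (I → ℝ)) (hinf : ¬ FiniteDimensional ℝ X)
    (hT : ∀ c : Code X, (∀ W : Set X, #W < 𝔠 → ∃ σ x y, G c σ x y ∧ x ∉ Submodule.span ℝ W) →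
      ∃ σ x, G c σ x (T x)) : BaireSpace (Es T) := by
  classical
  constructor
  intro U hUo hUd
  rw [dense_iff_inter_open]
  rintro O hO ⟨z₀, hz₀⟩
  obtain ⟨ε₀, hε₀, F₀, hF₀⟩ := nhds_box hO hz₀
  let Lv : ℕ → Type := fun n => {B : (Fin n → Bool) → Bx X // ∀ w, 0 < (B w).ε}
  have hstep : ∀ n (B : Lv n), ∃ B' : Lv (n + 1),
      (∀ w, (B'.1 w).ε ≤ (1/2 : ℝ) ^ (n + 1) ∧ (B'.1 w).Sub T (B.1 (Fin.init w)) ∧
      ∀ x, (B'.1 w).mem T x → pt T x ∈ U n) ∧
      ∀ x : (Fin (n + 1) → Bool) → X, (∀ w, ‖x w - (B'.1 w).a‖ ≤ (B'.1 w).ε) →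
        LinearIndependent ℝ x := by
    intro n B
    obtain ⟨B', h1, h2⟩ := step T hinf (hUo n) (hUd n) (fun w : Fin (n + 1) → Bool =>
      B.1 (Fin.init w)) (fun w => B.2 _) (η := (1/2 : ℝ) ^ (n + 1)) (by positivity)
    exact ⟨⟨B', fun w => (h1 w).1⟩, fun w => (h1 w).2, h2⟩
  choose next hnext1 hnext2 using hstep
  let L : ∀ n, Lv n := fun n => Nat.rec (motive := Lv)
    ⟨fun _ => ⟨z₀.1.1, ε₀, F₀⟩, fun _ => hε₀⟩ (fun n B => next n B) n
  have hL0 : ∀ w, (L 0).1 w = ⟨z₀.1.1, ε₀, F₀⟩ := fun w => rfl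
  have hLs : ∀ n, L (n + 1) = next n (L n) := fun n => rfl
  have hsub : ∀ (σ : ℕ → Bool) n, ((L (n + 1)).1 (fun i => σ i)).Sub T ((L n).1 (fun i => σ i)) := by
    intro σ n
    rw [hLs]
    exact (hnext1 n (L n) (fun i => σ i)).2.1
  have hbr : ∀ σ : ℕ → Bool, ∃ (x : X) (y : I → ℝ), ∀ n,
      ‖x - ((L n).1 (fun i => σ i)).a‖ ≤ ((L n).1 (fun i => σ i)).ε ∧
      ∀ β ∈ ((L n).1 (fun i => σ i)).F, |y β - T ((L n).1 (fun i => σ i)).a β| ≤
        ((L n).1 (fun i => σ i)).ε := by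
    intro σ
    apply exists_branch T (fun n => (L n).1 (fun i => σ i)) (hsub σ) (fun n => (L n).2 _)
    intro n
    rw [hLs]
    exact (hnext1 n (L n) (fun i => σ i)).1
  choose x y hxy using hbr
  have hli : LinearIndependent ℝ x := by
    apply li_branches x (fun n => (L n).1) (fun n w => (L n).2 w)
    · intro n z hz
      refine hnext2 n (L n) z ?_
      intro w
      have := hz w
      rw [hLs] at this
      exact this
    · intro σ n
      exact (hxy σ n).1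
  let c : Code X := fun s => (((L s.1).1 s.2).a, ((L s.1).1 s.2).ε,
    ((L s.1).1 s.2).F.toList.map (fun β => (β, T ((L s.1).1 s.2).a β)))
  have hc : ∀ (σ : ℕ → Bool) (x : X) (y : I → ℝ), G c σ x y ↔ ∀ n,
      ‖x - ((L n).1 (fun i => σ i)).a‖ ≤ ((L n).1 (fun i => σ i)).ε ∧
      ∀ β ∈ ((L n).1 (fun i => σ i)).F, |y β - T ((L n).1 (fun i => σ i)).a β| ≤
        ((L n).1 (fun i => σ i)).ε := by
    intro σ x y
    simp only [G, c, List.mem_map, Finset.mem_toList, forall_exists_index, and_imp,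
      forall_apply_eq_imp_iff₂]
  obtain ⟨σ, x', hx'⟩ := hT c (fun W hW => by
    obtain ⟨σ, hσ⟩ := escape x hli W hW
    exact ⟨σ, x σ, y σ, (hc _ _ _).2 (hxy σ), hσ⟩)
  rw [hc] at hx'
  refine ⟨pt T x', ?_, ?_⟩
  · have := hx' 0
    rw [hL0] at this
    exact hF₀ x' this.1 this.2
  · rw [mem_iInter]
    intro n
    have h1 := hx' (n + 1)
    exact (hnext1 n (L n) (fun i => σ i)).2.2 x' h1

end H647R3.Baire
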