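import Pool.Agent.H647R3.BaireB

open Set Cardinal Topology

namespace H647R3.Baire

/-! ### the strong dual -/

lemma separable_dual {E : Type} [AddCommGroup E] [Module ℝ E] [TopologicalSpace E]
    [IsTopologicalAddGroup E] [ContinuousSMul ℝ E]
    (hB : ∀ B : Set E, Bornology.IsVonNBounded ℝ B → FiniteDimensional ℝ (Submodule.span ℝ B))
    (e : ℕ → E →L[ℝ] ℝ) (he : ∀ x, (∀ n, e n x = 0) → x = 0) :
    TopologicalSpace.SeparableSpace (E →L[ℝ] ℝ) := by
  have h1 : TopologicalSpace.IsSeparable (Submodule.span ℝ (range e) : Set (E →L[ℝ] ℝ)) :=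
    ((countable_range e).isSeparable).span
  have h2 : closure (Submodule.span ℝ (range e) : Set (E →L[ℝ] ℝ)) = Set.univ := by
    rw [eq_univ_iff_forall]
    intro φ
    rw [mem_closure_iff_nhds]
    intro t ht
    have h3 : (fun ψ : E →L[ℝ] ℝ => φ + ψ) ⁻¹' t ∈ 𝓝 (0 : E →L[ℝ] ℝ) := by
      have hc : Continuous (fun ψ : E →L[ℝ] ℝ => φ + ψ) := continuous_const.add continuous_id
      apply hc.continuousAt.preimage_mem_nhds
      rwa [add_zero]
    rw [ContinuousLinearMap.hasBasis_nhds_zero.mem_iff] at h3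
    obtain ⟨⟨B, V⟩, ⟨hBb, hV⟩, hsub⟩ := h3
    haveI := hB B hBb
    let M := Submodule.span ℝ B
    let L : ℕ → M →ₗ[ℝ] ℝ := fun n => (e n).toLinearMap.comp M.subtype
    let K : M →ₗ[ℝ] ℝ := φ.toLinearMap.comp M.subtype
    have hK : K ∈ Submodule.span ℝ (range L) := by
      apply FiniteDimensional.mem_span_of_iInf_ker_le_ker
      intro m hm
      have hm0 : m = 0 := by
        apply Subtype.ext
        apply he
        intro n
        have := (Submodule.mem_iInf _).1 hm n
        exact this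
      rw [hm0]
      exact Submodule.zero_mem _
    have hψ : ∀ K' ∈ Submodule.span ℝ (range L), ∃ ψ ∈ Submodule.span ℝ (range e),
        ∀ m : M, ψ m = K' m := by
      intro K' hK'
      induction hK' using Submodule.span_induction with
      | mem x hx =>
        obtain ⟨n, rfl⟩ := hx
        exact ⟨e n, Submodule.subset_span ⟨n, rfl⟩, fun m => rfl⟩
      | zero => exact ⟨0, Submodule.zero_mem _, fun m => by simp⟩
      | add x y _ _ hx hy =>
        obtain ⟨ψ, h1, h2⟩ := hx
        obtain ⟨ψ', h1', h2'⟩ := hy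
        exact ⟨ψ + ψ', Submodule.add_mem _ h1 h1', fun m => by simp [h2, h2']⟩
      | smul a x _ hx =>
        obtain ⟨ψ, h1, h2⟩ := hx
        exact ⟨a • ψ, Submodule.smul_mem _ _ h1, fun m => by simp [h2]⟩
    obtain ⟨ψ, hψ1, hψ2⟩ := hψ K hK
    refine ⟨ψ, ?_, hψ1⟩
    have h4 : ψ - φ ∈ {f : E →L[ℝ] ℝ | ∀ x ∈ B, f x ∈ V} := by
      intro x hx
      have h5 : (ψ - φ) x = 0 := by
        have := hψ2 ⟨x, Submodule.subset_span hx⟩
        have h6 : K ⟨x, Submodule.subset_span hx⟩ = φ x := rfl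
        rw [h6] at this
        simp only [ContinuousLinearMap.sub_apply]
        exact sub_eq_zero.2 this
      rw [h5]
      exact mem_of_mem_nhds hV
    have h7 := hsub h4
    simpa using h7
  rw [← TopologicalSpace.isSeparable_univ_iff, ← h2]
  exact h1.closure

variable {X : Type} [NormedAddCommGroup X] [NormedSpace ℝ X]

lemma bounded_fd (T : X →ₗ[ℝ] (I → ℝ))
    (hT : ∀ z : ℕ → X, LinearIndependent ℝ z → ∃ β, ∀ n, T (z n) β = n)
    (B : Set (Es T)) (hB : Bornology.IsVonNBounded ℝ B) :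
    FiniteDimensional ℝ (Submodule.span ℝ B) := by
  obtain ⟨b, hb1, hb2, hb3⟩ := exists_linearIndependent ℝ B
  by_cases hfin : b.Finite
  · rw [← hb2]
    exact FiniteDimensional.span_of_finite ℝ hfin
  · exfalso
    have hinf : b.Infinite := hfin
    let g := hinf.natEmbedding
    have hg : LinearIndependent ℝ (fun n => ((g n : b) : Es T)) := hb3.comp g g.injective
    let π : Es T →ₗ[ℝ] X := (LinearMap.fst ℝ X (I → ℝ)).comp (Submodule.subtype _)
    have hπ : LinearMap.ker π = ⊥ := by
      rw [LinearMap.ker_eq_bot]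
      intro z z' h
      rw [← pt_fst z, ← pt_fst z']
      exact congrArg (pt T) h
    have hg2 := hg.map' π hπ
    obtain ⟨β, hβ⟩ := hT _ hg2
    let ev : Es T →L[ℝ] ℝ := (ContinuousLinearMap.proj β).comp
      ((ContinuousLinearMap.snd ℝ X (I → ℝ)).comp (Submodule.subtypeL _))
    have hev : ∀ n, ev (g n) = n := by
      intro n
      have h1 : ev (g n) = ((g n : b) : Es T).1.2 β := rfl
      rw [h1, Es_snd]
      exact hβ n
    have hbd : Bornology.IsVonNBounded ℝ (ev '' B) := hB.image ev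
    rw [NormedSpace.isVonNBounded_iff] at hbd
    obtain ⟨C, hC⟩ := (Metric.isBounded_iff_subset_closedBall 0).1 hbd
    obtain ⟨n, hn⟩ := exists_nat_gt C
    have h1 : ev (g n) ∈ Metric.closedBall (0 : ℝ) C := hC ⟨g n, hb1 (g n).2, rfl⟩
    rw [hev, Metric.mem_closedBall, Real.dist_eq, sub_zero, Nat.abs_cast] at h1
    linarith

/-! ### the space of bounded sequences and the function limsup -/

open BoundedContinuousFunction

/-- bounded real sequences -/
abbrev Linf : Type := ℕ →ᵇ ℝ

lemma card_Linf : #Linf ≤ 𝔠 := by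
  have h1 : #Linf ≤ #(ℕ → ℝ) := Cardinal.mk_le_of_injective (f := fun x : Linf => (x : ℕ → ℝ))
    DFunLike.coe_injective
  have h2 : #(ℕ → ℝ) = 𝔠 := by
    simp only [Cardinal.mk_pi, Cardinal.prod_const, Cardinal.mk_real, Cardinal.mk_nat,
      Cardinal.lift_aleph0, Cardinal.lift_continuum, Cardinal.continuum_power_aleph0]
  rwa [h2] at h1

open Classical in
/-- indicator sequences -/
noncomputable def ind (A : Set ℕ) : Linf :=
  BoundedContinuousFunction.ofNormedAddCommGroupDiscrete (fun n => if n ∈ A then 1 else 0) 1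
    (by intro n; split_ifs <;> simp)

open Classical in
lemma ind_apply (A : Set ℕ) (n : ℕ) : ind A n = if n ∈ A then 1 else 0 := rfl

lemma not_fd_Linf : ¬ FiniteDimensional ℝ Linf := by
  intro h
  have hli : LinearIndependent ℝ (fun n : ℕ => ind {n}) := by
    rw [linearIndependent_iff']
    intro s g hs i hi
    have h1 := congrArg (fun f : Linf => f i) hs
    simp only [BoundedContinuousFunction.coe_sum, BoundedContinuousFunction.coe_smul,
      Finset.sum_apply, BoundedContinuousFunction.coe_zero, Pi.zero_apply] at h1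
    rw [Finset.sum_eq_single i] at h1
    · simpa [ind_apply] using h1
    · intro j _ hj
      simp [ind_apply, hj.symm]
    · exact fun h => absurd hi h
  have h1 := hli.cardinal_le_rank
  have h2 : Module.rank ℝ Linf < ℵ₀ := Module.rank_lt_aleph0 ℝ Linf
  rw [Cardinal.mk_nat] at h1
  exact absurd h2 (not_lt.2 h1)

/-- limsup -/
noncomputable def ls (x : Linf) : ℝ := sInf {c : ℝ | ∀ᶠ n in Filter.atTop, x n ≤ c}

lemma ls_bdd (x : Linf) : BddBelow {c : ℝ | ∀ᶠ n in Filter.atTop, x n ≤ c} := by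
  refine ⟨-‖x‖, fun c hc => ?_⟩
  obtain ⟨n, hn⟩ := Filter.Eventually.exists hc
  have := x.norm_coe_le_norm n
  rw [Real.norm_eq_abs] at this
  have := (abs_le.1 this).1
  linarith

lemma ls_ne (x : Linf) : {c : ℝ | ∀ᶠ n in Filter.atTop, x n ≤ c}.Nonempty := by
  refine ⟨‖x‖, Filter.Eventually.of_forall fun n => ?_⟩
  have := x.norm_coe_le_norm n
  rw [Real.norm_eq_abs] at this
  exact (abs_le.1 this).2

lemma ls_le {x : Linf} {c : ℝ} (h : ∀ᶠ n in Filter.atTop, x n ≤ c) : ls x ≤ c :=
  csInf_le (ls_bdd x) h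

lemma le_ls {x : Linf} {a : ℝ} (h : ∀ c, (∀ᶠ n in Filter.atTop, x n ≤ c) → a ≤ c) : a ≤ ls x :=
  le_csInf (ls_ne x) h

lemma ev_le {x : Linf} {c : ℝ} (h : ls x < c) : ∀ᶠ n in Filter.atTop, x n ≤ c := by
  obtain ⟨c', hc', hlt⟩ := exists_lt_of_csInf_lt (ls_ne x) h
  exact Filter.Eventually.mono hc' fun n hn => hn.trans hlt.le

lemma ls_lip : LipschitzWith 1 ls := by
  apply LipschitzWith.of_le_add
  intro x y
  apply le_of_forall_pos_le_add
  intro ε hε
  apply ls_le
  filter_upwards [ev_le (show ls y < ls y + ε by linarith)] with n hn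
  have h1 := (x - y).norm_coe_le_norm n
  rw [Real.norm_eq_abs, ← dist_eq_norm] at h1
  have h2 := (abs_le.1 h1).2
  simp only [BoundedContinuousFunction.coe_sub, Pi.sub_apply] at h2
  linarith

lemma ls_convex : ConvexOn ℝ Set.univ ls := by
  refine ⟨convex_univ, fun x _ y _ a b ha hb hab => ?_⟩
  apply le_of_forall_pos_le_add
  intro ε hε
  apply ls_le
  filter_upwards [ev_le (show ls y < ls y + ε by linarith),
    ev_le (show ls x < ls x + ε by linarith)] with n h1 h2
  simp only [BoundedContinuousFunction.coe_add, BoundedContinuousFunction.coe_smul, Pi.add_apply,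
    smul_eq_mul]
  have e1 := mul_le_mul_of_nonneg_left h1 hb
  have e2 := mul_le_mul_of_nonneg_left h2 ha
  have e3 : a * (ls x + ε) + b * (ls y + ε) = a * ls x + b * ls y + (a + b) * ε := by ring
  rw [hab, one_mul] at e3
  linarith

lemma ls_dir (x : Linf) : ∃ h : Linf, ∀ t : ℝ, (0 < t → ls x + t ≤ ls (x + t • h)) ∧
    (t < 0 → ls x ≤ ls (x + t • h)) := by
  have hfr : ∀ k : ℕ, ∃ᶠ n in Filter.atTop, ls x - 1 / ((k : ℝ) + 1) < x n := by
    intro k
    rw [Filter.Frequently]
    intro hcon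
    have : ls x ≤ ls x - 1 / ((k : ℝ) + 1) := by
      apply ls_le
      filter_upwards [hcon] with n hn
      exact not_lt.1 hn
    have hk : (0 : ℝ) < 1 / ((k : ℝ) + 1) := by positivity
    linarith
  obtain ⟨φ, hφ, hφ2⟩ := Filter.extraction_forall_of_frequently hfr
  have hlim : Filter.Tendsto (fun k : ℕ => 1 / ((k : ℝ) + 1)) Filter.atTop (𝓝 0) :=
    tendsto_one_div_add_atTop_nhds_zero_nat
  have h2 : Filter.Tendsto (fun k : ℕ => 2 * k) Filter.atTop Filter.atTop :=
    Filter.tendsto_id.const_mul_atTop' (by norm_num)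
  have h21 : Filter.Tendsto (fun k : ℕ => 2 * k + 1) Filter.atTop Filter.atTop :=
    Filter.tendsto_add_atTop_iff_nat 1 |>.2 h2 |>.comp Filter.tendsto_id |> fun _ =>
      Filter.tendsto_atTop_mono (fun k => Nat.le_succ _) h2
  refine ⟨ind (range fun k => φ (2 * k)), fun t => ⟨fun ht => ?_, fun ht => ?_⟩⟩
  · apply le_ls
    intro c hc
    have h3 : ∀ᶠ k : ℕ in Filter.atTop, (x + t • ind (range fun k => φ (2 * k))) (φ (2 * k)) ≤ c :=
      (hφ.tendsto_atTop.comp h2).eventually hc
    have h4 : Filter.Tendsto (fun k : ℕ => ls x - 1 / (((2 * k : ℕ) : ℝ) + 1) + t) Filter.atTop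
        (𝓝 (ls x - 0 + t)) := ((hlim.comp h2).const_sub (ls x)).add_const t
    rw [sub_zero] at h4
    refine le_of_tendsto h4 ?_
    filter_upwards [h3] with k hk
    have h5 : (x + t • ind (range fun k => φ (2 * k))) (φ (2 * k)) = x (φ (2 * k)) + t := by
      simp [ind_apply]
    rw [h5] at hk
    have := hφ2 (2 * k)
    linarith
  · apply le_ls
    intro c hc
    have h3 : ∀ᶠ k : ℕ in Filter.atTop,
        (x + t • ind (range fun k => φ (2 * k))) (φ (2 * k + 1)) ≤ c :=
      (hφ.tendsto_atTop.comp h21).eventually hc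
    have h4 : Filter.Tendsto (fun k : ℕ => ls x - 1 / (((2 * k + 1 : ℕ) : ℝ) + 1)) Filter.atTop
        (𝓝 (ls x - 0)) := (hlim.comp h21).const_sub (ls x)
    rw [sub_zero] at h4
    refine le_of_tendsto h4 ?_
    filter_upwards [h3] with k hk
    have h6 : φ (2 * k + 1) ∉ range fun k => φ (2 * k) := by
      rintro ⟨j, hj⟩
      have := hφ.injective hj
      omega
    have h5 : (x + t • ind (range fun k => φ (2 * k))) (φ (2 * k + 1)) = x (φ (2 * k + 1)) := by
      simp only [BoundedContinuousFunction.coe_add, BoundedContinuousFunction.coe_smul,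
        Pi.add_apply, ind_apply, if_neg h6, smul_zero, add_zero]
    rw [h5] at hk
    have := hφ2 (2 * k + 1)
    linarith

end H647R3.Baire
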