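import Mathlib

open Set Topology

universe u

namespace H647R3.Fac

section defs

variable {E : Type u} [AddCommGroup E] [Module ℝ E] [TopologicalSpace E]

/-- `f : D → ℝ` (given by a function on `E`) is Fréchet differentiable at `x₀`: there is a
continuous linear `φ` with `(f (x₀ + t x) - f x₀) / t → φ x` as `t → 0`, uniformly for `x` in
every von Neumann bounded set (and `x₀ + t x ∈ D` for small `t`). -/
def FrechetAt (D : Set E) (f : E → ℝ) (x₀ : E) : Prop :=
  ∃ φ : E →L[ℝ] ℝ, ∀ B : Set E, Bornology.IsVonNBounded ℝ B → ∀ ε > 0, ∃ δ > 0,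
    ∀ t : ℝ, 0 < |t| → |t| < δ →
      ∀ x ∈ B, x₀ + t • x ∈ D ∧ |(f (x₀ + t • x) - f x₀) / t - φ x| < ε

/-- Gâteaux differentiability of `f : D → ℝ` at `x₀`. -/
def GateauxAt (D : Set E) (f : E → ℝ) (x₀ : E) : Prop :=
  ∃ φ : E →L[ℝ] ℝ, ∀ x : E, ∀ ε > 0, ∃ δ > 0,
    ∀ t : ℝ, 0 < |t| → |t| < δ →
      x₀ + t • x ∈ D ∧ |(f (x₀ + t • x) - f x₀) / t - φ x| < ε

variable (E)

/-- Asplund: each continuous convex `f : D → ℝ`, `D` nonempty open convex, is Fréchet
differentiable at each point of some dense `Gδ` subset of `D`. -/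
def IsAsplund : Prop :=
  ∀ D : Set E, D.Nonempty → IsOpen D → Convex ℝ D → ∀ f : E → ℝ, ContinuousOn f D →
    ConvexOn ℝ D f → ∃ S : Set E, S ⊆ D ∧ IsGδ S ∧ D ⊆ closure S ∧ ∀ x ∈ S, FrechetAt D f x

/-- Weak Asplund: the same with Gâteaux differentiability. -/
def IsWeakAsplund : Prop :=
  ∀ D : Set E, D.Nonempty → IsOpen D → Convex ℝ D → ∀ f : E → ℝ, ContinuousOn f D →
    ConvexOn ℝ D f → ∃ S : Set E, S ⊆ D ∧ IsGδ S ∧ D ⊆ closure S ∧ ∀ x ∈ S, GateauxAt D f x

/-- Fréchet differentiability space: each continuous convex `f : D → ℝ`, `D` nonempty open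
convex, is Fréchet differentiable at the points of a dense subset of `D`. -/
def IsFDS : Prop :=
  ∀ D : Set E, D.Nonempty → IsOpen D → Convex ℝ D → ∀ f : E → ℝ, ContinuousOn f D →
    ConvexOn ℝ D f → D ⊆ closure {x | x ∈ D ∧ FrechetAt D f x}

/-- Gâteaux differentiability space: the same with Gâteaux differentiability. -/
def IsGDS : Prop :=
  ∀ D : Set E, D.Nonempty → IsOpen D → Convex ℝ D → ∀ f : E → ℝ, ContinuousOn f D →
    ConvexOn ℝ D f → D ⊆ closure {x | x ∈ D ∧ GateauxAt D f x}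

end defs

section basics

variable {E : Type u} [AddCommGroup E] [Module ℝ E] [TopologicalSpace E]

/-- differentiability with respect to a family of sets -/
def DiffAt (𝓑 : Set (Set E)) (D : Set E) (f : E → ℝ) (x₀ : E) : Prop :=
  ∃ φ : E →L[ℝ] ℝ, ∀ B ∈ 𝓑, ∀ ε > 0, ∃ δ > 0,
    ∀ t : ℝ, 0 < |t| → |t| < δ →
      ∀ x ∈ B, x₀ + t • x ∈ D ∧ |(f (x₀ + t • x) - f x₀) / t - φ x| < ε

/-- small second differences -/
def SD (𝓑 : Set (Set E)) (D : Set E) (f : E → ℝ) (x : E) : Prop :=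
  ∀ B ∈ 𝓑, ∀ ε > 0, ∃ δ > 0, ∀ h ∈ B, ∀ t : ℝ, 0 < t → t < δ →
    x + t • h ∈ D ∧ x - t • h ∈ D ∧ f (x + t • h) + f (x - t • h) - 2 * f x ≤ ε * t

variable (E) in
/-- bounded sets -/
def bdd : Set (Set E) := {B | Bornology.IsVonNBounded ℝ B}

variable (E) in
/-- singletons -/
def sing : Set (Set E) := {B | ∃ h, B = {h}}

lemma frechet_iff {D : Set E} {f : E → ℝ} {x : E} : FrechetAt D f x ↔ DiffAt (bdd E) D f x :=
  Iff.rfl

lemma gateaux_iff {D : Set E} {f : E → ℝ} {x : E} : GateauxAt D f x ↔ DiffAt (sing E) D f x := by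
  constructor
  · rintro ⟨φ, hφ⟩
    refine ⟨φ, ?_⟩
    rintro B ⟨h, rfl⟩ ε hε
    obtain ⟨δ, hδ, h1⟩ := hφ h ε hε
    refine ⟨δ, hδ, fun t ht1 ht2 x hx => ?_⟩
    rw [mem_singleton_iff] at hx
    subst hx
    exact h1 t ht1 ht2
  · rintro ⟨φ, hφ⟩
    refine ⟨φ, fun h ε hε => ?_⟩
    obtain ⟨δ, hδ, h1⟩ := hφ {h} ⟨h, rfl⟩ ε hε
    exact ⟨δ, hδ, fun t ht1 ht2 => h1 t ht1 ht2 h rfl⟩

lemma sd_of_diff {𝓑 : Set (Set E)} {D : Set E} {f : E → ℝ} {x : E} (h : DiffAt 𝓑 D f x) :
    SD 𝓑 D f x := by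
  obtain ⟨φ, hφ⟩ := h
  intro B hB ε hε
  obtain ⟨δ, hδ, h1⟩ := hφ B hB (ε / 2) (by positivity)
  refine ⟨δ, hδ, fun h hh t ht1 ht2 => ?_⟩
  obtain ⟨a1, a2⟩ := h1 t (by rwa [abs_of_pos ht1]) (by rwa [abs_of_pos ht1]) h hh
  obtain ⟨b1, b2⟩ := h1 (-t) (by rwa [abs_neg, abs_of_pos ht1])
    (by rwa [abs_neg, abs_of_pos ht1]) h hh
  rw [neg_smul, ← sub_eq_add_neg] at b1 b2
  refine ⟨a1, b1, ?_⟩
  have a3 := (abs_lt.1 a2).2
  have b3 := (abs_lt.1 b2).1
  have a4 : (f (x + t • h) - f x) / t < φ h + ε / 2 := by linarith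
  rw [div_lt_iff₀ ht1] at a4
  have b4 : φ h - ε / 2 < (f (x - t • h) - f x) / (-t) := by linarith
  rw [div_neg, lt_neg, div_lt_iff₀ ht1] at b4
  linarith

lemma three_point {D : Set E} {f : E → ℝ} (hf : ConvexOn ℝ D f) {x h : E} {s t : ℝ} (hs : 0 < s)
    (ht : 0 < t) (h1 : x + t • h ∈ D) (h2 : x - s • h ∈ D) :
    -((f (x - s • h) - f x) / s) ≤ (f (x + t • h) - f x) / t := by
  have h3 := hf.2 h1 h2 (show 0 ≤ s / (s + t) by positivity) (show 0 ≤ t / (s + t) by positivity)
    (by field_simp)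
  have h4 : (s / (s + t)) • (x + t • h) + (t / (s + t)) • (x - s • h) = x := by
    rw [smul_add, smul_sub, smul_smul, smul_smul]
    have e1 : s / (s + t) * t = t / (s + t) * s := by ring
    have e2 : s / (s + t) + t / (s + t) = 1 := by field_simp
    rw [e1]
    calc _ = (s / (s + t) + t / (s + t)) • x := by rw [add_smul]; abel
      _ = x := by rw [e2, one_smul]
  rw [h4] at h3
  simp only [smul_eq_mul] at h3
  rw [neg_le_iff_add_nonneg, div_add_div _ _ ht.ne' hs.ne']
  apply div_nonneg _ (by positivity)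
  have h5 : (s + t) * f x ≤ s * f (x + t • h) + t * f (x - s • h) := by
    have := mul_le_mul_of_nonneg_left h3 (show 0 ≤ s + t by positivity)
    calc _ ≤ _ := this
      _ = _ := by field_simp
  nlinarith

/-- slopes -/
def slopes (D : Set E) (f : E → ℝ) (x h : E) : Set ℝ :=
  {r | ∃ t : ℝ, 0 < t ∧ x + t • h ∈ D ∧ r = (f (x + t • h) - f x) / t}

/-- one-sided derivative -/
noncomputable def dd (D : Set E) (f : E → ℝ) (x h : E) : ℝ := sInf (slopes D f x h)

variable [IsTopologicalAddGroup E] [ContinuousSMul ℝ E]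

lemma exists_small {D : Set E} (hD : IsOpen D) {x : E} (hx : x ∈ D) (h : E) :
    ∃ δ > 0, ∀ t : ℝ, |t| < δ → x + t • h ∈ D := by
  have h1 : ContinuousAt (fun t : ℝ => x + t • h) 0 := by fun_prop
  have h2 : D ∈ 𝓝 ((fun t : ℝ => x + t • h) 0) := by
    simp only [zero_smul, add_zero]
    exact hD.mem_nhds hx
  obtain ⟨δ, hδ, h3⟩ := Metric.mem_nhds_iff.1 (h1.preimage_mem_nhds h2)
  refine ⟨δ, hδ, fun t ht => h3 ?_⟩
  simpa using ht

lemma slopes_ne {D : Set E} (hD : IsOpen D) {f : E → ℝ} {x : E} (hx : x ∈ D) (h : E) :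
    (slopes D f x h).Nonempty := by
  obtain ⟨δ, hδ, h1⟩ := exists_small hD hx h
  exact ⟨_, δ / 2, by positivity, h1 _ (by rw [abs_of_pos (by positivity)]; linarith), rfl⟩

lemma slopes_bdd {D : Set E} (hD : IsOpen D) {f : E → ℝ} (hf : ConvexOn ℝ D f) {x : E}
    (hx : x ∈ D) (h : E) : BddBelow (slopes D f x h) := by
  obtain ⟨δ, hδ, h1⟩ := exists_small hD hx h
  have h2 : x - (δ / 2) • h ∈ D := by
    have := h1 (-(δ / 2)) (by rw [abs_neg, abs_of_pos (by positivity)]; linarith)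
    rwa [neg_smul, ← sub_eq_add_neg] at this
  refine ⟨-((f (x - (δ / 2) • h) - f x) / (δ / 2)), ?_⟩
  rintro r ⟨t, ht, ht2, rfl⟩
  exact three_point hf (by positivity) ht ht2 h2

lemma dd_le {D : Set E} (hD : IsOpen D) {f : E → ℝ} (hf : ConvexOn ℝ D f) {x : E}
    (hx : x ∈ D) {h : E} {t : ℝ} (ht : 0 < t) (h1 : x + t • h ∈ D) :
    dd D f x h ≤ (f (x + t • h) - f x) / t :=
  csInf_le (slopes_bdd hD hf hx h) ⟨t, ht, h1, rfl⟩

lemma le_dd {D : Set E} (hD : IsOpen D) {f : E → ℝ} (hf : ConvexOn ℝ D f) {x : E}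
    (hx : x ∈ D) {h : E} {s : ℝ} (hs : 0 < s) (h1 : x - s • h ∈ D) :
    -((f (x - s • h) - f x) / s) ≤ dd D f x h := by
  apply le_csInf (slopes_ne hD hx h)
  rintro r ⟨t, ht, ht2, rfl⟩
  exact three_point hf hs ht ht2 h1

theorem diff_of_sd {𝓑 : Set (Set E)} {D : Set E} (hD : IsOpen D) {f : E → ℝ}
    (hfc : ContinuousOn f D) (hf : ConvexOn ℝ D f) {x : E} (hx : x ∈ D)
    (hs : ∀ h : E, {h} ∈ 𝓑) (h : SD 𝓑 D f x) : DiffAt 𝓑 D f x := by
  -- upper estimate of slopes
  have key : ∀ (h : E) (t : ℝ), 0 < t → x + t • h ∈ D → x - t • h ∈ D →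
      (f (x + t • h) - f x) / t ≤ dd D f x h + (f (x + t • h) + f (x - t • h) - 2 * f x) / t := by
    intro h t ht h1 h2
    have h3 := le_dd hD hf hx ht h2
    have h4 : (f (x + t • h) + f (x - t • h) - 2 * f x) / t =
        (f (x + t • h) - f x) / t + (f (x - t • h) - f x) / t := by
      rw [← add_div]; ring_nf
    rw [h4]
    linarith
  have small : ∀ (h : E) (ε : ℝ), 0 < ε → ∃ δ > 0, ∀ t, 0 < t → t < δ → x + t • h ∈ D ∧
      (f (x + t • h) - f x) / t ≤ dd D f x h + ε := by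
    intro k ε hε
    obtain ⟨δ, hδ, h1⟩ := h {k} (hs k) ε hε
    refine ⟨δ, hδ, fun t ht1 ht2 => ?_⟩
    obtain ⟨h2, h3, h4⟩ := h1 k rfl t ht1 ht2
    refine ⟨h2, (key k t ht1 h2 h3).trans ?_⟩
    have : (f (x + t • k) + f (x - t • k) - 2 * f x) / t ≤ ε := by
      rw [div_le_iff₀ ht1]; exact h4
    linarith
  have hneg : ∀ h, dd D f x (-h) = - dd D f x h := by
    intro k
    apply le_antisymm
    · apply le_of_forall_pos_le_add
      intro ε hε
      obtain ⟨δ, hδ, h1⟩ := h {k} (hs k) ε hε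
      obtain ⟨h2, h3, h4⟩ := h1 k rfl (δ / 2) (by positivity) (by linarith)
      have e1 : dd D f x (-k) ≤ (f (x - (δ / 2) • k) - f x) / (δ / 2) := by
        have := dd_le hD hf hx (h := -k) (t := δ / 2) (by positivity)
          (by rwa [smul_neg, ← sub_eq_add_neg])
        rwa [smul_neg, ← sub_eq_add_neg] at this
      have e2 := dd_le hD hf hx (h := k) (t := δ / 2) (by positivity) h2
      have e3 : (f (x + (δ / 2) • k) + f (x - (δ / 2) • k) - 2 * f x) / (δ / 2) ≤ ε := by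
        rw [div_le_iff₀ (by positivity)]; exact h4
      have e4 : (f (x + (δ / 2) • k) + f (x - (δ / 2) • k) - 2 * f x) / (δ / 2) =
        (f (x + (δ / 2) • k) - f x) / (δ / 2) + (f (x - (δ / 2) • k) - f x) / (δ / 2) := by
        rw [← add_div]; ring_nf
      linarith
    · rw [neg_le]
      apply le_csInf (slopes_ne hD hx k)
      rintro r ⟨t, ht, ht2, rfl⟩
      have := le_dd hD hf hx (h := -k) ht (by rwa [smul_neg, sub_neg_eq_add])
      rw [smul_neg, sub_neg_eq_add] at this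
      linarith
  have hsub : ∀ h k, dd D f x (h + k) ≤ dd D f x h + dd D f x k := by
    intro a b
    apply le_of_forall_pos_le_add
    intro ε hε
    obtain ⟨δ1, hδ1, h1⟩ := small a (ε / 2) (by positivity)
    obtain ⟨δ2, hδ2, h2⟩ := small b (ε / 2) (by positivity)
    set t := min δ1 δ2 / 4 with ht
    have ht0 : 0 < t := by positivity
    have ht1 : 2 * t < δ1 := by
      have := min_le_left δ1 δ2
      rw [ht]; linarith
    have ht2 : 2 * t < δ2 := by
      have := min_le_right δ1 δ2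
      rw [ht]; linarith
    obtain ⟨a1, a2⟩ := h1 (2 * t) (by positivity) ht1
    obtain ⟨b1, b2⟩ := h2 (2 * t) (by positivity) ht2
    have e1 : x + t • (a + b) = (1/2 : ℝ) • (x + (2 * t) • a) + (1/2 : ℝ) • (x + (2 * t) • b) := by
      module
    have e2 : x + t • (a + b) ∈ D := by
      rw [e1]
      exact hf.1 a1 b1 (by norm_num) (by norm_num) (by norm_num)
    have e3 := hf.2 a1 b1 (show (0:ℝ) ≤ 1/2 by norm_num) (show (0:ℝ) ≤ 1/2 by norm_num) (by norm_num)
    rw [← e1] at e3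
    simp only [smul_eq_mul] at e3
    have e4 := dd_le hD hf hx ht0 e2
    have e5 : (f (x + t • (a + b)) - f x) / t ≤ (f (x + (2 * t) • a) - f x) / (2 * t) +
        (f (x + (2 * t) • b) - f x) / (2 * t) := by
      rw [← add_div, div_le_div_iff₀ ht0 (by positivity)]
      nlinarith
    linarith
  have hadd : ∀ h k, dd D f x (h + k) = dd D f x h + dd D f x k := by
    intro a b
    apply le_antisymm (hsub a b)
    have h1 := hsub (a + b) (-b)
    rw [add_neg_cancel_right, hneg] at h1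
    linarith
  have hposle : ∀ (c : ℝ), 0 < c → ∀ h, dd D f x (c • h) ≤ c * dd D f x h := by
    intro c hc k
    rw [← div_le_iff₀' hc]
    apply le_csInf (slopes_ne hD hx k)
    rintro r ⟨t, ht, ht2, rfl⟩
    have e1 : x + (t / c) • (c • k) = x + t • k := by
      rw [smul_smul, div_mul_cancel₀ _ hc.ne']
    have := dd_le hD hf hx (h := c • k) (t := t / c) (by positivity) (by rwa [e1])
    rw [e1] at this
    rw [div_le_iff₀' hc]
    calc _ ≤ _ := this
      _ = _ := by field_simp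
  have hpos : ∀ (c : ℝ), 0 < c → ∀ h, dd D f x (c • h) = c * dd D f x h := by
    intro c hc k
    apply le_antisymm (hposle c hc k)
    have h1 := hposle c⁻¹ (by positivity) (c • k)
    rw [smul_smul, inv_mul_cancel₀ hc.ne', one_smul] at h1
    calc c * dd D f x k ≤ c * (c⁻¹ * dd D f x (c • k)) := mul_le_mul_of_nonneg_left h1 hc.le
      _ = dd D f x (c • k) := by field_simp
  have hsmul : ∀ (c : ℝ) h, dd D f x (c • h) = c * dd D f x h := by
    intro c k
    rcases lt_trichotomy c 0 with hc | hc | hc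
    · have h1 := hpos (-c) (by linarith) k
      rw [neg_smul, hneg] at h1
      linarith
    · subst hc
      have h1 := hadd 0 0
      rw [add_zero] at h1
      rw [zero_smul, zero_mul]
      linarith
    · exact hpos c hc k
  let φ₀ : E →ₗ[ℝ] ℝ :=
    { toFun := dd D f x
      map_add' := hadd
      map_smul' := fun c h => by simp [hsmul] }
  have hcont : Continuous φ₀ := by
    apply continuous_of_continuousAt_zero
    rw [Metric.continuousAt_iff' ]
    intro ε hε
    have h1 : ∀ᶠ h in 𝓝 (0 : E), x + h ∈ D ∧ f (x + h) < f x + 1 := by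
      have hx' : ContinuousAt (fun h : E => x + h) 0 := by fun_prop
      have h2 : ∀ᶠ z in 𝓝 (x + 0), z ∈ D := by
        rw [add_zero]; exact hD.mem_nhds hx
      have h3 : ∀ᶠ z in 𝓝 (x + 0), f z < f x + 1 := by
        rw [add_zero]
        exact Filter.Tendsto.eventually_lt_const (show f x < f x + 1 by linarith)
          (hfc.continuousAt (hD.mem_nhds hx))
      exact (hx'.eventually h2).and (hx'.eventually h3)
    have h2 : ∀ᶠ h in 𝓝 (0 : E), dd D f x h ≤ 1 := by
      filter_upwards [h1] with h hh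
      have := dd_le hD hf hx (h := h) (t := 1) one_pos (by rw [one_smul]; exact hh.1)
      rw [one_smul, div_one] at this
      linarith [hh.2]
    have h3 : ∀ᶠ h in 𝓝 (0 : E), |dd D f x h| ≤ 1 := by
      have hn : Filter.Tendsto (fun h : E => -h) (𝓝 0) (𝓝 0) := by
        have : Continuous (fun h : E => -h) := continuous_neg
        simpa using this.tendsto 0
      filter_upwards [h2, hn.eventually h2] with h a b
      rw [hneg] at b
      exact abs_le.2 ⟨by linarith, a⟩
    have hm : Filter.Tendsto (fun h : E => (2 / ε) • h) (𝓝 0) (𝓝 0) := by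
      have : Continuous (fun h : E => (2 / ε) • h) := continuous_const_smul _
      simpa using this.tendsto 0
    filter_upwards [hm.eventually h3] with h a
    rw [hsmul, abs_mul, abs_of_pos (by positivity), div_mul_eq_mul_div, div_le_one hε] at a
    have e1 : φ₀ 0 = 0 := map_zero _
    rw [e1, Real.dist_eq, sub_zero]
    change |dd D f x h| < ε
    linarith
  refine ⟨⟨φ₀, hcont⟩, fun B hB ε hε => ?_⟩
  obtain ⟨δ, hδ, h1⟩ := h B hB (ε / 2) (by positivity)
  refine ⟨δ, hδ, fun t ht1 ht2 k hk => ?_⟩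
  change x + t • k ∈ D ∧ |(f (x + t • k) - f x) / t - dd D f x k| < ε
  have pos_case : ∀ s : ℝ, 0 < s → s < δ → (x + s • k ∈ D ∧
      |(f (x + s • k) - f x) / s - dd D f x k| < ε) ∧
      (x - s • k ∈ D ∧ |(f (x - s • k) - f x) / (-s) - dd D f x k| < ε) := by
    intro s hs1 hs2
    obtain ⟨h2, h3, h4⟩ := h1 k hk s hs1 hs2
    have e0 : (f (x + s • k) + f (x - s • k) - 2 * f x) / s ≤ ε / 2 := by
      rw [div_le_iff₀ hs1]; exact h4
    have e1 := key k s hs1 h2 h3
    have e2 := dd_le hD hf hx hs1 h2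
    have e3 := le_dd hD hf hx hs1 h3
    have e4 : (f (x + s • k) + f (x - s • k) - 2 * f x) / s =
        (f (x + s • k) - f x) / s + (f (x - s • k) - f x) / s := by
      rw [← add_div]; ring_nf
    refine ⟨⟨h2, ?_⟩, h3, ?_⟩
    · rw [abs_lt]; constructor <;> linarith
    · rw [div_neg, abs_lt]; constructor <;> linarith
  rcases lt_trichotomy t 0 with ht | ht | ht
  · rw [abs_of_neg ht] at ht2
    have := (pos_case (-t) (by linarith) ht2).2
    rw [neg_smul, sub_neg_eq_add, neg_neg] at this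
    exact this
  · rw [ht, abs_zero] at ht1
    exact absurd ht1 (lt_irrefl _)
  · rw [abs_of_pos ht] at ht2
    exact (pos_case t ht ht2).1

end basics

/-- a convex function bounded above on a line is constant along the line -/
lemma const_line {E : Type u} [AddCommGroup E] [Module ℝ E] {D : Set E} {f : E → ℝ}
    (hf : ConvexOn ℝ D f) {z w : E} {M : ℝ} (h : ∀ r : ℝ, z + r • w ∈ D ∧ f (z + r • w) ≤ M) :
    f (z + w) = f z := by
  have key : ∀ (z w : E), (∀ r : ℝ, z + r • w ∈ D ∧ f (z + r • w) ≤ M) → f (z + w) ≤ f z := by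
    intro z w h
    by_contra hcon
    push Not at hcon
    have hz : z ∈ D := by simpa using (h 0).1
    obtain ⟨n, hn⟩ := exists_nat_gt ((M - f z) / (f (z + w) - f z))
    have hpos : 0 < f (z + w) - f z := by linarith
    rw [div_lt_iff₀ hpos] at hn
    have hn0 : 0 < (n : ℝ) := by
      by_contra h0
      have : (n : ℝ) ≤ 0 := not_lt.1 h0
      have h1 : (M - f z) < 0 := lt_of_lt_of_le hn (mul_nonpos_of_nonpos_of_nonneg this hpos.le)
      have h2 := (h 0).2
      simp at h2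
      linarith
    have hn1 : (1 : ℝ) ≤ n := by
      have : 0 < n := by exact_mod_cast hn0
      exact_mod_cast this
    have e1 := hf.2 (h n).1 hz (show 0 ≤ 1 / (n : ℝ) by positivity)
      (show 0 ≤ 1 - 1 / (n : ℝ) by
        rw [sub_nonneg, div_le_one hn0]; exact hn1) (by ring)
    have e2 : (1 / (n : ℝ)) • (z + (n : ℝ) • w) + (1 - 1 / (n : ℝ)) • z = z + w := by
      rw [smul_add, smul_smul, sub_smul, one_smul, one_div, inv_mul_cancel₀ hn0.ne', one_smul]
      abel
    rw [e2] at e1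
    simp only [smul_eq_mul] at e1
    have e3 := (h n).2
    have e4 : n * f (z + w) ≤ f (z + (n : ℝ) • w) + (n - 1) * f z := by
      have := mul_le_mul_of_nonneg_left e1 hn0.le
      calc _ ≤ _ := this
        _ = _ := by field_simp
    nlinarith
  apply le_antisymm (key z w h)
  have := key (z + w) (-w) (fun r => by
    have e : z + w + r • (-w) = z + (1 - r) • w := by module
    rw [e]; exact h _)
  simpa using this

end H647R3.Fac
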