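import Pool.Agent.H647R3.DA

open Set Topology

universe u v

namespace H647R3.Fac

lemma exists_pos_le_all {ι : Type v} (s : Finset ι) (e : ι → ℝ) (he : ∀ i, 0 < e i) :
    ∃ r > 0, ∀ i ∈ s, r ≤ e i := by
  classical
  induction s using Finset.induction_on with
  | empty => exact ⟨1, one_pos, by simp⟩
  | insert a s _ ih =>
    obtain ⟨r, h1, h2⟩ := ih
    refine ⟨min r (e a), lt_min h1 (he a), ?_⟩
    intro b hb
    rw [Finset.mem_insert] at hb
    rcases hb with rfl | hb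
    · exact min_le_right _ _
    · exact (min_le_left _ _).trans (h2 b hb)

/-- finitely supported functions as a subspace of `Γ → ℝ` -/
def FS (Γ : Type u) : Submodule ℝ (Γ → ℝ) where
  carrier := {y | (Function.support y).Finite}
  add_mem' := fun {a b} ha hb => (ha.union hb).subset (Function.support_add a b)
  zero_mem' := by simp
  smul_mem' := fun c y hy => hy.subset (Function.support_const_smul_subset c y)

variable {Γ : Type u}

lemma FS_nhds {V : Set (FS Γ)} {y : FS Γ} (hV : V ∈ 𝓝 y) : ∃ (A : Finset Γ) (r : ℝ), 0 < r ∧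
    ∀ y' : FS Γ, (∀ a ∈ A, |y'.1 a - y.1 a| < r) → y' ∈ V := by
  rw [nhds_subtype_eq_comap, Filter.mem_comap] at hV
  obtain ⟨V', hV', hsub⟩ := hV
  rw [nhds_pi, Filter.mem_pi] at hV'
  obtain ⟨J, hJ, t, ht, htV⟩ := hV'
  have h2 : ∀ a, ∃ ε > 0, Metric.ball (y.1 a) ε ⊆ t a := fun a => Metric.mem_nhds_iff.1 (ht a)
  choose e he1 he2 using h2
  obtain ⟨r, hr, hr2⟩ := exists_pos_le_all hJ.toFinset e he1
  refine ⟨hJ.toFinset, r, hr, fun y' hy' => hsub (htV fun a ha => he2 a ?_)⟩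
  have ha' : a ∈ hJ.toFinset := hJ.mem_toFinset.2 ha
  rw [Metric.mem_ball, Real.dist_eq]
  exact (hy' a ha').trans_le (hr2 a ha')

lemma FS_cont (a : Γ) : Continuous (fun y : FS Γ => y.1 a) :=
  (continuous_apply a).comp continuous_subtype_val

lemma FS_isOpen (A : Finset Γ) (y : FS Γ) (r : ℝ) :
    IsOpen {y' : FS Γ | ∀ a ∈ A, |y'.1 a - y.1 a| < r} := by
  have : {y' : FS Γ | ∀ a ∈ A, |y'.1 a - y.1 a| < r} =
      ⋂ a ∈ A, {y' : FS Γ | |y'.1 a - y.1 a| < r} := by ext; simp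
  rw [this]
  exact isOpen_biInter_finset fun a _ =>
    isOpen_lt ((FS_cont a).sub continuous_const).abs continuous_const

open Classical in
/-- vectors supported on a finite set -/
noncomputable def emb (A : Finset Γ) (c : A → ℝ) : FS Γ :=
  ⟨fun a => if h : a ∈ A then c ⟨a, h⟩ else 0, by
    refine (A.finite_toSet).subset fun a ha => ?_
    rw [Function.mem_support] at ha
    by_contra h
    exact ha (dif_neg h)⟩

lemma emb_apply (A : Finset Γ) (c : A → ℝ) {a : Γ} (h : a ∈ A) : (emb A c).1 a = c ⟨a, h⟩ := by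
  simp [emb, h]

lemma emb_zero (A : Finset Γ) : emb A 0 = 0 := by
  apply Subtype.ext
  funext a
  by_cases h : a ∈ A
  · rw [emb_apply A 0 h]; rfl
  · simp [emb, h]

lemma emb_cont (A : Finset Γ) : Continuous (emb A : (A → ℝ) → FS Γ) := by
  apply Continuous.subtype_mk
  apply continuous_pi
  intro a
  by_cases h : a ∈ A
  · simp only [h, dif_pos]
    exact continuous_apply _
  · simp only [h, dif_neg, not_false_eq_true]
    exact continuous_const

section sup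

variable {E : Type u} [AddCommGroup E] [Module ℝ E] [TopologicalSpace E]

lemma sup_fn {C : Type v} [TopologicalSpace C] [CompactSpace C] [Nonempty C] {DE : Set E}
    (hDE : Convex ℝ DE)
    (F : E → C → ℝ) (hF : Continuous (fun p : DE × C => F p.1.1 p.2))
    (hconv : ∀ c, ConvexOn ℝ DE (fun x => F x c)) :
    ∃ G : E → ℝ, ContinuousOn G DE ∧ ConvexOn ℝ DE G ∧ (∀ x ∈ DE, ∃ c, G x = F x c) ∧
      ∀ x ∈ DE, ∀ c, F x c ≤ G x := by
  have hFx : ∀ x ∈ DE, Continuous (fun c : C => F x c) := by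
    intro x hx
    exact hF.comp (f := fun c : C => (((⟨x, hx⟩ : DE), c) : DE × C))
      (continuous_const.prodMk continuous_id)
  have hatt : ∀ x ∈ DE, ∃ c : C, sSup ((fun c : C => F x c) '' univ) = F x c := by
    intro x hx
    obtain ⟨c, -, hc⟩ := isCompact_univ.exists_sSup_image_eq (univ_nonempty (α := C))
      (hFx x hx).continuousOn
    exact ⟨c, hc⟩
  have hle : ∀ x ∈ DE, ∀ c : C, F x c ≤ sSup ((fun c : C => F x c) '' univ) := by
    intro x hx c
    apply le_csSup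
    · exact (isCompact_univ.image (hFx x hx)).bddAbove
    · exact ⟨c, mem_univ _, rfl⟩
  refine ⟨fun x => sSup ((fun c : C => F x c) '' univ), ?_, ?_, hatt, hle⟩
  · rw [continuousOn_iff_continuous_domRestrict]
    exact IsCompact.continuous_sSup (f := fun (x : DE) (c : C) => F x.1 c) isCompact_univ hF
  · refine ⟨hDE, fun x hx x' hx' a b ha hb hab => ?_⟩
    obtain ⟨c, hc⟩ := hatt _ (hDE hx hx' ha hb hab)
    simp only
    rw [hc]
    have e1 := (hconv c).2 hx hx' ha hb hab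
    have e3 := hle x hx c
    have e4 := hle x' hx' c
    simp only [smul_eq_mul] at e1 ⊢
    have e5 := mul_le_mul_of_nonneg_left e3 ha
    have e6 := mul_le_mul_of_nonneg_left e4 hb
    linarith

end sup

section main

variable {E : Type u} [AddCommGroup E] [Module ℝ E] [TopologicalSpace E]
  [IsTopologicalAddGroup E] [ContinuousSMul ℝ E] [LocallyConvexSpace ℝ E]

/-- local box on which a continuous function is bounded -/
lemma exists_box {D : Set (E × FS Γ)} (hD : IsOpen D) {g : E × FS Γ → ℝ} (hg : ContinuousOn g D)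
    {z : E × FS Γ} {O : Set (E × FS Γ)} (hO : IsOpen O) (hzO : z ∈ O) (hzD : z ∈ D) :
    ∃ (U : Set E) (A : Finset Γ) (r : ℝ), 0 ∈ U ∧ IsOpen U ∧ AbsConvex ℝ U ∧ 0 < r ∧
      ∀ w : E × FS Γ, w.1 - z.1 ∈ U → (∀ a ∈ A, |w.2.1 a - z.2.1 a| < r) →
        w ∈ D ∧ w ∈ O ∧ g w < g z + 1 := by
  have h1 : {w | w ∈ D ∧ w ∈ O ∧ g w < g z + 1} ∈ 𝓝 z := by
    have e1 : ∀ᶠ w in 𝓝 z, w ∈ D := hD.mem_nhds hzD
    have e2 : ∀ᶠ w in 𝓝 z, w ∈ O := hO.mem_nhds hzO
    have e3 : ∀ᶠ w in 𝓝 z, g w < g z + 1 :=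
      Filter.Tendsto.eventually_lt_const (show g z < g z + 1 by linarith)
        (hg.continuousAt (hD.mem_nhds hzD))
    filter_upwards [e1, e2, e3] with w a b c
    exact ⟨a, b, c⟩
  obtain ⟨u, hu, v, hv, huv⟩ := mem_nhds_prod_iff.1 (show _ ∈ 𝓝 (z.1, z.2) from h1)
  obtain ⟨A, r, hr, hA⟩ := FS_nhds hv
  have h2 : (fun x : E => z.1 + x) ⁻¹' u ∈ 𝓝 (0 : E) := by
    have hc : Continuous (fun x : E => z.1 + x) := by fun_prop
    apply hc.continuousAt.preimage_mem_nhds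
    rwa [add_zero]
  obtain ⟨U, ⟨hU1, hU2, hU3⟩, hU4⟩ := (nhds_hasBasis_absConvex_open ℝ E).mem_iff.1 h2
  refine ⟨U, A, r, hU1, hU2, hU3, hr, fun w hw1 hw2 => ?_⟩
  have h3 := hU4 hw1
  have h4 : w.1 ∈ u := by
    have : z.1 + (w.1 - z.1) ∈ u := h3
    rwa [add_sub_cancel] at this
  exact huv (show (w.1, w.2) ∈ u ×ˢ v from ⟨h4, hA _ hw2⟩)

/-- density of the points of differentiability in the product -/
theorem dense_prod {𝓑E : Set (Set E)} {𝓑 : Set (Set (E × FS Γ))}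
    (hfst : ∀ B ∈ 𝓑, Prod.fst '' B ∈ 𝓑E)
    (hsnd : ∀ B ∈ 𝓑, ∀ a : Γ, ∃ C : ℝ, ∀ h ∈ B, |h.2.1 a| ≤ C)
    (hE : ∀ D : Set E, D.Nonempty → IsOpen D → Convex ℝ D → ∀ f : E → ℝ, ContinuousOn f D →
      ConvexOn ℝ D f → D ⊆ closure {x | x ∈ D ∧ SD 𝓑E D f x})
    {D : Set (E × FS Γ)} (hD : IsOpen D) {g : E × FS Γ → ℝ} (hgc : ContinuousOn g D)
    (hg : ConvexOn ℝ D g) : D ⊆ closure {z | z ∈ D ∧ SD 𝓑 D g z} := by
  classical
  intro z₀ hz₀
  rw [mem_closure_iff]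
  intro O hO hzO
  obtain ⟨U, A, r, hU0, hUo, hUc, hr, hbox⟩ := exists_box hD hgc hO hzO hz₀
  obtain ⟨x₀, y₀⟩ := z₀
  simp only at hbox
  -- smaller neighbourhood
  have hlow : ∀ᶠ x in 𝓝 (0 : E), x ∈ U ∧ g (x₀, y₀) - 1 < g (x₀ + x, y₀) := by
    have e1 : ∀ᶠ x in 𝓝 (0 : E), x ∈ U := hUo.mem_nhds hU0
    have hc : Filter.Tendsto (fun x : E => ((x₀ + x, y₀) : E × FS Γ)) (𝓝 0) (𝓝 (x₀, y₀)) := by
      have : Continuous (fun x : E => ((x₀ + x, y₀) : E × FS Γ)) := by fun_prop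
      simpa using this.tendsto 0
    have e2 : ∀ᶠ w in 𝓝 ((x₀, y₀) : E × FS Γ), g (x₀, y₀) - 1 < g w :=
      Filter.Tendsto.eventually_const_lt (show g (x₀, y₀) - 1 < g (x₀, y₀) by linarith)
        (hgc.continuousAt (hD.mem_nhds hz₀))
    exact e1.and (hc.eventually e2)
  obtain ⟨U', ⟨hU'0, hU'o, hU'c⟩, hU'sub⟩ := (nhds_hasBasis_absConvex_open ℝ E).mem_iff.1 hlow
  set DE : Set E := {x | x - x₀ ∈ U'} with hDE
  have hDEo : IsOpen DE := hU'o.preimage (by fun_prop : Continuous fun x : E => x - x₀)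
  have hDEne : DE.Nonempty := ⟨x₀, by rw [hDE]; simpa using hU'0⟩
  have hDEc : Convex ℝ DE := by
    have : DE = (fun x => -x₀ + x) ⁻¹' U' := by
      ext x
      simp only [hDE, mem_ofPred_eq, mem_preimage]
      rw [neg_add_eq_sub]
    rw [this]
    exact hU'c.2.translate_preimage_right _
  have hDEU : ∀ x ∈ DE, x - x₀ ∈ U ∧ g (x₀, y₀) - 1 < g (x, y₀) := by
    intro x hx
    have := hU'sub hx
    simp only [mem_ofPred_eq, add_sub_cancel] at this
    exact this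
  -- compact set
  haveI : CompactSpace (Metric.closedBall (0 : A → ℝ) (r / 2)) :=
    isCompact_iff_compactSpace.1 (isCompact_closedBall _ _)
  have hc0 : (0 : A → ℝ) ∈ Metric.closedBall (0 : A → ℝ) (r / 2) := by
    rw [mem_closedBall_zero_iff, norm_zero]; positivity
  haveI : Nonempty (Metric.closedBall (0 : A → ℝ) (r / 2)) := ⟨⟨0, hc0⟩⟩
  have hK : ∀ c ∈ Metric.closedBall (0 : A → ℝ) (r / 2), ∀ a : A, |c a| ≤ r / 2 := by
    intro c h1 a
    rw [mem_closedBall_zero_iff] at h1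
    exact (norm_le_pi_norm c a).trans h1
  have hK' : ∀ c : A → ℝ, (∀ a : A, |c a| ≤ r / 2) → c ∈ Metric.closedBall (0 : A → ℝ) (r / 2) := by
    intro c h1
    rw [mem_closedBall_zero_iff, pi_norm_le_iff_of_nonneg (by positivity)]
    exact h1
  set N : ℝ := 16 / r ^ 2 with hN
  have hNpos : 0 < N := by positivity
  -- points of the box
  have hin : ∀ x, x - x₀ ∈ U → ∀ c : A → ℝ, (∀ a, |c a| < r) → (x, y₀ + emb A c) ∈ D ∧
      (x, y₀ + emb A c) ∈ O ∧ g (x, y₀ + emb A c) < g (x₀, y₀) + 1 := by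
    intro x hx c hc
    apply hbox
    · exact hx
    · intro a ha
      change |(y₀ + emb A c).1 a - y₀.1 a| < r
      have : (y₀ + emb A c).1 a = y₀.1 a + (emb A c).1 a := rfl
      rw [this, add_sub_cancel_left, emb_apply A c ha]
      exact hc _
  obtain ⟨G, hGc, hGconv, hatt, hle⟩ := sup_fn hDEc
    (fun (x : E) (c : Metric.closedBall (0 : A → ℝ) (r / 2)) =>
      g (x, y₀ + emb A c.1) - N * ∑ a, c.1 a ^ 2)
    (by
      have h1 : Continuous (fun p : DE × Metric.closedBall (0 : A → ℝ) (r / 2) =>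
          ((p.1.1, y₀ + emb A p.2.1) : E × FS Γ)) := by
        have := emb_cont A
        fun_prop
      have h2 : Continuous (fun p : DE × Metric.closedBall (0 : A → ℝ) (r / 2) =>
          g (p.1.1, y₀ + emb A p.2.1)) := by
        apply hgc.comp_continuous h1
        intro p
        exact (hin p.1.1 (hDEU _ p.1.2).1 p.2.1
          (fun a => (hK p.2.1 p.2.2 a).trans_lt (by linarith))).1
      have h3 : Continuous (fun p : DE × Metric.closedBall (0 : A → ℝ) (r / 2) =>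
          N * ∑ a, p.2.1 a ^ 2) := by
        refine continuous_const.mul (continuous_finsetSum _ fun a _ => ?_)
        exact ((continuous_apply a).comp (continuous_subtype_val.comp continuous_snd)).pow 2
      exact h2.sub h3)
    (by
      intro c
      refine ⟨hDEc, fun x hx x' hx' a b ha hb hab => ?_⟩
      have hcr : ∀ i, |c.1 i| < r := fun i => (hK c.1 c.2 i).trans_lt (by linarith)
      have e1 := hg.2 (hin x (hDEU x hx).1 c.1 hcr).1 (hin x' (hDEU x' hx').1 c.1 hcr).1 ha hb hab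
      have e2 : a • ((x, y₀ + emb A c.1) : E × FS Γ) + b • ((x', y₀ + emb A c.1) : E × FS Γ) =
          (a • x + b • x', y₀ + emb A c.1) := by
        apply Prod.ext
        · rfl
        · change a • (y₀ + emb A c.1) + b • (y₀ + emb A c.1) = y₀ + emb A c.1
          rw [← add_smul, hab, one_smul]
      rw [e2] at e1
      simp only [smul_eq_mul] at e1 ⊢
      have e10 : a * (N * ∑ i, c.1 i ^ 2) + b * (N * ∑ i, c.1 i ^ 2) = N * ∑ i, c.1 i ^ 2 := by
        rw [← add_mul, hab, one_mul]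
      nlinarith)
  -- a good point
  have hgood := hE DE hDEne hDEo hDEc G hGc hGconv
  obtain ⟨x₁, hx₁, hSD⟩ : {x | x ∈ DE ∧ SD 𝓑E DE G x}.Nonempty := by
    rw [← closure_nonempty_iff]
    exact ⟨x₀, hgood (by rw [hDE]; simpa using hU'0)⟩
  obtain ⟨⟨c₁, hc₁⟩, hGx₁⟩ := hatt x₁ hx₁
  simp only at hGx₁
  have hstrict : ∀ a, |c₁ a| < r / 2 := by
    intro a
    by_contra hcon
    push Not at hcon
    have e1 : (r / 2) ^ 2 ≤ ∑ a, c₁ a ^ 2 := by
      calc (r / 2) ^ 2 ≤ |c₁ a| ^ 2 := pow_le_pow_left₀ (by positivity) hcon 2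
        _ = c₁ a ^ 2 := sq_abs _
        _ ≤ ∑ a, c₁ a ^ 2 := Finset.single_le_sum (f := fun a => c₁ a ^ 2)
            (fun i _ => by positivity) (Finset.mem_univ a)
    have e2 : N * (r / 2) ^ 2 = 4 := by rw [hN]; field_simp; norm_num
    have e3 := mul_le_mul_of_nonneg_left e1 hNpos.le
    have e4 := (hin x₁ (hDEU x₁ hx₁).1 c₁ (fun i => (hK c₁ hc₁ i).trans_lt (by linarith))).2.2
    have e5 := hle x₁ hx₁ ⟨0, hc0⟩
    simp only [emb_zero, add_zero, Pi.zero_apply, ne_eq, OfNat.ofNat_ne_zero, not_false_eq_true,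
      zero_pow, Finset.sum_const_zero, mul_zero, sub_zero] at e5
    have e6 := (hDEU x₁ hx₁).2
    linarith
  set y₁ : FS Γ := y₀ + emb A c₁ with hy₁
  have hz₁ := hin x₁ (hDEU x₁ hx₁).1 c₁ (fun i => (hstrict i).trans (by linarith))
  refine ⟨(x₁, y₁), hz₁.2.1, hz₁.1, ?_⟩
  -- constancy along the remaining directions
  have hconst : ∀ y : FS Γ, (∀ a ∈ A, |y.1 a - y₀.1 a| < r) →
      g (x₁, y) = g (x₁, y₀ + emb A (fun a => y.1 a - y₀.1 a)) := by
    intro y hy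
    have h1 := const_line hg (z := ((x₁, y) : E × FS Γ))
      (w := ((0, y₀ + emb A (fun a => y.1 a - y₀.1 a) - y) : E × FS Γ)) (M := g (x₀, y₀) + 1)
      (fun s => by
        have h2 := hbox (((x₁, y) : E × FS Γ) +
          s • ((0, y₀ + emb A (fun a => y.1 a - y₀.1 a) - y) : E × FS Γ)) (by
            simp only [Prod.smul_mk, smul_zero, Prod.mk_add_mk, add_zero]
            exact (hDEU x₁ hx₁).1) (by
            intro a ha
            have e1 : (((x₁, y) : E × FS Γ) +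
              s • ((0, y₀ + emb A (fun a => y.1 a - y₀.1 a) - y) : E × FS Γ)).2.1 a =
              y.1 a + s * (y₀.1 a + (emb A (fun a : A => y.1 a - y₀.1 a)).1 a - y.1 a) := rfl
            rw [e1, emb_apply A _ ha]
            simp only [add_sub_cancel, sub_self, mul_zero, add_zero]
            exact hy a ha)
        exact ⟨h2.1, h2.2.2.le⟩)
    rw [← h1]
    congr 1
    simp
  -- upper bound
  have hub : ∀ x ∈ DE, ∀ c : A → ℝ, (∀ a, |c a| ≤ r / 2) →
      g (x, y₀ + emb A c) ≤ G x + N * ∑ a, c a ^ 2 := by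
    intro x hx c hc
    have := hle x hx ⟨c, hK' c hc⟩
    simp only at this
    linarith
  intro B hB ε hε
  choose C hC using fun a : Γ => hsnd B hB a
  obtain ⟨δ₁, hδ₁, hδ₁'⟩ := hSD _ (hfst B hB) (ε / 2) (by positivity)
  set S : ℝ := ∑ a : A, (C a) ^ 2 with hS
  have hS0 : 0 ≤ S := Finset.sum_nonneg fun _ _ => by positivity
  obtain ⟨δ₂, hδ₂, hδ₂'⟩ := exists_pos_le_all (Finset.univ : Finset A)
    (fun a => (r / 2 - |c₁ a|) / (2 * (|C a| + 1)))
    (fun a => div_pos (by linarith [hstrict a]) (by positivity))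
  refine ⟨min (δ₁ / 2) (min δ₂ (ε / (8 * N * S + 1))), by positivity, fun h hh t ht1 ht2 => ?_⟩
  have ht3 : 2 * t < δ₁ := by
    have := ht2.trans_le (min_le_left _ _)
    linarith
  have ht4 : t < δ₂ := ht2.trans_le ((min_le_right _ _).trans (min_le_left _ _))
  have ht5 : t < ε / (8 * N * S + 1) := ht2.trans_le ((min_le_right _ _).trans (min_le_right _ _))
  obtain ⟨g1, g2, g3⟩ := hδ₁' h.1 ⟨h, hh, rfl⟩ (2 * t) (by positivity) ht3
  have hCle : ∀ a, |h.2.1 a| ≤ C a := fun a => hC a h hh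
  have hca : ∀ a : A, 2 * t * |h.2.1 a| ≤ r / 2 - |c₁ a| := by
    intro a
    have e1 := hδ₂' a (Finset.mem_univ _)
    have e2 : t * (2 * (|C a| + 1)) < r / 2 - |c₁ a| := by
      have := ht4.trans_le e1
      rwa [lt_div_iff₀ (by positivity)] at this
    have e3 : |h.2.1 a| ≤ |C a| + 1 := by
      have := (hCle a).trans (le_abs_self _)
      linarith
    nlinarith
  have hplus : ∀ a : A, |c₁ a + 2 * t * h.2.1 a| ≤ r / 2 := by
    intro a
    have e1 := abs_add_le (c₁ a) (2 * t * h.2.1 a)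
    rw [abs_mul, abs_of_pos (by positivity : 0 < 2 * t)] at e1
    linarith [hca a]
  have hminus : ∀ a : A, |c₁ a - 2 * t * h.2.1 a| ≤ r / 2 := by
    intro a
    have e1 := abs_sub (c₁ a) (2 * t * h.2.1 a)
    rw [abs_mul, abs_of_pos (by positivity : 0 < 2 * t)] at e1
    linarith [hca a]
  -- the four points
  have hp1 : g (x₁ + (2 * t) • h.1, y₁) ≤ G (x₁ + (2 * t) • h.1) + N * ∑ a, c₁ a ^ 2 :=
    hub _ g1 c₁ (fun a => (hstrict a).le)
  have hq1 : g (x₁ - (2 * t) • h.1, y₁) ≤ G (x₁ - (2 * t) • h.1) + N * ∑ a, c₁ a ^ 2 :=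
    hub _ g2 c₁ (fun a => (hstrict a).le)
  have hcoord : ∀ a ∈ A, ∀ s : ℝ, (y₁ + s • h.2).1 a - y₀.1 a =
      (emb A c₁).1 a + s * h.2.1 a := by
    intro a _ s
    have : (y₁ + s • h.2).1 a = y₀.1 a + (emb A c₁).1 a + s * h.2.1 a := rfl
    rw [this]; ring
  have hp2' : ∀ s : ℝ, (∀ a : A, |c₁ a + s * h.2.1 a| ≤ r / 2) →
      (x₁, y₁ + s • h.2) ∈ D ∧
      g (x₁, y₁ + s • h.2) ≤ G x₁ + N * ∑ a : A, (c₁ a + s * h.2.1 a) ^ 2 := by
    intro s hs
    have hlt : ∀ a ∈ A, |(y₁ + s • h.2).1 a - y₀.1 a| < r := by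
      intro a ha
      rw [hcoord a ha, emb_apply A c₁ ha]
      exact (hs ⟨a, ha⟩).trans_lt (by linarith)
    refine ⟨(hbox (x₁, y₁ + s • h.2) (hDEU x₁ hx₁).1 hlt).1, ?_⟩
    rw [hconst _ hlt]
    have e1 : (fun a : A => (y₁ + s • h.2).1 a - y₀.1 a) = fun a : A => c₁ a + s * h.2.1 a := by
      funext a
      rw [hcoord a a.2, emb_apply A c₁ a.2]
    rw [e1]
    exact hub x₁ hx₁ _ hs
  obtain ⟨hp2D, hp2⟩ := hp2' (2 * t) hplus
  obtain ⟨hq2D, hq2⟩ := hp2' (-(2 * t)) (fun a => by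
    have := hminus a
    rwa [neg_mul, ← sub_eq_add_neg])
  have hp1D : (x₁ + (2 * t) • h.1, y₁) ∈ D :=
    (hin _ (hDEU _ g1).1 c₁ (fun i => (hstrict i).trans (by linarith))).1
  have hq1D : (x₁ - (2 * t) • h.1, y₁) ∈ D :=
    (hin _ (hDEU _ g2).1 c₁ (fun i => (hstrict i).trans (by linarith))).1
  have em1 : ((x₁, y₁) : E × FS Γ) + t • h = (1/2 : ℝ) • ((x₁ + (2 * t) • h.1, y₁) : E × FS Γ) +
      (1/2 : ℝ) • ((x₁, y₁ + (2 * t) • h.2) : E × FS Γ) := by
    apply Prod.ext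
    · change x₁ + t • h.1 = (1/2 : ℝ) • (x₁ + (2 * t) • h.1) + (1/2 : ℝ) • x₁
      module
    · change y₁ + t • h.2 = (1/2 : ℝ) • y₁ + (1/2 : ℝ) • (y₁ + (2 * t) • h.2)
      module
  have em2 : ((x₁, y₁) : E × FS Γ) - t • h = (1/2 : ℝ) • ((x₁ - (2 * t) • h.1, y₁) : E × FS Γ) +
      (1/2 : ℝ) • ((x₁, y₁ + (-(2 * t)) • h.2) : E × FS Γ) := by
    apply Prod.ext
    · change x₁ - t • h.1 = (1/2 : ℝ) • (x₁ - (2 * t) • h.1) + (1/2 : ℝ) • x₁
      module
    · change y₁ - t • h.2 = (1/2 : ℝ) • y₁ + (1/2 : ℝ) • (y₁ + (-(2 * t)) • h.2)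
      module
  have i1 := hg.2 hp1D hp2D (by norm_num : (0:ℝ) ≤ 1/2) (by norm_num : (0:ℝ) ≤ 1/2) (by norm_num)
  have i2 := hg.2 hq1D hq2D (by norm_num : (0:ℝ) ≤ 1/2) (by norm_num : (0:ℝ) ≤ 1/2) (by norm_num)
  rw [← em1] at i1
  rw [← em2] at i2
  simp only [smul_eq_mul] at i1 i2
  refine ⟨?_, ?_, ?_⟩
  · rw [em1]
    exact hg.1 hp1D hp2D (by norm_num) (by norm_num) (by norm_num)
  · rw [em2]
    exact hg.1 hq1D hq2D (by norm_num) (by norm_num) (by norm_num)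
  · have hz : g (x₁, y₁) = G x₁ + N * ∑ a, c₁ a ^ 2 := by rw [hGx₁]; ring
    have hsum : ∑ a : A, (c₁ a + 2 * t * h.2.1 a) ^ 2 + ∑ a : A, (c₁ a + -(2 * t) * h.2.1 a) ^ 2 =
        2 * ∑ a, c₁ a ^ 2 + 8 * t ^ 2 * ∑ a : A, (h.2.1 a) ^ 2 := by
      rw [← Finset.sum_add_distrib, Finset.mul_sum, Finset.mul_sum, ← Finset.sum_add_distrib]
      apply Finset.sum_congr rfl
      intro a _
      ring
    have hS1 : ∑ a : A, (h.2.1 a) ^ 2 ≤ S := by
      apply Finset.sum_le_sum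
      intro a _
      rw [← sq_abs]
      exact pow_le_pow_left₀ (abs_nonneg _) (hCle a) 2
    have hfin : 8 * N * S * t ≤ ε := by
      have : t * (8 * N * S + 1) < ε := by rwa [lt_div_iff₀ (by positivity)] at ht5
      linarith
    have hq : N * (∑ a : A, (c₁ a + 2 * t * h.2.1 a) ^ 2 +
        ∑ a : A, (c₁ a + -(2 * t) * h.2.1 a) ^ 2) ≤ 2 * (N * ∑ a, c₁ a ^ 2) + ε * t := by
      rw [hsum]
      have e1 : N * (8 * t ^ 2 * ∑ a : A, (h.2.1 a) ^ 2) ≤ N * (8 * t ^ 2 * S) := by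
        apply mul_le_mul_of_nonneg_left _ hNpos.le
        exact mul_le_mul_of_nonneg_left hS1 (by positivity)
      have e2 : N * (8 * t ^ 2 * S) ≤ ε * t := by
        have := mul_le_mul_of_nonneg_right hfin ht1.le
        calc N * (8 * t ^ 2 * S) = 8 * N * S * t * t := by ring
          _ ≤ ε * t := this
      calc N * (2 * ∑ a, c₁ a ^ 2 + 8 * t ^ 2 * ∑ a : A, (h.2.1 a) ^ 2)
          = 2 * (N * ∑ a, c₁ a ^ 2) + N * (8 * t ^ 2 * ∑ a : A, (h.2.1 a) ^ 2) := by ring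
        _ ≤ _ := by linarith
    have hq' : N * ∑ a : A, (c₁ a + 2 * t * h.2.1 a) ^ 2 +
        N * ∑ a : A, (c₁ a + -(2 * t) * h.2.1 a) ^ 2 ≤ 2 * (N * ∑ a, c₁ a ^ 2) + ε * t := by
      rw [← mul_add]; exact hq
    rw [hz]
    linarith

end main

end H647R3.Fac
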