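import Pool.Agent.H647R3.DB

open Set Topology

universe u v

namespace H647R3.Fac

section gdelta

variable {Γ : Type u} {E : Type u} [AddCommGroup E] [Module ℝ E] [TopologicalSpace E]
  [IsTopologicalAddGroup E] [ContinuousSMul ℝ E] [LocallyConvexSpace ℝ E]

/-- rational basic boxes -/
def box (U : Set E) (A : Finset (Γ × ℚ × ℚ)) : Set (E × FS Γ) :=
  {w | w.1 ∈ U ∧ ∀ p ∈ A, (p.2.1 : ℝ) < w.2.1 p.1 ∧ w.2.1 p.1 < p.2.2}

lemma box_open {U : Set E} (hU : IsOpen U) (A : Finset (Γ × ℚ × ℚ)) :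
    IsOpen (box U A : Set (E × FS Γ)) := by
  have : (box U A : Set (E × FS Γ)) = (Prod.fst ⁻¹' U) ∩
      ⋂ p ∈ A, {w : E × FS Γ | (p.2.1 : ℝ) < w.2.1 p.1 ∧ w.2.1 p.1 < p.2.2} := by
    ext w; simp [box]
  rw [this]
  refine (hU.preimage continuous_fst).inter (isOpen_biInter_finset fun p _ => ?_)
  have h1 : Continuous fun w : E × FS Γ => w.2.1 p.1 := (FS_cont p.1).comp continuous_snd
  exact (isOpen_lt continuous_const h1).inter (isOpen_lt h1 continuous_const)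

lemma exists_box_sub {O : Set (E × FS Γ)} (hO : IsOpen O) {z : E × FS Γ} (hz : z ∈ O) :
    ∃ (U : Set E) (A : Finset (Γ × ℚ × ℚ)), IsOpen U ∧ z ∈ box U A ∧ box U A ⊆ O := by
  classical
  obtain ⟨u, hu, v, hv, huv⟩ := mem_nhds_prod_iff.1 (show O ∈ 𝓝 (z.1, z.2) from hO.mem_nhds hz)
  obtain ⟨A, r, hr, hA⟩ := FS_nhds hv
  obtain ⟨U, hU1, hU2, hU3⟩ := mem_nhds_iff.1 hu
  have hp : ∀ a : Γ, ∃ p : ℚ, z.2.1 a - r < p ∧ (p : ℝ) < z.2.1 a := fun a =>
    exists_rat_btwn (by linarith)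
  have hq : ∀ a : Γ, ∃ q : ℚ, z.2.1 a < q ∧ (q : ℝ) < z.2.1 a + r := fun a =>
    exists_rat_btwn (by linarith)
  choose p hp1 hp2 using hp
  choose q hq1 hq2 using hq
  refine ⟨U, A.image (fun a => (a, p a, q a)), hU2, ⟨hU3, ?_⟩, ?_⟩
  · intro s hs
    obtain ⟨a, -, rfl⟩ := Finset.mem_image.1 hs
    exact ⟨hp2 a, hq1 a⟩
  · rintro w ⟨hw1, hw2⟩
    refine huv (show (w.1, w.2) ∈ u ×ˢ v from ⟨hU1 hw1, hA _ fun a ha => ?_⟩)
    obtain ⟨h1, h2⟩ := hw2 (a, p a, q a) (Finset.mem_image.2 ⟨a, ha, rfl⟩)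
    simp only at h1 h2
    rw [abs_lt]
    constructor
    · linarith [hp1 a]
    · linarith [hq2 a]

open Classical in
/-- change one coordinate -/
noncomputable def upd (y : FS Γ) (a : Γ) (c : ℝ) : FS Γ :=
  ⟨Function.update y.1 a c, by
    refine (y.2.union (finite_singleton a)).subset fun b hb => ?_
    rw [Function.mem_support] at hb
    by_cases h : b = a
    · right; exact h
    · left
      rw [Function.update_of_ne h] at hb
      exact hb⟩

lemma upd_same (y : FS Γ) (a : Γ) (c : ℝ) : (upd y a c).1 a = c := by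
  simp [upd]

lemma upd_ne (y : FS Γ) {a b : Γ} (h : b ≠ a) (c : ℝ) : (upd y a c).1 b = y.1 b := by
  simp [upd, h]

theorem gdelta {𝓑 : Set (Set (E × FS Γ))}
    (hvn : ∀ B ∈ 𝓑, Bornology.IsVonNBounded ℝ B)
    (ι : (Set E × Finset (Γ × ℚ × ℚ)) × ℕ → Γ) (hι : Function.Injective ι)
    {D : Set (E × FS Γ)} (hD : IsOpen D) {g : E × FS Γ → ℝ} (hgc : ContinuousOn g D)
    (hg : ConvexOn ℝ D g) (hdense : D ⊆ closure {z | z ∈ D ∧ SD 𝓑 D g z}) :
    ∃ S : Set (E × FS Γ), S ⊆ D ∧ IsGδ S ∧ D ⊆ closure S ∧ ∀ x ∈ S, SD 𝓑 D g x := by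
  classical
  -- coordinates
  have hfresh : ∀ j : Set E × Finset (Γ × ℚ × ℚ), ∃ n : ℕ, ∀ p ∈ j.2, ι (j, n) ≠ p.1 := by
    intro j
    by_contra hcon
    push Not at hcon
    have hinj : Function.Injective fun n : ℕ => ι (j, n) := by
      intro a b hab
      have := hι hab
      simpa using this
    have hfin : (range fun n : ℕ => ι (j, n)).Finite := by
      apply (j.2.image Prod.fst).finite_toSet.subset
      rintro _ ⟨n, rfl⟩
      obtain ⟨p, hp, hp2⟩ := hcon n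
      exact Finset.mem_coe.2 (Finset.mem_image.2 ⟨p, hp, hp2.symm⟩)
    exact (infinite_range_of_injective hinj) hfin
  choose n hn using hfresh
  set γ : Set E × Finset (Γ × ℚ × ℚ) → Γ := fun j => ι (j, n j) with hγ
  have hγinj : Function.Injective γ := by
    intro a b hab
    have := hι hab
    rw [Prod.mk.injEq] at this
    exact this.1
  -- good indices
  set J : Set (Set E × Finset (Γ × ℚ × ℚ)) :=
    {j | ∃ d, d ∈ box j.1 j.2 ∧ 1 < |d.2.1 (γ j)| ∧ d ∈ D ∧ SD 𝓑 D g d} with hJ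
  have hch : ∀ j : J, ∃ (d : E × FS Γ) (U : Set E) (A : Finset Γ) (r : ℝ),
      d ∈ box j.1.1 j.1.2 ∧ 1 < |d.2.1 (γ j.1)| ∧ d ∈ D ∧ SD 𝓑 D g d ∧
      0 ∈ U ∧ IsOpen U ∧ AbsConvex ℝ U ∧ 0 < r ∧
      ∀ w : E × FS Γ, w.1 - d.1 ∈ U → (∀ a ∈ A, |w.2.1 a - d.2.1 a| < r) →
        w ∈ D ∧ g w < g d + 1 := by
    rintro ⟨j, d, h1, h2, h3, h4⟩
    obtain ⟨U, A, r, g1, g2, g3, g4, g5⟩ := exists_box hD hgc isOpen_univ (mem_univ d) h3
    exact ⟨d, U, A, r, h1, h2, h3, h4, g1, g2, g3, g4, fun w hw1 hw2 =>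
      ⟨(g5 w hw1 hw2).1, (g5 w hw1 hw2).2.2⟩⟩
  choose d U A r hd1 hd2 hd3 hd4 hU0 hUo hUc hr hbox using hch
  set W : J → ℕ → Set (E × FS Γ) := fun j k =>
    {w | ((k : ℝ) + 1) • (w.1 - (d j).1) ∈ U j ∧
      (∀ a ∈ A j, |w.2.1 a - (d j).2.1 a| < r j / ((k : ℝ) + 1)) ∧ 1 < |w.2.1 (γ j.1)|} with hW
  have hWo : ∀ j k, IsOpen (W j k) := by
    intro j k
    have e : W j k = ((fun w : E × FS Γ => ((k : ℝ) + 1) • (w.1 - (d j).1)) ⁻¹' (U j)) ∩
        (Prod.snd ⁻¹' {y : FS Γ | ∀ a ∈ A j, |y.1 a - (d j).2.1 a| < r j / ((k : ℝ) + 1)} ∩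
          {w : E × FS Γ | 1 < |w.2.1 (γ j.1)|}) := rfl
    rw [e]
    refine ((hUo j).preimage (by fun_prop)).inter (((FS_isOpen _ _ _).preimage continuous_snd).inter
      (isOpen_lt continuous_const ?_))
    exact ((FS_cont (γ j.1)).comp continuous_snd).abs
  have hWD : ∀ j k, W j k ⊆ D := by
    rintro j k w ⟨h1, h2, h3⟩
    have hk : (0:ℝ) < (k : ℝ) + 1 := by positivity
    refine (hbox j w ?_ ?_).1
    · have := (hUc j).1.smul_mem (a := ((k : ℝ) + 1)⁻¹) (by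
        rw [Real.norm_eq_abs, abs_of_pos (by positivity)]
        exact inv_le_one_of_one_le₀ (by linarith [Nat.cast_nonneg (α := ℝ) k])) h1
      rwa [smul_smul, inv_mul_cancel₀ hk.ne', one_smul] at this
    · intro a ha
      refine (h2 a ha).trans_le (div_le_self (hr j).le ?_)
      linarith [Nat.cast_nonneg (α := ℝ) k]
  refine ⟨⋂ k : ℕ, ⋃ j : J, W j k, ?_, ?_, ?_, ?_⟩
  · intro w hw
    obtain ⟨j, hj⟩ := mem_iUnion.1 (mem_iInter.1 hw 0)
    exact hWD j 0 hj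
  · exact IsGδ.iInter_of_isOpen fun k => isOpen_iUnion fun j => hWo j k
  · intro z hz
    rw [mem_closure_iff]
    intro O hO hzO
    obtain ⟨V, B, hV, hzB, hsub⟩ := exists_box_sub (hO.inter hD) (show z ∈ O ∩ D from ⟨hzO, hz⟩)
    have hz2 : ((z.1, upd z.2 (γ (V, B)) 2) : E × FS Γ) ∈ box V B := by
      refine ⟨hzB.1, fun p hp => ?_⟩
      have hne : p.1 ≠ γ (V, B) := (hn (V, B) p hp).symm
      simp only
      rw [upd_ne _ hne]
      exact hzB.2 p hp
    have hopen : IsOpen (box V B ∩ {w : E × FS Γ | 1 < |w.2.1 (γ (V, B))|}) := by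
      refine (box_open hV B).inter (isOpen_lt continuous_const ?_)
      exact ((FS_cont (γ (V, B))).comp continuous_snd).abs
    have hz3 : ((z.1, upd z.2 (γ (V, B)) 2) : E × FS Γ) ∈
        closure {z | z ∈ D ∧ SD 𝓑 D g z} := hdense (hsub hz2).2
    obtain ⟨d₀, ⟨hd₀1, hd₀2⟩, hd₀3, hd₀4⟩ := mem_closure_iff.1 hz3 _ hopen ⟨hz2, by
      simp only [mem_ofPred_eq]
      rw [upd_same]; norm_num⟩
    have hJmem : (V, B) ∈ J := ⟨d₀, hd₀1, hd₀2, hd₀3, hd₀4⟩
    refine ⟨d ⟨(V, B), hJmem⟩, (hsub (hd1 ⟨(V, B), hJmem⟩)).1, ?_⟩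
    refine mem_iInter.2 fun k => mem_iUnion.2 ⟨⟨(V, B), hJmem⟩, ?_, ?_, ?_⟩
    · rw [sub_self, smul_zero]; exact hU0 _
    · intro a _
      rw [sub_self, abs_zero]
      exact div_pos (hr _) (by positivity)
    · exact hd2 ⟨(V, B), hJmem⟩
  · intro w hw
    -- pigeonhole
    have h1 : ∀ k : ℕ, ∃ j : J, w ∈ W j k := fun k => mem_iUnion.1 (mem_iInter.1 hw k)
    choose j hj using h1
    have hfin : (Function.support w.2.1).Finite := w.2.2
    have hmem : ∀ k, γ (j k).1 ∈ Function.support w.2.1 := by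
      intro k
      rw [Function.mem_support]
      intro h0
      have := (hj k).2.2
      rw [h0, abs_zero] at this
      linarith
    haveI : Finite (Function.support w.2.1) := hfin
    obtain ⟨c, hc⟩ := Finite.exists_infinite_fiber
      (fun k : ℕ => (⟨γ (j k).1, hmem k⟩ : Function.support w.2.1))
    obtain ⟨k₀, hk₀⟩ : (((fun k : ℕ => (⟨γ (j k).1, hmem k⟩ : Function.support w.2.1)) ⁻¹'
      {c}) : Set ℕ).Nonempty := Set.nonempty_coe_sort.1 inferInstance
    have hinf : (((fun k : ℕ => (⟨γ (j k).1, hmem k⟩ : Function.support w.2.1)) ⁻¹'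
      {c}) : Set ℕ).Infinite := Set.infinite_coe_iff.1 hc
    have hsame : ∀ k ∈ (((fun k : ℕ => (⟨γ (j k).1, hmem k⟩ : Function.support w.2.1)) ⁻¹'
      {c}) : Set ℕ), j k = j k₀ := by
      intro k hk
      have e1 : (⟨γ (j k).1, hmem k⟩ : Function.support w.2.1) = c := hk
      have e2 : (⟨γ (j k₀).1, hmem k₀⟩ : Function.support w.2.1) = c := hk₀
      have e3 := congrArg Subtype.val (e1.trans e2.symm)
      exact Subtype.ext (hγinj e3)
    set i := j k₀ with hi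
    have hall : ∀ m : ℕ, ∃ k : ℕ, m < k ∧ w ∈ W i k := by
      intro m
      obtain ⟨k, hk1, hk2⟩ := hinf.exists_gt m
      refine ⟨k, hk2, ?_⟩
      rw [← hsame k hk1]
      exact hj k
    -- the direction
    have hx : ∀ s : ℝ, s • (w.1 - (d i).1) ∈ U i := by
      intro s
      obtain ⟨m, hm⟩ := exists_nat_gt |s|
      obtain ⟨k, hk1, hk2, -, -⟩ := hall m
      have hk : (0:ℝ) < (k : ℝ) + 1 := by positivity
      have hmk : (m : ℝ) < k := by exact_mod_cast hk1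
      have := (hUc i).1.smul_mem (a := s * ((k : ℝ) + 1)⁻¹) (by
        rw [Real.norm_eq_abs, abs_mul, abs_of_pos (inv_pos.2 hk), ← div_eq_mul_inv,
          div_le_one hk]
        linarith) hk2
      rwa [smul_smul, mul_assoc, inv_mul_cancel₀ hk.ne', mul_one] at this
    have hy : ∀ a ∈ A i, w.2.1 a = (d i).2.1 a := by
      intro a ha
      by_contra hne
      have hpos : 0 < |w.2.1 a - (d i).2.1 a| := abs_pos.2 (sub_ne_zero.2 hne)
      obtain ⟨m, hm⟩ := exists_nat_gt (r i / |w.2.1 a - (d i).2.1 a|)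
      obtain ⟨k, hk1, -, hk2, -⟩ := hall m
      have h2 := hk2 a ha
      have hk : (0:ℝ) < (k : ℝ) + 1 := by positivity
      have hmk : (m : ℝ) < k := by exact_mod_cast hk1
      rw [lt_div_iff₀ hk] at h2
      rw [div_lt_iff₀ hpos] at hm
      nlinarith
    set v : E × FS Γ := w - d i with hv
    have htrans : ∀ z : E × FS Γ, (2 : ℝ) • (z.1 - (d i).1) ∈ U i →
        (∀ a ∈ A i, |z.2.1 a - (d i).2.1 a| < r i) →
        (z + v ∈ D ∧ g (z + v) = g z) := by
      intro z hz1 hz2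
      have hline : ∀ s : ℝ, z + s • v ∈ D ∧ g (z + s • v) ≤ g (d i) + 1 := by
        intro s
        have := hbox i (z + s • v) (by
          have e1 : (z + s • v).1 - (d i).1 = (1/2 : ℝ) • ((2 : ℝ) • (z.1 - (d i).1)) +
              (1/2 : ℝ) • ((2 * s) • (w.1 - (d i).1)) := by
            change z.1 + s • (w.1 - (d i).1) - (d i).1 = _
            module
          rw [e1]
          exact (hUc i).2 hz1 (hx _) (by norm_num) (by norm_num) (by norm_num)) (by
          intro a ha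
          have e1 : (z + s • v).2.1 a = z.2.1 a + s * (w.2.1 a - (d i).2.1 a) := rfl
          rw [e1, hy a ha, sub_self, mul_zero, add_zero]
          exact hz2 a ha)
        exact ⟨this.1, this.2.le⟩
      refine ⟨?_, const_line hg hline⟩
      have := (hline 1).1
      rwa [one_smul] at this
    -- transfer
    intro B hB ε hε
    obtain ⟨δ, hδ, hSD⟩ := hd4 i B hB ε hε
    have hV : {u : E × FS Γ | (2 : ℝ) • u.1 ∈ U i ∧ ∀ a ∈ A i, |u.2.1 a| < r i} ∈
        𝓝 (0 : E × FS Γ) := by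
      apply IsOpen.mem_nhds
      · have e : {u : E × FS Γ | (2 : ℝ) • u.1 ∈ U i ∧ ∀ a ∈ A i, |u.2.1 a| < r i} =
          ((fun u : E × FS Γ => (2 : ℝ) • u.1) ⁻¹' (U i)) ∩
          (Prod.snd ⁻¹' {y : FS Γ | ∀ a ∈ A i, |y.1 a - (0 : FS Γ).1 a| < r i}) := by
          ext u; simp
        rw [e]
        exact ((hUo i).preimage (by fun_prop)).inter ((FS_isOpen _ _ _).preimage continuous_snd)
      · refine ⟨?_, fun a _ => ?_⟩
        · change (2 : ℝ) • (0 : E) ∈ U i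
          rw [smul_zero]; exact hU0 i
        · change |(0 : ℝ)| < r i
          rw [abs_zero]; exact hr i
    obtain ⟨ρ, hρ, habs⟩ := (hvn B hB hV).exists_pos
    refine ⟨min δ ρ⁻¹, by positivity, fun h hh t ht1 ht2 => ?_⟩
    have htδ : t < δ := ht2.trans_le (min_le_left _ _)
    have htρ : ρ ≤ ‖t⁻¹‖ := by
      rw [Real.norm_eq_abs, abs_of_pos (by positivity)]
      have := ht2.trans_le (min_le_right δ ρ⁻¹)
      rw [le_inv_comm₀ hρ ht1]
      exact this.le
    obtain ⟨u, hu, huh⟩ := habs _ htρ hh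
    have hth : t • h = u := by
      rw [← huh]
      simp only
      rw [smul_smul, mul_inv_cancel₀ ht1.ne', one_smul]
    obtain ⟨q1, q2, q3⟩ := hSD h hh t ht1 htδ
    rw [hth] at q1 q2 q3 ⊢
    obtain ⟨a1, a2⟩ := htrans (d i + u) (by
      change (2 : ℝ) • ((d i).1 + u.1 - (d i).1) ∈ U i
      rw [add_sub_cancel_left]; exact hu.1) (by
      intro a ha
      change |(d i).2.1 a + u.2.1 a - (d i).2.1 a| < r i
      rw [add_sub_cancel_left]; exact hu.2 a ha)
    obtain ⟨b1, b2⟩ := htrans (d i - u) (by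
      change (2 : ℝ) • ((d i).1 - u.1 - (d i).1) ∈ U i
      rw [sub_sub_cancel_left, smul_neg]
      have := (hUc i).1.smul_mem (a := (-1 : ℝ)) (by norm_num) hu.1
      rwa [neg_one_smul] at this) (by
      intro a ha
      change |(d i).2.1 a - u.2.1 a - (d i).2.1 a| < r i
      rw [sub_sub_cancel_left, abs_neg]; exact hu.2 a ha)
    obtain ⟨c1, c2⟩ := htrans (d i) (by
      rw [sub_self, smul_zero]; exact hU0 i) (by
      intro a _
      rw [sub_self, abs_zero]; exact hr i)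
    have e1 : d i + u + v = w + u := by rw [hv]; abel
    have e2 : d i - u + v = w - u := by rw [hv]; abel
    have e3 : d i + v = w := by rw [hv]; abel
    rw [e1] at a1 a2
    rw [e2] at b1 b2
    rw [e3] at c2
    refine ⟨a1, b1, ?_⟩
    rw [a2, b2, c2]
    exact q3

end gdelta

end H647R3.Fac
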