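import Pool.Agent.H647R3.EDef

open Set Topology Filter

universe u

namespace H647R3.GDS

open H647R3.Fac

/-- second difference -/
def d2 {Y : Type u} [AddCommGroup Y] (G : Y → ℝ) (z h : Y) : ℝ := G (z + h) + G (z - h) - 2 * G z

/-- data: a Lipschitz convex function on an open set and families of localised directions -/
structure Data (Y : Type u) [NormedAddCommGroup Y] [NormedSpace ℝ Y] where
  O₀ : Set Y
  hO : IsOpen O₀
  hne : O₀.Nonempty
  G : Y → ℝ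
  hG : ConvexOn ℝ O₀ G
  M : ℝ
  hM0 : 0 ≤ M
  hM : ∀ x ∈ O₀, ∀ y ∈ O₀, |G x - G y| ≤ M * ‖x - y‖
  Hd : List Bool → Set Y
  hsum : ∀ (n : ℕ) (F : Finset (List Bool)), (∀ l ∈ F, l.length = n) →
    ∀ h : List Bool → Y, (∀ l ∈ F, h l ∈ Hd l) → ‖∑ l ∈ F, h l‖ ≤ 1

namespace Data

variable {Y : Type u} [NormedAddCommGroup Y] [NormedSpace ℝ Y] (P : Data Y)

lemma cont : ContinuousOn P.G P.O₀ := by
  have : LipschitzOnWith ⟨P.M, P.hM0⟩ P.G P.O₀ := by
    apply LipschitzOnWith.of_dist_le_mul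
    intro x hx y hy
    rw [Real.dist_eq, dist_eq_norm]
    exact P.hM x hx y hy
  exact this.continuousOn

/-- small slopes in the directions localised at `l` -/
def Flat (l : List Bool) (δ : ℝ) (O : Set Y) : Prop :=
  ∀ y ∈ O, ∀ h ∈ P.Hd l, ∀ s : ℝ, 0 < s → y + s • h ∈ O → P.G (y + s • h) - P.G y ≤ δ * s

/-- points near which slopes localised at `l` are small -/
def F (l : List Bool) (δ : ℝ) : Set Y := {z | ∃ O, IsOpen O ∧ z ∈ O ∧ O ⊆ P.O₀ ∧ P.Flat l δ O}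

lemma F_open (l : List Bool) (δ : ℝ) : IsOpen (P.F l δ) := by
  rw [isOpen_iff_forall_mem_open]
  rintro z ⟨O, h1, h2, h3, h4⟩
  exact ⟨O, fun w hw => ⟨O, h1, hw, h3, h4⟩, h1, h2⟩

lemma F_mono (l : List Bool) {δ δ' : ℝ} (h : δ ≤ δ') : P.F l δ ⊆ P.F l δ' := by
  rintro z ⟨O, h1, h2, h3, h4⟩
  exact ⟨O, h1, h2, h3, fun y hy k hk s hs hys => (h4 y hy k hk s hs hys).trans
    (mul_le_mul_of_nonneg_right h hs.le)⟩

/-- the open relation -/
def FF (δ : ℝ) : Set (Y × Cant) := {p | ∃ n, p.1 ∈ P.F (PiNat.res p.2 n) δ}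

lemma res_open (l : List Bool) (n : ℕ) : IsOpen {t : Cant | PiNat.res t n = l} := by
  rw [isOpen_iff_forall_mem_open]
  intro t ht
  refine ⟨PiNat.cylinder t n, fun s hs => ?_, PiNat.isOpen_cylinder _ t n,
    PiNat.self_mem_cylinder t n⟩
  rw [PiNat.cylinder_eq_res] at hs
  exact hs.trans ht

lemma FF_open (δ : ℝ) : IsOpen (P.FF δ) := by
  rw [isOpen_iff_forall_mem_open]
  rintro ⟨z, t⟩ ⟨n, hn⟩
  refine ⟨P.F (PiNat.res t n) δ ×ˢ {s | PiNat.res s n = PiNat.res t n}, ?_,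
    (P.F_open _ _).prod (res_open _ _), hn, rfl⟩
  rintro ⟨w, s⟩ ⟨h1, h2⟩
  refine ⟨n, ?_⟩
  change w ∈ P.F (PiNat.res s n) δ
  rw [show PiNat.res s n = PiNat.res t n from h2]
  exact h1

lemma FF_mono {δ δ' : ℝ} (h : δ ≤ δ') : P.FF δ ⊆ P.FF δ' := by
  rintro p ⟨n, hn⟩
  exact ⟨n, P.F_mono _ h hn⟩

/-- core -/
def Cc (δ : ℝ) (U : Set Y) : Set Cant := {t | ∀ z ∈ U, (z, t) ∉ P.FF δ}

lemma Cc_anti (δ : ℝ) {U V : Set Y} (h : V ⊆ U) : P.Cc δ U ⊆ P.Cc δ V :=
  fun _ ht z hz => ht z (h hz)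

lemma Cc_closed (δ : ℝ) (U : Set Y) : IsClosed (P.Cc δ U) := by
  have : P.Cc δ U = ⋂ z ∈ U, (fun t : Cant => ((z, t) : Y × Cant)) ⁻¹' (P.FF δ)ᶜ := by
    ext t; simp [Cc]
  rw [this]
  exact isClosed_biInter fun z _ => (P.FF_open δ).isClosed_compl.preimage (by fun_prop)

/-- stable open sets -/
def Stab (δ : ℝ) (U : Set Y) : Prop :=
  IsOpen U ∧ U ⊆ P.O₀ ∧ ∀ V, IsOpen V → V.Nonempty → V ⊆ U → P.Cc δ V ⊆ P.Cc δ U

lemma Stab.mono {δ : ℝ} {U V : Set Y} (h : P.Stab δ U) (hV : IsOpen V) (hne : V.Nonempty)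
    (hVU : V ⊆ U) : P.Stab δ V :=
  ⟨hV, hVU.trans h.2.1, fun V' h1 h2 h3 => (h.2.2 V' h1 h2 (h3.trans hVU)).trans
    (P.Cc_anti δ hVU)⟩

lemma stab_eq {δ : ℝ} {U V : Set Y} (hU : P.Stab δ U) (hV : P.Stab δ V) {z : Y} (h1 : z ∈ U)
    (h2 : z ∈ V) : P.Cc δ U ⊆ P.Cc δ V :=
  (P.Cc_anti δ inter_subset_left).trans
    (hV.2.2 (U ∩ V) (hU.1.inter hV.1) ⟨z, h1, h2⟩ inter_subset_right)

/-- simultaneous steep directions -/
lemma steep {δ : ℝ} (A : Finset (List Bool)) : ∀ U : Set Y, IsOpen U → U.Nonempty → U ⊆ P.O₀ →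
    (∀ l ∈ A, ∀ z ∈ U, z ∉ P.F l δ) → ∃ U', IsOpen U' ∧ U'.Nonempty ∧ U' ⊆ U ∧
      ∃ h : List Bool → Y, ∀ l ∈ A, h l ∈ P.Hd l ∧ ∀ y ∈ U', ∀ r : ℝ, 0 < r → y + r • h l ∈ P.O₀ →
        δ * r ≤ P.G (y + r • h l) - P.G y := by
  classical
  induction A using Finset.induction_on with
  | empty => intro U h1 h2 h3 _; exact ⟨U, h1, h2, Subset.rfl, fun _ => 0, by simp⟩
  | insert l A hl ih =>
    intro U h1 h2 h3 h4
    obtain ⟨U', g1, g2, g3, h, g4⟩ := ih U h1 h2 h3 (fun l' hl' => h4 l'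
      (Finset.mem_insert_of_mem hl'))
    obtain ⟨y₀, hy₀⟩ := g2
    have h5 : ¬ P.Flat l δ U' := fun hf => h4 l (Finset.mem_insert_self _ _) y₀ (g3 hy₀)
      ⟨U', g1, hy₀, g3.trans h3, hf⟩
    simp only [Flat, not_forall, not_le] at h5
    obtain ⟨y, hy, k, hk, s, hs, hys, hgt⟩ := h5
    set U'' : Set Y := {w | w ∈ U' ∧ w - s • k ∈ U' ∧ δ * s < P.G w - P.G (w - s • k)} with hU''
    have hopen : IsOpen U'' := by
      have c1 : Continuous fun w : Y => w - s • k := by fun_prop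
      have hV : IsOpen (U' ∩ (fun w : Y => w - s • k) ⁻¹' U') := g1.inter (g1.preimage c1)
      have c2 : ContinuousOn (fun w => P.G w - P.G (w - s • k))
          (U' ∩ (fun w : Y => w - s • k) ⁻¹' U') := by
        apply ContinuousOn.sub
        · exact P.cont.mono fun w hw => h3 (g3 hw.1)
        · exact P.cont.comp c1.continuousOn fun w hw => h3 (g3 hw.2)
      have := c2.isOpen_inter_preimage hV (isOpen_Ioi (a := δ * s))
      convert this using 1
      ext w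
      simp only [hU'', mem_ofPred_eq, mem_inter_iff, mem_preimage, mem_Ioi]
      tauto
    refine ⟨U'', hopen, ⟨y + s • k, hys, ?_, ?_⟩, fun w hw => g3 hw.1,
      fun l' => if l' = l then k else h l', ?_⟩
    · rw [add_sub_cancel_right]; exact hy
    · rw [add_sub_cancel_right]; exact hgt
    · intro l' hl'
      by_cases hll : l' = l
      · subst hll
        simp only [if_true]
        refine ⟨hk, fun w hw r hr hwr => ?_⟩
        have := three_point P.hG hs hr hwr (h3 (g3 hw.2.1))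
        have e1 : δ < (P.G w - P.G (w - s • k)) / s := by
          rw [lt_div_iff₀ hs]; exact hw.2.2
        have e2 : -((P.G (w - s • k) - P.G w) / s) = (P.G w - P.G (w - s • k)) / s := by
          rw [← neg_div, neg_sub]
        rw [e2] at this
        have e3 := e1.le.trans this
        rwa [le_div_iff₀ hr] at e3
      · simp only [hll, if_false]
        have hl'A : l' ∈ A := (Finset.mem_insert.1 hl').resolve_left hll
        exact ⟨(g4 l' hl'A).1, fun w hw r hr hwr => (g4 l' hl'A).2 w hw.1 r hr hwr⟩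

lemma bound {δ : ℝ} (n : ℕ) (A : Finset (List Bool)) (hA : ∀ l ∈ A, l.length = n) (U : Set Y)
    (hU : IsOpen U) (hUne : U.Nonempty) (hU0 : U ⊆ P.O₀) (hF : ∀ l ∈ A, ∀ z ∈ U, z ∉ P.F l δ) :
    (A.card : ℝ) * δ ≤ P.M := by
  classical
  obtain ⟨U', g1, ⟨y, hy⟩, g3, h, g4⟩ := P.steep A U hU hUne hU0 hF
  have h1 : ∀ A' ∈ A.powerset, ∀ᶠ r : ℝ in 𝓝[>] 0, y + r • ∑ l ∈ A', h l ∈ U' := by
    intro A' _
    apply mem_nhdsWithin_of_mem_nhds
    have hc : Continuous fun r : ℝ => y + r • ∑ l ∈ A', h l := by fun_prop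
    apply hc.continuousAt.preimage_mem_nhds
    rw [zero_smul, add_zero]
    exact g1.mem_nhds hy
  have h2 : ∀ᶠ r : ℝ in 𝓝[>] 0, ∀ A' ∈ A.powerset, y + r • ∑ l ∈ A', h l ∈ U' :=
    (Finset.eventually_all _).2 h1
  obtain ⟨r, hr, hr0⟩ := (h2.and self_mem_nhdsWithin).exists
  have hr0' : (0:ℝ) < r := hr0
  have key : ∀ A' : Finset (List Bool), A' ⊆ A → (A'.card : ℝ) * δ * r ≤
      P.G (y + r • ∑ l ∈ A', h l) - P.G y := by
    intro A'
    induction A' using Finset.induction_on with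
    | empty => intro _; simp
    | insert l A' hl ih =>
      intro hsub
      have hA' : A' ⊆ A := (Finset.subset_insert _ _).trans hsub
      have hlA : l ∈ A := hsub (Finset.mem_insert_self _ _)
      have e1 := ih hA'
      have e2 : y + r • ∑ l ∈ insert l A', h l = (y + r • ∑ l ∈ A', h l) + r • h l := by
        rw [Finset.sum_insert hl, smul_add]; abel
      have e3 := (g4 l hlA).2 _ (hr A' (Finset.mem_powerset.2 hA')) r hr0' (by
        rw [← e2]
        exact hU0 (g3 (hr _ (Finset.mem_powerset.2 hsub))))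
      rw [e2, Finset.card_insert_of_notMem hl]
      push_cast
      linarith
  have h3 := key A Finset.Subset.rfl
  have h4 := P.hM _ (hU0 (g3 (hr A (Finset.mem_powerset_self A)))) y (hU0 (g3 hy))
  rw [add_sub_cancel_left, norm_smul, Real.norm_eq_abs, abs_of_pos hr0'] at h4
  have h5 := P.hsum n A hA h (fun l hl => (g4 l hl).1)
  have h6 := (le_abs_self _).trans h4
  have h7 : P.M * (r * ‖∑ l ∈ A, h l‖) ≤ P.M * r :=
    mul_le_mul_of_nonneg_left (by nlinarith) P.hM0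
  have h8 : (A.card : ℝ) * δ * r ≤ P.M * r := by linarith
  exact le_of_mul_le_mul_right h8 hr0'

lemma exists_inj (A : Finset Cant) : ∃ n, ∀ t ∈ A, ∀ t' ∈ A, PiNat.res t n = PiNat.res t' n →
    t = t' := by
  classical
  have h1 : ∀ p ∈ A ×ˢ A, ∀ᶠ n in atTop, PiNat.res p.1 n = PiNat.res p.2 n → p.1 = p.2 := by
    intro p _
    by_cases h : p.1 = p.2
    · exact Eventually.of_forall fun _ _ => h
    · obtain ⟨k, hk⟩ := Function.ne_iff.1 h
      filter_upwards [eventually_gt_atTop k] with n hn he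
      exact absurd (PiNat.res_eq_res.1 he hn) hk
  obtain ⟨n, hn⟩ := ((Finset.eventually_all _).2 h1).exists
  exact ⟨n, fun t ht t' ht' => hn (t, t') (Finset.mem_product.2 ⟨ht, ht'⟩)⟩

lemma card_bound {δ : ℝ} (A : Finset Cant) (U : Set Y) (hU : IsOpen U) (hUne : U.Nonempty)
    (hU0 : U ⊆ P.O₀) (hA : ∀ n, ∀ t ∈ A, ∀ z ∈ U, z ∉ P.F (PiNat.res t n) δ) :
    (A.card : ℝ) * δ ≤ P.M := by
  classical
  obtain ⟨n, hn⟩ := exists_inj A
  have hcard : (A.image fun t => PiNat.res t n).card = A.card :=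
    Finset.card_image_of_injOn fun t ht t' ht' h => hn t ht t' ht' h
  rw [← hcard]
  apply P.bound n _ _ U hU hUne hU0
  · intro l hl
    obtain ⟨t, ht, rfl⟩ := Finset.mem_image.1 hl
    exact hA n t ht
  · intro l hl
    obtain ⟨t, ht, rfl⟩ := Finset.mem_image.1 hl
    exact PiNat.res_length t n

/-- stable sets are dense -/
lemma stab_dense {δ : ℝ} (hδ : 0 < δ) (V : Set Y) (hV : IsOpen V) (hne : V.Nonempty)
    (hV0 : V ⊆ P.O₀) : ∃ U, U ⊆ V ∧ U.Nonempty ∧ P.Stab δ U ∧ (P.Cc δ U).Finite := by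
  classical
  set Q : ℕ → Prop := fun k => ∃ (U : Set Y) (A : Finset Cant), IsOpen U ∧ U.Nonempty ∧ U ⊆ V ∧
    (∀ t ∈ A, t ∈ P.Cc δ U) ∧ A.card = k with hQ
  obtain ⟨N, hN⟩ := exists_nat_gt (P.M / δ)
  have hbd : ∀ k, Q k → k ≤ N := by
    rintro k ⟨U, A, h1, h2, h3, h4, rfl⟩
    have := P.card_bound (δ := δ) A U h1 h2 (h3.trans hV0)
      (fun n t ht z hz hzF => h4 t ht z hz ⟨n, hzF⟩)
    rw [← le_div_iff₀ hδ] at this
    have h5 : (A.card : ℝ) < N := this.trans_lt hN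
    exact_mod_cast h5.le
  have h0 : Q 0 := ⟨V, ∅, hV, hne, Subset.rfl, by simp, rfl⟩
  have hmax := Nat.findGreatest_spec (P := Q) (m := 0) (n := N) (Nat.zero_le _) h0
  obtain ⟨U, A, h1, h2, h3, h4, h5⟩ := hmax
  have key : ∀ V', IsOpen V' → V'.Nonempty → V' ⊆ U → P.Cc δ V' ⊆ (A : Set Cant) := by
    intro V' g1 g2 g3 t ht
    by_contra htA
    have htA' : t ∉ A := htA
    have : Q (A.card + 1) := ⟨V', insert t A, g1, g2, g3.trans h3, by
      intro t' ht'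
      rcases Finset.mem_insert.1 ht' with rfl | h
      · exact ht
      · exact P.Cc_anti δ g3 (h4 t' h), Finset.card_insert_of_notMem htA'⟩
    have h6 := Nat.le_findGreatest (hbd _ this) this
    omega
  exact ⟨U, h3, h2, ⟨h1, h3.trans hV0, fun V' g1 g2 g3 t ht => h4 t (key V' g1 g2 g3 ht)⟩,
    (A.finite_toSet).subset (key U h1 h2 Subset.rfl)⟩

/-- genericity -/
def Gen (l : List Bool) (δ : ℝ) : Set Y := P.F l δ ∪ interior (P.F l δ)ᶜ

lemma Gen_open (l : List Bool) (δ : ℝ) : IsOpen (P.Gen l δ) := (P.F_open l δ).union isOpen_interior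

lemma Gen_dense (l : List Bool) (δ : ℝ) (V : Set Y) (hV : IsOpen V) (hne : V.Nonempty) :
    (V ∩ P.Gen l δ).Nonempty := by
  by_cases h : (V ∩ P.F l δ).Nonempty
  · obtain ⟨z, h1, h2⟩ := h
    exact ⟨z, h1, Or.inl h2⟩
  · obtain ⟨z, hz⟩ := hne
    refine ⟨z, hz, Or.inr ?_⟩
    rw [mem_interior]
    refine ⟨V, fun w hw hwF => h ⟨w, hw, hwF⟩, hV, hz⟩

lemma K_finite {δ : ℝ} (hδ : 0 < δ) {z : Y} (hz : z ∈ P.O₀) (hgen : ∀ l, z ∈ P.Gen l δ) :
    {t : Cant | (z, t) ∉ P.FF δ}.Finite := by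
  classical
  by_contra hinf
  have hinf' : {t : Cant | (z, t) ∉ P.FF δ}.Infinite := hinf
  obtain ⟨N, hN⟩ := exists_nat_gt (P.M / δ)
  obtain ⟨A, hA1, hA2⟩ := hinf'.exists_subset_card_eq N
  obtain ⟨n, hn⟩ := exists_inj A
  set U : Set Y := P.O₀ ∩ ⋂ t ∈ A, interior (P.F (PiNat.res t n) δ)ᶜ with hU
  have hUo : IsOpen U := P.hO.inter (isOpen_biInter_finset fun t _ => isOpen_interior)
  have hzU : z ∈ U := by
    refine ⟨hz, mem_iInter₂.2 fun t ht => ?_⟩
    rcases hgen (PiNat.res t n) with h | h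
    · exact absurd ⟨n, h⟩ (hA1 ht)
    · exact h
  have hcard : (A.image fun t => PiNat.res t n).card = A.card :=
    Finset.card_image_of_injOn fun t ht t' ht' h => hn t ht t' ht' h
  have h1 := P.bound (δ := δ) n (A.image fun t => PiNat.res t n) (by
    intro l hl
    obtain ⟨t, ht, rfl⟩ := Finset.mem_image.1 hl
    exact PiNat.res_length t n) U hUo ⟨z, hzU⟩ inter_subset_left (by
    intro l hl w hw
    obtain ⟨t, ht, rfl⟩ := Finset.mem_image.1 hl
    exact interior_subset (mem_iInter₂.1 hw.2 t ht))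
  rw [hcard, hA2, ← le_div_iff₀ hδ] at h1
  linarith

end Data

end H647R3.GDS
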