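import Pool.Agent.H647R3.EC

open Set Topology Filter

universe u

namespace H647R3.GDS

open H647R3.Fac

namespace Data

variable {Y : Type u} [NormedAddCommGroup Y] [NormedSpace ℝ Y] (P : Data Y)

/-- almost smooth along `B` -/
def Sm (B : Set Y) (ε : ℝ) (z : Y) : Prop :=
  ∃ s > 0, ∃ η > 0, Metric.ball z η ⊆ P.O₀ ∧ ∀ h ∈ B, Metric.ball (z + s • h) η ⊆ P.O₀ ∧
    Metric.ball (z - s • h) η ⊆ P.O₀ ∧ d2 P.G z (s • h) ≤ (ε - η) * s

lemma Sm_open (B : Set Y) (ε : ℝ) : IsOpen {z | P.Sm B ε z} := by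
  rw [Metric.isOpen_iff]
  rintro z ⟨s, hs, η, hη, h0, h1⟩
  have hM1 : 0 < P.M + 1 := by linarith [P.hM0]
  refine ⟨min (η / 2) (η * s / (8 * (P.M + 1))), by positivity, fun w hw => ?_⟩
  rw [Metric.mem_ball, dist_eq_norm] at hw
  have hw1 : ‖w - z‖ < η / 2 := hw.trans_le (min_le_left _ _)
  have hw2 : ‖w - z‖ < η * s / (8 * (P.M + 1)) := hw.trans_le (min_le_right _ _)
  have hw3 : P.M * ‖w - z‖ ≤ η * s / 8 := by
    rw [lt_div_iff₀ (by positivity)] at hw2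
    nlinarith [norm_nonneg (w - z), P.hM0]
  have sub : ∀ v : Y, Metric.ball (w + v) (η / 2) ⊆ Metric.ball (z + v) η := by
    intro v u hu
    rw [Metric.mem_ball, dist_eq_norm] at hu ⊢
    have e : u - (z + v) = (u - (w + v)) + (w - z) := by abel
    rw [e]
    linarith [norm_add_le (u - (w + v)) (w - z)]
  refine ⟨s, hs, η / 2, by positivity, ?_, fun h hh => ⟨?_, ?_, ?_⟩⟩
  · have := sub 0
    rw [add_zero, add_zero] at this
    exact this.trans h0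
  · exact (sub _).trans (h1 h hh).1
  · have := sub (-(s • h))
    rw [← sub_eq_add_neg, ← sub_eq_add_neg] at this
    exact this.trans (h1 h hh).2.1
  · have hz0 : z ∈ P.O₀ := h0 (Metric.mem_ball_self hη)
    have hwz : w ∈ Metric.ball z η := by rw [Metric.mem_ball, dist_eq_norm]; linarith
    have hw0 : w ∈ P.O₀ := h0 hwz
    have a1 : z + s • h ∈ P.O₀ := (h1 h hh).1 (Metric.mem_ball_self hη)
    have a2 : z - s • h ∈ P.O₀ := (h1 h hh).2.1 (Metric.mem_ball_self hη)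
    have b1 : w + s • h ∈ P.O₀ := (h1 h hh).1 (by
      rw [Metric.mem_ball, dist_eq_norm, add_sub_add_right_eq_sub]; linarith)
    have b2 : w - s • h ∈ P.O₀ := (h1 h hh).2.1 (by
      rw [Metric.mem_ball, dist_eq_norm, sub_sub_sub_cancel_right]; linarith)
    have c1 := P.hM _ b1 _ a1
    have c2 := P.hM _ b2 _ a2
    have c3 := P.hM _ hw0 _ hz0
    rw [add_sub_add_right_eq_sub] at c1
    rw [sub_sub_sub_cancel_right] at c2
    have d1 := (abs_le.1 c1).2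
    have d2' := (abs_le.1 c2).2
    have d3 := (abs_le.1 c3).1
    have e1 := (h1 h hh).2.2
    unfold d2 at e1 ⊢
    nlinarith

lemma Sm_mono {B : Set Y} {ε ε' : ℝ} (h : ε ≤ ε') {z : Y} (hz : P.Sm B ε z) : P.Sm B ε' z := by
  obtain ⟨s, hs, η, hη, h0, h1⟩ := hz
  refine ⟨s, hs, η, hη, h0, fun k hk => ⟨(h1 k hk).1, (h1 k hk).2.1, (h1 k hk).2.2.trans ?_⟩⟩
  apply mul_le_mul_of_nonneg_right _ hs.le
  linarith

/-- generic smoothness along `B` -/
def GenB (B : Set Y) : Prop := ∀ ε > 0, ∀ V : Set Y, IsOpen V → V.Nonempty → V ⊆ P.O₀ →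
  ∃ z ∈ V, P.Sm B ε z

/-- convex functions are generically smooth along a given direction -/
lemma genB_single (h : Y) : P.GenB {h} := by
  intro ε hε V hV ⟨z₀, hz₀⟩ hV0
  have hc : Continuous fun r : ℝ => z₀ + r • h := by fun_prop
  have h1 : ∀ᶠ r : ℝ in 𝓝 0, z₀ + r • h ∈ V := by
    apply hc.continuousAt.preimage_mem_nhds
    rw [zero_smul, add_zero]
    exact hV.mem_nhds hz₀
  obtain ⟨r, hr, h2⟩ := Metric.eventually_nhds_iff.1 h1
  obtain ⟨N, hN⟩ := exists_nat_gt (4 * P.M * ‖h‖ / ε)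
  set s : ℝ := r / (2 * (N + 2)) with hs
  have hs0 : 0 < s := by positivity
  have hsN : s * (N + 2) = r / 2 := by
    rw [hs]; field_simp
  have hin : ∀ i : ℕ, i ≤ N + 1 → z₀ + ((i : ℝ) * s) • h ∈ V := by
    intro i hi
    apply h2
    rw [Real.dist_eq, sub_zero, abs_of_nonneg (by positivity)]
    have : (i : ℝ) ≤ N + 1 := by exact_mod_cast hi
    nlinarith
  set b : ℕ → ℝ := fun i => P.G (z₀ + (((i + 1 : ℕ) : ℝ) * s) • h) -
    P.G (z₀ + ((i : ℝ) * s) • h) with hb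
  have hsum : ∑ i ∈ Finset.range N, (b (i + 1) - b i) = b N - b 0 := Finset.sum_range_sub b N
  have hbd : ∀ i, i ≤ N → |b i| ≤ P.M * (s * ‖h‖) := by
    intro i hi
    have e1 := P.hM _ (hV0 (hin (i + 1) (by omega))) _ (hV0 (hin i (by omega)))
    have e2 : (z₀ + (((i + 1 : ℕ) : ℝ) * s) • h) - (z₀ + ((i : ℝ) * s) • h) = s • h := by
      push_cast; module
    rw [e2, norm_smul, Real.norm_eq_abs, abs_of_pos hs0] at e1
    exact e1
  have hex : ∃ i ∈ Finset.range N, b (i + 1) - b i < ε / 2 * s := by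
    by_contra hcon
    push Not at hcon
    have e1 : (N : ℝ) * (ε / 2 * s) ≤ b N - b 0 := by
      rw [← hsum]
      have := Finset.card_nsmul_le_sum (Finset.range N) (fun i => b (i + 1) - b i) (ε / 2 * s) hcon
      rwa [Finset.card_range, nsmul_eq_mul] at this
    have e2 := (abs_le.1 (hbd N le_rfl)).2
    have e3 := (abs_le.1 (hbd 0 (Nat.zero_le _))).1
    rw [div_lt_iff₀ hε] at hN
    have e4 : (N : ℝ) * (ε / 2 * s) ≤ 2 * (P.M * (s * ‖h‖)) := by linarith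
    have e5 : (N : ℝ) * ε * s ≤ 4 * P.M * ‖h‖ * s := by linarith
    have e6 := le_of_mul_le_mul_right e5 hs0
    linarith
  obtain ⟨i, hi, hlt⟩ := hex
  rw [Finset.mem_range] at hi
  set z := z₀ + (((i + 1 : ℕ) : ℝ) * s) • h with hz
  have hzp : z + s • h = z₀ + (((i + 2 : ℕ) : ℝ) * s) • h := by
    rw [hz]; push_cast; module
  have hzm : z - s • h = z₀ + ((i : ℝ) * s) • h := by
    rw [hz]; push_cast; module
  have m1 : z ∈ V := hin (i + 1) (by omega)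
  have m2 : z + s • h ∈ V := by rw [hzp]; exact hin (i + 2) (by omega)
  have m3 : z - s • h ∈ V := by rw [hzm]; exact hin i (by omega)
  obtain ⟨η₁, hη₁, k1⟩ := Metric.isOpen_iff.1 P.hO z (hV0 m1)
  obtain ⟨η₂, hη₂, k2⟩ := Metric.isOpen_iff.1 P.hO _ (hV0 m2)
  obtain ⟨η₃, hη₃, k3⟩ := Metric.isOpen_iff.1 P.hO _ (hV0 m3)
  refine ⟨z, m1, s, hs0, min (ε / 2) (min η₁ (min η₂ η₃)), by positivity, ?_, ?_⟩
  · exact (Metric.ball_subset_ball ((min_le_right _ _).trans (min_le_left _ _))).trans k1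
  · intro k hk
    rw [mem_singleton_iff] at hk
    subst hk
    refine ⟨?_, ?_, ?_⟩
    · exact (Metric.ball_subset_ball ((min_le_right _ _).trans ((min_le_right _ _).trans
        (min_le_left _ _)))).trans k2
    · exact (Metric.ball_subset_ball ((min_le_right _ _).trans ((min_le_right _ _).trans
        (min_le_right _ _)))).trans k3
    · have e1 : d2 P.G z (s • k) = b (i + 1) - b i := by
        unfold d2
        rw [hzp, hzm]
        simp only [hb]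
        rw [← hz]
        ring
      rw [e1]
      have e2 : ε / 2 ≤ ε - min (ε / 2) (min η₁ (min η₂ η₃)) := by
        linarith [min_le_left (ε / 2) (min η₁ (min η₂ η₃))]
      have := mul_le_mul_of_nonneg_right e2 hs0.le
      linarith

/-- the generic relation between pairs -/
def W (δ : ℝ) (m : ℕ) : Set (Y × Y) :=
  {p | ∃ U U' : Set Y, P.Stab δ U ∧ p.1 ∈ U ∧ IsOpen U' ∧ p.2 ∈ U' ∧
    ∀ z₁ ∈ U, ∀ z₂ ∈ U', ∀ t : Cant, (z₁, t) ∉ P.FF δ → (z₂, t) ∉ P.FF δ →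
      ∃ c ∈ P.Cc δ U, PiNat.res c m = PiNat.res t m}

lemma W_open (δ : ℝ) (m : ℕ) : IsOpen (P.W δ m) := by
  rw [isOpen_iff_forall_mem_open]
  rintro ⟨z, z'⟩ ⟨U, U', h1, h2, h3, h4, h5⟩
  refine ⟨U ×ˢ U', ?_, h1.1.prod h3, h2, h4⟩
  rintro ⟨w, w'⟩ ⟨g1, g2⟩
  exact ⟨U, U', h1, g1, h3, g2, h5⟩

/-- avoid finitely many points outside the core -/
lemma avoid {δ : ℝ} {U : Set Y} (hU : P.Stab δ U) (A : Set Cant) (hA : A.Finite) :
    ∀ V, IsOpen V → V.Nonempty → V ⊆ U → ∃ V', IsOpen V' ∧ V'.Nonempty ∧ V' ⊆ V ∧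
      ∀ t ∈ A, t ∉ P.Cc δ U → ∀ z ∈ V', (z, t) ∈ P.FF δ := by
  induction A, hA using Set.Finite.induction_on with
  | empty => intro V h1 h2 h3; exact ⟨V, h1, h2, Subset.rfl, by simp⟩
  | @insert t A _ _ ih =>
    intro V h1 h2 h3
    obtain ⟨V', g1, g2, g3, g4⟩ := ih V h1 h2 h3
    by_cases ht : t ∈ P.Cc δ U
    · refine ⟨V', g1, g2, g3, fun t' ht' hn => ?_⟩
      rcases ht' with rfl | h
      · exact absurd ht hn
      · exact g4 t' h hn
    · have h5 : t ∉ P.Cc δ V' := fun h => ht (hU.2.2 V' g1 g2 (g3.trans h3) h)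
      simp only [Cc, mem_ofPred_eq, not_forall, not_not] at h5
      obtain ⟨z, hz, hzt⟩ := h5
      have hc : Continuous fun w : Y => ((w, t) : Y × Cant) := by fun_prop
      refine ⟨V' ∩ (fun w : Y => ((w, t) : Y × Cant)) ⁻¹' P.FF δ,
        g1.inter ((P.FF_open δ).preimage hc), ⟨z, hz, hzt⟩, inter_subset_left.trans g3,
        fun t' ht' hn w hw => ?_⟩
      rcases ht' with rfl | h
      · exact hw.2
      · exact g4 t' h hn w hw.1

lemma W_dense [CompleteSpace Y] {δ : ℝ} (hδ : 0 < δ) (m : ℕ) : P.O₀ ×ˢ P.O₀ ⊆ closure (P.W δ m) := by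
  classical
  rintro ⟨x, x'⟩ ⟨hx, hx'⟩
  rw [mem_closure_iff]
  intro O hO hxO
  obtain ⟨V, V', hV, hV', hxV, hxV', hsub⟩ := isOpen_prod_iff.1 hO x x' hxO
  -- stable set
  obtain ⟨U, hUV, hUne, hU, -⟩ := P.stab_dense hδ (V ∩ P.O₀) (hV.inter P.hO) ⟨x, hxV, hx⟩
    inter_subset_right
  -- generic point
  have hgen : Dense (⋂ l : List Bool, P.Gen l δ) := by
    apply dense_iInter_of_isOpen (fun l => P.Gen_open l δ)
    intro l
    rw [dense_iff_inter_open]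
    exact fun V hV hne => P.Gen_dense l δ V hV hne
  obtain ⟨z₂, ⟨hz₂V, hz₂O⟩, hz₂⟩ := hgen.inter_open_nonempty (V' ∩ P.O₀) (hV'.inter P.hO)
    ⟨x', hxV', hx'⟩
  have hfin := P.K_finite hδ hz₂O (fun l => mem_iInter.1 hz₂ l)
  obtain ⟨V₁, g1, ⟨z₁, hz₁⟩, g3, g4⟩ := P.avoid hU _ hfin U hU.1 hUne Subset.rfl
  -- tube lemma
  set Q : Set Cant := {t | ∀ c ∈ P.Cc δ U, PiNat.res c m ≠ PiNat.res t m} with hQ
  have hQc : IsCompact Q := by
    apply IsClosed.isCompact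
    have : Q = ⋂ c ∈ P.Cc δ U, {t : Cant | PiNat.res t m = PiNat.res c m}ᶜ := by
      ext t
      simp only [hQ, mem_ofPred_eq, mem_iInter, mem_compl_iff]
      exact ⟨fun h c hc he => h c hc he.symm, fun h c hc he => h c hc he.symm⟩
    rw [this]
    exact isClosed_biInter fun c _ => (res_open _ m).isClosed_compl
  set RR : Set ((Y × Y) × Cant) := {p | (p.1.1, p.2) ∈ P.FF δ ∨ (p.1.2, p.2) ∈ P.FF δ} with hRR
  have hRo : IsOpen RR := by
    have c1 : Continuous fun p : (Y × Y) × Cant => ((p.1.1, p.2) : Y × Cant) := by fun_prop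
    have c2 : Continuous fun p : (Y × Y) × Cant => ((p.1.2, p.2) : Y × Cant) := by fun_prop
    exact ((P.FF_open δ).preimage c1).union ((P.FF_open δ).preimage c2)
  have hsubR : ({(z₁, z₂)} : Set (Y × Y)) ×ˢ Q ⊆ RR := by
    rintro ⟨p, t⟩ ⟨hp, ht⟩
    rw [mem_singleton_iff] at hp
    simp only at hp
    subst hp
    simp only [hRR, mem_ofPred_eq]
    by_contra hcon
    push Not at hcon
    have h1 : t ∈ P.Cc δ U := by
      by_contra hn
      exact hcon.1 (g4 t hcon.2 hn z₁ hz₁)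
    exact ht t h1 rfl
  obtain ⟨A, B, hA, hB, hzA, hQB, hAB⟩ := generalized_tube_lemma isCompact_singleton hQc hRo hsubR
  obtain ⟨A₁, A₂, hA₁, hA₂, hz₁A, hz₂A, hAA⟩ := isOpen_prod_iff.1 hA z₁ z₂
    (hzA (mem_singleton _))
  refine ⟨(z₁, z₂), hsub ⟨(hUV (g3 hz₁)).1, hz₂V⟩, U ∩ A₁, A₂, ?_, ⟨g3 hz₁, hz₁A⟩, hA₂, hz₂A, ?_⟩
  · exact hU.mono P (hU.1.inter hA₁) ⟨z₁, g3 hz₁, hz₁A⟩ inter_subset_left
  · intro y hy y' hy' t ht ht'
    by_contra hcon
    push Not at hcon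
    have htQ : t ∈ Q := fun c hc => hcon c (P.Cc_anti δ inter_subset_left hc)
    have := hAB (show ((y, y'), t) ∈ A ×ˢ B from ⟨hAA ⟨hy.2, hy'⟩, hQB htQ⟩)
    rcases this with h | h
    · exact ht h
    · exact ht' h

lemma exists_cyl {O : Set Cant} (hO : IsOpen O) {t : Cant} (ht : t ∈ O) :
    ∃ m, ∀ s, PiNat.res s m = PiNat.res t m → s ∈ O := by
  obtain ⟨s', ⟨x, n, rfl⟩, h1, h2⟩ :=
    (PiNat.isTopologicalBasis_cylinders (fun _ : ℕ => Bool)).exists_subset_of_mem_open ht hO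
  refine ⟨n, fun s hs => h2 ?_⟩
  rw [PiNat.cylinder_eq_res] at h1 ⊢
  exact hs.trans h1

lemma W_core {δ : ℝ} {z z' : Y} (h : ∀ m, (z, z') ∈ P.W δ m) {t : Cant} (h1 : (z, t) ∉ P.FF δ)
    (h2 : (z', t) ∉ P.FF δ) : ∃ U, P.Stab δ U ∧ z ∈ U ∧ t ∈ P.Cc δ U := by
  obtain ⟨U, U', hU, hz, -, -, -⟩ := h 0
  refine ⟨U, hU, hz, ?_⟩
  rw [← (P.Cc_closed δ U).closure_eq, mem_closure_iff]
  intro O hO htO
  obtain ⟨m, hm⟩ := exists_cyl hO htO
  obtain ⟨V, V', hV, hzV, -, hzV', hc⟩ := h m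
  obtain ⟨c, hc1, hc2⟩ := hc z hzV z' hzV' t h1 h2
  exact ⟨c, hm c hc2, P.stab_eq hV hU hzV hz hc1⟩

/-- points at which the directions of the core are almost smooth -/
def D3 (B : Cant → Set Y) (δ ε : ℝ) : Set Y :=
  {z | ∃ U, P.Stab δ U ∧ (P.Cc δ U).Finite ∧ z ∈ U ∧ ∀ t ∈ P.Cc δ U, P.Sm (B t) ε z}

lemma D3_open (B : Cant → Set Y) (δ ε : ℝ) : IsOpen (P.D3 B δ ε) := by
  rw [isOpen_iff_forall_mem_open]
  rintro z ⟨U, hU, hfin, hz, h⟩
  refine ⟨U ∩ ⋂ t ∈ P.Cc δ U, {z | P.Sm (B t) ε z}, ?_, ?_, hz, mem_iInter₂.2 h⟩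
  · rintro w ⟨h1, h2⟩
    exact ⟨U, hU, hfin, h1, fun t ht => mem_iInter₂.1 h2 t ht⟩
  · exact hU.1.inter (hfin.isOpen_biInter fun t _ => P.Sm_open (B t) ε)

lemma D3_dense {B : Cant → Set Y} (hB : ∀ t, P.GenB (B t)) {δ ε : ℝ} (hδ : 0 < δ) (hε : 0 < ε) :
    P.O₀ ⊆ closure (P.D3 B δ ε) := by
  intro x hx
  rw [mem_closure_iff]
  intro O hO hxO
  obtain ⟨U, hUV, hUne, hU, hfin⟩ := P.stab_dense hδ (O ∩ P.O₀) (hO.inter P.hO) ⟨x, hxO, hx⟩
    inter_subset_right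
  have key : ∀ A : Set Cant, A.Finite → ∃ V, IsOpen V ∧ V.Nonempty ∧ V ⊆ U ∧
      ∀ t ∈ A, ∀ z ∈ V, P.Sm (B t) ε z := by
    intro A hA
    induction A, hA using Set.Finite.induction_on with
    | empty => exact ⟨U, hU.1, hUne, Subset.rfl, by simp⟩
    | @insert t A _ _ ih =>
      obtain ⟨V, h1, h2, h3, h4⟩ := ih
      obtain ⟨z, hz, hzs⟩ := hB t ε hε V h1 h2 (h3.trans hU.2.1)
      refine ⟨V ∩ {z | P.Sm (B t) ε z}, h1.inter (P.Sm_open _ _), ⟨z, hz, hzs⟩,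
        inter_subset_left.trans h3, fun t' ht' w hw => ?_⟩
      rcases ht' with rfl | h
      · exact hw.2
      · exact h4 t' h w hw.1
  obtain ⟨V, h1, ⟨z, hz⟩, h3, h4⟩ := key _ hfin
  exact ⟨z, (hUV (h3 hz)).1, U, hU, hfin, h3 hz, fun t ht => h4 t ht z hz⟩

theorem AT [CompleteSpace Y] (hMy : TaskM.{u}) {T : Set Cant}
    (hT : ∀ N : Set (Cant × Cant), MeasurableSet N → (∀ σ, {t | (σ, t) ∈ N}.Countable) →
      (∀ σ σ' t, (σ, t) ∈ N → (σ', t) ∈ N → σ = σ') → ∃ σ, ∀ t ∈ T, (σ, t) ∉ N)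
    {B : Cant → Set Y} (hB : ∀ t, P.GenB (B t)) {S : ℕ → Set Y} (hS : ∀ k, P.GenB (S k)) :
    ∃ z ∈ P.O₀, (∀ k, ∀ ε > 0, P.Sm (S k) ε z) ∧
      ∀ t ∈ T, (∀ ε > 0, P.Sm (B t) ε z) ∨ (∀ δ > 0, ∃ n, z ∈ P.F (PiNat.res t n) δ) := by
  classical
  set d : ℕ → ℝ := fun j => 1 / ((j : ℝ) + 1) with hd
  have hdpos : ∀ j, 0 < d j := fun j => by rw [hd]; positivity
  have hdanti : ∀ i j, i ≤ j → d j ≤ d i := fun i j hij => by
    simp only [hd]
    apply one_div_le_one_div_of_le (by positivity)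
    have : (i : ℝ) ≤ j := by exact_mod_cast hij
    linarith
  have hdsmall : ∀ ε : ℝ, 0 < ε → ∃ j, d j ≤ ε := fun ε hε => by
    obtain ⟨j, hj⟩ := exists_nat_one_div_lt hε
    exact ⟨j, hj.le⟩
  -- families of dense open sets
  let ι := (List Bool × ℕ) ⊕ ((ℕ × ℕ) ⊕ (ℕ × ℕ))
  let D' : ι → Set Y := fun i => match i with
    | Sum.inl p => P.Gen p.1 (d p.2)
    | Sum.inr (Sum.inl p) => P.D3 B (d p.1) (d p.2)
    | Sum.inr (Sum.inr p) => {z | P.Sm (S p.1) (d p.2) z}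
  have hD'o : ∀ i, IsOpen (D' i) := by
    rintro (p | p | p)
    · exact P.Gen_open _ _
    · exact P.D3_open _ _ _
    · exact P.Sm_open _ _
  have hD'd : ∀ i, P.O₀ ⊆ closure (D' i) := by
    rintro (p | p | p)
    · intro x hx
      rw [mem_closure_iff]
      intro O hO hxO
      exact P.Gen_dense _ _ O hO ⟨x, hxO⟩
    · exact P.D3_dense hB (hdpos _) (hdpos _)
    · intro x hx
      rw [mem_closure_iff]
      intro O hO hxO
      obtain ⟨z, hz, hzs⟩ := hS p.1 (d p.2) (hdpos _) (O ∩ P.O₀) (hO.inter P.hO) ⟨x, hxO, hx⟩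
        inter_subset_right
      exact ⟨z, hz.1, hzs⟩
  obtain ⟨e, he⟩ := exists_surjective_nat ι
  obtain ⟨e', he'⟩ := exists_surjective_nat (ℕ × ℕ)
  obtain ⟨z, hzc, hzO, hzD, hzW⟩ := hMy Y P.O₀ P.hO P.hne (fun n => D' (e n)) (fun n => hD'o _)
    (fun n => hD'd _) (fun n => P.W (d (e' n).1) (e' n).2) (fun n => P.W_open _ _)
    (fun n => P.W_dense (hdpos _) _)
  have hzD' : ∀ σ i, z σ ∈ D' i := by
    intro σ i
    obtain ⟨n, rfl⟩ := he i
    exact hzD σ n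
  have hzW' : ∀ σ σ', σ ≠ σ' → ∀ j m, (z σ, z σ') ∈ P.W (d j) m := by
    intro σ σ' hne j m
    obtain ⟨n, hn⟩ := he' (j, m)
    have := hzW σ σ' hne n
    rwa [hn] at this
  have hgen : ∀ σ j l, z σ ∈ P.Gen l (d j) := fun σ j l => hzD' σ (Sum.inl (l, j))
  have hD3 : ∀ σ j k, z σ ∈ P.D3 B (d j) (d k) := fun σ j k => hzD' σ (Sum.inr (Sum.inl (j, k)))
  have hSm : ∀ σ k j, P.Sm (S k) (d j) (z σ) := fun σ k j => hzD' σ (Sum.inr (Sum.inr (k, j)))
  -- the code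
  set CC : ℕ → Set (Cant × Cant) := fun j => {p | ∃ U, P.Stab (d j) U ∧ z p.1 ∈ U ∧
    p.2 ∈ P.Cc (d j) U} with hCC
  set N : Set (Cant × Cant) := {p | (∃ j, (z p.1, p.2) ∉ P.FF (d j)) ∧ ∀ j, p ∉ CC j} with hN
  have hCCm : ∀ j, MeasurableSet (CC j) := by
    intro j
    have hst : ∀ σ, ∃ U, P.Stab (d j) U ∧ z σ ∈ U := by
      intro σ
      obtain ⟨U, hU, -, hz, -⟩ := hD3 σ j 0
      exact ⟨U, hU, hz⟩
    choose U hU hzU using hst
    obtain ⟨A, hA⟩ := isCompact_univ.elim_nhds_subcover (fun σ => z ⁻¹' (U σ))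
      (fun σ _ => ((hU σ).1.preimage hzc).mem_nhds (hzU σ))
    have : CC j = ⋃ σ ∈ A, ((z ⁻¹' (U σ)) ×ˢ P.Cc (d j) (U σ)) := by
      ext ⟨σ, t⟩
      simp only [hCC, mem_ofPred_eq, mem_iUnion, exists_prop, mem_prod, mem_preimage]
      constructor
      · rintro ⟨V, hV, hzV, ht⟩
        obtain ⟨σ', hσ', hσU⟩ := mem_iUnion₂.1 (hA.2 (mem_univ σ))
        exact ⟨σ', hσ', hσU, P.stab_eq hV (hU σ') hzV hσU ht⟩
      · rintro ⟨σ', hσ', hσU, ht⟩
        exact ⟨U σ', hU σ', hσU, ht⟩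
    rw [this]
    refine Finset.measurableSet_biUnion _ fun σ _ => ?_
    exact ((hU σ).1.preimage hzc).measurableSet.prod (P.Cc_closed _ _).measurableSet
  have hNm : MeasurableSet N := by
    have : N = (⋃ j, ((fun p : Cant × Cant => ((z p.1, p.2) : Y × Cant)) ⁻¹' P.FF (d j))ᶜ) ∩
        ⋂ j, (CC j)ᶜ := by
      ext p
      simp [hN]
    rw [this]
    refine (MeasurableSet.iUnion fun j => ?_).inter (MeasurableSet.iInter fun j => (hCCm j).compl)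
    have hc : Continuous fun p : Cant × Cant => ((z p.1, p.2) : Y × Cant) := by fun_prop
    exact ((P.FF_open _).preimage hc).measurableSet.compl
  obtain ⟨σ, hσ⟩ := hT N hNm (by
    intro σ
    apply (countable_iUnion fun j : ℕ =>
      (P.K_finite (hdpos j) (hzO σ) (fun l => hgen σ j l)).countable).mono
    rintro t ⟨⟨j, hj⟩, -⟩
    exact mem_iUnion.2 ⟨j, hj⟩) (by
    rintro σ σ' t ⟨⟨i, hi⟩, h1⟩ ⟨⟨j, hj⟩, -⟩
    by_contra hne
    have hi' : (z σ, t) ∉ P.FF (d (max i j)) := fun h =>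
      hi (P.FF_mono (hdanti _ _ (le_max_left i j)) h)
    have hj' : (z σ', t) ∉ P.FF (d (max i j)) := fun h =>
      hj (P.FF_mono (hdanti _ _ (le_max_right i j)) h)
    obtain ⟨U, hU, hzU, htU⟩ := P.W_core (fun m => hzW' σ σ' hne (max i j) m) hi' hj'
    exact h1 (max i j) ⟨U, hU, hzU, htU⟩)
  refine ⟨z σ, hzO σ, ?_, ?_⟩
  · intro k ε hε
    obtain ⟨j, hj⟩ := hdsmall ε hε
    exact P.Sm_mono hj (hSm σ k j)
  · intro t ht
    by_cases hall : ∀ j, (z σ, t) ∈ P.FF (d j)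
    · right
      intro δ hδ
      obtain ⟨j, hj⟩ := hdsmall δ hδ
      obtain ⟨n, hn⟩ := hall j
      exact ⟨n, P.F_mono _ hj hn⟩
    · left
      push Not at hall
      have h1 := hσ t ht
      simp only [hN, mem_ofPred_eq, not_and, not_forall, not_not] at h1
      obtain ⟨j, U, hU, hzU, htU⟩ := h1 hall
      intro ε hε
      obtain ⟨k, hk⟩ := hdsmall ε hε
      obtain ⟨U', hU', -, hzU', hsm⟩ := hD3 σ j k
      exact P.Sm_mono hk (hsm t (P.stab_eq hU hU' hzU hzU' htU))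

end Data

end H647R3.GDS
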