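import Pool.Agent.H647R3.DA

open Set Topology

namespace H647R3.GDS

open H647R3.Fac

/-- the Cantor set -/
abbrev Cant := ℕ → Bool

/-- bounded real functions on the Cantor set, with the sup norm -/
abbrev BF := lp (fun _ : Cant => ℝ) ⊤

/-- indicator function of the cylinder of all `s` with `PiNat.res s l.length = l` -/
noncomputable def indF (l : List Bool) : Cant → ℝ :=
  fun s => if PiNat.res s l.length = l then 1 else 0

open Classical in
/-- a function that is locally constant off `t` and oscillates at `t` -/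
noncomputable def jumpF (t : Cant) : Cant → ℝ :=
  fun s => if s ≠ t ∧ Even (PiNat.firstDiff s t) then 1 else 0

/-- generators -/
def gens (T : Set Cant) : Set BF :=
  {x | (∃ l : List Bool, (x : Cant → ℝ) = indF l) ∨ ∃ t ∈ T, (x : Cant → ℝ) = jumpF t}

/-- the Banach space: closed linear span of the generators -/
noncomputable def ET (T : Set Cant) : Submodule ℝ BF := (Submodule.span ℝ (gens T)).topologicalClosure

/-- Task T: a Bernstein-like set. -/
def TaskT : Prop :=
  ∃ T : Set Cant,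
    (∀ τ : Cant → Cant, Continuous τ → Function.Injective τ → ∃ σ, τ σ ∈ T) ∧
    (∀ N : Set (Cant × Cant), MeasurableSet N → (∀ σ, {t | (σ, t) ∈ N}.Countable) →
      (∀ σ σ' t, (σ, t) ∈ N → (σ', t) ∈ N → σ = σ') → ∃ σ, ∀ t ∈ T, (σ, t) ∉ N)

universe u

/-- Task M: Mycielski's theorem in an open subset of a complete metric space. -/
def TaskM : Prop :=
  ∀ (Y : Type u) [MetricSpace Y] [CompleteSpace Y] (O : Set Y), IsOpen O → O.Nonempty →
    ∀ (D : ℕ → Set Y), (∀ n, IsOpen (D n)) → (∀ n, O ⊆ closure (D n)) →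
    ∀ (W : ℕ → Set (Y × Y)), (∀ n, IsOpen (W n)) → (∀ n, O ×ˢ O ⊆ closure (W n)) →
    ∃ z : Cant → Y, Continuous z ∧ (∀ σ, z σ ∈ O) ∧ (∀ σ n, z σ ∈ D n) ∧
      (∀ σ σ', σ ≠ σ' → ∀ n, (z σ, z σ') ∈ W n)

/-- Task B: the norm of `ET T` is not generically Gateaux differentiable. -/
def TaskB : Prop :=
  TaskM.{0} → ∀ T : Set Cant,
    (∀ τ : Cant → Cant, Continuous τ → Function.Injective τ → ∃ σ, τ σ ∈ T) →
    ¬ IsWeakAsplund (ET T)

end H647R3.GDS
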