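import Pool.Agent.H647R3.ED
import Pool.Agent.H647R3.DD
import Pool.Agent.H658R3.Myc
import Pool.Agent.H217R3.GDS_TaskT
import Pool.Agent.H894R3.GDS.TaskB

open Set Topology Filter

universe u

namespace H647R3.GDS

open H647R3.Fac

namespace Data

variable {Y : Type u} [NormedAddCommGroup Y] [NormedSpace ℝ Y] (P : Data Y)

/-- second differences along `h` at `z` eventually at most `ε t` -/
def Smo (z : Y) (ε : ℝ) (h : Y) : Prop :=
  ∃ δ > 0, ∀ t : ℝ, 0 < t → t < δ → z + t • h ∈ P.O₀ ∧ z - t • h ∈ P.O₀ ∧ d2 P.G z (t • h) ≤ ε * t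

lemma Smo_mono {z : Y} {ε ε' : ℝ} (hε : ε ≤ ε') {h : Y} (H : P.Smo z ε h) : P.Smo z ε' h := by
  obtain ⟨δ, hδ, h1⟩ := H
  exact ⟨δ, hδ, fun t ht1 ht2 => ⟨(h1 t ht1 ht2).1, (h1 t ht1 ht2).2.1,
    (h1 t ht1 ht2).2.2.trans (mul_le_mul_of_nonneg_right hε ht1.le)⟩⟩

lemma Smo_add {z : Y} {ε ε' : ℝ} {h k : Y} (H : P.Smo z ε h) (K : P.Smo z ε' k) :
    P.Smo z (ε + ε') (h + k) := by
  obtain ⟨δ, hδ, h1⟩ := H
  obtain ⟨δ', hδ', h1'⟩ := K
  refine ⟨min δ δ' / 2, by positivity, fun t ht1 ht2 => ?_⟩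
  have a1 : 2 * t < δ := by linarith [min_le_left δ δ']
  have a2 : 2 * t < δ' := by linarith [min_le_right δ δ']
  obtain ⟨b1, b2, b3⟩ := h1 (2 * t) (by positivity) a1
  obtain ⟨c1, c2, c3⟩ := h1' (2 * t) (by positivity) a2
  have e1 : z + t • (h + k) = (1/2 : ℝ) • (z + (2 * t) • h) + (1/2 : ℝ) • (z + (2 * t) • k) := by
    module
  have e2 : z - t • (h + k) = (1/2 : ℝ) • (z - (2 * t) • h) + (1/2 : ℝ) • (z - (2 * t) • k) := by
    module
  have i1 := P.hG.2 b1 c1 (by norm_num : (0:ℝ) ≤ 1/2) (by norm_num : (0:ℝ) ≤ 1/2) (by norm_num)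
  have i2 := P.hG.2 b2 c2 (by norm_num : (0:ℝ) ≤ 1/2) (by norm_num : (0:ℝ) ≤ 1/2) (by norm_num)
  have j1 := P.hG.1 b1 c1 (by norm_num : (0:ℝ) ≤ 1/2) (by norm_num : (0:ℝ) ≤ 1/2) (by norm_num)
  have j2 := P.hG.1 b2 c2 (by norm_num : (0:ℝ) ≤ 1/2) (by norm_num : (0:ℝ) ≤ 1/2) (by norm_num)
  rw [← e1] at i1 j1
  rw [← e2] at i2 j2
  refine ⟨j1, j2, ?_⟩
  unfold d2 at *
  simp only [smul_eq_mul] at i1 i2
  linarith

lemma Smo_lip {z : Y} (hz : z ∈ P.O₀) (h : Y) : P.Smo z (2 * P.M * ‖h‖) h := by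
  obtain ⟨δ, hδ, h1⟩ := exists_small P.hO hz h
  refine ⟨δ, hδ, fun t ht1 ht2 => ?_⟩
  have a1 := h1 t (by rwa [abs_of_pos ht1])
  have a2 := h1 (-t) (by rwa [abs_neg, abs_of_pos ht1])
  rw [neg_smul, ← sub_eq_add_neg] at a2
  have b1 := P.hM _ a1 _ hz
  have b2 := P.hM _ a2 _ hz
  rw [add_sub_cancel_left, norm_smul, Real.norm_eq_abs, abs_of_pos ht1] at b1
  rw [sub_sub_cancel_left, norm_neg, norm_smul, Real.norm_eq_abs, abs_of_pos ht1] at b2
  refine ⟨a1, a2, ?_⟩
  unfold d2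
  have c1 := (abs_le.1 b1).2
  have c2 := (abs_le.1 b2).2
  nlinarith

lemma Smo_of_Sm {z : Y} {ε : ℝ} {B : Set Y} {h : Y} (hB : h ∈ B) (H : P.Sm B ε z) :
    P.Smo z ε h := by
  obtain ⟨s, hs, η, hη, h0, h1⟩ := H
  have hz : z ∈ P.O₀ := h0 (Metric.mem_ball_self hη)
  have a1 : z + s • h ∈ P.O₀ := (h1 h hB).1 (Metric.mem_ball_self hη)
  have a2 : z - s • h ∈ P.O₀ := (h1 h hB).2.1 (Metric.mem_ball_self hη)
  have a3 := (h1 h hB).2.2
  refine ⟨s, hs, fun t ht1 ht2 => ?_⟩
  have r0 : 0 ≤ t / s := by positivity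
  have r1 : 0 ≤ 1 - t / s := by
    rw [sub_nonneg, div_le_one hs]; exact ht2.le
  have e1 : z + t • h = (1 - t / s) • z + (t / s) • (z + s • h) := by
    have : (t / s) • (s • h) = t • h := by rw [smul_smul, div_mul_cancel₀ _ hs.ne']
    rw [smul_add, this]; module
  have e2 : z - t • h = (1 - t / s) • z + (t / s) • (z - s • h) := by
    have : (t / s) • (s • h) = t • h := by rw [smul_smul, div_mul_cancel₀ _ hs.ne']
    rw [smul_sub, this]; module
  have i1 := P.hG.2 hz a1 r1 r0 (by ring)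
  have i2 := P.hG.2 hz a2 r1 r0 (by ring)
  have j1 := P.hG.1 hz a1 r1 r0 (by ring)
  have j2 := P.hG.1 hz a2 r1 r0 (by ring)
  rw [← e1] at i1 j1
  rw [← e2] at i2 j2
  refine ⟨j1, j2, ?_⟩
  simp only [smul_eq_mul] at i1 i2
  have e3 : d2 P.G z (t • h) ≤ (t / s) * d2 P.G z (s • h) := by
    unfold d2; nlinarith
  have e4 : d2 P.G z (s • h) ≤ ε * s := a3.trans (by nlinarith)
  calc _ ≤ _ := e3
    _ ≤ (t / s) * (ε * s) := mul_le_mul_of_nonneg_left e4 r0
    _ = ε * t := by field_simp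

lemma Smo_smul {z : Y} {h : Y} (H : ∀ ε > 0, P.Smo z ε h) (hz : z ∈ P.O₀) (c : ℝ) :
    ∀ ε > 0, P.Smo z ε (c • h) := by
  intro ε hε
  rcases eq_or_ne c 0 with rfl | hc
  · have := P.Smo_lip hz (0 : Y)
    rw [norm_zero, mul_zero] at this
    rw [zero_smul]
    exact P.Smo_mono hε.le this
  · obtain ⟨δ, hδ, h1⟩ := H (ε / |c|) (by positivity)
    refine ⟨δ / |c|, by positivity, fun t ht1 ht2 => ?_⟩
    have ht3 : t * |c| < δ := by rwa [lt_div_iff₀ (by positivity)] at ht2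
    obtain ⟨a1, a2, a3⟩ := h1 (t * |c|) (by positivity) ht3
    rcases abs_cases c with ⟨hc1, hc2⟩ | ⟨hc1, hc2⟩
    · rw [smul_smul]
      rw [hc1] at a1 a2 a3
      refine ⟨a1, a2, a3.trans (le_of_eq ?_)⟩
      field_simp
    · rw [smul_smul]
      rw [hc1] at a1 a2 a3
      have e : (t * -c) • h = -((t * c) • h) := by
        rw [mul_neg, neg_smul]
      rw [e] at a1 a2 a3
      rw [← sub_eq_add_neg] at a1
      rw [sub_neg_eq_add] at a2
      refine ⟨a2, a1, ?_⟩
      have e2 : d2 P.G z ((t * c) • h) = d2 P.G z (-((t * c) • h)) := by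
        unfold d2; rw [sub_neg_eq_add, ← sub_eq_add_neg]; ring
      rw [e2]
      refine a3.trans (le_of_eq ?_)
      field_simp

end Data

section space

variable {T : Set Cant}

/-- value of an element of the space -/
def ev (x : ET T) (s : Cant) : ℝ := (x.1 : Cant → ℝ) s

lemma ev_add (x y : ET T) (s : Cant) : ev (x + y) s = ev x s + ev y s := rfl

lemma ev_sub (x y : ET T) (s : Cant) : ev (x - y) s = ev x s - ev y s := rfl

lemma ev_smul (c : ℝ) (x : ET T) (s : Cant) : ev (c • x) s = c * ev x s := rfl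

lemma ev_neg (x : ET T) (s : Cant) : ev (-x) s = -ev x s := rfl

lemma ev_zero (s : Cant) : ev (0 : ET T) s = 0 := rfl

lemma ev_sum {ι : Type*} (A : Finset ι) (h : ι → ET T) (s : Cant) :
    ev (∑ i ∈ A, h i) s = ∑ i ∈ A, ev (h i) s := by
  classical
  induction A using Finset.induction_on with
  | empty => simp [ev_zero]
  | insert a A ha ih => rw [Finset.sum_insert ha, Finset.sum_insert ha, ev_add, ih]

lemma abs_ev_le (x : ET T) (s : Cant) : |ev x s| ≤ ‖x‖ := by
  have := lp.norm_apply_le_norm (E := fun _ : Cant => ℝ) (p := ⊤) ENNReal.top_ne_zero x.1 s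
  rwa [Real.norm_eq_abs] at this

lemma norm_le_of {x : ET T} {C : ℝ} (hC : 0 ≤ C) (h : ∀ s, |ev x s| ≤ C) : ‖x‖ ≤ C := by
  have := lp.norm_le_of_forall_le (E := fun _ : Cant => ℝ) (f := x.1) hC
    (fun s => by rw [Real.norm_eq_abs]; exact h s)
  exact this

lemma ext_ev {x y : ET T} (h : ∀ s, ev x s = ev y s) : x = y := by
  apply Subtype.ext
  apply Subtype.ext
  funext s
  exact h s

lemma memlp (f : Cant → ℝ) (h : ∀ s, |f s| ≤ 1) : Memℓp f ⊤ := by
  apply memℓp_infty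
  refine ⟨1, ?_⟩
  rintro _ ⟨s, rfl⟩
  simpa using h s

/-- an element from a generator -/
noncomputable def ofFun (T : Set Cant) (f : Cant → ℝ) (h : ∀ s, |f s| ≤ 1)
    (hg : ∀ x : BF, (x : Cant → ℝ) = f → x ∈ gens T) : ET T :=
  ⟨⟨f, memlp f h⟩, Submodule.le_topologicalClosure _ (Submodule.subset_span (hg _ rfl))⟩

lemma indF_le (l : List Bool) (s : Cant) : |indF l s| ≤ 1 := by
  unfold indF; split_ifs <;> simp

lemma jumpF_le (t : Cant) (s : Cant) : |jumpF t s| ≤ 1 := by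
  unfold jumpF; split_ifs <;> simp

/-- indicator functions as elements -/
noncomputable def ind (T : Set Cant) (l : List Bool) : ET T :=
  ofFun T (indF l) (indF_le l) fun _ hx => Or.inl ⟨l, hx⟩

lemma ev_ind (l : List Bool) (s : Cant) : ev (ind T l) s = indF l s := rfl

/-- jump functions as elements -/
noncomputable def jmp (T : Set Cant) {t : Cant} (ht : t ∈ T) : ET T :=
  ofFun T (jumpF t) (jumpF_le t) fun _ hx => Or.inr ⟨t, ht, hx⟩

lemma ev_jmp {t : Cant} (ht : t ∈ T) (s : Cant) : ev (jmp T ht) s = jumpF t s := rfl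

/-- part of the jump function off a cylinder -/
noncomputable def offp (T : Set Cant) (t : Cant) (n : ℕ) : ET T :=
  ∑ k ∈ (Finset.range n).filter Even, (ind T (PiNat.res t k) - ind T (PiNat.res t (k + 1)))

lemma res_iff {s t : Cant} {k : ℕ} : PiNat.res s k = PiNat.res t k ↔ ∀ i < k, s i = t i :=
  PiNat.res_eq_res

lemma ev_offp (t : Cant) (n : ℕ) (s : Cant) :
    ev (offp T t n) s = if PiNat.res s n = PiNat.res t n then 0 else jumpF t s := by
  classical
  unfold offp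
  rw [ev_sum]
  simp only [ev_sub, ev_ind, indF, PiNat.res_length]
  split_ifs with h
  · apply Finset.sum_eq_zero
    intro k hk
    rw [Finset.mem_filter, Finset.mem_range] at hk
    have h1 : PiNat.res s k = PiNat.res t k :=
      res_iff.2 fun i hi => res_iff.1 h i (hi.trans hk.1)
    have h2 : PiNat.res s (k + 1) = PiNat.res t (k + 1) :=
      res_iff.2 fun i hi => res_iff.1 h i (by omega)
    rw [if_pos h1, if_pos h2, sub_self]
  · have hne : s ≠ t := fun he => h (by rw [he])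
    set m := PiNat.firstDiff s t with hm
    have hms : s m ≠ t m := PiNat.apply_firstDiff_ne hne
    have hlt : ∀ i < m, s i = t i := fun i hi => PiNat.apply_eq_of_lt_firstDiff hi
    have hmn : m < n := by
      by_contra hcon
      push Not at hcon
      exact h (res_iff.2 fun i hi => hlt i (hi.trans_le hcon))
    have hk : ∀ k, PiNat.res s k = PiNat.res t k ↔ k ≤ m := by
      intro k
      rw [res_iff]
      constructor
      · intro h1
        by_contra hcon
        push Not at hcon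
        exact hms (h1 m hcon)
      · intro h1 i hi
        exact hlt i (hi.trans_le h1)
    have hterm : ∀ k ∈ (Finset.range n).filter Even,
        ((if PiNat.res s k = PiNat.res t k then (1:ℝ) else 0) -
        (if PiNat.res s (k + 1) = PiNat.res t (k + 1) then (1:ℝ) else 0)) =
        if k = m then 1 else 0 := by
      intro k _
      simp only [hk]
      by_cases h1 : k = m
      · subst h1
        simp
      · by_cases h2 : k ≤ m
        · have h3 : k + 1 ≤ m := by omega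
          simp [h1, h2, h3]
        · have h3 : ¬ (k + 1 ≤ m) := by omega
          simp [h1, h2, h3]
    rw [Finset.sum_congr rfl hterm, Finset.sum_ite_eq']
    unfold jumpF
    rw [← hm]
    by_cases he : Even m
    · rw [if_pos (Finset.mem_filter.2 ⟨Finset.mem_range.2 hmn, he⟩), if_pos ⟨hne, he⟩]
    · rw [if_neg (fun hx => he (Finset.mem_filter.1 hx).2), if_neg (fun hx => he hx.2)]

/-- localised directions -/
def Hdir (T : Set Cant) (l : List Bool) : Set (ET T) :=
  {h | ‖h‖ ≤ 1 ∧ ∀ s, PiNat.res s l.length ≠ l → ev h s = 0}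

lemma Hdir_sum (n : ℕ) (A : Finset (List Bool)) (hA : ∀ l ∈ A, l.length = n)
    (h : List Bool → ET T) (hh : ∀ l ∈ A, h l ∈ Hdir T l) : ‖∑ l ∈ A, h l‖ ≤ 1 := by
  classical
  apply norm_le_of zero_le_one
  intro s
  rw [ev_sum]
  have hz : ∀ l ∈ A, l ≠ PiNat.res s n → ev (h l) s = 0 := by
    intro l hl hne
    apply (hh l hl).2
    rw [hA l hl]
    exact fun he => hne he.symm
  by_cases hs : PiNat.res s n ∈ A
  · rw [Finset.sum_eq_single_of_mem _ hs hz]
    exact (abs_ev_le _ _).trans (hh _ hs).1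
  · rw [Finset.sum_eq_zero fun l hl => hz l hl (fun he => hs (he ▸ hl))]
    simp

end space

end H647R3.GDS
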