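import Pool.Agent.H647R3.EE

open Set Topology Filter

namespace H647R3.GDS

open H647R3.Fac

variable {T : Set Cant}

lemma exists_good (hT : ∀ N : Set (Cant × Cant), MeasurableSet N →
      (∀ σ, {t | (σ, t) ∈ N}.Countable) →
      (∀ σ σ' t, (σ, t) ∈ N → (σ', t) ∈ N → σ = σ') → ∃ σ, ∀ t ∈ T, (σ, t) ∉ N)
    (hMy : TaskM.{0}) (P : Data (ET T)) (hHd : P.Hd = Hdir T) :
    ∃ z ∈ P.O₀, ∀ h : ET T, ∀ ε > 0, P.Smo z ε h := by
  classical
  haveI : CompleteSpace (ET T) := Submodule.topologicalClosure.completeSpace _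
  obtain ⟨e, he⟩ := exists_surjective_nat (List Bool)
  obtain ⟨z, hz, hS, hB⟩ := P.AT hMy hT
    (B := fun t => {h | ∃ ht : t ∈ T, h = jmp T ht}) (by
      intro t
      by_cases ht : t ∈ T
      · have : {h | ∃ ht : t ∈ T, h = jmp T ht} = {jmp T ht} := by
          ext h; simp [ht]
        rw [this]
        exact P.genB_single _
      · have : {h | ∃ ht : t ∈ T, h = jmp T ht} = ∅ := by
          ext h; simp [ht]
        rw [this]
        intro ε hε V h1 h2 h3
        obtain ⟨z, hz, s, hs, η, hη, h0, -⟩ := P.genB_single 0 ε hε V h1 h2 h3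
        exact ⟨z, hz, s, hs, η, hη, h0, by simp⟩)
    (S := fun k => {ind T (e k)}) (fun k => P.genB_single _)
  refine ⟨z, hz, ?_⟩
  -- smooth vectors form a closed subspace
  have hadd : ∀ h k : ET T, (∀ ε > 0, P.Smo z ε h) → (∀ ε > 0, P.Smo z ε k) →
      ∀ ε > 0, P.Smo z ε (h + k) := by
    intro h k hh hk ε hε
    have := P.Smo_add (hh (ε / 2) (by positivity)) (hk (ε / 2) (by positivity))
    rwa [add_halves] at this
  have hind : ∀ l, ∀ ε > 0, P.Smo z ε (ind T l) := by
    intro l ε hε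
    obtain ⟨k, rfl⟩ := he l
    exact P.Smo_of_Sm (mem_singleton _) (hS k ε hε)
  have hzero : ∀ ε > 0, P.Smo z ε (0 : ET T) := by
    have := P.Smo_smul (hind []) hz 0
    rwa [zero_smul] at this
  have hsub : ∀ h k : ET T, (∀ ε > 0, P.Smo z ε h) → (∀ ε > 0, P.Smo z ε k) →
      ∀ ε > 0, P.Smo z ε (h - k) := by
    intro h k hh hk
    have h1 := P.Smo_smul hk hz (-1)
    rw [neg_one_smul] at h1
    rw [sub_eq_add_neg]
    exact hadd _ _ hh h1
  have hsum : ∀ (A : Finset ℕ) (g : ℕ → ET T), (∀ i ∈ A, ∀ ε > 0, P.Smo z ε (g i)) →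
      ∀ ε > 0, P.Smo z ε (∑ i ∈ A, g i) := by
    intro A g
    induction A using Finset.induction_on with
    | empty => intro _; rw [Finset.sum_empty]; exact hzero
    | insert a A ha ih =>
      intro hg
      rw [Finset.sum_insert ha]
      exact hadd _ _ (hg a (Finset.mem_insert_self _ _))
        (ih fun i hi => hg i (Finset.mem_insert_of_mem hi))
  have hoff : ∀ t n, ∀ ε > 0, P.Smo z ε (offp T t n) := by
    intro t n
    exact hsum _ _ fun i _ => hsub _ _ (hind _) (hind _)
  have hjmp : ∀ t, ∀ ht : t ∈ T, ∀ ε > 0, P.Smo z ε (jmp T ht) := by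
    intro t ht ε hε
    rcases hB t ht with h | h
    · exact P.Smo_of_Sm (B := {h | ∃ ht : t ∈ T, h = jmp T ht}) ⟨ht, rfl⟩ (h ε hε)
    · obtain ⟨n, O, hO, hzO, hOO, hflat⟩ := h (ε / 4) (by positivity)
      obtain ⟨b, hb⟩ : ∃ b : ET T, b = jmp T ht - offp T t n := ⟨_, rfl⟩
      have hev : ∀ s, ev b s = if PiNat.res s n = PiNat.res t n then jumpF t s else 0 := by
        intro s
        rw [hb, ev_sub, ev_jmp, ev_offp]
        split_ifs <;> simp
      have hbH : b ∈ Hdir T (PiNat.res t n) := by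
        refine ⟨norm_le_of zero_le_one fun s => ?_, fun s hs => ?_⟩
        · rw [hev]
          split_ifs
          · exact jumpF_le t s
          · simp
        · rw [PiNat.res_length] at hs
          rw [hev, if_neg hs]
      have hbH' : -b ∈ Hdir T (PiNat.res t n) := by
        refine ⟨by rw [norm_neg]; exact hbH.1, fun s hs => ?_⟩
        rw [ev_neg, hbH.2 s hs, neg_zero]
      rw [← hHd] at hbH hbH'
      have hbs : P.Smo z (ε / 2) b := by
        obtain ⟨δ, hδ, h1⟩ := exists_small hO hzO b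
        refine ⟨δ, hδ, fun r hr1 hr2 => ?_⟩
        have a1 := h1 r (by rwa [abs_of_pos hr1])
        have a2 := h1 (-r) (by rwa [abs_neg, abs_of_pos hr1])
        rw [neg_smul, ← sub_eq_add_neg] at a2
        have b1 := hflat z hzO b hbH r hr1 a1
        have b2 := hflat z hzO (-b) hbH' r hr1 (by rwa [smul_neg, ← sub_eq_add_neg])
        rw [smul_neg, ← sub_eq_add_neg] at b2
        refine ⟨hOO a1, hOO a2, ?_⟩
        unfold d2
        linarith
      have h2 := P.Smo_add hbs (hoff t n (ε / 2) (by positivity))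
      have h3 : b + offp T t n = jmp T ht := by rw [hb]; exact sub_add_cancel _ _
      rw [add_halves, h3] at h2
      exact h2
  have hspan : ∀ v (hv : v ∈ Submodule.span ℝ (gens T)), ∀ ε > 0,
      P.Smo z ε (⟨v, Submodule.le_topologicalClosure _ hv⟩ : ET T) := by
    intro v hv
    induction hv using Submodule.span_induction with
    | mem x hx =>
      rcases hx with ⟨l, hl⟩ | ⟨t, ht, htx⟩
      · have : (⟨x, Submodule.le_topologicalClosure _ (Submodule.subset_span
          (Or.inl ⟨l, hl⟩))⟩ : ET T) = ind T l := by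
          apply ext_ev
          intro s
          exact congrFun hl s
        rw [this]
        exact hind l
      · have : (⟨x, Submodule.le_topologicalClosure _ (Submodule.subset_span
          (Or.inr ⟨t, ht, htx⟩))⟩ : ET T) = jmp T ht := by
          apply ext_ev
          intro s
          exact congrFun htx s
        rw [this]
        exact hjmp t ht
    | zero => exact hzero
    | add x y hx hy ihx ihy => exact hadd _ _ ihx ihy
    | smul a x hx ih => exact P.Smo_smul ih hz a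
  intro h ε hε
  have hM1 : 0 < P.M + 1 := by linarith [P.hM0]
  have hcl : h.1 ∈ closure ((Submodule.span ℝ (gens T) : Submodule ℝ BF) : Set BF) := h.2
  obtain ⟨v, hv, hdist⟩ := Metric.mem_closure_iff.1 hcl (ε / (4 * (P.M + 1))) (by positivity)
  set v' : ET T := ⟨v, Submodule.le_topologicalClosure _ hv⟩ with hv'
  have h1 := P.Smo_add (hspan v hv (ε / 2) (by positivity)) (P.Smo_lip hz (h - v'))
  rw [← hv', add_sub_cancel] at h1
  refine P.Smo_mono ?_ h1
  have hn : ‖h - v'‖ < ε / (4 * (P.M + 1)) := by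
    rw [dist_eq_norm] at hdist
    exact hdist
  rw [lt_div_iff₀ (by positivity)] at hn
  nlinarith [norm_nonneg (h - v'), P.hM0]

theorem gds (hT : ∀ N : Set (Cant × Cant), MeasurableSet N →
      (∀ σ, {t | (σ, t) ∈ N}.Countable) →
      (∀ σ σ' t, (σ, t) ∈ N → (σ', t) ∈ N → σ = σ') → ∃ σ, ∀ t ∈ T, (σ, t) ∉ N)
    (hMy : TaskM.{0}) : IsGDS (ET T) := by
  intro D hne hD hDc f hfc hf x hx
  rw [mem_closure_iff]
  intro O hO hxO
  have hlip : LocallyLipschitzOn D f := (hf.locallyLipschitzOn_iff_continuousOn hD).2 hfc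
  obtain ⟨K, t, ht, hK⟩ := hlip hx
  rw [hD.nhdsWithin_eq hx] at ht
  obtain ⟨r, hr, hball⟩ := Metric.mem_nhds_iff.1 (inter_mem ht (inter_mem (hD.mem_nhds hx)
    (hO.mem_nhds hxO)))
  obtain ⟨z, hz, hsm⟩ := exists_good hT hMy
    { O₀ := Metric.ball x r
      hO := Metric.isOpen_ball
      hne := ⟨x, Metric.mem_ball_self hr⟩
      G := f
      hG := hf.subset (fun y hy => (hball hy).2.1) (convex_ball x r)
      M := K
      hM0 := K.2
      hM := fun y hy w hw => by
        have := hK.dist_le_mul y (hball hy).1 w (hball hw).1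
        rwa [Real.dist_eq, dist_eq_norm] at this
      Hd := Hdir T
      hsum := Hdir_sum } rfl
  refine ⟨z, (hball hz).2.2, (hball hz).2.1, ?_⟩
  rw [gateaux_iff]
  apply diff_of_sd (𝓑 := sing (ET T)) hD hfc hf (hball hz).2.1 (fun h => ⟨h, rfl⟩)
  rintro B ⟨h, rfl⟩ ε hε
  obtain ⟨δ, hδ, h1⟩ := hsm h ε hε
  refine ⟨δ, hδ, fun k hk t ht1 ht2 => ?_⟩
  rw [mem_singleton_iff] at hk
  subst hk
  obtain ⟨a1, a2, a3⟩ := h1 t ht1 ht2
  exact ⟨(hball a1).2.1, (hball a2).2.1, a3⟩

theorem gds_not_weakAsplund : ∃ T : Set Cant, IsGDS (ET T) ∧ ¬ IsWeakAsplund (ET T) := by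
  obtain ⟨T, hT1, hT2⟩ := Pool.Agent.H217R3.GDST.taskT
  exact ⟨T, gds hT2 Pool.Agent.H658R3.taskM, taskB Pool.Agent.H658R3.taskM T hT1⟩

end H647R3.GDS
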