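import Pool.Agent.H647R3.EF

open Set Topology

namespace H647R3.GDS

open H647R3.Fac

universe u

/-- index set: all linear functionals, each repeated continuum many times -/
abbrev JJ (X : Type u) [AddCommGroup X] [Module ℝ X] : Type u := (X →ₗ[ℝ] ℝ) × ℝ

/-- all `(x, y)`, `y ∈ ℝ^J`, with `y j = j.1 x` for all but countably many `j ∈ J` -/
def Th (X : Type u) [AddCommGroup X] [Module ℝ X] : Submodule ℝ (X × (JJ X → ℝ)) where
  carrier := {p | {j : JJ X | p.2 j ≠ j.1 p.1}.Countable}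
  add_mem' := by
    intro a b ha hb
    refine (ha.union hb).mono fun j hj => ?_
    by_contra hcon
    simp only [mem_union, mem_ofPred_eq, not_or, not_not] at hcon
    apply hj
    simp only [Prod.snd_add, Pi.add_apply, Prod.fst_add, map_add, hcon.1, hcon.2]
  zero_mem' := by simp
  smul_mem' := by
    intro c a ha
    refine ha.mono fun j hj => ?_
    by_contra hcon
    simp only [mem_ofPred_eq, not_not] at hcon
    apply hj
    simp only [Prod.smul_snd, Pi.smul_apply, Prod.smul_fst, map_smul, hcon]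

set_option synthInstance.maxHeartbeats 400000 in
instance thLCS (X : Type u) [NormedAddCommGroup X] [NormedSpace ℝ X] :
    LocallyConvexSpace ℝ (Th X) := inferInstance

/-- Bounded subsets of `Th X` are finite-dimensional. -/
def TaskBd : Prop :=
  ∀ (X : Type u) [NormedAddCommGroup X] [NormedSpace ℝ X] (B : Set (Th X)),
    Bornology.IsVonNBounded ℝ B →
    FiniteDimensional ℝ (Submodule.span ℝ ((fun p : Th X => p.1.1) '' B))

/-- If `X` is a Gateaux differentiability space then `Th X` is a Fréchet differentiability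
space. -/
def TaskFd : Prop :=
  TaskBd.{u} → ∀ (X : Type u) [NormedAddCommGroup X] [NormedSpace ℝ X], IsGDS X → IsFDS (Th X)

/-- Mycielski's theorem in `Th X`. -/
def TaskME : Prop :=
  ∀ (X : Type u) [NormedAddCommGroup X] [NormedSpace ℝ X] [CompleteSpace X] (O : Set (Th X)),
    IsOpen O → O.Nonempty →
    ∀ (D : ℕ → Set (Th X)), (∀ n, IsOpen (D n)) → (∀ n, O ⊆ closure (D n)) →
    ∀ (W : ℕ → Set (Th X × Th X)), (∀ n, IsOpen (W n)) → (∀ n, O ×ˢ O ⊆ closure (W n)) →
    ∃ z : Cant → Th X, Continuous (fun σ => (z σ).1.1) ∧ (∀ σ, z σ ∈ O) ∧ (∀ σ n, z σ ∈ D n) ∧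
      (∀ σ σ', σ ≠ σ' → ∀ n, (z σ, z σ') ∈ W n)

/-- `Th (ET T)` is not weak Asplund. -/
def TaskNW : Prop :=
  TaskME.{0} → ∀ T : Set Cant,
    (∀ τ : Cant → Cant, Continuous τ → Function.Injective τ → ∃ σ, τ σ ∈ T) →
    ¬ IsWeakAsplund (Th (ET T))

theorem assembly (h1 : TaskBd.{0}) (h2 : TaskFd.{0}) (h3 : TaskME.{0}) (h4 : TaskNW) :
    ∃ (E : Type) (_ : AddCommGroup E) (_ : Module ℝ E) (_ : TopologicalSpace E)
      (_ : IsTopologicalAddGroup E) (_ : ContinuousSMul ℝ E) (_ : LocallyConvexSpace ℝ E)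
      (_ : T2Space E)
      (F : Type) (_ : AddCommGroup F) (_ : Module ℝ F) (_ : TopologicalSpace F)
      (_ : IsTopologicalAddGroup F) (_ : ContinuousSMul ℝ F) (_ : LocallyConvexSpace ℝ F)
      (_ : T2Space F), IsAsplund (E × F) ∧ ¬ IsWeakAsplund E := by
  obtain ⟨T, hT1, hT2⟩ := Pool.Agent.H217R3.GDST.taskT
  have hF : IsFDS (Th (ET T)) := h2 h1 (ET T) (gds hT2 Pool.Agent.H658R3.taskM)
  obtain ⟨F, i1, i2, i3, i4, i5, i6, i7, h⟩ := frechet_main.1 hF
  exact ⟨Th (ET T), inferInstance, inferInstance, inferInstance, inferInstance, inferInstance,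
    inferInstance, inferInstance, F, i1, i2, i3, i4, i5, i6, i7, h, h4 h3 T hT1⟩

end H647R3.GDS
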