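import Pool.Agent.H647R3.DA

open Set Topology

namespace H647R3.NB

open H647R3.Fac

universe u

/-- the barrier `C r = 1 / (r - a) + 1 / (b - r)` on `(a, b)` -/
noncomputable def bar (a b r : ℝ) : ℝ := 1 / (r - a) + 1 / (b - r)

/-- union of Gδ sets, the `k`-th one being off the `k`-th member of an increasing closed cover -/
def TaskGd : Prop :=
  ∀ (Z : Type u) [TopologicalSpace Z] (A : ℕ → Set Z) (P : ℕ → Set Z),
    (∀ k, IsClosed (A k)) → Monotone A → (⋃ k, A k) = univ → (∀ k, IsGδ (P k)) →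
    (∀ k, Disjoint (P k) (A k)) → IsGδ (⋃ k, P k)

/-- a topological vector space which is not Baire is meagre in itself -/
def TaskMg : Prop :=
  ∀ (E : Type u) [AddCommGroup E] [Module ℝ E] [TopologicalSpace E] [IsTopologicalAddGroup E]
    [ContinuousSMul ℝ E], ¬ BaireSpace E →
    ∃ A : ℕ → Set E, (∀ k, IsClosed (A k)) ∧ (∀ k, interior (A k) = ∅) ∧ Monotone A ∧
      (⋃ k, A k) = univ

/-- a convex function touched from above by a Fréchet differentiable function is Fréchet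
differentiable -/
def TaskTouch : Prop :=
  ∀ (E : Type u) [AddCommGroup E] [Module ℝ E] [TopologicalSpace E] [IsTopologicalAddGroup E]
    [ContinuousSMul ℝ E] (D : Set (E × ℝ)) (f : E × ℝ → ℝ), ConvexOn ℝ D f →
    ∀ (U : Set E) (g : E → ℝ) (a b : ℝ) (C : ℝ → ℝ) (x : E) (s c : ℝ), x ∈ U → s ∈ Ioo a b →
    FrechetAt U g x → HasDerivAt C c s → U ×ˢ Ioo a b ⊆ D →
    (∀ y ∈ U, ∀ r ∈ Ioo a b, f (y, r) ≤ g y + C r) → f (x, s) = g x + C s →
    FrechetAt D f (x, s)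

/-- the set `{x : {x} × [a,b] ⊆ D}` and the function `x ↦ max_s (f (x, s) - bar s)` on it -/
def TaskMax : Prop :=
  ∀ (E : Type u) [AddCommGroup E] [Module ℝ E] [TopologicalSpace E] [IsTopologicalAddGroup E]
    [ContinuousSMul ℝ E] (D : Set (E × ℝ)) (f : E × ℝ → ℝ), IsOpen D →
    ContinuousOn f D → ConvexOn ℝ D f → ∀ a b : ℝ, a < b →
    IsOpen {x : E | ∀ s ∈ Icc a b, (x, s) ∈ D} ∧ Convex ℝ {x : E | ∀ s ∈ Icc a b, (x, s) ∈ D} ∧
    ∃ g : E → ℝ, ContinuousOn g {x : E | ∀ s ∈ Icc a b, (x, s) ∈ D} ∧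
      ConvexOn ℝ {x : E | ∀ s ∈ Icc a b, (x, s) ∈ D} g ∧
      (∀ y ∈ {x : E | ∀ s ∈ Icc a b, (x, s) ∈ D}, ∀ r ∈ Ioo a b, f (y, r) ≤ g y + bar a b r) ∧
      (∀ x ∈ {x : E | ∀ s ∈ Icc a b, (x, s) ∈ D}, ∃ s ∈ Ioo a b, f (x, s) = g x + bar a b s)

end H647R3.NB
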