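import Pool.Agent.H647R3.NUSpace

set_option autoImplicit false

namespace Pool.Agent.H647R3.NU

open Finset
open scoped ENNReal

/-- counting the large coordinates of a bounded vector -/
theorem card_bound (v α : H1) (a : ℝ) (ha : 0 < a) (s : ℕ) (hs : 4 / a ≤ 2 ^ s)
    (hc : ∀ n, |v n + wt n * α (Jn n)| ≤ 1) (A : Finset ℕ)
    (hA : ∀ n ∈ A, a ≤ |v n + wt n * α (Jn n)|) :
    (A.card : ℝ) ≤ 2 / a * ‖v‖ + 2 * (4 * 4 ^ s / a) * (‖α‖ + ‖v‖) := by
  classical
  set A1 := A.filter (fun n => a / 2 ≤ |v n|) with hA1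
  set A2 := A.filter (fun n => ¬ a / 2 ≤ |v n|) with hA2
  have hcard : (A.card : ℝ) = A1.card + A2.card := by
    rw [hA1, hA2]
    exact_mod_cast (card_filter_add_card_filter_not (s := A) (fun n => a / 2 ≤ |v n|)).symm
  have h1 : (A1.card : ℝ) ≤ 2 / a * ‖v‖ := by
    have h2 : (A1.card : ℝ) * (a / 2) ≤ ‖v‖ := by
      refine le_trans ?_ (sum_le v A1)
      rw [← nsmul_eq_mul]
      exact card_nsmul_le_sum _ _ _ (fun n hn => (mem_filter.1 hn).2)
    calc (A1.card : ℝ) = 2 / a * ((A1.card : ℝ) * (a / 2)) := by field_simp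
      _ ≤ 2 / a * ‖v‖ := by gcongr
  -- on `A2` the tree part is large
  have hA2' : ∀ n ∈ A2, n ∈ Y (Jn n) ∧ a / 2 < |α (Jn n)| * (1 / 2) ^ dn n := by
    intro n hn
    obtain ⟨hnA, hnv⟩ := mem_filter.1 hn
    push Not at hnv
    have h3 := hA n hnA
    have h4 : a / 2 < |wt n * α (Jn n)| := by
      have := abs_add_le (v n) (wt n * α (Jn n))
      linarith
    have hne : wt n ≠ 0 := by
      intro h0
      rw [h0, zero_mul, abs_zero] at h4
      linarith
    have hY := wt_ne hne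
    refine ⟨hY, ?_⟩
    have hw : wt n = (1 / 2 : ℝ) ^ dn n := by
      obtain ⟨_, h5, h6⟩ := mem_Y.1 hY
      unfold wt
      rw [if_pos ⟨h5, h6⟩]
    rw [hw, abs_mul, abs_of_nonneg (by positivity : (0 : ℝ) ≤ (1 / 2 : ℝ) ^ dn n), mul_comm] at h4
    exact h4
  -- fibres over the trees
  set F := A2.image Jn with hF
  have hfib : ∀ J ∈ F, (((A2.filter (fun n => Jn n = J)).card : ℕ) : ℝ)
      ≤ 2 * (4 * 4 ^ s / a) * (|α J| + ∑ n ∈ Y J, |v n|) := by
    intro J hJ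
    obtain ⟨n0, hn0, hn0J⟩ := mem_image.1 hJ
    obtain ⟨n1, hn1, hmax⟩ := exists_max_image (A2.filter (fun n => Jn n = J)) dn
      ⟨n0, mem_filter.2 ⟨hn0, hn0J⟩⟩
    obtain ⟨hn1A, hn1J⟩ := mem_filter.1 hn1
    obtain ⟨hY1, hα1⟩ := hA2' n1 hn1A
    rw [hn1J] at hY1 hα1
    obtain ⟨_, hdJ, _⟩ := mem_Y.1 hY1
    have hsub : A2.filter (fun n => Jn n = J) ⊆ (range (dn n1 + 1)).biUnion (blk J) := by
      intro n hn
      obtain ⟨hnA, hnJ⟩ := mem_filter.1 hn
      obtain ⟨hYn, _⟩ := hA2' n hnA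
      obtain ⟨_, _, hp⟩ := mem_Y.1 hYn
      rw [mem_biUnion]
      exact ⟨dn n, mem_range.2 (by have := hmax n hn; omega), mem_blk.2 ⟨hnJ, rfl, hp⟩⟩
    have hc1 : (A2.filter (fun n => Jn n = J)).card ≤ ∑ d ∈ range (dn n1 + 1), 4 ^ d := by
      refine (card_le_card hsub).trans (card_biUnion_le.trans ?_)
      exact sum_le_sum fun d _ => (card_blk J d).le
    have hgeom : ∀ D : ℕ, (∑ d ∈ range (D + 1), 4 ^ d : ℕ) ≤ 2 * 4 ^ D := by
      intro D
      induction D with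
      | zero => simp
      | succ D ih => rw [sum_range_succ, pow_succ]; omega
    have hc2 : (((A2.filter (fun n => Jn n = J)).card : ℕ) : ℝ) ≤ 2 * 4 ^ dn n1 := by
      have := hc1.trans (hgeom (dn n1))
      exact_mod_cast this
    refine hc2.trans ?_
    have hb := tree_bound (fun n => v n) (α J) J (dn n1) s a ha hs hdJ hα1 (by
      intro d hd n hn
      have h7 := hc n
      rw [wt_blk hd hn] at h7
      obtain ⟨h8, _, _⟩ := mem_blk.1 hn
      rw [h8] at h7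
      exact h7)
    calc (2 : ℝ) * 4 ^ dn n1 ≤ 2 * ((4 * 4 ^ s / a) * (|α J| + ∑ n ∈ Y J, |v n|)) := by gcongr
      _ = _ := by ring
  have h2 : (A2.card : ℝ) ≤ 2 * (4 * 4 ^ s / a) * (‖α‖ + ‖v‖) := by
    have h3 : (A2.card : ℝ) = ∑ J ∈ F, (((A2.filter (fun n => Jn n = J)).card : ℕ) : ℝ) := by
      have := card_eq_sum_card_fiberwise (f := Jn) (s := A2) (t := F)
        (fun n hn => mem_coe.2 (mem_image_of_mem Jn hn))
      rw [this]
      push_cast
      rfl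
    rw [h3]
    calc ∑ J ∈ F, (((A2.filter (fun n => Jn n = J)).card : ℕ) : ℝ)
        ≤ ∑ J ∈ F, 2 * (4 * 4 ^ s / a) * (|α J| + ∑ n ∈ Y J, |v n|) := sum_le_sum hfib
      _ = 2 * (4 * 4 ^ s / a) * (∑ J ∈ F, |α J| + ∑ J ∈ F, ∑ n ∈ Y J, |v n|) := by
          rw [← mul_sum, sum_add_distrib]
      _ ≤ 2 * (4 * 4 ^ s / a) * (‖α‖ + ‖v‖) := by
          gcongr
          · exact sum_le α F
          · rw [← sum_biUnion]
            · exact sum_le v _
            · intro J _ J' _ hne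
              rw [Function.onFun, disjoint_left]
              intro n hn hn'
              exact hne ((mem_Y.1 hn).1.symm.trans (mem_Y.1 hn').1)
  rw [hcard]
  linarith

theorem nearly_unconditional (a : ℝ) (ha : 0 < a) : ∃ C : ℝ, ∀ f : X, (∀ n : ℕ, ‖xs n f‖ ≤ 1) →
    ∀ A : Finset ℕ, (∀ n ∈ A, a ≤ ‖xs n f‖) → ‖∑ n ∈ A, xs n f • x n‖ ≤ C * ‖f‖ := by
  obtain ⟨s, hs⟩ := pow_unbounded_of_one_lt (4 / a) (one_lt_two (α := ℝ))
  set C := 2 / a + 2 * (4 * 4 ^ s / a) * 2 with hC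
  have hC0 : 0 ≤ C := by positivity
  refine ⟨C, fun f hf A hA => ?_⟩
  have h1 : ‖∑ n ∈ A, xs n f • x n‖ ≤ A.card := by
    refine (norm_sum_le _ _).trans ?_
    calc ∑ n ∈ A, ‖xs n f • x n‖ ≤ ∑ n ∈ A, (1 : ℝ) := by
          refine sum_le_sum fun n _ => ?_
          rw [norm_smul]
          calc ‖xs n f‖ * ‖x n‖ ≤ 1 * 1 := by
                gcongr
                · exact hf n
                · exact norm_x_le n
            _ = 1 := one_mul _
      _ = A.card := by simp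
  refine h1.trans ?_
  have h2 : ∀ ε : ℝ, 0 < ε → (A.card : ℝ) ≤ C * (‖f‖ + ε) := by
    intro ε hε
    obtain ⟨w, rfl, hw⟩ := exists_rep f ε hε
    have h3 := card_bound w.1 w.2 a ha s hs.le
      (fun n => by
        have := hf n
        rw [xs_mk, coord_apply, Real.norm_eq_abs] at this
        exact this) A
      (fun n hn => by
        have := hA n hn
        rw [xs_mk, coord_apply, Real.norm_eq_abs] at this
        exact this)
    have h4 : ‖w.1‖ ≤ ‖w‖ := norm_fst_le w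
    have h5 : ‖w.2‖ ≤ ‖w‖ := norm_snd_le w
    calc (A.card : ℝ) ≤ 2 / a * ‖w.1‖ + 2 * (4 * 4 ^ s / a) * (‖w.2‖ + ‖w.1‖) := h3
      _ ≤ 2 / a * ‖w‖ + 2 * (4 * 4 ^ s / a) * (‖w‖ + ‖w‖) := by gcongr
      _ = C * ‖w‖ := by rw [hC]; ring
      _ ≤ C * (_ + ε) := by gcongr
  by_contra hcon
  push Not at hcon
  have h6 := h2 ((A.card - C * ‖f‖) / (2 * (C + 1))) (by
    have : 0 < (A.card : ℝ) - C * ‖f‖ := by linarith
    positivity)
  have h7 : C * ((A.card - C * ‖f‖) / (2 * (C + 1))) < A.card - C * ‖f‖ := by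
    have h8 : 0 < (A.card : ℝ) - C * ‖f‖ := by linarith
    rw [mul_div_assoc', div_lt_iff₀ (by positivity)]
    nlinarith
  rw [mul_add] at h6
  linarith

/-- the hidden direction -/
noncomputable def fJ (J : ℕ) : X :=
  Submodule.Quotient.mk ((0 : H1), (lp.single (E := fun _ : ℕ => ℝ) 1 J (1 : ℝ) : H1))

theorem norm_fJ_le (J : ℕ) : ‖fJ J‖ ≤ 1 := by
  unfold fJ
  refine (Submodule.Quotient.norm_mk_le K _).trans ?_
  rw [Prod.norm_def]
  apply max_le
  · simp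
  · exact (lp.norm_single (E := fun _ : ℕ => ℝ) (by norm_num) J (1 : ℝ)).le.trans (by simp)

theorem xs_fJ (J n : ℕ) : xs n (fJ J) = if n ∈ Y J then (1 / 2 : ℝ) ^ dn n else 0 := by
  unfold fJ
  rw [xs_mk, coord_apply]
  change (0 : ℝ) + wt n * (lp.single (E := fun _ : ℕ => ℝ) 1 J (1 : ℝ) : H1) (Jn n) = _
  rw [zero_add, lp.single_apply]
  by_cases h : n ∈ Y J
  · obtain ⟨h1, h2, h3⟩ := mem_Y.1 h
    rw [if_pos h, h1]
    unfold wt
    rw [if_pos ⟨by omega, h3⟩]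
    simp
  · rw [if_neg h]
    by_cases hJ : Jn n = J
    · have : wt n = 0 := by
        by_contra hne
        exact h (hJ ▸ wt_ne hne)
      rw [this, zero_mul]
    · rw [Pi.single_eq_of_ne hJ, mul_zero]

theorem xs_total (f : X) (h : ∀ n, xs n f = 0) : f = 0 := by
  obtain ⟨w, rfl⟩ := Submodule.Quotient.mk_surjective K f
  rw [Submodule.Quotient.mk_eq_zero, mem_K]
  exact h

theorem xs_sum (c : ℕ → ℝ) (A : Finset ℕ) (n : ℕ) :
    xs n (∑ i ∈ A, c i • x i) = if n ∈ A then c n else 0 := by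
  rw [map_sum]
  simp_rw [map_smul, xs_x, smul_eq_mul, mul_ite, mul_one, mul_zero]
  rw [sum_ite_eq]

theorem fJ_eq (J : ℕ) : fJ J = ∑ i ∈ Y J, ((1 / 2 : ℝ) ^ dn i) • x i := by
  rw [← sub_eq_zero]
  apply xs_total
  intro n
  rw [map_sub, xs_fJ, xs_sum (fun i => (1 / 2 : ℝ) ^ dn i), sub_self]

/-- the vector of ones on the tree is large -/
theorem norm_ones (J : ℕ) (hJ : 2 ≤ J) : (4 : ℝ) ^ (J - 2) ≤ ‖∑ i ∈ Y J, (1 : ℝ) • x i‖ := by
  apply le_of_forall_pos_le_add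
  intro ε hε
  obtain ⟨w, hw, hwn⟩ := exists_rep (∑ i ∈ Y J, (1 : ℝ) • x i) ε hε
  refine le_trans ?_ hwn.le
  have hcoord : ∀ d ≤ J, ∀ n ∈ blk J d, w.1 n + (1 / 2 : ℝ) ^ d * w.2 J = 1 := by
    intro d hd n hn
    have h1 : xs n (∑ i ∈ Y J, (1 : ℝ) • x i) = 1 := by
      rw [xs_sum (fun _ => (1 : ℝ)), if_pos (blk_sub_Y hd hn)]
    rw [← hw, xs_mk, coord_apply, wt_blk hd hn, (mem_blk.1 hn).1] at h1
    exact h1
  have hblk : ∀ (d : ℕ) (c : ℝ), (∀ n ∈ blk J d, c ≤ |w.1 n|) → (4 : ℝ) ^ d * c ≤ ‖w‖ := by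
    intro d c hcn
    calc (4 : ℝ) ^ d * c = (blk J d).card • c := by rw [card_blk, nsmul_eq_mul]; push_cast; ring
      _ ≤ ∑ n ∈ blk J d, |w.1 n| := card_nsmul_le_sum _ _ _ hcn
      _ ≤ ‖w.1‖ := sum_le _ _
      _ ≤ ‖w‖ := norm_fst_le w
  by_cases hα : |w.2 J| * (1 / 2) ^ J ≤ 1 / 2
  · have h1 := hblk J (1 / 2) (fun n hn => by
      have h2 := hcoord J le_rfl n hn
      have h3 : w.1 n = 1 - (1 / 2 : ℝ) ^ J * w.2 J := by linarith
      have h4 : |(1 / 2 : ℝ) ^ J * w.2 J| ≤ 1 / 2 := by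
        rw [abs_mul, abs_of_nonneg (by positivity : (0 : ℝ) ≤ (1 / 2) ^ J), mul_comm]
        exact hα
      rw [h3]
      have := abs_sub_abs_le_abs_sub (1 : ℝ) ((1 / 2 : ℝ) ^ J * w.2 J)
      rw [abs_one] at this
      linarith)
    refine le_trans ?_ h1
    obtain ⟨j, rfl⟩ : ∃ j, J = j + 2 := ⟨J - 2, by omega⟩
    rw [Nat.add_sub_cancel, pow_add]
    have : (0 : ℝ) < 4 ^ j := by positivity
    nlinarith
  · push Not at hα
    obtain ⟨j, rfl⟩ : ∃ j, J = j + 2 := ⟨J - 2, by omega⟩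
    rw [Nat.add_sub_cancel]
    have h1 := hblk j 1 (fun n hn => by
      have h2 := hcoord j (by omega) n hn
      have h3 : w.1 n = 1 - (1 / 2 : ℝ) ^ j * w.2 (j + 2) := by linarith
      have h4 : 2 ≤ |(1 / 2 : ℝ) ^ j * w.2 (j + 2)| := by
        rw [abs_mul, abs_of_nonneg (by positivity : (0 : ℝ) ≤ (1 / 2) ^ j), mul_comm]
        rw [pow_add] at hα
        norm_num at hα ⊢
        linarith
      rw [h3]
      have := abs_sub_abs_le_abs_sub ((1 / 2 : ℝ) ^ j * w.2 (j + 2)) (1 : ℝ)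
      rw [abs_one, abs_sub_comm] at this
      linarith)
    linarith

theorem dense_span (f : X) (ε : ℝ) (hε : 0 < ε) :
    ∃ g ∈ Submodule.span ℝ (Set.range x), ‖f - g‖ < ε := by
  obtain ⟨w, rfl⟩ := Submodule.Quotient.mk_surjective K f
  -- approximate both coordinates by finitely supported sequences
  have happ : ∀ v : H1, ∃ s : Finset ℕ, ‖v - ∑ i ∈ s, lp.single (E := fun _ : ℕ => ℝ) 1 i (v i)‖ < ε := by
    intro v
    have h := lp.hasSum_single (E := fun _ : ℕ => ℝ) (p := 1) (by norm_num) v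
    rw [HasSum, SummationFilter.unconditional_filter] at h
    obtain ⟨s, hs⟩ := Filter.eventually_atTop.1 (Metric.tendsto_nhds.1 h ε hε)
    refine ⟨s, ?_⟩
    have := hs s le_rfl
    rwa [dist_comm, dist_eq_norm] at this
  obtain ⟨s1, hs1⟩ := happ w.1
  obtain ⟨s2, hs2⟩ := happ w.2
  let g : X := Submodule.Quotient.mk
    ((∑ i ∈ s1, lp.single (E := fun _ : ℕ => ℝ) 1 i (w.1 i) : H1),
      (∑ i ∈ s2, lp.single (E := fun _ : ℕ => ℝ) 1 i (w.2 i) : H1))
  refine ⟨g, ?_, ?_⟩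
  · have hg : g = ∑ i ∈ s1, (w.1 i) • x i + ∑ i ∈ s2, (w.2 i) • fJ i := by
      have e1 : ∑ i ∈ s1, (w.1 i) • x i = (Submodule.Quotient.mk
          ((∑ i ∈ s1, lp.single (E := fun _ : ℕ => ℝ) 1 i (w.1 i) : H1), (0 : H1)) : X) := by
        have : ((∑ i ∈ s1, lp.single (E := fun _ : ℕ => ℝ) 1 i (w.1 i) : H1), (0 : H1))
            = ∑ i ∈ s1, (w.1 i) • ((lp.single (E := fun _ : ℕ => ℝ) 1 i (1 : ℝ) : H1), (0 : H1)) := by
          apply Prod.ext
          · rw [Prod.fst_sum]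
            refine sum_congr rfl fun i _ => ?_
            rw [Prod.smul_fst, ← lp.single_smul, smul_eq_mul, mul_one]
          · rw [Prod.snd_sum]
            simp
        rw [this]
        rw [← Submodule.mkQ_apply, map_sum]
        rfl
      have e2 : ∑ i ∈ s2, (w.2 i) • fJ i = (Submodule.Quotient.mk
          ((0 : H1), (∑ i ∈ s2, lp.single (E := fun _ : ℕ => ℝ) 1 i (w.2 i) : H1)) : X) := by
        have : ((0 : H1), (∑ i ∈ s2, lp.single (E := fun _ : ℕ => ℝ) 1 i (w.2 i) : H1))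
            = ∑ i ∈ s2, (w.2 i) • ((0 : H1), (lp.single (E := fun _ : ℕ => ℝ) 1 i (1 : ℝ) : H1)) := by
          apply Prod.ext
          · rw [Prod.fst_sum]
            simp
          · rw [Prod.snd_sum]
            refine sum_congr rfl fun i _ => ?_
            rw [Prod.smul_snd, ← lp.single_smul, smul_eq_mul, mul_one]
        rw [this]
        rw [← Submodule.mkQ_apply, map_sum]
        rfl
      rw [e1, e2, ← Submodule.Quotient.mk_add, Prod.mk_add_mk, add_zero, zero_add]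
    rw [hg]
    apply Submodule.add_mem
    · exact Submodule.sum_mem _ fun i _ => Submodule.smul_mem _ _ (Submodule.subset_span ⟨i, rfl⟩)
    · refine Submodule.sum_mem _ fun i _ => Submodule.smul_mem _ _ ?_
      rw [fJ_eq]
      exact Submodule.sum_mem _ fun i _ => Submodule.smul_mem _ _ (Submodule.subset_span ⟨i, rfl⟩)
  · have : (Submodule.Quotient.mk w : X) - g = Submodule.Quotient.mk (w -
        ((∑ i ∈ s1, lp.single (E := fun _ : ℕ => ℝ) 1 i (w.1 i) : H1),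
          (∑ i ∈ s2, lp.single (E := fun _ : ℕ => ℝ) 1 i (w.2 i) : H1))) := by
      rw [Submodule.Quotient.mk_sub]
    rw [this]
    refine (Submodule.Quotient.norm_mk_le K _).trans_lt ?_
    rw [Prod.norm_def]
    exact max_lt hs1 hs2

end Pool.Agent.H647R3.NU
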