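import Mathlib

set_option autoImplicit false

namespace Pool.Agent.H647R3.NU

open Finset
open scoped ENNReal

abbrev H1 : Type := lp (fun _ : ℕ => ℝ) 1

/-- the tree index, depth and position of a coordinate -/
def Jn (n : ℕ) : ℕ := n.unpair.1
def dn (n : ℕ) : ℕ := n.unpair.2.unpair.1
def pn (n : ℕ) : ℕ := n.unpair.2.unpair.2

noncomputable def wt (n : ℕ) : ℝ := if dn n ≤ Jn n ∧ pn n < 4 ^ dn n then (1 / 2 : ℝ) ^ dn n else 0

def pt (J d i : ℕ) : ℕ := Nat.pair J (Nat.pair d i)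

theorem Jn_pt (J d i : ℕ) : Jn (pt J d i) = J := by simp [Jn, pt]
theorem dn_pt (J d i : ℕ) : dn (pt J d i) = d := by simp [dn, pt]
theorem pn_pt (J d i : ℕ) : pn (pt J d i) = i := by simp [pn, pt]
theorem pt_eq (n : ℕ) : pt (Jn n) (dn n) (pn n) = n := by simp [pt, Jn, dn, pn]

def blk (J d : ℕ) : Finset ℕ := (range (4 ^ d)).image (fun i => pt J d i)

theorem mem_blk {J d n : ℕ} : n ∈ blk J d ↔ Jn n = J ∧ dn n = d ∧ pn n < 4 ^ d := by
  unfold blk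
  rw [mem_image]
  constructor
  · rintro ⟨i, hi, rfl⟩
    rw [Jn_pt, dn_pt, pn_pt]
    exact ⟨rfl, rfl, mem_range.1 hi⟩
  · rintro ⟨rfl, rfl, h⟩
    exact ⟨pn n, mem_range.2 h, pt_eq n⟩

theorem card_blk (J d : ℕ) : (blk J d).card = 4 ^ d := by
  unfold blk
  rw [card_image_of_injective, card_range]
  intro i j h
  have := congrArg pn h
  rwa [pn_pt, pn_pt] at this

theorem wt_blk {J d n : ℕ} (hd : d ≤ J) (hn : n ∈ blk J d) : wt n = (1 / 2 : ℝ) ^ d := by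
  obtain ⟨rfl, rfl, h⟩ := mem_blk.1 hn
  unfold wt
  rw [if_pos ⟨hd, h⟩]

/-- the structure points of tree `J` -/
def Y (J : ℕ) : Finset ℕ := (range (J + 1)).biUnion (blk J)

theorem mem_Y {J n : ℕ} : n ∈ Y J ↔ Jn n = J ∧ dn n ≤ J ∧ pn n < 4 ^ dn n := by
  unfold Y
  rw [mem_biUnion]
  constructor
  · rintro ⟨d, hd, hn⟩
    obtain ⟨h1, rfl, h3⟩ := mem_blk.1 hn
    exact ⟨h1, by have := mem_range.1 hd; omega, h3⟩
  · rintro ⟨h1, h2, h3⟩
    exact ⟨dn n, mem_range.2 (by omega), mem_blk.2 ⟨h1, rfl, h3⟩⟩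

theorem wt_ne {n : ℕ} (h : wt n ≠ 0) : n ∈ Y (Jn n) := by
  unfold wt at h
  rw [mem_Y]
  by_contra hcon
  apply h
  rw [if_neg]
  intro h2
  exact hcon ⟨rfl, h2.1, h2.2⟩

theorem blk_sub_Y {J d : ℕ} (hd : d ≤ J) : blk J d ⊆ Y J := by
  intro n hn
  obtain ⟨h1, rfl, h3⟩ := mem_blk.1 hn
  exact mem_Y.2 ⟨h1, hd, h3⟩

/-- coordinate functional on representatives -/
noncomputable def coord (n : ℕ) : (H1 × H1) →L[ℝ] ℝ :=
  (lp.evalCLM ℝ (fun _ : ℕ => ℝ) 1 n).comp (ContinuousLinearMap.fst ℝ H1 H1) +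
    wt n • (lp.evalCLM ℝ (fun _ : ℕ => ℝ) 1 (Jn n)).comp (ContinuousLinearMap.snd ℝ H1 H1)

theorem coord_apply (n : ℕ) (w : H1 × H1) : coord n w = w.1 n + wt n * w.2 (Jn n) := rfl

noncomputable def K : Submodule ℝ (H1 × H1) := ⨅ n, LinearMap.ker (coord n).toLinearMap

theorem mem_K {w : H1 × H1} : w ∈ K ↔ ∀ n, coord n w = 0 := by
  unfold K
  rw [Submodule.mem_iInf]
  rfl

instance : IsClosed (K : Set (H1 × H1)) := by
  have : (K : Set (H1 × H1)) = ⋂ n, (coord n) ⁻¹' {0} := by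
    ext w
    rw [SetLike.mem_coe, mem_K, Set.mem_iInter]
    rfl
  rw [this]
  exact isClosed_iInter fun n => isClosed_singleton.preimage (coord n).continuous

abbrev X : Type := (H1 × H1) ⧸ K

noncomputable def xs (n : ℕ) : X →ₗ[ℝ] ℝ :=
  K.liftQ (coord n).toLinearMap (fun _ hw => mem_K.1 hw n)

theorem xs_mk (n : ℕ) (w : H1 × H1) : xs n (Submodule.Quotient.mk w) = coord n w := rfl

noncomputable def x (n : ℕ) : X :=
  Submodule.Quotient.mk ((lp.single (E := fun _ : ℕ => ℝ) 1 n (1 : ℝ) : H1), (0 : H1))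

theorem xs_x (m n : ℕ) : xs m (x n) = if m = n then 1 else 0 := by
  unfold x
  rw [xs_mk, coord_apply]
  change (lp.single (E := fun _ : ℕ => ℝ) 1 n (1 : ℝ) : H1) m + wt m * 0 = _
  rw [mul_zero, add_zero, lp.single_apply]
  by_cases h : m = n
  · subst h; simp
  · rw [Pi.single_eq_of_ne h]; simp [h]

theorem norm_x_le (n : ℕ) : ‖x n‖ ≤ 1 := by
  unfold x
  refine (Submodule.Quotient.norm_mk_le K _).trans ?_
  rw [Prod.norm_def]
  apply max_le
  · exact (lp.norm_single (E := fun _ : ℕ => ℝ) (by norm_num) n (1 : ℝ)).le.trans (by simp)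
  · simp

theorem exists_rep (f : X) (ε : ℝ) (hε : 0 < ε) :
    ∃ w : H1 × H1, Submodule.Quotient.mk w = f ∧ ‖w‖ < ‖f‖ + ε := by
  obtain ⟨m, hm, hm2⟩ := Submodule.Quotient.norm_mk_lt f hε
  exact ⟨m, hm, hm2⟩

theorem wt_nonneg (n : ℕ) : 0 ≤ wt n := by
  unfold wt; split_ifs <;> positivity

theorem wt_le_one (n : ℕ) : wt n ≤ 1 := by
  unfold wt
  split_ifs
  · exact pow_le_one₀ (by norm_num) (by norm_num)
  · exact zero_le_one

theorem sum_le (v : H1) (D : Finset ℕ) : ∑ n ∈ D, |v n| ≤ ‖v‖ := by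
  have h := lp.sum_rpow_le_norm_rpow (p := 1) (by norm_num) v D
  simpa using h

theorem abs_xs_le (n : ℕ) (f : X) : |xs n f| ≤ 2 * ‖f‖ := by
  apply le_of_forall_pos_le_add
  intro ε hε
  obtain ⟨w, rfl, hw⟩ := exists_rep f (ε / 2) (half_pos hε)
  rw [xs_mk, coord_apply]
  have h1 : |w.1 n| ≤ ‖w‖ := by
    have := lp.norm_apply_le_norm (p := 1) (by norm_num) w.1 n
    rw [Real.norm_eq_abs] at this
    exact this.trans (norm_fst_le w)
  have h2 : |w.2 (Jn n)| ≤ ‖w‖ := by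
    have := lp.norm_apply_le_norm (p := 1) (by norm_num) w.2 (Jn n)
    rw [Real.norm_eq_abs] at this
    exact this.trans (norm_snd_le w)
  have h3 : |wt n * w.2 (Jn n)| ≤ ‖w‖ := by
    rw [abs_mul, abs_of_nonneg (wt_nonneg n)]
    calc wt n * |w.2 (Jn n)| ≤ 1 * ‖w‖ := by
          gcongr
          exact wt_le_one n
      _ = ‖w‖ := one_mul _
  refine (abs_add_le _ _).trans ?_
  linarith

/-- main combinatorial estimate -/
theorem tree_bound (v : ℕ → ℝ) (α : ℝ) (J D s : ℕ) (a : ℝ) (ha : 0 < a)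
    (hs : 4 / a ≤ 2 ^ s) (hD : D ≤ J) (hα : a / 2 < |α| * (1 / 2) ^ D)
    (hc : ∀ d ≤ J, ∀ n ∈ blk J d, |v n + (1 / 2 : ℝ) ^ d * α| ≤ 1) :
    (4 : ℝ) ^ D ≤ (4 * 4 ^ s / a) * (|α| + ∑ n ∈ Y J, |v n|) := by
  have hV : 0 ≤ ∑ n ∈ Y J, |v n| := sum_nonneg fun _ _ => abs_nonneg _
  have h2s : (1 : ℝ) ≤ 2 ^ s := one_le_pow₀ (by norm_num)
  have h4s : (2 : ℝ) ^ s ≤ 4 ^ s := pow_le_pow_left₀ (by norm_num) (by norm_num) s
  have hαlow : a * 2 ^ D / 2 < |α| := by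
    have h1 : |α| * (1 / 2) ^ D * 2 ^ D = |α| := by
      rw [mul_assoc, ← mul_pow]; norm_num
    have h2 : (0 : ℝ) < 2 ^ D := by positivity
    nlinarith
  by_cases hDs : s ≤ D
  · -- use a shallower level
    obtain ⟨d', rfl⟩ : ∃ d', D = d' + s := ⟨D - s, by omega⟩
    have hbig : 2 ≤ |α| * (1 / 2) ^ d' := by
      have h1 : |α| * (1 / 2) ^ (d' + s) * 2 ^ s = |α| * (1 / 2) ^ d' := by
        rw [pow_add, mul_assoc, mul_assoc, ← mul_pow]; norm_num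
      rw [← h1]
      calc (2 : ℝ) = (a / 2) * (4 / a) := by field_simp; norm_num
        _ ≤ |α| * (1 / 2) ^ (d' + s) * 2 ^ s := by gcongr
    have hv : ∀ n ∈ blk J d', |α| * (1 / 2) ^ d' / 2 ≤ |v n| := by
      intro n hn
      have h1 := hc d' (by omega) n hn
      have h2 : |(1 / 2 : ℝ) ^ d' * α| = |α| * (1 / 2) ^ d' := by
        rw [abs_mul, abs_of_nonneg (by positivity : (0 : ℝ) ≤ (1 / 2) ^ d'), mul_comm]
      have h3 : |(1 / 2 : ℝ) ^ d' * α| ≤ |v n + (1 / 2 : ℝ) ^ d' * α| + |v n| := by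
        have := abs_sub (v n + (1 / 2 : ℝ) ^ d' * α) (v n)
        rwa [add_sub_cancel_left] at this
      rw [h2] at h3
      linarith
    have hsum : (4 : ℝ) ^ d' * (|α| * (1 / 2) ^ d' / 2) ≤ ∑ n ∈ Y J, |v n| := by
      calc (4 : ℝ) ^ d' * (|α| * (1 / 2) ^ d' / 2) = (blk J d').card • (|α| * (1 / 2) ^ d' / 2) := by
            rw [card_blk, nsmul_eq_mul]; push_cast; ring
        _ ≤ ∑ n ∈ blk J d', |v n| := card_nsmul_le_sum _ _ _ hv
        _ ≤ ∑ n ∈ Y J, |v n| :=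
            sum_le_sum_of_subset_of_nonneg (blk_sub_Y (by omega)) (fun _ _ _ => abs_nonneg _)
    have h4 : (4 : ℝ) ^ d' * (|α| * (1 / 2) ^ d' / 2) = 2 ^ d' * |α| / 2 := by
      have : (4 : ℝ) ^ d' * (1 / 2) ^ d' = 2 ^ d' := by rw [← mul_pow]; norm_num
      rw [← this]; ring
    rw [h4] at hsum
    have h5 : (a * 4 ^ d' * 2 ^ s) / 4 ≤ ∑ n ∈ Y J, |v n| := by
      refine le_trans ?_ hsum
      have h6 : a * 2 ^ (d' + s) / 2 * (2 ^ d' / 2) ≤ |α| * (2 ^ d' / 2) := by gcongr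
      have h7 : a * 2 ^ (d' + s) / 2 * (2 ^ d' / 2) = (a * 4 ^ d' * 2 ^ s) / 4 := by
        rw [pow_add]
        have : (4 : ℝ) ^ d' = 2 ^ d' * 2 ^ d' := by rw [← mul_pow]; norm_num
        rw [this]; ring
      linarith
    have h8 : (4 : ℝ) ^ (d' + s) ≤ (4 * 4 ^ s / a) * ((a * 4 ^ d' * 2 ^ s) / 4) := by
      have : (4 * 4 ^ s / a) * ((a * 4 ^ d' * 2 ^ s) / 4) = 4 ^ (d' + s) * 2 ^ s := by
        rw [pow_add]; field_simp
      rw [this]
      have : (0 : ℝ) < 4 ^ (d' + s) := by positivity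
      nlinarith
    refine h8.trans ?_
    gcongr
    linarith [abs_nonneg α]
  · push Not at hDs
    have h1 : a / 2 < |α| := by
      refine lt_of_lt_of_le hα ?_
      calc |α| * (1 / 2) ^ D ≤ |α| * 1 := by
            gcongr
            exact pow_le_one₀ (by norm_num) (by norm_num)
        _ = |α| := mul_one _
    calc (4 : ℝ) ^ D ≤ 4 ^ s := by
          gcongr
          norm_num
      _ = (4 * 4 ^ s / a) * (a / 4) := by field_simp
      _ ≤ (4 * 4 ^ s / a) * (|α| + ∑ n ∈ Y J, |v n|) := by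
          gcongr
          linarith

end Pool.Agent.H647R3.NU
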