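import Mathlib

set_option autoImplicit false

namespace Pool.Agent.H647R3.PolyIdx

open Metric Set

/-- a norm one functional supporting a nonzero vector -/
theorem exists_support {X : Type} [NormedAddCommGroup X] [NormedSpace ℂ X] (w : X) (hw : w ≠ 0) :
    ∃ f : X →L[ℂ] ℂ, ‖f‖ = 1 ∧ f w = (‖w‖ : ℂ) := by
  obtain ⟨f, hf, hfw⟩ := exists_dual_vector ℂ w (norm_ne_zero_iff.2 hw)
  exact ⟨f, hf, by simpa using hfw⟩

/-- the pointwise multilinear map on `C(K, X)` -/
noncomputable def lift {k : ℕ} {X : Type} [NormedAddCommGroup X] [NormedSpace ℂ X]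
    {K : Type} [TopologicalSpace K] [CompactSpace K]
    (A : ContinuousMultilinearMap ℂ (fun _ : Fin k => X) X) :
    ContinuousMultilinearMap ℂ (fun _ : Fin k => C(K, X)) C(K, X) :=
  MultilinearMap.mkContinuous
    { toFun := fun g => ⟨fun t => A (fun i => g i t), by
        have : Continuous fun t => (fun i => g i t) := continuous_pi (fun i => (g i).continuous)
        exact A.cont.comp this⟩
      map_update_add' := by
        intro inst g i a b
        ext t
        simp only [ContinuousMap.coe_mk, ContinuousMap.add_apply]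
        have h1 : ∀ z : C(K, X), (fun j => (Function.update g i z) j t)
            = Function.update (fun j => g j t) i (z t) := by
          intro z
          funext j
          by_cases hj : j = i
          · subst hj; simp
          · simp [hj]
        rw [h1, h1, h1, ContinuousMap.add_apply, A.map_update_add]
      map_update_smul' := by
        intro inst g i c a
        ext t
        simp only [ContinuousMap.coe_mk, ContinuousMap.smul_apply]
        have h1 : ∀ z : C(K, X), (fun j => (Function.update g i z) j t)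
            = Function.update (fun j => g j t) i (z t) := by
          intro z
          funext j
          by_cases hj : j = i
          · subst hj; simp
          · simp [hj]
        rw [h1, h1, ContinuousMap.smul_apply, A.map_update_smul] } ‖A‖ (by
      intro g
      rw [ContinuousMap.norm_le _ (by positivity)]
      intro t
      refine (A.le_opNorm _).trans ?_
      gcongr with i
      exact (g i).norm_coe_le_norm t)

theorem lift_apply {k : ℕ} {X : Type} [NormedAddCommGroup X] [NormedSpace ℂ X]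
    {K : Type} [TopologicalSpace K] [CompactSpace K]
    (A : ContinuousMultilinearMap ℂ (fun _ : Fin k => X) X) (g : Fin k → C(K, X)) (t : K) :
    lift A g t = A (fun i => g i t) := rfl

/-- numerical radius bound passes to `C(K, X)` -/
theorem bound_lift {k : ℕ} {X : Type} [NormedAddCommGroup X] [NormedSpace ℂ X]
    {K : Type} [TopologicalSpace K] [CompactSpace K]
    (A : ContinuousMultilinearMap ℂ (fun _ : Fin k => X) X) (v : ℝ) (hv0 : 0 ≤ v)
    (hv : ∀ (x : X) (f : X →L[ℂ] ℂ), ‖x‖ = 1 → ‖f‖ = 1 → f x = 1 → ‖f (A (fun _ => x))‖ ≤ v)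
    (g : C(K, X)) (ξ : C(K, X) →L[ℂ] ℂ) (hg : ‖g‖ = 1) (hξ : ‖ξ‖ = 1) (hgξ : ξ g = 1) :
    ‖ξ (lift A (fun _ => g))‖ ≤ v := by
  set Q : X → X := fun x => A (fun _ => x) with hQ
  -- pointwise estimate
  have key : ∀ (θ : ℂ), ‖θ‖ = 1 → ∀ α : ℝ, 0 < α → ∀ x : X, ‖x‖ ≤ 1 →
      ‖x + ((α : ℂ) * θ) • Q x‖ ≤ 1 + α * (v + 2 * k * ‖A‖ ^ 2 * α) := by
    intro θ hθ α hα x hx
    set w := x + ((α : ℂ) * θ) • Q x with hw
    have hQx : ‖Q x‖ ≤ ‖A‖ := by
      refine (A.le_opNorm _).trans ?_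
      calc ‖A‖ * ∏ i : Fin k, ‖x‖ ≤ ‖A‖ * 1 := by
            gcongr
            exact Finset.prod_le_one (fun _ _ => norm_nonneg _) (fun _ _ => hx)
        _ = ‖A‖ := mul_one _
    by_cases hw1 : ‖w‖ ≤ 1
    · have : 0 ≤ α * (v + 2 * k * ‖A‖ ^ 2 * α) := by positivity
      linarith
    push Not at hw1
    have hw0 : w ≠ 0 := by
      intro h; rw [h, norm_zero] at hw1; linarith
    obtain ⟨f, hf, hfw⟩ := exists_support w hw0
    have hwpos : 0 < ‖w‖ := by linarith
    set w' : X := ((‖w‖⁻¹ : ℝ) : ℂ) • w with hw'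
    have hw'n : ‖w'‖ = 1 := by
      rw [hw', norm_smul, Complex.norm_real, norm_inv, norm_norm, inv_mul_cancel₀ hwpos.ne']
    have hfw' : f w' = 1 := by
      rw [hw', map_smul, hfw, smul_eq_mul, ← Complex.ofReal_mul, inv_mul_cancel₀ hwpos.ne',
        Complex.ofReal_one]
    have hαθ : ‖(α : ℂ) * θ‖ = α := by
      rw [norm_mul, hθ, mul_one, Complex.norm_real, Real.norm_of_nonneg hα.le]
    -- distance x w'
    have hxw : ‖x - w‖ ≤ α * ‖A‖ := by
      have : x - w = - (((α : ℂ) * θ) • Q x) := by rw [hw]; abel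
      rw [this, norm_neg, norm_smul, hαθ]
      gcongr
    have hwle : ‖w‖ ≤ 1 + α * ‖A‖ := by
      calc ‖w‖ ≤ ‖x‖ + ‖((α : ℂ) * θ) • Q x‖ := norm_add_le _ _
        _ ≤ 1 + α * ‖A‖ := by
          rw [norm_smul, hαθ]; gcongr
    have hww' : ‖w - w'‖ ≤ α * ‖A‖ := by
      have : w - w' = (((1 - ‖w‖⁻¹ : ℝ)) : ℂ) • w := by
        rw [hw']
        push_cast
        rw [sub_smul, one_smul]
      rw [this, norm_smul, Complex.norm_real, Real.norm_eq_abs]
      have h1 : 0 ≤ 1 - ‖w‖⁻¹ := by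
        have : ‖w‖⁻¹ ≤ 1 := inv_le_one_of_one_le₀ hw1.le
        linarith
      rw [abs_of_nonneg h1, sub_mul, one_mul, inv_mul_cancel₀ hwpos.ne']
      linarith
    have hxw' : ‖x - w'‖ ≤ 2 * α * ‖A‖ := by
      calc ‖x - w'‖ = ‖(x - w) + (w - w')‖ := by congr 1; abel
        _ ≤ ‖x - w‖ + ‖w - w'‖ := norm_add_le _ _
        _ ≤ 2 * α * ‖A‖ := by linarith
    have hQQ : ‖Q x - Q w'‖ ≤ 2 * k * ‖A‖ ^ 2 * α := by
      have h := A.norm_image_sub_le (fun _ => x) (fun _ => w')
      have hmax : max ‖(fun _ : Fin k => x)‖ ‖(fun _ : Fin k => w')‖ ≤ 1 := by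
        apply max_le
        · exact (pi_norm_le_iff_of_nonneg zero_le_one).2 (fun _ => hx)
        · exact (pi_norm_le_iff_of_nonneg zero_le_one).2 (fun _ => hw'n.le)
      have hsub : ‖(fun _ : Fin k => x) - (fun _ : Fin k => w')‖ ≤ 2 * α * ‖A‖ := by
        refine (pi_norm_le_iff_of_nonneg (by positivity)).2 (fun _ => ?_)
        simpa using hxw'
      refine h.trans ?_
      have hpow : max ‖(fun _ : Fin k => x)‖ ‖(fun _ : Fin k => w')‖ ^ (Fintype.card (Fin k) - 1) ≤ 1 :=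
        pow_le_one₀ (le_max_of_le_left (norm_nonneg _)) hmax
      calc ‖A‖ * (Fintype.card (Fin k) : ℝ) *
            max ‖(fun _ : Fin k => x)‖ ‖(fun _ : Fin k => w')‖ ^ (Fintype.card (Fin k) - 1) *
            ‖(fun _ : Fin k => x) - (fun _ : Fin k => w')‖
          ≤ ‖A‖ * (Fintype.card (Fin k) : ℝ) * 1 * (2 * α * ‖A‖) := by gcongr
        _ = 2 * k * ‖A‖ ^ 2 * α := by rw [Fintype.card_fin]; ring
    have hfQ : ‖f (Q x)‖ ≤ v + 2 * k * ‖A‖ ^ 2 * α := by
      have : f (Q x) = f (Q w') + f (Q x - Q w') := by rw [← map_add]; congr 1; abel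
      rw [this]
      refine (norm_add_le _ _).trans ?_
      gcongr
      · exact hv w' f hw'n hf hfw'
      · refine (f.le_opNorm _).trans ?_
        rw [hf, one_mul]; exact hQQ
    have hre : (‖w‖ : ℂ) = f x + ((α : ℂ) * θ) * f (Q x) := by
      rw [← hfw, hw, map_add, map_smul, smul_eq_mul]
    have : ‖w‖ = ‖f x + ((α : ℂ) * θ) * f (Q x)‖ := by
      rw [← hre, Complex.norm_real, norm_norm]
    rw [this]
    refine (norm_add_le _ _).trans ?_
    have hfx : ‖f x‖ ≤ 1 := by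
      refine (f.le_opNorm _).trans ?_
      rw [hf, one_mul]; exact hx
    rw [norm_mul, hαθ]
    gcongr
  -- global estimate
  have key2 : ∀ α : ℝ, 0 < α → ‖ξ (lift A (fun _ => g))‖ ≤ v + 2 * k * ‖A‖ ^ 2 * α := by
    intro α hα
    set z := ξ (lift A (fun _ => g)) with hz
    obtain ⟨θ, hθ, hθz⟩ : ∃ θ : ℂ, ‖θ‖ = 1 ∧ θ * z = (‖z‖ : ℂ) := by
      by_cases h0 : z = 0
      · exact ⟨1, by simp, by simp [h0]⟩
      · refine ⟨(‖z‖ : ℂ) / z, ?_, ?_⟩
        · rw [norm_div, Complex.norm_real, norm_norm, div_self (norm_ne_zero_iff.2 h0)]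
        · field_simp
    have h1 : ξ (g + ((α : ℂ) * θ) • lift A (fun _ => g)) = ((1 + α * ‖z‖ : ℝ) : ℂ) := by
      rw [map_add, hgξ, map_smul, smul_eq_mul, ← hz, mul_assoc, hθz]
      push_cast; ring
    have h2 : ‖g + ((α : ℂ) * θ) • lift A (fun _ => g)‖ ≤ 1 + α * (v + 2 * k * ‖A‖ ^ 2 * α) := by
      rw [ContinuousMap.norm_le _ (by positivity)]
      intro t
      have := key θ hθ α hα (g t) ((g.norm_coe_le_norm t).trans hg.le)
      simpa [lift_apply, hQ] using this
    have h3 : 1 + α * ‖z‖ ≤ 1 + α * (v + 2 * k * ‖A‖ ^ 2 * α) := by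
      calc 1 + α * ‖z‖ = ‖ξ (g + ((α : ℂ) * θ) • lift A (fun _ => g))‖ := by
            rw [h1, Complex.norm_real, Real.norm_of_nonneg (by positivity)]
        _ ≤ ‖ξ‖ * ‖g + ((α : ℂ) * θ) • lift A (fun _ => g)‖ := ξ.le_opNorm _
        _ ≤ _ := by rw [hξ, one_mul]; exact h2
    have h4 : α * ‖z‖ ≤ α * (v + 2 * k * ‖A‖ ^ 2 * α) := by linarith
    exact le_of_mul_le_mul_left h4 hα
  apply le_of_forall_pos_le_add
  intro ε hε
  have hM : 0 ≤ 2 * k * ‖A‖ ^ 2 := by positivity
  set M := 2 * k * ‖A‖ ^ 2 with hMdef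
  have := key2 (ε / (M + 1)) (by positivity)
  refine this.trans ?_
  have : M * (ε / (M + 1)) ≤ ε := by
    rw [mul_div_assoc', div_le_iff₀ (by positivity)]
    nlinarith
  linarith

/-- clamp to `[0,1]` -/
noncomputable def clamp (x : ℝ) : ℝ := max 0 (min 1 x)

theorem clamp_nonneg (x : ℝ) : 0 ≤ clamp x := le_max_left _ _
theorem clamp_le_one (x : ℝ) : clamp x ≤ 1 := max_le zero_le_one (min_le_left _ _)
theorem clamp_of_le {x : ℝ} (h : x ≤ 0) : clamp x = 0 := by
  unfold clamp; rw [max_eq_left]; exact (min_le_right _ _).trans h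
theorem clamp_of_ge {x : ℝ} (h : 1 ≤ x) : clamp x = 1 := by
  unfold clamp; rw [min_eq_left h]; exact max_eq_right zero_le_one
theorem continuous_clamp : Continuous clamp := by
  unfold clamp; exact continuous_const.max (continuous_const.min continuous_id)

/-- Step one: modify `y` so that it is a unit vector `x₀` near `t₀`. -/
theorem step_one {k : ℕ} {X : Type} [NormedAddCommGroup X] [NormedSpace ℂ X]
    [Nontrivial X]
    {K : Type} [TopologicalSpace K] [CompactSpace K] [T2Space K] [Nonempty K]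
    (B : ContinuousMultilinearMap ℂ (fun _ : Fin k => C(K, X)) C(K, X)) (y : C(K, X))
    (hy : ‖y‖ ≤ 1) (ε : ℝ) (hε : 0 < ε) :
    ∃ (t₀ : K) (x₀ : X) (g : C(K, X)) (φ : C(K, ℝ)), ‖x₀‖ = 1 ∧ ‖g‖ ≤ 1 ∧
      (∀ t, 0 ≤ φ t ∧ φ t ≤ 1) ∧ φ t₀ = 1 ∧ (∀ t, φ t ≠ 0 → g t = x₀) ∧
      ‖B (fun _ => y)‖ - ε < ‖B (fun _ => g) t₀‖ := by
  -- the point where the norm is attained
  obtain ⟨t₀, -, ht₀⟩ := isCompact_univ.exists_isMaxOn (univ_nonempty (α := K))
    ((B (fun _ => y)).continuous.norm.continuousOn)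
  have hBt : ‖B (fun _ => y)‖ ≤ ‖B (fun _ => y) t₀‖ := by
    rw [ContinuousMap.norm_le _ (norm_nonneg _)]
    intro t
    exact ht₀ (mem_univ t)
  -- continuity of the polynomial at `y`
  have hcont : Continuous (fun g : C(K, X) => B (fun _ => g)) :=
    B.cont.comp (continuous_pi (fun _ => continuous_id))
  obtain ⟨δ, hδ, hδB⟩ := Metric.continuous_iff.1 hcont y ε hε
  -- urysohn function
  set U : Set K := {t | ‖y t - y t₀‖ < δ / 2} with hU
  have hUo : IsOpen U := isOpen_lt ((y.continuous.sub continuous_const).norm) continuous_const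
  have ht₀U : t₀ ∈ U := by simp [hU, hδ]
  obtain ⟨s, hs0, hs1, hs01⟩ := exists_continuous_zero_one_of_isClosed
    (hUo.isClosed_compl) (isClosed_singleton (x := t₀))
    (by
      rw [Set.disjoint_singleton_right]
      simpa using ht₀U)
  have hst₀ : s t₀ = 1 := hs1 (mem_singleton t₀)
  set x₁ := y t₀ with hx₁
  have hx₁n : ‖x₁‖ ≤ 1 := (y.norm_coe_le_norm t₀).trans hy
  -- unit direction
  obtain ⟨u, hu, hux⟩ : ∃ u : X, ‖u‖ = 1 ∧ x₁ = ((‖x₁‖ : ℝ) : ℂ) • u := by
    by_cases h0 : x₁ = 0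
    · obtain ⟨v, hv⟩ := exists_norm_eq X zero_le_one
      exact ⟨v, hv, by simp [h0]⟩
    · have hpos : 0 < ‖x₁‖ := norm_pos_iff.2 h0
      refine ⟨((‖x₁‖⁻¹ : ℝ) : ℂ) • x₁, ?_, ?_⟩
      · rw [norm_smul, Complex.norm_real, norm_inv, norm_norm, inv_mul_cancel₀ hpos.ne']
      · rw [smul_smul, ← Complex.ofReal_mul, mul_inv_cancel₀ hpos.ne', Complex.ofReal_one, one_smul]
  set r : ℝ := ‖x₁‖ with hr
  -- three cut-off functions
  let ψ : C(K, ℝ) := ⟨fun t => clamp (3 * s t), continuous_clamp.comp (continuous_const.mul s.continuous)⟩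
  let φ : C(K, ℝ) := ⟨fun t => clamp (3 * s t - 1),
    continuous_clamp.comp ((continuous_const.mul s.continuous).sub continuous_const)⟩
  let χ : C(K, ℝ) := ⟨fun t => clamp (3 * s t - 2),
    continuous_clamp.comp ((continuous_const.mul s.continuous).sub continuous_const)⟩
  have hψφ : ∀ t, φ t ≠ 0 → ψ t = 1 := by
    intro t ht
    have h1 : 0 < 3 * s t - 1 := by
      by_contra hcon
      exact ht (clamp_of_le (not_lt.1 hcon))
    exact clamp_of_ge (by linarith)
  have hφχ : ∀ t, χ t ≠ 0 → φ t = 1 := by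
    intro t ht
    have h1 : 0 < 3 * s t - 2 := by
      by_contra hcon
      exact ht (clamp_of_le (not_lt.1 hcon))
    exact clamp_of_ge (by linarith)
  -- modified function
  let y' : C(K, X) := ⟨fun t => (((1 - ψ t : ℝ)) : ℂ) • y t + ((ψ t : ℝ) : ℂ) • x₁, by
    refine Continuous.add ?_ ?_
    · exact (Complex.continuous_ofReal.comp (continuous_const.sub ψ.continuous)).smul y.continuous
    · exact (Complex.continuous_ofReal.comp ψ.continuous).smul continuous_const⟩
  let w : C(K, X) := ⟨fun t => ((φ t : ℝ) : ℂ) • u,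
    (Complex.continuous_ofReal.comp φ.continuous).smul continuous_const⟩
  have hψ01 : ∀ t, 0 ≤ ψ t ∧ ψ t ≤ 1 := fun t => ⟨clamp_nonneg _, clamp_le_one _⟩
  have hφ01 : ∀ t, 0 ≤ φ t ∧ φ t ≤ 1 := fun t => ⟨clamp_nonneg _, clamp_le_one _⟩
  have hχ01 : ∀ t, 0 ≤ χ t ∧ χ t ≤ 1 := fun t => ⟨clamp_nonneg _, clamp_le_one _⟩
  have hy'y : ‖y' - y‖ < δ := by
    refine lt_of_le_of_lt ?_ (half_lt_self hδ)
    rw [ContinuousMap.norm_le _ (by positivity)]
    intro t
    have he : (y' - y) t = ((ψ t : ℝ) : ℂ) • (x₁ - y t) := by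
      change (((1 - ψ t : ℝ)) : ℂ) • y t + ((ψ t : ℝ) : ℂ) • x₁ - y t = _
      push_cast
      module
    rw [he, norm_smul, Complex.norm_real, Real.norm_of_nonneg (hψ01 t).1]
    by_cases htU : t ∈ U
    · have h2 : ‖x₁ - y t‖ ≤ δ / 2 := by
        rw [norm_sub_rev]; exact le_of_lt htU
      calc ψ t * ‖x₁ - y t‖ ≤ 1 * (δ / 2) := by
            gcongr
            exact (hψ01 t).2
        _ = δ / 2 := one_mul _
    · have h3 : s t = 0 := hs0 htU
      have h4 : ψ t = 0 := by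
        change clamp (3 * s t) = 0
        exact clamp_of_le (by rw [h3]; simp)
      rw [h4, zero_mul]; positivity
  -- the holomorphic family
  let F : ℂ → C(K, X) := fun c => y' + (c - (r : ℂ)) • w
  have hFn : ∀ c : ℂ, ‖c‖ ≤ 1 → ‖F c‖ ≤ 1 := by
    intro c hc
    rw [ContinuousMap.norm_le _ zero_le_one]
    intro t
    change ‖(((1 - ψ t : ℝ)) : ℂ) • y t + ((ψ t : ℝ) : ℂ) • x₁ + (c - (r : ℂ)) • (((φ t : ℝ) : ℂ) • u)‖ ≤ 1
    by_cases hφ : φ t = 0
    · rw [hφ]
      simp only [Complex.ofReal_zero, zero_smul, smul_zero, add_zero]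
      refine (norm_add_le _ _).trans ?_
      rw [norm_smul, norm_smul, Complex.norm_real, Complex.norm_real,
        Real.norm_of_nonneg (hψ01 t).1, Real.norm_of_nonneg (by linarith [(hψ01 t).2])]
      have h1 : ‖y t‖ ≤ 1 := (y.norm_coe_le_norm t).trans hy
      have h2 := (hψ01 t).1
      have h3 : 0 ≤ 1 - ψ t := by linarith [(hψ01 t).2]
      calc (1 - ψ t) * ‖y t‖ + ψ t * ‖x₁‖ ≤ (1 - ψ t) * 1 + ψ t * 1 := by gcongr
        _ = 1 := by ring
    · rw [hψφ t hφ]
      have he : (((1 - 1 : ℝ)) : ℂ) • y t + ((1 : ℝ) : ℂ) • x₁ + (c - (r : ℂ)) • (((φ t : ℝ) : ℂ) • u)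
          = ((((1 - φ t) * r : ℝ)) : ℂ) • u + (((φ t : ℝ) : ℂ) * c) • u := by
        rw [hux]
        push_cast
        module
      rw [he]
      refine (norm_add_le _ _).trans ?_
      have hr0 : 0 ≤ r := norm_nonneg _
      have h2 := (hφ01 t).1
      have h3 : 0 ≤ 1 - φ t := by linarith [(hφ01 t).2]
      rw [norm_smul, norm_smul, norm_mul, Complex.norm_real, Complex.norm_real,
        Real.norm_of_nonneg h2, Real.norm_of_nonneg (by positivity), hu]
      calc (1 - φ t) * r * 1 + φ t * ‖c‖ * 1 ≤ (1 - φ t) * 1 * 1 + φ t * 1 * 1 := by gcongr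
        _ = 1 := by ring
  let h : ℂ → X := fun c => B (fun _ => F c) t₀
  have hdiff : Differentiable ℂ h := by
    have h1 : Differentiable ℂ F := by
      intro c
      exact ((differentiableAt_id.sub_const _).smul_const w).const_add y'
    have h2 : Differentiable ℂ (fun c => (fun _ : Fin k => F c)) :=
      differentiable_pi.2 (fun _ => h1)
    have h3 : Differentiable ℂ (fun m : Fin k → C(K, X) => B m) := by
      intro m
      exact (B.hasFDerivAt m).differentiableAt
    have h4 : Differentiable ℂ (fun c => B (fun _ => F c)) := h3.comp h2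
    exact (ContinuousMap.evalCLM (M := X) ℂ t₀).differentiable.comp h4
  obtain ⟨c, hc, hcmax⟩ := Complex.exists_mem_frontier_isMaxOn_norm
    (f := h) (U := Metric.ball (0 : ℂ) 1) Metric.isBounded_ball
    ⟨0, by simp⟩ hdiff.diffContOnCl
  rw [frontier_ball (0 : ℂ) one_ne_zero, mem_sphere_zero_iff_norm] at hc
  rw [closure_ball (0 : ℂ) one_ne_zero] at hcmax
  have hr1 : (r : ℂ) ∈ Metric.closedBall (0 : ℂ) 1 := by
    rw [mem_closedBall_zero_iff, Complex.norm_real, Real.norm_of_nonneg (norm_nonneg _)]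
    exact hx₁n
  have hmax : ‖h (r : ℂ)‖ ≤ ‖h c‖ := hcmax hr1
  have hFr : F (r : ℂ) = y' := by
    change y' + ((r : ℂ) - (r : ℂ)) • w = y'
    simp
  refine ⟨t₀, c • u, F c, χ, ?_, hFn c hc.le, hχ01, ?_, ?_, ?_⟩
  · rw [norm_smul, hc, hu, one_mul]
  · change clamp (3 * s t₀ - 2) = 1
    rw [hst₀]; exact clamp_of_ge (by norm_num)
  · intro t ht
    have h1 := hφχ t ht
    have h2 := hψφ t (by rw [h1]; exact one_ne_zero)
    change (((1 - ψ t : ℝ)) : ℂ) • y t + ((ψ t : ℝ) : ℂ) • x₁ + (c - (r : ℂ)) • (((φ t : ℝ) : ℂ) • u) = c • u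
    rw [h1, h2, hux]
    push_cast
    module
  · have h1 : ‖B (fun _ => y') - B (fun _ => y)‖ < ε := by
      have := hδB y' (by rw [dist_eq_norm]; exact hy'y)
      rwa [dist_eq_norm] at this
    have h2 : ‖B (fun _ => y) t₀‖ ≤ ‖B (fun _ => y') t₀‖ + ‖B (fun _ => y') - B (fun _ => y)‖ := by
      have h3 : B (fun _ => y) t₀ = B (fun _ => y') t₀ - (B (fun _ => y') - B (fun _ => y)) t₀ := by
        rw [ContinuousMap.sub_apply]; abel
      rw [h3]
      refine (norm_sub_le _ _).trans ?_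
      gcongr
      exact ContinuousMap.norm_coe_le_norm _ _
    have h4 : ‖B (fun _ => y') t₀‖ ≤ ‖B (fun _ => F c) t₀‖ := by
      have : h (r : ℂ) = B (fun _ => y') t₀ := by
        change B (fun _ => F (r : ℂ)) t₀ = _
        rw [hFr]
      rw [← this]; exact hmax
    linarith

/-- Step two: the embedding operator. -/
theorem step_two {X : Type} [NormedAddCommGroup X] [NormedSpace ℂ X]
    {K : Type} [TopologicalSpace K] [CompactSpace K]
    (t₀ : K) (x₀ : X) (g : C(K, X)) (φ : C(K, ℝ)) (hx₀ : ‖x₀‖ = 1) (hg : ‖g‖ ≤ 1)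
    (hφ : ∀ t, 0 ≤ φ t ∧ φ t ≤ 1) (hφt : φ t₀ = 1) (hφg : ∀ t, φ t ≠ 0 → g t = x₀) :
    ∃ Φ : X →L[ℂ] C(K, X), (∀ x, ‖Φ x‖ ≤ ‖x‖) ∧ (∀ x, Φ x t₀ = x) ∧ Φ x₀ = g := by
  obtain ⟨f, hf, hfx⟩ := exists_support x₀ (by intro h; rw [h, norm_zero] at hx₀; exact zero_ne_one hx₀)
  rw [hx₀] at hfx
  have hf1 : f x₀ = 1 := by simpa using hfx
  let L : X →ₗ[ℂ] C(K, X) :=
    { toFun := fun x => ⟨fun t => f x • g t + ((φ t : ℝ) : ℂ) • (x - f x • x₀), by
        exact (continuous_const.smul g.continuous).add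
          ((Complex.continuous_ofReal.comp φ.continuous).smul continuous_const)⟩
      map_add' := by
        intro a b
        ext t
        simp only [ContinuousMap.coe_mk, ContinuousMap.add_apply, map_add]
        module
      map_smul' := by
        intro c a
        ext t
        simp only [ContinuousMap.coe_mk, ContinuousMap.smul_apply, map_smul, RingHom.id_apply,
          smul_eq_mul]
        module }
  have hL : ∀ x, ‖L x‖ ≤ 1 * ‖x‖ := by
    intro x
    rw [one_mul, ContinuousMap.norm_le _ (norm_nonneg _)]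
    intro t
    change ‖f x • g t + ((φ t : ℝ) : ℂ) • (x - f x • x₀)‖ ≤ ‖x‖
    have hfx : ‖f x‖ ≤ ‖x‖ := by
      refine (f.le_opNorm x).trans ?_
      rw [hf, one_mul]
    by_cases h0 : φ t = 0
    · rw [h0]
      simp only [Complex.ofReal_zero, zero_smul, add_zero]
      rw [norm_smul]
      calc ‖f x‖ * ‖g t‖ ≤ ‖x‖ * 1 := by
            gcongr
            exact (g.norm_coe_le_norm t).trans hg
        _ = ‖x‖ := mul_one _
    · rw [hφg t h0]
      have he : f x • x₀ + ((φ t : ℝ) : ℂ) • (x - f x • x₀)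
          = (((1 - φ t : ℝ) : ℂ) * f x) • x₀ + ((φ t : ℝ) : ℂ) • x := by
        push_cast
        module
      rw [he]
      refine (norm_add_le _ _).trans ?_
      have h2 := (hφ t).1
      have h3 : 0 ≤ 1 - φ t := by linarith [(hφ t).2]
      rw [norm_smul, norm_smul, norm_mul, Complex.norm_real, Complex.norm_real,
        Real.norm_of_nonneg h2, Real.norm_of_nonneg h3, hx₀]
      calc (1 - φ t) * ‖f x‖ * 1 + φ t * ‖x‖ ≤ (1 - φ t) * ‖x‖ * 1 + φ t * ‖x‖ := by gcongr
        _ = ‖x‖ := by ring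
  refine ⟨L.mkContinuous 1 hL, ?_, ?_, ?_⟩
  · intro x; simpa using hL x
  · intro x
    change f x • g t₀ + ((φ t₀ : ℝ) : ℂ) • (x - f x • x₀) = x
    rw [hφg t₀ (by rw [hφt]; exact one_ne_zero), hφt]
    push_cast
    module
  · ext t
    change f x₀ • g t + ((φ t : ℝ) : ℂ) • (x₀ - f x₀ • x₀) = g t
    rw [hf1]
    simp

end Pool.Agent.H647R3.PolyIdx
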