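import Mathlib

open scoped ENNReal

namespace H647R3.QF

instance fact4 : Fact ((1:ℝ≥0∞) ≤ 4) := ⟨by norm_num⟩

section tools

variable {ι κ : Type} {E F : ι → Type} [∀ i, NormedAddCommGroup (E i)]
  [∀ i, NormedAddCommGroup (F i)]

lemma toReal4 : (4 : ℝ≥0∞).toReal = 4 := by simp

lemma sum4_le (f : lp E 4) (s : Finset ι) : ∑ i ∈ s, ‖f i‖ ^ 4 ≤ ‖f‖ ^ 4 := by
  have h := lp.sum_rpow_le_norm_rpow (p := 4) (by rw [toReal4]; norm_num) f s
  rw [toReal4] at h
  norm_cast at h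

lemma norm4_le {C : ℝ} (hC : 0 ≤ C) {f : lp E 4} (h : ∀ s : Finset ι, ∑ i ∈ s, ‖f i‖ ^ 4 ≤ C ^ 4) :
    ‖f‖ ≤ C := by
  apply lp.norm_le_of_forall_sum_le (p := 4) (by rw [toReal4]; norm_num) hC
  intro s
  rw [toReal4]
  exact_mod_cast h s

lemma mem4 {C : ℝ} {f : ∀ i, E i} (h : ∀ s : Finset ι, ∑ i ∈ s, ‖f i‖ ^ 4 ≤ C) : Memℓp f 4 := by
  apply memℓp_gen' (C := C)
  intro s
  rw [toReal4]
  exact_mod_cast h s

lemma hasSum4 (f : lp E 4) : HasSum (fun i => ‖f i‖ ^ 4) (‖f‖ ^ 4) := by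
  have h := lp.hasSum_norm (p := 4) (by rw [toReal4]; norm_num) f
  rw [toReal4] at h
  have h2 : (fun i => ‖f i‖ ^ (4 : ℝ)) = fun i => ‖f i‖ ^ 4 := by
    funext i
    norm_cast
  rw [h2] at h
  have h3 : ‖f‖ ^ (4 : ℝ) = ‖f‖ ^ 4 := by norm_cast
  rwa [h3] at h

variable [∀ i, NormedSpace ℝ (E i)] [∀ i, NormedSpace ℝ (F i)]

/-- operators into `lp` -/
noncomputable def mkOp {V : Type} [NormedAddCommGroup V] [NormedSpace ℝ V] (g : V → ∀ i, E i)
    (hadd : ∀ v w i, g (v + w) i = g v i + g w i) (hsmul : ∀ (c : ℝ) v i, g (c • v) i = c • g v i)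
    (C : ℝ) (hC : 0 ≤ C) (hb : ∀ v (s : Finset ι), ∑ i ∈ s, ‖g v i‖ ^ 4 ≤ (C * ‖v‖) ^ 4) :
    V →L[ℝ] lp E 4 :=
  LinearMap.mkContinuous
    { toFun := fun v => ⟨g v, mem4 (hb v)⟩
      map_add' := fun v w => by
        apply lp.ext; funext i; exact hadd v w i
      map_smul' := fun c v => by
        apply lp.ext; funext i; exact hsmul c v i } C
    (fun v => norm4_le (mul_nonneg hC (norm_nonneg v)) (hb v))

@[simp] lemma mkOp_apply {V : Type} [NormedAddCommGroup V] [NormedSpace ℝ V] (g : V → ∀ i, E i)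
    (hadd hsmul C hC hb) (v : V) (i : ι) : (mkOp g hadd hsmul C hC hb v : lp E 4) i = g v i := rfl

lemma mkOp_norm {V : Type} [NormedAddCommGroup V] [NormedSpace ℝ V] (g : V → ∀ i, E i)
    (hadd hsmul C hC hb) (v : V) : ‖mkOp g hadd hsmul C hC hb v‖ ≤ C * ‖v‖ :=
  norm4_le (mul_nonneg hC (norm_nonneg v)) (hb v)

/-- diagonal operator -/
noncomputable def diag (T : ∀ i, E i →L[ℝ] F i) (C : ℝ) (hC : 0 ≤ C)
    (hT : ∀ i x, ‖T i x‖ ≤ C * ‖x‖) : lp E 4 →L[ℝ] lp F 4 :=
  mkOp (fun f i => T i (f i)) (fun v w i => by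
      change T i ((v : ∀ i, E i) i + (w : ∀ i, E i) i) = _
      rw [map_add])
    (fun c v i => by
      change T i (c • (v : ∀ i, E i) i) = _
      rw [map_smul]) C hC
    (fun v s => by
      calc ∑ i ∈ s, ‖T i (v i)‖ ^ 4 ≤ ∑ i ∈ s, C ^ 4 * ‖v i‖ ^ 4 := by
            apply Finset.sum_le_sum
            intro i _
            rw [← mul_pow]
            exact pow_le_pow_left₀ (norm_nonneg _) (hT i _) 4
        _ = C ^ 4 * ∑ i ∈ s, ‖v i‖ ^ 4 := by rw [Finset.mul_sum]
        _ ≤ C ^ 4 * ‖v‖ ^ 4 := by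
            apply mul_le_mul_of_nonneg_left (sum4_le v s) (by positivity)
        _ = (C * ‖v‖) ^ 4 := by rw [mul_pow])

@[simp] lemma diag_apply (T : ∀ i, E i →L[ℝ] F i) (C hC hT) (f : lp E 4) (i : ι) :
    (diag T C hC hT f : lp F 4) i = T i (f i) := rfl

variable {G : Type} [NormedAddCommGroup G] [NormedSpace ℝ G]

/-- restriction along an injection -/
noncomputable def resOp (φ : ι → κ) (hφ : Function.Injective φ) :
    lp (fun _ : κ => G) 4 →L[ℝ] lp (fun _ : ι => G) 4 :=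
  mkOp (fun f i => f (φ i)) (fun v w i => rfl) (fun c v i => rfl) 1 zero_le_one
    (fun v s => by
      rw [one_mul]
      have h := sum4_le v (s.map ⟨φ, hφ⟩)
      rw [Finset.sum_map] at h
      exact h)

@[simp] lemma resOp_apply (φ : ι → κ) (hφ) (f : lp (fun _ : κ => G) 4) (i : ι) :
    (resOp φ hφ f : lp (fun _ : ι => G) 4) i = f (φ i) := rfl

/-- extension by zero along an injection -/
noncomputable def extOp (φ : ι → κ) (hφ : Function.Injective φ) :
    lp (fun _ : ι => G) 4 →L[ℝ] lp (fun _ : κ => G) 4 :=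
  mkOp (fun f => Function.extend φ (fun i => f i) 0)
    (fun v w k => by
      by_cases h : ∃ i, φ i = k
      · obtain ⟨i, rfl⟩ := h
        simp only [hφ.extend_apply]
        rfl
      · simp only [Function.extend_apply' _ _ _ h, Pi.zero_apply, add_zero])
    (fun c v k => by
      by_cases h : ∃ i, φ i = k
      · obtain ⟨i, rfl⟩ := h
        simp only [hφ.extend_apply]
        rfl
      · simp only [Function.extend_apply' _ _ _ h, Pi.zero_apply, smul_zero]) 1 zero_le_one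
    (fun v s => by
      classical
      rw [one_mul]
      have h := Finset.sum_preimage φ s hφ.injOn
        (fun k => ‖Function.extend φ (fun i => v i) 0 k‖ ^ 4) (by
          intro k _ hk
          have : ¬ ∃ i, φ i = k := hk
          rw [Function.extend_apply' _ _ _ this]
          simp)
      rw [← h]
      simp only [hφ.extend_apply]
      exact sum4_le v _)

@[simp] lemma extOp_apply (φ : ι → κ) (hφ : Function.Injective φ) (f : lp (fun _ : ι => G) 4)
    (i : ι) : (extOp φ hφ f : lp (fun _ : κ => G) 4) (φ i) = f i :=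
  hφ.extend_apply _ _ _

lemma extOp_apply' (φ : ι → κ) (hφ : Function.Injective φ) (f : lp (fun _ : ι => G) 4)
    (k : κ) (hk : ¬ ∃ i, φ i = k) : (extOp φ hφ f : lp (fun _ : κ => G) 4) k = 0 :=
  Function.extend_apply' _ _ _ hk

lemma resOp_extOp (φ : ι → κ) (hφ : Function.Injective φ) (f : lp (fun _ : ι => G) 4) :
    resOp φ hφ (extOp φ hφ f) = f := by
  apply lp.ext; funext i
  simp

end tools

/-- the space `ℓ_4` -/
abbrev H : Type := lp (fun _ : ℕ => ℝ) 4

/-- `ℓ_4(ℓ_4)` -/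
abbrev V : Type := lp (fun _ : ℕ => H) 4

lemma pair_inj (n : ℕ) : Function.Injective (fun m : ℕ => Nat.pair n m) := by
  intro a b h
  simp only [Nat.pair_eq_pair] at h
  exact h.2

/-- `ℓ_4 → ℓ_4(ℓ_4)` -/
noncomputable def toV : H →L[ℝ] V :=
  mkOp (fun f n => resOp (G := ℝ) (fun m => Nat.pair n m) (pair_inj n) f)
    (fun v w i => by rw [map_add]) (fun c v i => by rw [map_smul]) 1 zero_le_one
    (fun f s => by
      rw [one_mul]
      have h1 : ∀ n ∈ s, ‖resOp (G := ℝ) (fun m => Nat.pair n m) (pair_inj n) f‖ ^ 4 =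
          ∑' m, ‖f (Nat.pair n m)‖ ^ 4 := by
        intro n _
        rw [← (hasSum4 (resOp (G := ℝ) (fun m => Nat.pair n m) (pair_inj n) f)).tsum_eq]
        rfl
      rw [Finset.sum_congr rfl h1]
      have hs : ∀ n ∈ s, Summable (fun m => ‖f (Nat.pair n m)‖ ^ 4) := fun n _ =>
        (hasSum4 (resOp (G := ℝ) (fun m => Nat.pair n m) (pair_inj n) f)).summable
      rw [← Summable.tsum_finsetSum hs]
      apply Summable.tsum_le_of_sum_le (summable_sum hs)
      intro t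
      rw [Finset.sum_comm, ← Finset.sum_product' s t (fun n m => ‖f (Nat.pair n m)‖ ^ 4)]
      have h2 := sum4_le f ((s ×ˢ t).map ⟨fun p : ℕ × ℕ => Nat.pair p.1 p.2, by
        intro a b h
        simp only [Nat.pair_eq_pair] at h
        exact Prod.ext h.1 h.2⟩)
      rw [Finset.sum_map] at h2
      exact h2)

@[simp] lemma toV_apply (f : H) (n m : ℕ) : (toV f : V) n m = f (Nat.pair n m) := rfl

/-- `ℓ_4(ℓ_4) → ℓ_4` -/
noncomputable def ofV : V →L[ℝ] H :=
  mkOp (fun h k => (h (Nat.unpair k).1) (Nat.unpair k).2)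
    (fun v w i => rfl) (fun c v i => rfl) 1 zero_le_one
    (fun h s => by
      classical
      rw [one_mul]
      let S : Finset (ℕ × ℕ) := (s.image fun k => (Nat.unpair k).1) ×ˢ
        (s.image fun k => (Nat.unpair k).2)
      have h1 : ∑ k ∈ s, ‖(h (Nat.unpair k).1) (Nat.unpair k).2‖ ^ 4 ≤
          ∑ p ∈ S, ‖h p.1 p.2‖ ^ 4 := by
        have h2 : ∑ k ∈ s, ‖(h (Nat.unpair k).1) (Nat.unpair k).2‖ ^ 4 =
            ∑ p ∈ s.image Nat.unpair, ‖h p.1 p.2‖ ^ 4 := by
          rw [Finset.sum_image]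
          intro a _ b _ hab
          have := congrArg (fun p : ℕ × ℕ => Nat.pair p.1 p.2) hab
          simpa using this
        rw [h2]
        apply Finset.sum_le_sum_of_subset_of_nonneg
        · intro p hp
          rw [Finset.mem_image] at hp
          obtain ⟨k, hk, rfl⟩ := hp
          exact Finset.mem_product.2 ⟨Finset.mem_image_of_mem _ hk, Finset.mem_image_of_mem _ hk⟩
        · intros; positivity
      refine h1.trans ?_
      rw [Finset.sum_product]
      refine (Finset.sum_le_sum fun n _ => sum4_le (h n) _).trans ?_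
      exact sum4_le h _)

@[simp] lemma ofV_apply (h : V) (k : ℕ) : (ofV h : H) k = (h (Nat.unpair k).1) (Nat.unpair k).2 :=
  rfl

/-- `ℓ_4 ≅ ℓ_4(ℓ_4)` -/
noncomputable def eV : H ≃L[ℝ] V :=
  ContinuousLinearEquiv.equivOfInverse toV ofV
    (fun f => by
      apply lp.ext; funext k
      simp)
    (fun h => by
      apply lp.ext; funext n
      apply lp.ext; funext m
      simp)

/-- complemented subspaces of `ℓ_4` -/
def Comp (W : Type) [NormedAddCommGroup W] [NormedSpace ℝ W] (C : ℝ) : Prop :=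
  ∃ (j : W →L[ℝ] H) (r : H →L[ℝ] W), (∀ w, r (j w) = w) ∧ (∀ w, ‖j w‖ ≤ C * ‖w‖) ∧
    (∀ h, ‖r h‖ ≤ C * ‖h‖)

section pel

variable {W : Type} [NormedAddCommGroup W] [NormedSpace ℝ W]

/-- Pełczyński decomposition -/
theorem pelczynski {C : ℝ} (hW : Comp W C) : Nonempty (H ≃L[ℝ] (W × H)) := by
  obtain ⟨j, r, hjr, -, -⟩ := hW
  let P : H →L[ℝ] H := j.comp r
  have hPb : ∀ x, ‖P x‖ ≤ ‖P‖ * ‖x‖ := P.le_opNorm
  let Q : H →L[ℝ] H := ContinuousLinearMap.id ℝ H - P
  have hQb : ∀ x, ‖Q x‖ ≤ ‖Q‖ * ‖x‖ := Q.le_opNorm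
  let DP : V →L[ℝ] V := diag (fun _ => P) ‖P‖ (norm_nonneg _) (fun _ => hPb)
  let DQ : V →L[ℝ] V := diag (fun _ => Q) ‖Q‖ (norm_nonneg _) (fun _ => hQb)
  let SL : V →L[ℝ] V := resOp Nat.succ Nat.succ_injective
  let SR : V →L[ℝ] V := extOp Nat.succ Nat.succ_injective
  let s0 : H →L[ℝ] V := lp.singleContinuousLinearMap ℝ (fun _ : ℕ => H) 4 0
  let Θ : V →L[ℝ] (W × V) := (r.comp (lp.evalCLM ℝ (fun _ : ℕ => H) 4 0)).prod (DQ + DP.comp SL)
  let Ψ : (W × V) →L[ℝ] V := (s0.comp j).comp (ContinuousLinearMap.fst ℝ W V) +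
    (DQ + SR.comp DP).comp (ContinuousLinearMap.snd ℝ W V)
  have hrP : ∀ x, r (P x) = r x := fun x => hjr (r x)
  have hPP : ∀ x, P (P x) = P x := fun x => congrArg j (hrP x)
  have hQj : ∀ w, Q (j w) = 0 := by
    intro w
    change j w - j (r (j w)) = 0
    rw [hjr, sub_self]
  have hPj : ∀ w, P (j w) = j w := fun w => congrArg j (hjr w)
  have hQQ : ∀ x, Q (Q x) = Q x := by
    intro x
    change (x - P x) - P (x - P x) = x - P x
    rw [map_sub, hPP, sub_self, sub_zero]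
  have hPQ : ∀ x, P (Q x) = 0 := by
    intro x
    change P (x - P x) = 0
    rw [map_sub, hPP, sub_self]
  have hQP : ∀ x, Q (P x) = 0 := by
    intro x
    change P x - P (P x) = 0
    rw [hPP, sub_self]
  have hrQ : ∀ x, r (Q x) = 0 := by
    intro x
    change r (x - P x) = 0
    rw [map_sub, hrP, sub_self]
  have hQP1 : ∀ x, Q x + P x = x := by
    intro x
    change x - P x + P x = x
    abel
  have hΨ0 : ∀ (w : W) (h : V), (Ψ (w, h) : V) 0 = j w + Q (h 0) := by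
    intro w h
    have h1 : (Ψ (w, h) : V) 0 = (s0 (j w) : V) 0 + ((DQ h : V) 0 + (SR (DP h) : V) 0) := rfl
    rw [h1]
    have h2 : (s0 (j w) : V) 0 = j w := by simp [s0]
    have h3 : (SR (DP h) : V) 0 = 0 := extOp_apply' _ _ _ _ (by simp)
    rw [h2, h3, add_zero]
    rfl
  have hΨs : ∀ (w : W) (h : V) (n : ℕ), (Ψ (w, h) : V) (n + 1) = Q (h (n + 1)) + P (h n) := by
    intro w h n
    have h1 : (Ψ (w, h) : V) (n + 1) = (s0 (j w) : V) (n + 1) +
      ((DQ h : V) (n + 1) + (SR (DP h) : V) (n + 1)) := rfl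
    rw [h1]
    have h2 : (s0 (j w) : V) (n + 1) = 0 := by
      simp [s0]
    have h3 : (SR (DP h) : V) (n + 1) = P (h n) :=
      extOp_apply Nat.succ Nat.succ_injective (DP h) n
    rw [h2, h3, zero_add]
    rfl
  have hΘ1 : ∀ h : V, (Θ h).1 = r (h 0) := fun h => rfl
  have hΘ2 : ∀ (h : V) (n : ℕ), ((Θ h).2 : V) n = Q (h n) + P (h (n + 1)) := fun h n => rfl
  let e : V ≃L[ℝ] (W × V) := ContinuousLinearEquiv.equivOfInverse Θ Ψ
    (fun h => by
      apply lp.ext; funext n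
      have hh : Ψ (Θ h) = Ψ ((Θ h).1, (Θ h).2) := rfl
      rw [hh]
      cases n with
      | zero =>
        rw [hΨ0, hΘ1, hΘ2, map_add, hQQ, hQP, add_zero]
        change P (h 0) + Q (h 0) = h 0
        rw [add_comm, hQP1]
      | succ n =>
        rw [hΨs, hΘ2, hΘ2, map_add, map_add, hQQ, hQP, hPQ, hPP, add_zero, zero_add, hQP1])
    (fun wh => by
      obtain ⟨w, h⟩ := wh
      apply Prod.ext
      · rw [hΘ1, hΨ0, map_add, hjr, hrQ, add_zero]
      · apply lp.ext; funext n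
        rw [hΘ2]
        cases n with
        | zero => rw [hΨ0, hΨs, map_add, map_add, hQj, hQQ, hPQ, hPP, zero_add, zero_add, hQP1]
        | succ n =>
          rw [hΨs, hΨs, map_add, map_add, hQQ, hQP, hPQ, hPP, add_zero, zero_add, hQP1])
  exact ⟨(eV.trans e).trans ((ContinuousLinearEquiv.refl ℝ W).prodCongr eV.symm)⟩

end pel

/-- direct sums of uniformly complemented spaces -/
theorem comp_lp {ι : Type} [Countable ι] {W : ι → Type} [∀ i, NormedAddCommGroup (W i)]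
    [∀ i, NormedSpace ℝ (W i)] {C : ℝ} (hC : 0 ≤ C) (h : ∀ i, Comp (W i) C) :
    ∃ C', Comp (lp W 4) C' := by
  choose j r hjr hj hr using h
  obtain ⟨φ, hφ⟩ := exists_injective_nat ι
  let D : lp W 4 →L[ℝ] lp (fun _ : ι => H) 4 := diag j C hC hj
  let D' : lp (fun _ : ι => H) 4 →L[ℝ] lp W 4 := diag r C hC hr
  let J : lp W 4 →L[ℝ] H := (eV.symm : V →L[ℝ] H).comp ((extOp φ hφ).comp D)
  let R : H →L[ℝ] lp W 4 := D'.comp ((resOp φ hφ).comp (eV : H →L[ℝ] V))
  refine ⟨max ‖J‖ ‖R‖, J, R, fun w => ?_, fun w => ?_, fun x => ?_⟩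
  · change D' (resOp φ hφ (eV (eV.symm (extOp φ hφ (D w))))) = w
    rw [ContinuousLinearEquiv.apply_symm_apply, resOp_extOp]
    apply lp.ext; funext i
    exact hjr i (w i)
  · exact (J.le_opNorm w).trans (mul_le_mul_of_nonneg_right (le_max_left _ _) (norm_nonneg _))
  · exact (R.le_opNorm x).trans (mul_le_mul_of_nonneg_right (le_max_right _ _) (norm_nonneg _))

end H647R3.QF
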