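import Pool.Agent.H647R3.QFA

open scoped ENNReal

namespace H647R3.QF

/-- the exponents 2 and 4 -/
def rr (b : Bool) : ℕ := if b then 2 else 4

lemma rr_pos (b : Bool) : 0 < rr b := by cases b <;> simp [rr]

lemma two_le_rr (b : Bool) : 2 ≤ rr b := by cases b <;> simp [rr]

/-- the exponents as extended reals -/
noncomputable def pp (b : Bool) : ℝ≥0∞ := ((rr b : ℕ) : ℝ≥0∞)

instance factpp (b : Bool) : Fact ((1:ℝ≥0∞) ≤ pp b) :=
  ⟨by unfold pp; exact_mod_cast rr_pos b⟩

lemma pp_toReal (b : Bool) : (pp b).toReal = (rr b : ℝ) := by simp [pp]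

/-- finite dimensional `ℓ_2` or `ℓ_4` -/
abbrev Sp (b : Bool) (ι : Type) : Type := PiLp (pp b) (fun _ : ι => ℝ)

section sp

variable {ι : Type} [Fintype ι] {b : Bool}

lemma normpow (a : Sp b ι) : ‖a‖ ^ (rr b) = ∑ i, |a i| ^ (rr b) := by
  rw [PiLp.norm_eq_sum (by rw [pp_toReal]; exact_mod_cast rr_pos b), pp_toReal]
  have h1 : ∀ i, ‖a i‖ ^ ((rr b : ℕ) : ℝ) = |a i| ^ (rr b) := by
    intro i
    rw [Real.rpow_natCast, Real.norm_eq_abs]
  simp only [h1]
  rw [one_div, Real.rpow_inv_natCast_pow (Finset.sum_nonneg fun i _ => by positivity)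
    (rr_pos b).ne']

lemma norm_le_of_pow {a : Sp b ι} {C : ℝ} (hC : 0 ≤ C) (h : ∑ i, |a i| ^ (rr b) ≤ C ^ (rr b)) :
    ‖a‖ ≤ C := by
  rw [← normpow] at h
  exact le_of_pow_le_pow_left₀ (rr_pos b).ne' hC h

/-- operators into `Sp` -/
noncomputable def mkSp {V : Type} [NormedAddCommGroup V] [NormedSpace ℝ V] (g : V → ι → ℝ)
    (hadd : ∀ v w i, g (v + w) i = g v i + g w i) (hsmul : ∀ (c : ℝ) v i, g (c • v) i = c * g v i)
    (C : ℝ) (hC : 0 ≤ C) (hb : ∀ v, ∑ i, |g v i| ^ (rr b) ≤ (C * ‖v‖) ^ (rr b)) :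
    V →L[ℝ] Sp b ι :=
  LinearMap.mkContinuous
    { toFun := fun v => WithLp.toLp (pp b) (g v)
      map_add' := fun v w => by
        ext i; exact hadd v w i
      map_smul' := fun c v => by
        ext i; exact hsmul c v i } C
    (fun v => norm_le_of_pow (mul_nonneg hC (norm_nonneg v)) (hb v))

@[simp] lemma mkSp_apply {V : Type} [NormedAddCommGroup V] [NormedSpace ℝ V] (g : V → ι → ℝ)
    (hadd hsmul C hC hb) (v : V) (i : ι) : (mkSp (b := b) g hadd hsmul C hC hb v) i = g v i := rfl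

lemma mkSp_norm {V : Type} [NormedAddCommGroup V] [NormedSpace ℝ V] (g : V → ι → ℝ)
    (hadd hsmul C hC hb) (v : V) : ‖mkSp (b := b) g hadd hsmul C hC hb v‖ ≤ C * ‖v‖ :=
  norm_le_of_pow (mul_nonneg hC (norm_nonneg v)) (hb v)

lemma Sp_add_apply (a c : Sp b ι) (i : ι) : (a + c) i = a i + c i := rfl

lemma Sp_smul_apply (t : ℝ) (a : Sp b ι) (i : ι) : (t • a) i = t * a i := rfl

end sp

theorem comp_four (ι : Type) [Fintype ι] : Comp (Sp false ι) 1 := by
  obtain ⟨φ, hφ⟩ := exists_injective_nat ι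
  let j : Sp false ι →L[ℝ] lp (fun _ : ι => ℝ) 4 :=
    mkOp (fun a i => a i) (fun v w i => rfl) (fun c v i => rfl) 1 zero_le_one (fun v s => by
      rw [one_mul]
      have h := normpow v
      simp only [rr, Bool.false_eq_true, if_false] at h
      rw [h]
      simp only [Real.norm_eq_abs]
      exact Finset.sum_le_sum_of_subset_of_nonneg (Finset.subset_univ s) (by intros; positivity))
  let r : lp (fun _ : ι => ℝ) 4 →L[ℝ] Sp false ι :=
    mkSp (fun f i => f i) (fun v w i => rfl) (fun c v i => rfl) 1 zero_le_one (fun v => by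
      rw [one_mul]
      simp only [rr, Bool.false_eq_true, if_false]
      exact sum4_le v Finset.univ)
  refine ⟨(extOp φ hφ).comp j, r.comp (resOp φ hφ), fun w => ?_, fun w => ?_, fun h => ?_⟩
  · change r (resOp φ hφ (extOp φ hφ (j w))) = w
    rw [resOp_extOp]
    ext i
    rfl
  · have h1 : ‖extOp φ hφ (j w)‖ ≤ 1 * ‖j w‖ := mkOp_norm _ _ _ _ _ _ _
    have h2 : ‖j w‖ ≤ 1 * ‖w‖ := mkOp_norm _ _ _ _ _ _ _
    change ‖extOp φ hφ (j w)‖ ≤ 1 * ‖w‖
    linarith
  · have h1 : ‖r (resOp φ hφ h)‖ ≤ 1 * ‖resOp φ hφ h‖ := mkSp_norm _ _ _ _ _ _ _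
    have h2 : ‖resOp φ hφ h‖ ≤ 1 * ‖h‖ := mkOp_norm _ _ _ _ _ _ _
    change ‖r (resOp φ hφ h)‖ ≤ 1 * ‖h‖
    linarith

/-! ### Rademacher functions -/

section rad

variable {ι : Type} [Fintype ι] [DecidableEq ι]

/-- sign -/
def sg (b : Bool) : ℝ := if b then 1 else -1

lemma sg_sq (b : Bool) : sg b * sg b = 1 := by cases b <;> simp [sg]

/-- flip a coordinate -/
def flip (i : ι) : (ι → Bool) ≃ (ι → Bool) where
  toFun ε := Function.update ε i (!(ε i))
  invFun ε := Function.update ε i (!(ε i))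
  left_inv ε := by simp
  right_inv ε := by simp

lemma sum_flip_zero (i : ι) (G : (ι → Bool) → ℝ) (hG : ∀ ε, G (flip i ε) = G ε) :
    ∑ ε : ι → Bool, sg (ε i) * G ε = 0 := by
  have h1 : ∑ ε : ι → Bool, sg (ε i) * G ε = ∑ ε : ι → Bool, sg ((flip i ε) i) * G (flip i ε) :=
    ((flip i).sum_comp (fun ε => sg (ε i) * G ε)).symm
  have h2 : ∀ ε : ι → Bool, sg ((flip i ε) i) * G (flip i ε) = -(sg (ε i) * G ε) := by
    intro ε
    rw [hG]
    have h3 : (flip i ε) i = !(ε i) := by simp [flip]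
    rw [h3]
    cases ε i <;> simp [sg]
  simp only [h2, Finset.sum_neg_distrib] at h1
  linarith

/-- Rademacher sums -/
def Rad (s : Finset ι) (a : ι → ℝ) (ε : ι → Bool) : ℝ := ∑ i ∈ s, sg (ε i) * a i

lemma Rad_flip (s : Finset ι) (a : ι → ℝ) (i : ι) (hi : i ∉ s) (ε : ι → Bool) :
    Rad s a (flip i ε) = Rad s a ε := by
  unfold Rad
  apply Finset.sum_congr rfl
  intro j hj
  have hji : j ≠ i := fun h => hi (h ▸ hj)
  have : (flip i ε) j = ε j := by simp [flip, hji]
  rw [this]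

lemma Rad_sq (s : Finset ι) (a : ι → ℝ) :
    ∑ ε : ι → Bool, (Rad s a ε) ^ 2 = (Fintype.card (ι → Bool) : ℝ) * ∑ i ∈ s, a i ^ 2 := by
  induction s using Finset.induction_on with
  | empty => simp [Rad]
  | insert i s hi ih =>
    have h1 : ∀ ε : ι → Bool, (Rad (insert i s) a ε) ^ 2 =
        (Rad s a ε) ^ 2 + 2 * a i * (sg (ε i) * Rad s a ε) + a i ^ 2 := by
      intro ε
      have : Rad (insert i s) a ε = sg (ε i) * a i + Rad s a ε := by
        unfold Rad; rw [Finset.sum_insert hi]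
      rw [this]
      have h2 := sg_sq (ε i)
      linear_combination a i ^ 2 * h2
    simp only [h1, Finset.sum_add_distrib, ← Finset.mul_sum, ih]
    rw [sum_flip_zero i (Rad s a) (Rad_flip s a i hi), Finset.sum_insert hi]
    simp only [Finset.sum_const, Finset.card_univ, nsmul_eq_mul]
    ring

lemma Rad_four (s : Finset ι) (a : ι → ℝ) :
    ∑ ε : ι → Bool, (Rad s a ε) ^ 4 ≤
      3 * (Fintype.card (ι → Bool) : ℝ) * (∑ i ∈ s, a i ^ 2) ^ 2 := by
  induction s using Finset.induction_on with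
  | empty => simp [Rad]
  | insert i s hi ih =>
    have h1 : ∀ ε : ι → Bool, (Rad (insert i s) a ε) ^ 4 =
        (Rad s a ε) ^ 4 + 4 * a i * (sg (ε i) * Rad s a ε ^ 3) + 6 * a i ^ 2 * (Rad s a ε) ^ 2 +
        4 * a i ^ 3 * (sg (ε i) * Rad s a ε) + a i ^ 4 := by
      intro ε
      have : Rad (insert i s) a ε = sg (ε i) * a i + Rad s a ε := by
        unfold Rad; rw [Finset.sum_insert hi]
      rw [this]
      have h2 := sg_sq (ε i)
      have h3 : sg (ε i) ^ 3 = sg (ε i) := by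
        rw [pow_succ, pow_two, h2, one_mul]
      have h4 : sg (ε i) ^ 4 = 1 := by
        rw [pow_succ, h3, h2]
      have h5 : sg (ε i) ^ 2 = 1 := by rw [pow_two, h2]
      ring_nf
      rw [h3, h4, h5]
      ring
    simp only [h1, Finset.sum_add_distrib, ← Finset.mul_sum]
    rw [sum_flip_zero i (Rad s a) (Rad_flip s a i hi),
      sum_flip_zero i (fun ε => Rad s a ε ^ 3) (fun ε => by rw [Rad_flip s a i hi]),
      Finset.sum_insert hi, Rad_sq]
    simp only [Finset.sum_const, Finset.card_univ, nsmul_eq_mul]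
    have hc : (0 : ℝ) ≤ (Fintype.card (ι → Bool) : ℝ) := by positivity
    have e1 : 0 ≤ (Fintype.card (ι → Bool) : ℝ) * a i ^ 4 := by positivity
    nlinarith [ih, e1]

lemma bessel (h : (ι → Bool) → ℝ) :
    ∑ i, (∑ ε : ι → Bool, sg (ε i) * h ε) ^ 2 ≤
      (Fintype.card (ι → Bool) : ℝ) * ∑ ε : ι → Bool, h ε ^ 2 := by
  set B : ι → ℝ := fun i => ∑ ε : ι → Bool, sg (ε i) * h ε with hB
  have h1 : ∑ i, B i ^ 2 = ∑ ε : ι → Bool, h ε * Rad Finset.univ B ε := by
    have : ∀ i, B i ^ 2 = ∑ ε : ι → Bool, h ε * (sg (ε i) * B i) := by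
      intro i
      rw [pow_two]
      nth_rewrite 1 [hB]
      simp only
      rw [Finset.sum_mul]
      exact Finset.sum_congr rfl fun ε _ => by ring
    simp only [this]
    rw [Finset.sum_comm]
    exact Finset.sum_congr rfl fun ε _ => by rw [Rad, Finset.mul_sum]
  have h2 := Finset.sum_mul_sq_le_sq_mul_sq Finset.univ h (Rad Finset.univ B)
  rw [← h1, Rad_sq] at h2
  set T := ∑ i, B i ^ 2 with hT
  have hT0 : 0 ≤ T := Finset.sum_nonneg fun i _ => by positivity
  have hS0 : 0 ≤ ∑ ε : ι → Bool, h ε ^ 2 := Finset.sum_nonneg fun i _ => by positivity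
  rcases hT0.eq_or_lt with h0 | hpos
  · rw [← h0]; positivity
  · have : T * T ≤ ((Fintype.card (ι → Bool) : ℝ) * ∑ ε : ι → Bool, h ε ^ 2) * T := by
      nlinarith [h2]
    exact le_of_mul_le_mul_right this hpos

end rad

theorem comp_two (ι : Type) [Fintype ι] : Comp (Sp true ι) 2 := by
  classical
  obtain ⟨φ, hφ⟩ := exists_injective_nat (ι → Bool)
  set N : ℝ := (Fintype.card (ι → Bool) : ℝ) with hN
  have hNpos : 0 < N := by
    rw [hN]
    exact_mod_cast Fintype.card_pos
  obtain ⟨c, hc0, hc4⟩ : ∃ c : ℝ, 0 < c ∧ c ^ 4 = N := by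
    refine ⟨Real.sqrt (Real.sqrt N), by positivity, ?_⟩
    have h1 : Real.sqrt (Real.sqrt N) ^ 2 = Real.sqrt N := Real.sq_sqrt (by positivity)
    have h2 : Real.sqrt N ^ 2 = N := Real.sq_sqrt hNpos.le
    calc Real.sqrt (Real.sqrt N) ^ 4 = (Real.sqrt (Real.sqrt N) ^ 2) ^ 2 := by ring
      _ = N := by rw [h1, h2]
  have hn2 : ∀ a : Sp true ι, ‖a‖ ^ 2 = ∑ i, a i ^ 2 := by
    intro a
    have h := normpow a
    simp only [rr, if_true] at h
    rw [h]
    exact Finset.sum_congr rfl fun i _ => sq_abs _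
  let j : Sp true ι →L[ℝ] lp (fun _ : ι → Bool => ℝ) 4 :=
    mkOp (fun a ε => c⁻¹ * Rad Finset.univ (fun i => a i) ε)
      (fun v w ε => by
        simp only [Rad, Sp_add_apply, mul_add, Finset.sum_add_distrib])
      (fun t v ε => by
        simp only [Rad, Sp_smul_apply, smul_eq_mul, Finset.mul_sum]
        exact Finset.sum_congr rfl fun i _ => by ring) 2 zero_le_two
      (fun v s => by
        have h1 : ∑ ε ∈ s, ‖c⁻¹ * Rad Finset.univ (fun i => v i) ε‖ ^ 4 ≤
            ∑ ε : ι → Bool, (c⁻¹) ^ 4 * (Rad Finset.univ (fun i => v i) ε) ^ 4 := by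
          refine (Finset.sum_le_sum_of_subset_of_nonneg (Finset.subset_univ s)
            (by intros; positivity)).trans (le_of_eq ?_)
          apply Finset.sum_congr rfl
          intro ε _
          rw [norm_mul, mul_pow, Real.norm_eq_abs, Real.norm_eq_abs]
          congr 1
          · rw [abs_of_pos (by positivity)]
          · exact Even.pow_abs (by decide) _
        refine h1.trans ?_
        rw [← Finset.mul_sum]
        have h2 := Rad_four Finset.univ (fun i => v i)
        rw [← hn2 v, ← hN] at h2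
        calc (c⁻¹) ^ 4 * ∑ ε : ι → Bool, (Rad Finset.univ (fun i => v i) ε) ^ 4
            ≤ (c⁻¹) ^ 4 * (3 * N * (‖v‖ ^ 2) ^ 2) :=
              mul_le_mul_of_nonneg_left h2 (by positivity)
          _ = 3 * ‖v‖ ^ 4 := by
              rw [← hc4]
              field_simp
          _ ≤ (2 * ‖v‖) ^ 4 := by
              have : 0 ≤ ‖v‖ ^ 4 := by positivity
              nlinarith)
  let r : lp (fun _ : ι → Bool => ℝ) 4 →L[ℝ] Sp true ι :=
    mkSp (fun f i => c / N * ∑ ε : ι → Bool, sg (ε i) * f ε)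
      (fun v w i => by
        rw [← mul_add, ← Finset.sum_add_distrib]
        congr 1
        apply Finset.sum_congr rfl
        intro ε _
        rw [← mul_add]
        rfl)
      (fun t v i => by
        rw [Finset.mul_sum, Finset.mul_sum, Finset.mul_sum]
        apply Finset.sum_congr rfl
        intro ε _
        change c / N * (sg (ε i) * (t * v ε)) = _
        ring) 1 zero_le_one
      (fun f => by
        rw [one_mul]
        simp only [rr, if_true]
        have h1 : ∑ i, |c / N * ∑ ε : ι → Bool, sg (ε i) * f ε| ^ 2 =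
            (c / N) ^ 2 * ∑ i, (∑ ε : ι → Bool, sg (ε i) * f ε) ^ 2 := by
          rw [Finset.mul_sum]
          apply Finset.sum_congr rfl
          intro i _
          rw [sq_abs, mul_pow]
        rw [h1]
        have h2 := bessel (fun ε => f ε)
        rw [← hN] at h2
        have h3 : (∑ ε : ι → Bool, (f ε) ^ 2) ^ 2 ≤ N * ∑ ε : ι → Bool, (f ε) ^ 4 := by
          have := Finset.sum_mul_sq_le_sq_mul_sq Finset.univ (fun _ : ι → Bool => (1:ℝ))
            (fun ε => (f ε) ^ 2)
          simp only [one_mul, one_pow, Finset.sum_const, Finset.card_univ, nsmul_eq_mul,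
            mul_one] at this
          calc _ ≤ _ := this
            _ = N * ∑ ε : ι → Bool, (f ε) ^ 4 := by
                rw [hN]
                congr 1
                exact Finset.sum_congr rfl fun ε _ => by ring
        have h4 : ∑ ε : ι → Bool, (f ε) ^ 4 ≤ ‖f‖ ^ 4 := by
          have := sum4_le f Finset.univ
          refine (le_of_eq ?_).trans this
          apply Finset.sum_congr rfl
          intro ε _
          rw [Real.norm_eq_abs]
          exact (Even.pow_abs (by decide) _).symm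
        have h5 : (c / N) ^ 2 * ∑ i, (∑ ε : ι → Bool, sg (ε i) * f ε) ^ 2 ≤
            (c / N) ^ 2 * (N * ∑ ε : ι → Bool, f ε ^ 2) :=
          mul_le_mul_of_nonneg_left h2 (by positivity)
        refine h5.trans ?_
        have h6 : ((c / N) ^ 2 * (N * ∑ ε : ι → Bool, f ε ^ 2)) ^ 2 ≤ (‖f‖ ^ 2) ^ 2 := by
          calc ((c / N) ^ 2 * (N * ∑ ε : ι → Bool, f ε ^ 2)) ^ 2
              = c ^ 4 / N ^ 2 * (∑ ε : ι → Bool, f ε ^ 2) ^ 2 := by
                field_simp
            _ ≤ c ^ 4 / N ^ 2 * (N * ∑ ε : ι → Bool, (f ε) ^ 4) :=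
                mul_le_mul_of_nonneg_left h3 (by positivity)
            _ = ∑ ε : ι → Bool, (f ε) ^ 4 := by
                rw [hc4]
                field_simp
            _ ≤ ‖f‖ ^ 4 := h4
            _ = (‖f‖ ^ 2) ^ 2 := by ring
        exact le_of_pow_le_pow_left₀ two_ne_zero (by positivity) h6)
  refine ⟨(extOp φ hφ).comp j, r.comp (resOp φ hφ), fun w => ?_, fun w => ?_, fun h => ?_⟩
  · change r (resOp φ hφ (extOp φ hφ (j w))) = w
    rw [resOp_extOp]
    ext i
    change c / N * ∑ ε : ι → Bool, sg (ε i) * (c⁻¹ * Rad Finset.univ (fun i => w i) ε) = w i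
    have h1 : ∀ ε : ι → Bool, sg (ε i) * (c⁻¹ * Rad Finset.univ (fun i => w i) ε) =
        c⁻¹ * (w i + sg (ε i) * Rad (Finset.univ.erase i) (fun i => w i) ε) := by
      intro ε
      have h2 : Rad Finset.univ (fun i => w i) ε = sg (ε i) * w i +
          Rad (Finset.univ.erase i) (fun i => w i) ε := by
        unfold Rad
        exact (Finset.add_sum_erase Finset.univ (fun i => sg (ε i) * w i)
          (Finset.mem_univ i)).symm
      rw [h2]
      have h3 := sg_sq (ε i)
      linear_combination (c⁻¹ * w i) * h3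
    simp only [h1]
    rw [← Finset.mul_sum, Finset.sum_add_distrib,
      sum_flip_zero i _ (Rad_flip _ _ i (Finset.notMem_erase i _))]
    simp only [Finset.sum_const, Finset.card_univ, nsmul_eq_mul, add_zero]
    rw [← hN]
    field_simp
  · have h1 : ‖extOp φ hφ (j w)‖ ≤ 1 * ‖j w‖ := mkOp_norm _ _ _ _ _ _ _
    have h2 : ‖j w‖ ≤ 2 * ‖w‖ := mkOp_norm _ _ _ _ _ _ _
    change ‖extOp φ hφ (j w)‖ ≤ 2 * ‖w‖
    linarith
  · have h1 : ‖r (resOp φ hφ h)‖ ≤ 1 * ‖resOp φ hφ h‖ := mkSp_norm _ _ _ _ _ _ _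
    have h2 : ‖resOp φ hφ h‖ ≤ 1 * ‖h‖ := mkOp_norm _ _ _ _ _ _ _
    change ‖r (resOp φ hφ h)‖ ≤ 2 * ‖h‖
    have := norm_nonneg h
    linarith

theorem comp_sp (b : Bool) (ι : Type) [Fintype ι] : Comp (Sp b ι) 2 := by
  cases b with
  | true => exact comp_two ι
  | false =>
    obtain ⟨j, r, h1, h2, h3⟩ := comp_four ι
    refine ⟨j, r, h1, fun w => (h2 w).trans ?_, fun w => (h3 w).trans ?_⟩
    · have := norm_nonneg w; linarith
    · have := norm_nonneg w; linarith

end H647R3.QF
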