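import Pool.Agent.H647R3.QFB

open scoped ENNReal

namespace H647R3.QF

/-! ### one block -/

/-- size of a block -/
def mm (b : Bool) (e : ℕ) : ℕ := (2 ^ e) ^ (rr b)

/-- the block space -/
abbrev Bl (b : Bool) (e : ℕ) : Type := Sp b (Fin (mm b e))

section block

variable {b : Bool} {e : ℕ}

lemma mm_cast (b : Bool) (e : ℕ) : ((mm b e : ℕ) : ℝ) = ((2 : ℝ) ^ e) ^ (rr b) := by
  simp [mm]

lemma mm_pos (b : Bool) (e : ℕ) : (0 : ℝ) < (mm b e : ℕ) := by
  rw [mm_cast]; positivity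

/-- dual size -/
noncomputable def qq (b : Bool) (e : ℕ) : ℝ := 2 ^ e / (mm b e : ℕ)

lemma qq_pos (b : Bool) (e : ℕ) : 0 < qq b e := div_pos (by positivity) (mm_pos b e)

lemma Sp_mono {ι : Type} [Fintype ι] {a c : Sp b ι} {t : ℝ} (ht : 0 ≤ t)
    (h : ∀ i, |a i| ≤ t * |c i|) : ‖a‖ ≤ t * ‖c‖ := by
  apply norm_le_of_pow (by positivity)
  rw [mul_pow, normpow, Finset.mul_sum]
  apply Finset.sum_le_sum
  intro i _
  rw [← mul_pow]
  exact pow_le_pow_left₀ (abs_nonneg _) (h i) _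

lemma Bl_sup {a : Bl b e} {t : ℝ} (ht : 0 ≤ t) (h : ∀ i, |a i| ≤ t) : ‖a‖ ≤ t * 2 ^ e := by
  apply norm_le_of_pow (by positivity)
  calc ∑ i, |a i| ^ rr b ≤ ∑ _i : Fin (mm b e), t ^ rr b :=
        Finset.sum_le_sum fun i _ => pow_le_pow_left₀ (abs_nonneg _) (h i) _
    _ = (t * 2 ^ e) ^ rr b := by
        rw [Finset.sum_const, Finset.card_univ, Fintype.card_fin, nsmul_eq_mul, mm_cast, mul_pow,
          mul_comm]

lemma Bl_card {a : Bl b e} {t : ℝ} (A : Finset (Fin (mm b e))) (ht : 0 ≤ t)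
    (h : ∀ i ∈ A, t ≤ |a i|) : (A.card : ℝ) * t ^ rr b ≤ ‖a‖ ^ rr b := by
  rw [normpow]
  calc (A.card : ℝ) * t ^ rr b = ∑ _i ∈ A, t ^ rr b := by simp
    _ ≤ ∑ i ∈ A, |a i| ^ rr b :=
        Finset.sum_le_sum fun i hi => pow_le_pow_left₀ ht (h i hi) _
    _ ≤ ∑ i, |a i| ^ rr b :=
        Finset.sum_le_sum_of_subset_of_nonneg (Finset.subset_univ A) (by intros; positivity)

lemma nu_bound {a : Bl b e} {θ : ℝ} (A : Finset (Fin (mm b e))) (hθ : 0 ≤ θ) (hθ1 : θ ≤ 1)
    (hA : (A.card : ℝ) ≤ (θ * 2 ^ e) ^ rr b) (hsupp : ∀ i ∉ A, a i = 0) :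
    |qq b e * ∑ i, a i| ≤ θ * ‖a‖ := by
  obtain ⟨r, hr⟩ : ∃ r, rr b = r + 1 := ⟨rr b - 1, by have := rr_pos b; omega⟩
  have hr1 : 1 ≤ r := by have := two_le_rr b; omega
  have h1 : |∑ i, a i| ≤ ∑ i ∈ A, |a i| := by
    rw [← Finset.sum_subset (Finset.subset_univ A) (fun i _ hi => hsupp i hi)]
    exact Finset.abs_sum_le_sum_abs _ _
  have h2 : (∑ i ∈ A, |a i|) ^ (r + 1) ≤ (A.card : ℝ) ^ r * ‖a‖ ^ (r + 1) := by
    rcases A.eq_empty_or_nonempty with rfl | hne
    · simp only [Finset.sum_empty]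
      rw [zero_pow (by omega)]
      positivity
    · have h3 := pow_sum_div_card_le_sum_pow (s := A) (f := fun i => |a i|)
        (fun i _ => abs_nonneg _) r
      have hc : (0 : ℝ) < (A.card : ℝ) := by exact_mod_cast hne.card_pos
      rw [div_le_iff₀ (by positivity)] at h3
      refine h3.trans ?_
      rw [mul_comm]
      apply mul_le_mul_of_nonneg_left _ (by positivity)
      rw [← hr, normpow]
      exact Finset.sum_le_sum_of_subset_of_nonneg (Finset.subset_univ A) (by intros; positivity)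
  have h4 : ∑ i ∈ A, |a i| ≤ (θ * 2 ^ e) ^ r * ‖a‖ := by
    apply le_of_pow_le_pow_left₀ (n := r + 1) (by omega) (by positivity)
    refine h2.trans ?_
    rw [mul_pow]
    apply mul_le_mul_of_nonneg_right _ (by positivity)
    rw [← pow_mul, mul_comm r (r + 1), pow_mul]
    rw [hr] at hA
    exact pow_le_pow_left₀ (by positivity) hA r
  rw [abs_mul, abs_of_pos (qq_pos b e)]
  calc qq b e * |∑ i, a i| ≤ qq b e * ((θ * 2 ^ e) ^ r * ‖a‖) :=
        mul_le_mul_of_nonneg_left (h1.trans h4) (qq_pos b e).le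
    _ = θ ^ r * ‖a‖ := by
        rw [qq, mm_cast, hr, mul_pow, pow_succ]
        field_simp
    _ ≤ θ * ‖a‖ := by
        apply mul_le_mul_of_nonneg_right _ (norm_nonneg _)
        calc θ ^ r ≤ θ ^ 1 := pow_le_pow_of_le_one hθ hθ1 hr1
          _ = θ := pow_one θ

/-- the functional `v*` of a block -/
noncomputable def nu (b : Bool) (e : ℕ) : Bl b e →L[ℝ] ℝ :=
  LinearMap.mkContinuous
    { toFun := fun a => qq b e * ∑ i, a i
      map_add' := fun a c => by
        simp only [Sp_add_apply, Finset.sum_add_distrib, mul_add]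
      map_smul' := fun t a => by
        simp only [Sp_smul_apply, ← Finset.mul_sum, smul_eq_mul, RingHom.id_apply]
        ring } 1
    (fun a => by
      have h := nu_bound (a := a) (θ := 1) Finset.univ zero_le_one le_rfl
        (by rw [Finset.card_univ, Fintype.card_fin, one_mul, mm_cast]) (by simp)
      exact h)

lemma nu_apply (a : Bl b e) : nu b e a = qq b e * ∑ i, a i := rfl

lemma nu_le (a : Bl b e) : |nu b e a| ≤ ‖a‖ := by
  have h := nu_bound (a := a) (θ := 1) Finset.univ zero_le_one le_rfl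
        (by rw [Finset.card_univ, Fintype.card_fin, one_mul, mm_cast]) (by simp)
  rw [one_mul] at h
  exact h

/-- the flat vector of a block -/
noncomputable def vv (b : Bool) (e : ℕ) : Bl b e := WithLp.toLp (pp b) (fun _ => ((2 : ℝ) ^ e)⁻¹)

lemma vv_apply (i : Fin (mm b e)) : vv b e i = ((2 : ℝ) ^ e)⁻¹ := rfl

lemma vv_norm : ‖vv b e‖ ≤ 1 := by
  have h := Bl_sup (a := vv b e) (t := ((2 : ℝ) ^ e)⁻¹) (by positivity)
    (fun i => by rw [vv_apply, abs_of_pos (by positivity)])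
  rwa [inv_mul_cancel₀ (by positivity)] at h

lemma nu_vv : nu b e (vv b e) = 1 := by
  rw [nu_apply]
  simp only [vv_apply, Finset.sum_const, Finset.card_univ, Fintype.card_fin, nsmul_eq_mul]
  rw [qq]
  have := mm_pos b e
  field_simp

/-- restriction of a vector to a subset -/
noncomputable def cut {ι : Type} (A : ι → Prop) [DecidablePred A] (a : Sp b ι) : Sp b ι :=
  WithLp.toLp (pp b) (fun i => if A i then a i else 0)

lemma cut_apply {ι : Type} (A : ι → Prop) [DecidablePred A] (a : Sp b ι) (i : ι) :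
    cut A a i = if A i then a i else 0 := rfl

/-- unit vectors -/
noncomputable def ee {ι : Type} [DecidableEq ι] (b : Bool) (i : ι) : Sp b ι :=
  WithLp.toLp (pp b) (fun j => if j = i then 1 else 0)

lemma ee_apply {ι : Type} [DecidableEq ι] (i j : ι) : ee b i j = if j = i then (1 : ℝ) else 0 := rfl

lemma sum_Sp_apply {ι κ : Type} [Fintype ι] (s : Finset κ) (f : κ → Sp b ι) (i : ι) :
    (∑ k ∈ s, f k) i = ∑ k ∈ s, f k i := by
  classical
  induction s using Finset.induction_on with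
  | empty => rfl
  | insert k s hk ih =>
    rw [Finset.sum_insert hk, Finset.sum_insert hk, Sp_add_apply, ih]

end block

end H647R3.QF
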