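import Pool.Agent.H647R3.QFC

open scoped ENNReal

namespace H647R3.QF

section lp4

variable {K : Type} [DecidableEq K] {E : K → Type} [∀ i, NormedAddCommGroup (E i)]
  [∀ i, NormedSpace ℝ (E i)]

lemma lpdom (s : lp E 4) (t : ∀ k, E k) (F : Finset K) {C : ℝ} (hC : 0 ≤ C)
    (h : ∀ k ∈ F, ‖t k‖ ≤ C * ‖s k‖) : ‖∑ k ∈ F, lp.single 4 k (t k)‖ ≤ C * ‖s‖ := by
  have h1 := lp.norm_sum_single (p := 4) (by rw [toReal4]; norm_num) t F
  rw [toReal4] at h1
  have h2 : ‖∑ k ∈ F, lp.single 4 k (t k)‖ ^ 4 = ∑ k ∈ F, ‖t k‖ ^ 4 := by exact_mod_cast h1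
  apply le_of_pow_le_pow_left₀ (n := 4) (by norm_num) (by positivity)
  rw [h2, mul_pow]
  calc ∑ k ∈ F, ‖t k‖ ^ 4 ≤ ∑ k ∈ F, C ^ 4 * ‖s k‖ ^ 4 := by
        apply Finset.sum_le_sum
        intro k hk
        rw [← mul_pow]
        exact pow_le_pow_left₀ (norm_nonneg _) (h k hk) 4
    _ = C ^ 4 * ∑ k ∈ F, ‖s k‖ ^ 4 := by rw [Finset.mul_sum]
    _ ≤ C ^ 4 * ‖s‖ ^ 4 := mul_le_mul_of_nonneg_left (sum4_le s F) (by positivity)

lemma lp_norm_apply (s : lp E 4) (k : K) : ‖s k‖ ≤ ‖s‖ :=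
  lp.norm_apply_le_norm (by norm_num) s k

end lp4

/-- sum of a geometric series over an injectively indexed finite set -/
lemma geom_inj {K : Type} (κ : K → ℕ) (hκ : Function.Injective κ) (F : Finset K) (t : ℕ)
    (hF : ∀ k ∈ F, t ≤ κ k) : ∑ k ∈ F, ((2 : ℝ) ^ (κ k))⁻¹ ≤ 2 * ((2 : ℝ) ^ t)⁻¹ := by
  classical
  have h1 : ∑ k ∈ F, ((2 : ℝ) ^ (κ k))⁻¹ =
      ∑ i ∈ F.image (fun k => κ k - t), ((2 : ℝ) ^ (t + i))⁻¹ := by
    rw [Finset.sum_image]
    · apply Finset.sum_congr rfl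
      intro k hk
      rw [Nat.add_sub_cancel' (hF k hk)]
    · intro a ha b hb hab
      apply hκ
      have h1 := hF a ha
      have h2 := hF b hb
      simp only at hab
      omega
  have h2 : ∃ n, F.image (fun k => κ k - t) ⊆ Finset.range n := by
    refine ⟨(F.image (fun k => κ k - t)).sup id + 1, fun i hi => ?_⟩
    rw [Finset.mem_range]
    have := Finset.le_sup (f := id) hi
    simp only [id] at this
    omega
  obtain ⟨n, hn⟩ := h2
  rw [h1]
  calc ∑ i ∈ F.image (fun k => κ k - t), ((2 : ℝ) ^ (t + i))⁻¹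
      ≤ ∑ i ∈ Finset.range n, ((2 : ℝ) ^ (t + i))⁻¹ :=
        Finset.sum_le_sum_of_subset_of_nonneg hn (by intros; positivity)
    _ = ((2 : ℝ) ^ t)⁻¹ * ∑ i ∈ Finset.range n, (1 / 2 : ℝ) ^ i := by
        rw [Finset.mul_sum]
        apply Finset.sum_congr rfl
        intro i _
        rw [pow_add, mul_inv, one_div, inv_pow]
    _ ≤ ((2 : ℝ) ^ t)⁻¹ * 2 := mul_le_mul_of_nonneg_left (sum_geometric_two_le n) (by positivity)
    _ = 2 * ((2 : ℝ) ^ t)⁻¹ := mul_comm _ _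

lemma geom_inj' {K : Type} (κ : K → ℕ) (hκ : Function.Injective κ) (F : Finset K) (t : ℕ)
    (hF : ∀ k ∈ F, κ k < t) : ∑ k ∈ F, (2 : ℝ) ^ (κ k) ≤ 2 ^ t - 1 := by
  classical
  calc ∑ k ∈ F, (2 : ℝ) ^ (κ k) = ∑ i ∈ F.image κ, (2 : ℝ) ^ i := by
        rw [Finset.sum_image]
        intro a _ b _ h
        exact hκ h
    _ ≤ ∑ i ∈ Finset.range t, (2 : ℝ) ^ i := by
        apply Finset.sum_le_sum_of_subset_of_nonneg
        · intro i hi
          rw [Finset.mem_image] at hi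
          obtain ⟨k, hk, rfl⟩ := hi
          exact Finset.mem_range.2 (hF k hk)
        · intros; positivity
    _ = 2 ^ t - 1 := by
        rw [geom_sum_eq (by norm_num)]
        norm_num

section main

variable {X : Type} [NormedAddCommGroup X] [NormedSpace ℝ X] {K : Type} [DecidableEq K]

/-- the data of the construction -/
structure Data (X : Type) [NormedAddCommGroup X] [NormedSpace ℝ X] (K : Type) [DecidableEq K] where
  κ : K → ℕ
  κinj : Function.Injective κ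
  bb : K → Bool
  xk : K → X
  xs : K → (X →L[ℝ] ℝ)
  biorth : ∀ i k, xs i (xk k) = if i = k then 1 else 0
  dense : Dense (Submodule.span ℝ (Set.range xk) : Set X)
  c : ℝ
  c_one : 1 ≤ c
  xk_le : ∀ k, ‖xk k‖ ≤ c
  xs_le : ∀ k x, |xs k x| ≤ c * ‖x‖
  P_le : ∀ (t : ℕ) (F : Finset K), (∀ k, k ∈ F ↔ κ k < t) → ∀ x,
    ‖∑ k ∈ F, xs k x • xk k‖ ≤ c * ‖x‖

variable (D : Data X K)

/-- the block spaces -/
abbrev Data.B (k : K) : Type := Bl (D.bb k) (D.κ k)

/-- the symmetric part -/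
abbrev Data.S : Type := lp (fun k : K => D.B k) 4

/-- the whole space -/
abbrev Data.W : Type := X × D.S

/-- embedding of a block -/
noncomputable def Data.Y (k : K) : D.B k →L[ℝ] D.W :=
  ((nu (D.bb k) (D.κ k)).smulRight (D.xk k)).prod
    ((lp.singleContinuousLinearMap ℝ (fun k : K => D.B k) 4 k).comp
      (ContinuousLinearMap.id ℝ _ - (nu (D.bb k) (D.κ k)).smulRight (vv (D.bb k) (D.κ k))))

lemma Data.Y_apply (k : K) (a : D.B k) : D.Y k a =
    (nu (D.bb k) (D.κ k) a • D.xk k,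
      lp.single 4 k (a - nu (D.bb k) (D.κ k) a • vv (D.bb k) (D.κ k))) := rfl

/-- block coefficients -/
noncomputable def Data.co (k : K) : D.W →L[ℝ] D.B k :=
  (ContinuousLinearMap.id ℝ _ - (nu (D.bb k) (D.κ k)).smulRight (vv (D.bb k) (D.κ k))).comp
      ((lp.evalCLM ℝ (fun k : K => D.B k) 4 k).comp (ContinuousLinearMap.snd ℝ X D.S)) +
    ((D.xs k).comp (ContinuousLinearMap.fst ℝ X D.S)).smulRight (vv (D.bb k) (D.κ k))

lemma Data.co_apply (k : K) (z : D.W) : D.co k z =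
    (z.2 k - nu (D.bb k) (D.κ k) (z.2 k) • vv (D.bb k) (D.κ k)) +
      D.xs k z.1 • vv (D.bb k) (D.κ k) := rfl

/-- index set -/
abbrev Data.Ix : Type := (Σ k : K, Fin (mm (D.bb k) (D.κ k))) ⊕ K

/-- the basis -/
noncomputable def Data.xW : D.Ix → D.W
  | Sum.inl i => D.Y i.1 (ee (D.bb i.1) i.2)
  | Sum.inr k => (0, lp.single 4 k (vv (D.bb k) (D.κ k)))

/-- the coefficient functionals -/
noncomputable def Data.fW : D.Ix → (D.W →L[ℝ] ℝ)
  | Sum.inl i => (PiLp.proj (𝕜 := ℝ) (pp (D.bb i.1)) (fun _ => ℝ) i.2).comp (D.co i.1)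
  | Sum.inr k => (nu (D.bb k) (D.κ k)).comp
      ((lp.evalCLM ℝ (fun k : K => D.B k) 4 k).comp (ContinuousLinearMap.snd ℝ X D.S))

lemma Data.fW_inl (i : Σ k : K, Fin (mm (D.bb k) (D.κ k))) (z : D.W) :
    D.fW (Sum.inl i) z = D.co i.1 z i.2 := rfl

lemma Data.fW_inr (k : K) (z : D.W) :
    D.fW (Sum.inr k) z = nu (D.bb k) (D.κ k) (z.2 k) := rfl

lemma Data.nu_co (k : K) (z : D.W) : nu (D.bb k) (D.κ k) (D.co k z) = D.xs k z.1 := by
  rw [D.co_apply, map_add, map_sub, map_smul, map_smul, nu_vv]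
  simp

lemma Data.co_sub (k : K) (z : D.W) :
    D.co k z - nu (D.bb k) (D.κ k) (D.co k z) • vv (D.bb k) (D.κ k) =
      z.2 k - nu (D.bb k) (D.κ k) (z.2 k) • vv (D.bb k) (D.κ k) := by
  rw [D.nu_co, D.co_apply]
  abel

lemma dev_le {b : Bool} {e : ℕ} (a : Bl b e) : ‖a - nu b e a • vv b e‖ ≤ 2 * ‖a‖ := by
  calc ‖a - nu b e a • vv b e‖ ≤ ‖a‖ + ‖nu b e a • vv b e‖ := norm_sub_le _ _
    _ = ‖a‖ + |nu b e a| * ‖vv b e‖ := by rw [norm_smul, Real.norm_eq_abs]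
    _ ≤ ‖a‖ + ‖a‖ * 1 := by
        have := mul_le_mul (nu_le a) (vv_norm (b := b) (e := e)) (norm_nonneg _) (norm_nonneg a)
        linarith
    _ = 2 * ‖a‖ := by ring

lemma Data.Y_le (k : K) (a : D.B k) : ‖D.Y k a‖ ≤ (D.c + 2) * ‖a‖ := by
  rw [D.Y_apply, Prod.norm_mk]
  have hc := D.c_one
  have ha := norm_nonneg a
  apply max_le
  · rw [norm_smul, Real.norm_eq_abs]
    have := mul_le_mul (nu_le a) (D.xk_le k) (norm_nonneg _) (norm_nonneg a)
    nlinarith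
  · rw [lp.norm_single (by norm_num)]
    have := dev_le a
    nlinarith

lemma mk_sum {A B κ : Type} [AddCommMonoid A] [AddCommMonoid B] (s : Finset κ) (f : κ → A)
    (g : κ → B) : (∑ k ∈ s, f k, ∑ k ∈ s, g k) = ∑ k ∈ s, (f k, g k) := by
  apply Prod.ext
  · rw [Prod.fst_sum]
  · rw [Prod.snd_sum]

/-- the main estimate -/
lemma Data.main (z : D.W) (A : Finset D.Ix) (τ : ℝ) (hτ : 0 < τ)
    (h1 : ∀ n ∈ A, τ ≤ |D.fW n z|) (h2 : ∀ n, n ∉ A → |D.fW n z| ≤ τ) :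
    ‖∑ n ∈ A, D.fW n z • D.xW n‖ ≤
      (D.c + 2 + (D.c + 2) * (8 * D.c) + 8 + 8 + 1) * ‖z‖ := by
  classical
  have hc := D.c_one
  have hc0 : 0 < D.c := by linarith
  set lam := ‖z‖ with hlam
  have hlam0 : 0 ≤ lam := norm_nonneg z
  have hz1 : ‖z.1‖ ≤ lam := norm_fst_le z
  have hz2 : ‖z.2‖ ≤ lam := norm_snd_le z
  -- threshold
  have hex : ∃ t : ℕ, 4 * D.c * lam < τ * 2 ^ t := by
    obtain ⟨t, ht⟩ := pow_unbounded_of_one_lt (4 * D.c * lam / τ) (by norm_num : (1:ℝ) < 2)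
    refine ⟨t, ?_⟩
    rw [div_lt_iff₀ hτ] at ht
    linarith
  set t := Nat.find hex with ht
  have ht1 : 4 * D.c * lam < τ * 2 ^ t := Nat.find_spec hex
  have ht2 : τ * (2 ^ t - 1) ≤ 8 * D.c * lam := by
    rcases Nat.eq_zero_or_pos t with h0 | hpos
    · rw [h0]; norm_num; positivity
    · obtain ⟨u, hu⟩ := Nat.exists_eq_succ_of_ne_zero hpos.ne'
      have h3 : ¬ (4 * D.c * lam < τ * 2 ^ u) := Nat.find_min hex (by rw [← ht, hu]; exact Nat.lt_succ_self u)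
      push Not at h3
      rw [hu, Nat.succ_eq_add_one, pow_succ]
      nlinarith
  have hfin : {k : K | D.κ k < t}.Finite := by
    have : {k : K | D.κ k < t} = D.κ ⁻¹' (Set.Iio t) := rfl
    rw [this]
    exact (Set.finite_Iio t).preimage D.κinj.injOn
  set Fs : Finset K := hfin.toFinset with hFs
  have hFs' : ∀ k, k ∈ Fs ↔ D.κ k < t := by
    intro k
    rw [hFs, Set.Finite.mem_toFinset]
    rfl
  -- the pieces
  set Ak : ∀ k : K, Finset (Fin (mm (D.bb k) (D.κ k))) := fun k =>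
    Finset.univ.filter (fun j => Sum.inl ⟨k, j⟩ ∈ A) with hAk
  have hmAk : ∀ k j, j ∈ Ak k ↔ Sum.inl ⟨k, j⟩ ∈ A := by
    intro k j
    simp [hAk]
  set F : Finset K := (A.toLeft.image Sigma.fst) ∪ Fs with hF
  set b : ∀ k : K, D.B k := fun k => cut (fun j => j ∈ Ak k) (D.co k z) with hb
  have hleft : A.toLeft = F.sigma Ak := by
    ext ⟨k, j⟩
    rw [Finset.mem_sigma]
    simp only
    rw [hmAk, Finset.mem_toLeft]
    constructor
    · intro h
      refine ⟨?_, h⟩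
      rw [hF, Finset.mem_union]
      left
      rw [Finset.mem_image]
      exact ⟨⟨k, j⟩, Finset.mem_toLeft.2 h, rfl⟩
    · exact fun h => h.2
  have hbsum : ∀ k, b k = ∑ j ∈ Ak k, (D.co k z) j • ee (D.bb k) j := by
    intro k
    ext i
    rw [sum_Sp_apply]
    simp only [hb, cut_apply, Sp_smul_apply, ee_apply, mul_ite, mul_one, mul_zero]
    rw [Finset.sum_ite_eq]
  have hsum : ∑ n ∈ A, D.fW n z • D.xW n = ∑ k ∈ F, D.Y k (b k) +
      ∑ k ∈ A.toRight, D.fW (Sum.inr k) z • D.xW (Sum.inr k) := by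
    conv_lhs => rw [← Finset.toLeft_disjSum_toRight (u := A)]
    rw [Finset.sum_disjSum]
    congr 1
    rw [hleft, Finset.sum_sigma]
    apply Finset.sum_congr rfl
    intro k _
    rw [hbsum, map_sum]
    apply Finset.sum_congr rfl
    intro j _
    rw [map_smul]
    rfl
  have hsplit : ∑ k ∈ F, D.Y k (b k) = ∑ k ∈ Fs, D.Y k (b k) + ∑ k ∈ F \ Fs, D.Y k (b k) := by
    rw [add_comm, Finset.sum_sdiff]
    rw [hF]; exact Finset.subset_union_right
  have hsmall : ∑ k ∈ Fs, D.Y k (b k) = ∑ k ∈ Fs, D.Y k (D.co k z) -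
      ∑ k ∈ Fs, D.Y k (D.co k z - b k) := by
    rw [← Finset.sum_sub_distrib]
    apply Finset.sum_congr rfl
    intro k _
    rw [map_sub]
    abel
  -- deviations
  set dev : ∀ k : K, D.B k := fun k => z.2 k - nu (D.bb k) (D.κ k) (z.2 k) • vv (D.bb k) (D.κ k)
    with hdev
  have hdevle : ∀ k, ‖dev k‖ ≤ 2 * ‖z.2 k‖ := fun k => dev_le _
  -- E1
  have E1 : ‖∑ k ∈ Fs, D.Y k (D.co k z)‖ ≤ (D.c + 2) * lam := by
    have e1 : ∑ k ∈ Fs, D.Y k (D.co k z) = (∑ k ∈ Fs, D.xs k z.1 • D.xk k,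
        ∑ k ∈ Fs, lp.single 4 k (dev k)) := by
      rw [mk_sum]
      apply Finset.sum_congr rfl
      intro k _
      rw [D.Y_apply, D.co_sub, D.nu_co]
    rw [e1, Prod.norm_mk]
    apply max_le
    · have := D.P_le t Fs hFs' z.1
      nlinarith
    · have := lpdom z.2 dev Fs (by norm_num : (0:ℝ) ≤ 2) (fun k _ => hdevle k)
      nlinarith
  -- E2
  have E2 : ‖∑ k ∈ Fs, D.Y k (D.co k z - b k)‖ ≤ (D.c + 2) * (8 * D.c) * lam := by
    have e1 : ∀ k ∈ Fs, ‖D.Y k (D.co k z - b k)‖ ≤ (D.c + 2) * (τ * 2 ^ (D.κ k)) := by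
      intro k _
      refine (D.Y_le k _).trans ?_
      apply mul_le_mul_of_nonneg_left _ (by linarith)
      apply Bl_sup hτ.le
      intro j
      have e2 : (D.co k z - b k) j = if j ∈ Ak k then 0 else D.co k z j := by
        have : (D.co k z - b k) j = D.co k z j - b k j := rfl
        rw [this]
        simp only [hb, cut_apply]
        split_ifs <;> ring
      rw [e2]
      split_ifs with hj
      · rw [abs_zero]; exact hτ.le
      · rw [hmAk] at hj
        exact h2 _ hj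
    refine (norm_sum_le_of_le _ e1).trans ?_
    rw [← Finset.mul_sum, ← Finset.mul_sum]
    have e3 := geom_inj' D.κ D.κinj Fs t (fun k hk => (hFs' k).1 hk)
    have e4 : τ * ∑ k ∈ Fs, (2 : ℝ) ^ (D.κ k) ≤ 8 * D.c * lam :=
      (mul_le_mul_of_nonneg_left e3 hτ.le).trans ht2
    have := mul_le_mul_of_nonneg_left e4 (by linarith : (0:ℝ) ≤ D.c + 2)
    linarith
  -- large blocks
  have hlarge : ∀ k ∈ F \ Fs, t ≤ D.κ k := by
    intro k hk
    rw [Finset.mem_sdiff, hFs'] at hk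
    exact not_lt.1 hk.2
  have hL1 : ∀ k ∈ F \ Fs, ‖b k‖ ≤ 2 * ‖dev k‖ := by
    intro k hk
    apply Sp_mono zero_le_two
    intro j
    simp only [hb, cut_apply]
    split_ifs with hj
    · have e1 : D.co k z j = dev k j + D.xs k z.1 * ((2 : ℝ) ^ (D.κ k))⁻¹ := rfl
      have e2 : τ ≤ |D.co k z j| := h1 _ ((hmAk k j).1 hj)
      have e3 : |D.xs k z.1 * ((2 : ℝ) ^ (D.κ k))⁻¹| ≤ τ / 4 := by
        rw [abs_mul, abs_of_pos (show (0:ℝ) < ((2 : ℝ) ^ (D.κ k))⁻¹ by positivity)]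
        rw [← div_eq_mul_inv, div_le_iff₀ (by positivity)]
        have e4 := D.xs_le k z.1
        have e5 : (2 : ℝ) ^ t ≤ 2 ^ (D.κ k) := pow_le_pow_right₀ (by norm_num) (hlarge k hk)
        nlinarith
      rw [e1] at e2 ⊢
      have e6 := abs_add_le (dev k j) (D.xs k z.1 * ((2 : ℝ) ^ (D.κ k))⁻¹)
      linarith
    · rw [abs_zero]; positivity
  have hL2 : ∀ k ∈ F \ Fs, ‖b k‖ ≤ 4 * ‖z.2 k‖ := by
    intro k hk
    have := hL1 k hk
    have := hdevle k
    linarith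
  have hL3 : ∀ k ∈ F \ Fs, |nu (D.bb k) (D.κ k) (b k)| ≤
      16 * lam ^ 2 / τ * ((2 : ℝ) ^ (D.κ k))⁻¹ := by
    intro k hk
    have e0 : ‖z.2 k‖ ≤ lam := (lp_norm_apply z.2 k).trans hz2
    have e1 : ‖b k‖ ≤ 4 * lam := by
      have := hL2 k hk
      linarith
    set θ : ℝ := 4 * lam / (τ * 2 ^ (D.κ k)) with hθ
    have hM : (0:ℝ) < 2 ^ (D.κ k) := by positivity
    have hθ0 : 0 ≤ θ := by positivity
    have e5 : (2 : ℝ) ^ t ≤ 2 ^ (D.κ k) := pow_le_pow_right₀ (by norm_num) (hlarge k hk)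
    have hθ1 : θ ≤ 1 := by
      rw [hθ, div_le_one (by positivity)]
      nlinarith
    have hcard : ((Ak k).card : ℝ) ≤ (θ * 2 ^ (D.κ k)) ^ rr (D.bb k) := by
      have e2 := Bl_card (a := b k) (Ak k) hτ.le (fun j hj => by
        simp only [hb, cut_apply, if_pos hj]
        exact h1 _ ((hmAk k j).1 hj))
      have e3 : θ * 2 ^ (D.κ k) = 4 * lam / τ := by
        rw [hθ]; field_simp
      rw [e3, div_pow, le_div_iff₀ (by positivity)]
      exact e2.trans (pow_le_pow_left₀ (norm_nonneg _) e1 _)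
    have e6 := nu_bound (a := b k) (Ak k) hθ0 hθ1 hcard (fun j hj => by
      simp only [hb, cut_apply, if_neg hj])
    rw [← nu_apply] at e6
    refine e6.trans ?_
    calc θ * ‖b k‖ ≤ θ * (4 * lam) := mul_le_mul_of_nonneg_left e1 hθ0
      _ = 16 * lam ^ 2 / τ * ((2 : ℝ) ^ (D.κ k))⁻¹ := by
          rw [hθ]; field_simp; ring
  have E3 : ‖∑ k ∈ F \ Fs, D.Y k (b k)‖ ≤ 16 * lam := by
    have e1 : ∑ k ∈ F \ Fs, D.Y k (b k) =
        (∑ k ∈ F \ Fs, nu (D.bb k) (D.κ k) (b k) • D.xk k,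
        ∑ k ∈ F \ Fs, lp.single 4 k (b k - nu (D.bb k) (D.κ k) (b k) • vv (D.bb k) (D.κ k))) := by
      rw [mk_sum]
      rfl
    rw [e1, Prod.norm_mk]
    apply max_le
    · have e2 : ∀ k ∈ F \ Fs, ‖nu (D.bb k) (D.κ k) (b k) • D.xk k‖ ≤
          D.c * (16 * lam ^ 2 / τ) * ((2 : ℝ) ^ (D.κ k))⁻¹ := by
        intro k hk
        rw [norm_smul, Real.norm_eq_abs]
        have := mul_le_mul (hL3 k hk) (D.xk_le k) (norm_nonneg _) (by positivity)
        calc _ ≤ _ := this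
          _ = _ := by ring
      refine (norm_sum_le_of_le _ e2).trans ?_
      rw [← Finset.mul_sum]
      have e3 := geom_inj D.κ D.κinj (F \ Fs) t hlarge
      refine (mul_le_mul_of_nonneg_left e3 (by positivity)).trans ?_
      have e4 : D.c * (16 * lam ^ 2 / τ) * (2 * ((2 : ℝ) ^ t)⁻¹) =
          (4 * D.c * lam) * (8 * lam) / (τ * 2 ^ t) := by
        field_simp
        ring
      rw [e4, div_le_iff₀ (by positivity)]
      nlinarith
    · have e2 := lpdom z.2 (fun k => b k - nu (D.bb k) (D.κ k) (b k) • vv (D.bb k) (D.κ k))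
        (F \ Fs) (by norm_num : (0:ℝ) ≤ 8) (fun k hk => by
          have e3 := dev_le (b k)
          have e4 := hL2 k hk
          linarith)
      linarith
  have E4 : ‖∑ k ∈ A.toRight, D.fW (Sum.inr k) z • D.xW (Sum.inr k)‖ ≤ lam := by
    have e1 : ∑ k ∈ A.toRight, D.fW (Sum.inr k) z • D.xW (Sum.inr k) = ((0 : X),
        ∑ k ∈ A.toRight, lp.single 4 k (nu (D.bb k) (D.κ k) (z.2 k) • vv (D.bb k) (D.κ k))) := by
      have : (0 : X) = ∑ k ∈ A.toRight, (0 : X) := by simp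
      rw [this, mk_sum]
      apply Finset.sum_congr rfl
      intro k _
      rw [D.fW_inr]
      apply Prod.ext
      · change _ • (0 : X) = 0
        rw [smul_zero]
      · change _ • lp.single (E := fun k => D.B k) 4 k (vv (D.bb k) (D.κ k)) = _
        rw [lp.single_smul]
    rw [e1, Prod.norm_mk, norm_zero]
    apply max_le hlam0
    have e2 := lpdom z.2 (fun k => nu (D.bb k) (D.κ k) (z.2 k) • vv (D.bb k) (D.κ k))
      A.toRight zero_le_one (fun k _ => by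
        rw [norm_smul, Real.norm_eq_abs, one_mul]
        have := mul_le_mul (nu_le (z.2 k)) (vv_norm (b := D.bb k) (e := D.κ k)) (norm_nonneg _)
          (norm_nonneg _)
        linarith)
    linarith
  rw [hsum, hsplit, hsmall]
  have T1 := norm_add_le (∑ k ∈ Fs, D.Y k (D.co k z) - ∑ k ∈ Fs, D.Y k (D.co k z - b k) +
    ∑ k ∈ F \ Fs, D.Y k (b k)) (∑ k ∈ A.toRight, D.fW (Sum.inr k) z • D.xW (Sum.inr k))
  have T2 := norm_add_le (∑ k ∈ Fs, D.Y k (D.co k z) - ∑ k ∈ Fs, D.Y k (D.co k z - b k))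
    (∑ k ∈ F \ Fs, D.Y k (b k))
  have T3 := norm_sub_le (∑ k ∈ Fs, D.Y k (D.co k z)) (∑ k ∈ Fs, D.Y k (D.co k z - b k))
  nlinarith

theorem Data.qg : ∃ C : ℝ, ∀ (z : D.W) (A : Finset D.Ix),
    (∀ n ∈ A, ∀ k ∉ A, |D.fW k z| ≤ |D.fW n z|) →
      ‖∑ n ∈ A, D.fW n z • D.xW n‖ ≤ C * ‖z‖ := by
  classical
  refine ⟨D.c + 2 + (D.c + 2) * (8 * D.c) + 8 + 8 + 1, fun z A hA => ?_⟩
  · have hA' : ∑ n ∈ A, D.fW n z • D.xW n =
        ∑ n ∈ A.filter (fun n => D.fW n z ≠ 0), D.fW n z • D.xW n := by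
      symm
      apply Finset.sum_filter_of_ne
      intro n _ hn h0
      rw [h0, zero_smul] at hn
      exact hn rfl
    rw [hA']
    set A' := A.filter (fun n => D.fW n z ≠ 0) with hA'def
    rcases A'.eq_empty_or_nonempty with h0 | hne
    · rw [h0, Finset.sum_empty, norm_zero]
      apply mul_nonneg _ (norm_nonneg z)
      have := D.c_one
      positivity
    · obtain ⟨n₀, hn₀, hmin⟩ := Finset.exists_min_image A' (fun n => |D.fW n z|) hne
      have hpos : 0 < |D.fW n₀ z| := by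
        rw [hA'def, Finset.mem_filter] at hn₀
        exact abs_pos.2 hn₀.2
      apply D.main z A' _ hpos hmin
      intro n hn
      by_cases h : n ∈ A
      · have : D.fW n z = 0 := by
          by_contra hne'
          exact hn (by rw [hA'def, Finset.mem_filter]; exact ⟨h, hne'⟩)
        rw [this, abs_zero]
        exact hpos.le
      · exact hA n₀ (Finset.mem_filter.1 hn₀).1 n h

end main

end H647R3.QF
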