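import Pool.Agent.H647R3.QFD

open scoped ENNReal

namespace H647R3.QF

variable {X : Type} [NormedAddCommGroup X] [NormedSpace ℝ X] {K : Type} [DecidableEq K]
variable (D : Data X K)

lemma nu_ee {b : Bool} {e : ℕ} (j : Fin (mm b e)) : nu b e (ee b j) = qq b e := by
  rw [nu_apply]
  simp only [ee_apply, Finset.sum_ite_eq', Finset.mem_univ, if_true, mul_one]

lemma qq_le (b : Bool) (e : ℕ) : qq b e ≤ 1 := by
  rw [qq, mm_cast, div_le_one (by positivity)]
  calc (2:ℝ) ^ e = (2 ^ e) ^ 1 := (pow_one _).symm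
    _ ≤ (2 ^ e) ^ rr b := pow_le_pow_right₀ (one_le_pow₀ (by norm_num)) (rr_pos b)

lemma ee_norm {b : Bool} {ι : Type} [Fintype ι] [DecidableEq ι] (i : ι) : ‖ee b i‖ ≤ 1 := by
  apply norm_le_of_pow zero_le_one
  rw [one_pow]
  rw [Finset.sum_eq_single i]
  · simp [ee_apply]
  · intro j _ hj
    rw [ee_apply, if_neg hj, abs_zero, zero_pow (rr_pos b).ne']
  · exact fun h => absurd (Finset.mem_univ i) h

lemma Data.single_apply' (k l : K) (a : D.B k) :
    (lp.single (E := fun k => D.B k) 4 k a : ∀ k, D.B k) l =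
      if h : k = l then h ▸ a else 0 := by
  by_cases h : k = l
  · subst h
    simp
  · rw [dif_neg h]
    exact lp.single_apply_ne _ _ _ (fun h' => h h'.symm)

lemma Data.co_Y_ne (k l : K) (h : k ≠ l) (a : D.B k) : D.co l (D.Y k a) = 0 := by
  rw [D.co_apply, D.Y_apply]
  simp only
  rw [lp.single_apply_ne _ _ _ h.symm, map_smul, D.biorth, if_neg h.symm, map_zero]
  simp

lemma Data.co_Y_self (k : K) (a : D.B k) : D.co k (D.Y k a) = a := by
  rw [D.co_apply, D.Y_apply]
  simp only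
  rw [lp.single_apply_self, map_smul, D.biorth, if_pos rfl, map_sub, map_smul, nu_vv]
  simp

lemma Data.biorthW (m n : D.Ix) : D.fW m (D.xW n) = if m = n then 1 else 0 := by
  rcases m with ⟨k, i⟩ | k <;> rcases n with ⟨l, j⟩ | l
  · rw [D.fW_inl]
    change D.co k (D.Y l (ee (D.bb l) j)) i = _
    by_cases h : l = k
    · subst h
      rw [D.co_Y_self, ee_apply]
      by_cases hij : i = j
      · rw [if_pos hij, if_pos (by rw [hij])]
      · rw [if_neg hij, if_neg]
        intro h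
        simp only [Sum.inl.injEq, Sigma.mk.injEq, heq_eq_eq, true_and] at h
        exact hij h
    · rw [D.co_Y_ne l k h, if_neg]
      · rfl
      · intro h'
        simp only [Sum.inl.injEq, Sigma.mk.injEq] at h'
        exact h h'.1.symm
  · rw [if_neg (by simp), D.fW_inl]
    change D.co k (0, lp.single 4 l (vv (D.bb l) (D.κ l))) i = 0
    have : D.co k (0, lp.single 4 l (vv (D.bb l) (D.κ l))) = 0 := by
      rw [D.co_apply]
      simp only [map_zero, zero_smul, add_zero]
      by_cases h : k = l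
      · subst h
        rw [lp.single_apply_self, nu_vv, one_smul, sub_self]
      · rw [lp.single_apply_ne _ _ _ h, map_zero, zero_smul, sub_zero]
    rw [this]
    rfl
  · rw [if_neg (by simp), D.fW_inr]
    change nu (D.bb k) (D.κ k) ((D.Y l (ee (D.bb l) j)).2 k) = 0
    rw [D.Y_apply]
    simp only
    by_cases h : k = l
    · subst h
      rw [lp.single_apply_self, map_sub, map_smul, nu_vv]
      simp
    · rw [lp.single_apply_ne _ _ _ h, map_zero]
  · rw [D.fW_inr]
    change nu (D.bb k) (D.κ k) ((lp.single 4 l (vv (D.bb l) (D.κ l)) : D.S) k) = _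
    by_cases h : k = l
    · subst h
      rw [lp.single_apply_self, nu_vv, if_pos rfl]
    · rw [lp.single_apply_ne _ _ _ h, map_zero, if_neg]
      intro h'
      exact h (Sum.inr.inj h')

lemma Data.boundW : ∃ M : ℝ, ∀ n, ‖D.xW n‖ ≤ M ∧ ‖D.fW n‖ ≤ M := by
  have hc := D.c_one
  refine ⟨D.c + 2, fun n => ?_⟩
  rcases n with ⟨k, i⟩ | k
  · constructor
    · refine (D.Y_le k _).trans ?_
      have := ee_norm (b := D.bb k) i
      nlinarith
    · apply ContinuousLinearMap.opNorm_le_bound _ (by linarith)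
      intro z
      rw [D.fW_inl]
      have h1 : ∀ a : D.B k, |a i| ≤ ‖a‖ := by
        intro a
        exact PiLp.norm_apply_le a i
      refine (h1 _).trans ?_
      rw [D.co_apply]
      have hz1 : ‖z.1‖ ≤ ‖z‖ := norm_fst_le z
      have hz2 : ‖z.2‖ ≤ ‖z‖ := norm_snd_le z
      have e1 := dev_le (z.2 k)
      have e2 := lp_norm_apply z.2 k
      have e3 : ‖D.xs k z.1 • vv (D.bb k) (D.κ k)‖ ≤ D.c * ‖z.1‖ := by
        rw [norm_smul, Real.norm_eq_abs]
        have := mul_le_mul (D.xs_le k z.1) (vv_norm (b := D.bb k) (e := D.κ k)) (norm_nonneg _)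
          (by positivity)
        linarith
      refine (norm_add_le _ _).trans ?_
      nlinarith
  · constructor
    · change ‖((0 : X), lp.single (E := fun k => D.B k) 4 k (vv (D.bb k) (D.κ k)))‖ ≤ _
      rw [Prod.norm_mk, norm_zero, lp.norm_single (by norm_num)]
      apply max_le (by linarith)
      have := vv_norm (b := D.bb k) (e := D.κ k)
      linarith
    · apply ContinuousLinearMap.opNorm_le_bound _ (by linarith)
      intro z
      rw [D.fW_inr, Real.norm_eq_abs]
      have hz2 : ‖z.2‖ ≤ ‖z‖ := norm_snd_le z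
      have e2 := lp_norm_apply z.2 k
      have e3 := nu_le (z.2 k)
      have := norm_nonneg z
      nlinarith

lemma Data.denseW : Dense (Submodule.span ℝ (Set.range D.xW) : Set D.W) := by
  set U := (Submodule.span ℝ (Set.range D.xW)).topologicalClosure with hU
  have hmem : ∀ n, D.xW n ∈ U := fun n =>
    Submodule.le_topologicalClosure _ (Submodule.subset_span ⟨n, rfl⟩)
  have hYall : ∀ k (a : D.B k), D.Y k a ∈ U := by
    intro k a
    have : a = ∑ j, a j • ee (D.bb k) j := by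
      ext i
      rw [sum_Sp_apply]
      simp [Sp_smul_apply, ee_apply]
    rw [this, map_sum]
    apply Submodule.sum_mem
    intro j _
    rw [map_smul]
    exact Submodule.smul_mem _ _ (hmem (Sum.inl ⟨k, j⟩))
  have hx : ∀ k, ((D.xk k, 0) : D.W) ∈ U := by
    intro k
    have h1 := hYall k (vv (D.bb k) (D.κ k))
    rw [D.Y_apply, nu_vv, one_smul, one_smul, sub_self] at h1
    have h2 : lp.single (E := fun k => D.B k) 4 k (0 : D.B k) = 0 := by
      apply lp.ext; funext l
      by_cases h : l = k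
      · subst h; rw [lp.single_apply_self]; rfl
      · rw [lp.single_apply_ne _ _ _ h]; rfl
    rw [h2] at h1
    exact h1
  have hs : ∀ k (a : D.B k), ((0, lp.single 4 k a) : D.W) ∈ U := by
    intro k a
    have h1 := hYall k a
    have h2 := hmem (Sum.inr k)
    have h3 : ((0, lp.single 4 k a) : D.W) = D.Y k a - nu (D.bb k) (D.κ k) a • ((D.xk k, 0) : D.W)
        + nu (D.bb k) (D.κ k) a • D.xW (Sum.inr k) := by
      rw [D.Y_apply]
      apply Prod.ext
      · change (0 : X) = nu (D.bb k) (D.κ k) a • D.xk k - nu (D.bb k) (D.κ k) a • D.xk k +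
          nu (D.bb k) (D.κ k) a • (0 : X)
        simp
      · change lp.single 4 k a = lp.single 4 k (a - nu (D.bb k) (D.κ k) a • vv (D.bb k) (D.κ k)) -
          nu (D.bb k) (D.κ k) a • (0 : D.S) +
          nu (D.bb k) (D.κ k) a • lp.single (E := fun k => D.B k) 4 k (vv (D.bb k) (D.κ k))
        rw [lp.single_sub, lp.single_smul, smul_zero, sub_zero]
        abel
    rw [h3]
    exact Submodule.add_mem _ (Submodule.sub_mem _ h1 (Submodule.smul_mem _ _ (hx k)))
      (Submodule.smul_mem _ _ h2)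
  -- closedness
  have hUc : IsClosed (U : Set D.W) := Submodule.isClosed_topologicalClosure _
  have hX : ∀ x : X, ((x, 0) : D.W) ∈ U := by
    intro x
    have h1 : x ∈ closure (Submodule.span ℝ (Set.range D.xk) : Set X) := D.dense x
    let ι : X →L[ℝ] D.W := ContinuousLinearMap.inl ℝ X D.S
    have h2 : (Submodule.span ℝ (Set.range D.xk) : Set X) ⊆ ι ⁻¹' (U : Set D.W) := by
      intro y hy
      have : Submodule.span ℝ (Set.range D.xk) ≤ U.comap ι.toLinearMap := by
        rw [Submodule.span_le]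
        rintro _ ⟨k, rfl⟩
        exact hx k
      exact this hy
    exact (closure_minimal h2 (hUc.preimage ι.continuous)) h1
  have hS : ∀ s : D.S, ((0, s) : D.W) ∈ U := by
    intro s
    have h1 := lp.hasSum_single (E := fun k => D.B k) (p := 4) (by norm_num) s
    let ι : D.S →L[ℝ] D.W := ContinuousLinearMap.inr ℝ X D.S
    have h2 : s ∈ closure (ι ⁻¹' (U : Set D.W)) := by
      apply mem_closure_of_tendsto h1
      filter_upwards with F
      change ι (∑ k ∈ F, lp.single 4 k (s k)) ∈ U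
      rw [map_sum]
      exact Submodule.sum_mem _ fun k _ => hs k (s k)
    rw [(hUc.preimage ι.continuous).closure_eq] at h2
    exact h2
  have htop : ∀ z : D.W, z ∈ U := by
    intro z
    have : z = ((z.1, 0) : D.W) + ((0, z.2) : D.W) := by simp
    rw [this]
    exact Submodule.add_mem _ (hX _) (hS _)
  intro z
  exact htop z

/-- the dual basis is not quasi-greedy -/
theorem Data.not_dual (C Bd : ℝ) (ξ : X →L[ℝ] ℝ) (hξ : ‖ξ‖ ≤ Bd) (Z : Finset K)
    (h1 : ∀ k ∈ Z, ξ (D.xk k) = 1)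
    (h2 : ∀ k ∈ Z, ∀ l, l ∉ Z → |ξ (D.xk l)| * qq (D.bb l) (D.κ l) ≤ qq (D.bb k) (D.κ k))
    (hC : 0 ≤ C) (x₀ : X) (hx₀ : C * Bd * ‖x₀‖ < |∑ k ∈ Z, D.xs k x₀|) :
    ∃ (g : D.W →L[ℝ] ℝ) (A : Finset D.Ix),
      (∀ n ∈ A, ∀ k ∉ A, |g (D.xW k)| ≤ |g (D.xW n)|) ∧
      C * ‖g‖ < ‖∑ n ∈ A, g (D.xW n) • D.fW n‖ := by
  classical
  let g : D.W →L[ℝ] ℝ := ξ.comp (ContinuousLinearMap.fst ℝ X D.S)
  let A : Finset D.Ix := (Z.sigma fun k => Finset.univ).disjSum ∅
  have hgl : ∀ k j, g (D.xW (Sum.inl ⟨k, j⟩)) = qq (D.bb k) (D.κ k) * ξ (D.xk k) := by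
    intro k j
    change ξ (D.Y k (ee (D.bb k) j)).1 = _
    rw [D.Y_apply]
    simp only [nu_ee, map_smul, smul_eq_mul]
  have hgr : ∀ k, g (D.xW (Sum.inr k)) = 0 := by
    intro k
    change ξ (0 : X) = 0
    exact map_zero _
  have hgn : ‖g‖ ≤ Bd := by
    have h0 : 0 ≤ Bd := (norm_nonneg _).trans hξ
    apply ContinuousLinearMap.opNorm_le_bound _ h0
    intro z
    have e1 := ξ.le_opNorm z.1
    have e2 : ‖z.1‖ ≤ ‖z‖ := norm_fst_le z
    calc ‖g z‖ ≤ ‖ξ‖ * ‖z.1‖ := e1
      _ ≤ Bd * ‖z‖ := mul_le_mul hξ e2 (norm_nonneg _) h0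
  refine ⟨g, A, ?_, ?_⟩
  · intro n hn k hk
    rw [Finset.mem_disjSum] at hn
    simp only [Finset.notMem_empty, false_and, exists_false, or_false] at hn
    obtain ⟨⟨k₀, j₀⟩, hk₀, rfl⟩ := hn
    rw [Finset.mem_sigma] at hk₀
    rw [hgl, h1 k₀ hk₀.1, mul_one, abs_of_pos (qq_pos _ _)]
    rcases k with ⟨l, i⟩ | l
    · rw [hgl, abs_mul, abs_of_pos (qq_pos _ _), mul_comm]
      apply h2 k₀ hk₀.1
      intro hl
      apply hk
      rw [Finset.mem_disjSum]
      exact Or.inl ⟨⟨l, i⟩, Finset.mem_sigma.2 ⟨hl, Finset.mem_univ _⟩, rfl⟩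
    · rw [hgr, abs_zero]
      exact (qq_pos _ _).le
  · set Φ : D.W →L[ℝ] ℝ := ∑ n ∈ A, g (D.xW n) • D.fW n with hΦ
    have h3 : Φ (x₀, 0) = ∑ k ∈ Z, D.xs k x₀ := by
      rw [hΦ, ContinuousLinearMap.sum_apply, Finset.sum_disjSum, Finset.sum_empty, add_zero,
        Finset.sum_sigma]
      apply Finset.sum_congr rfl
      intro k hk
      have h4 : ∀ j, (g (D.xW (Sum.inl ⟨k, j⟩)) • D.fW (Sum.inl ⟨k, j⟩)) ((x₀, 0) : D.W) =
          qq (D.bb k) (D.κ k) * (D.xs k x₀ * ((2:ℝ) ^ (D.κ k))⁻¹) := by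
        intro j
        rw [ContinuousLinearMap.smul_apply, hgl, h1 k hk, mul_one, D.fW_inl, D.co_apply]
        have h5 : ((0 : D.S) : ∀ k, D.B k) k = 0 := rfl
        simp only [h5, map_zero, zero_smul, sub_zero, zero_add, smul_eq_mul]
        rfl
      simp only [h4, Finset.sum_const, Finset.card_univ, Fintype.card_fin, nsmul_eq_mul]
      rw [qq]
      have := mm_pos (D.bb k) (D.κ k)
      field_simp
    by_contra hcon
    push Not at hcon
    have h6 : |∑ k ∈ Z, D.xs k x₀| ≤ C * Bd * ‖x₀‖ := by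
      rw [← h3, ← Real.norm_eq_abs]
      have e1 : ‖((x₀, 0) : D.W)‖ = ‖x₀‖ := by
        rw [Prod.norm_mk, norm_zero, max_eq_left (norm_nonneg _)]
      calc ‖Φ (x₀, 0)‖ ≤ ‖Φ‖ * ‖((x₀, 0) : D.W)‖ := Φ.le_opNorm _
        _ ≤ (C * Bd) * ‖x₀‖ := by
            rw [e1]
            apply mul_le_mul_of_nonneg_right _ (norm_nonneg _)
            exact hcon.trans (mul_le_mul_of_nonneg_left hgn hC)
    linarith

end H647R3.QF
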