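import Pool.Agent.H647R3.QFE

open scoped ENNReal

namespace H647R3.QF

/-! ### harmonic sums -/

/-- harmonic numbers -/
noncomputable def hs (n : ℕ) : ℝ := ∑ k ∈ Finset.range n, 1 / ((k : ℝ) + 1)

lemma hs_succ (n : ℕ) : hs (n + 1) = hs n + 1 / ((n : ℝ) + 1) := by
  rw [hs, Finset.sum_range_succ]; rfl

lemma hs_mono {m n : ℕ} (h : m ≤ n) : hs m ≤ hs n := by
  apply Finset.sum_le_sum_of_subset_of_nonneg
  · exact Finset.range_mono h
  · intros; positivity

lemma hs_one : hs 1 = 1 := by simp [hs]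

lemma one_le_hs (n : ℕ) : 1 ≤ hs (n + 1) := by
  rw [← hs_one]; exact hs_mono (by omega)

lemma hs_le (n : ℕ) : hs n ≤ n := by
  induction n with
  | zero => simp [hs]
  | succ n ih =>
    rw [hs_succ]
    have : 1 / ((n : ℝ) + 1) ≤ 1 := by
      rw [div_le_one (by positivity)]
      have : (0:ℝ) ≤ n := Nat.cast_nonneg n
      linarith
    push_cast
    linarith

lemma hs_sum (n : ℕ) : ∑ i ∈ Finset.range n, hs (i + 1) = ((n : ℝ) + 1) * hs n - n := by
  induction n with
  | zero => simp [hs]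
  | succ n ih =>
    rw [Finset.sum_range_succ, ih, hs_succ]
    push_cast
    field_simp
    ring

lemma sq_sum (K M : ℕ) : ∑ j ∈ Finset.Ico K M, (1 / ((j : ℝ) + 1)) ^ 2 ≤ 2 / ((K : ℝ) + 1) := by
  rcases le_or_gt M K with h | h
  · rw [Finset.Ico_eq_empty (by omega), Finset.sum_empty]; positivity
  · have key : ∀ M, K ≤ M → ∑ j ∈ Finset.Ico K M, (1 / ((j : ℝ) + 1)) ^ 2 ≤
        2 / ((K : ℝ) + 1) - 2 / ((M : ℝ) + 1) := by
      intro M hM
      induction M, hM using Nat.le_induction with
      | base => simp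
      | succ n hn ih =>
        rw [Finset.sum_Ico_succ_top hn]
        have e1 : (1 / ((n : ℝ) + 1)) ^ 2 ≤ 2 / ((n : ℝ) + 1) - 2 / (((n + 1 : ℕ) : ℝ) + 1) := by
          push_cast
          rw [div_sub_div _ _ (by positivity) (by positivity), one_div, ← one_div, div_pow,
            one_pow, div_le_div_iff₀ (by positivity) (by positivity)]
          have : (0:ℝ) ≤ n := Nat.cast_nonneg n
          nlinarith
        linarith
    have e2 := key M h.le
    have e3 : 0 ≤ 2 / ((M : ℝ) + 1) := by positivity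
    linarith

/-! ### a window -/

/-- window index -/
abbrev Wi (L : ℕ) : Type := Fin (L + 1) × Bool

/-- window space -/
abbrev XL (L : ℕ) : Type := Sp true (Wi L)

/-- scaling -/
noncomputable def th (L : ℕ) : ℝ := 1 / Real.sqrt (hs (L + 1))

lemma th_pos (L : ℕ) : 0 < th L := by
  have := one_le_hs L
  unfold th; positivity

lemma th_sq (L : ℕ) : th L ^ 2 * hs (L + 1) = 1 := by
  have := one_le_hs L
  rw [th, div_pow, one_pow, Real.sq_sqrt (by linarith)]
  field_simp

lemma th_le (L : ℕ) : th L ≤ 1 := by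
  have h1 := one_le_hs L
  have h2 := th_sq L
  have h3 := th_pos L
  nlinarith

/-- the conditional matrix -/
noncomputable def Cm (L : ℕ) (i n : Fin (L + 1)) : ℝ :=
  if n ≤ i then th L / (((i : ℕ) - (n : ℕ) : ℕ) + 1 : ℝ) else 0

lemma Cm_nonneg (L : ℕ) (i n : Fin (L + 1)) : 0 ≤ Cm L i n := by
  unfold Cm
  have := th_pos L
  split_ifs
  · positivity
  · exact le_rfl

lemma ico_shift (nn m M : ℕ) (hm : nn ≤ m) :
    ∑ i ∈ Finset.Ico m M, (1 / (((i - nn : ℕ) : ℝ) + 1)) ^ 2 =
      ∑ j ∈ Finset.Ico (m - nn) (M - nn), (1 / ((j : ℝ) + 1)) ^ 2 := by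
  rcases le_or_gt m M with hmL | hmL
  · obtain ⟨m', rfl⟩ := Nat.exists_eq_add_of_le' hm
    obtain ⟨M', rfl⟩ := Nat.exists_eq_add_of_le' (hm.trans hmL)
    rw [Nat.add_sub_cancel, Nat.add_sub_cancel,
      ← Finset.sum_Ico_add' (fun i => (1 / (((i - nn : ℕ) : ℝ) + 1)) ^ 2) m' M' nn]
    apply Finset.sum_congr rfl
    intro j _
    rw [Nat.add_sub_cancel]
  · rw [Finset.Ico_eq_empty (by omega), Finset.Ico_eq_empty (by omega)]
    simp

/-- sum of squares over a column, from row `m` on -/
lemma col_sq (L : ℕ) (n : Fin (L + 1)) (m : ℕ) (hm : (n : ℕ) ≤ m) :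
    ∑ i : Fin (L + 1), (if m ≤ (i : ℕ) then (Cm L i n) ^ 2 else 0) ≤
      th L ^ 2 * (2 / (((m - n : ℕ) : ℝ) + 1)) := by
  have h1 : ∀ i : Fin (L + 1), (if m ≤ (i : ℕ) then (Cm L i n) ^ 2 else 0) =
      if m ≤ (i : ℕ) then th L ^ 2 * (1 / (((i : ℕ) - (n : ℕ) : ℕ) + 1 : ℝ)) ^ 2 else 0 := by
    intro i
    split_ifs with h
    · have : n ≤ i := by
        rw [Fin.le_def]; omega
      rw [Cm, if_pos this, div_eq_mul_one_div, mul_pow]
    · rfl
  simp only [h1]
  rw [Fin.sum_univ_eq_sum_range (fun i => if m ≤ i then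
    th L ^ 2 * (1 / (((i - (n : ℕ) : ℕ) : ℝ) + 1)) ^ 2 else 0) (L + 1)]
  rw [← Finset.sum_filter]
  have h2 : (Finset.range (L + 1)).filter (fun i => m ≤ i) = Finset.Ico m (L + 1) := by
    ext i; simp [and_comm]
  rw [h2, ← Finset.mul_sum]
  apply mul_le_mul_of_nonneg_left _ (by positivity)
  rw [ico_shift _ _ _ hm]
  exact sq_sum _ _

/-- basis of a window -/
noncomputable def bas (L : ℕ) : Wi L → XL L
  | (n, false) => WithLp.toLp (pp true) (fun q : Wi L =>
      if q.2 then Cm L q.1 n else if q.1 = n then 1 else 0)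
  | (n, true) => WithLp.toLp (pp true) (fun q : Wi L =>
      if q.2 then (if q.1 = n then 1 else 0) else 0)

lemma bas_ff (L : ℕ) (n i : Fin (L + 1)) : bas L (n, false) (i, false) = if i = n then 1 else 0 := by
  simp [bas]
lemma bas_ft (L : ℕ) (n i : Fin (L + 1)) : bas L (n, false) (i, true) = Cm L i n := by
  simp [bas]
lemma bas_tf (L : ℕ) (n i : Fin (L + 1)) : bas L (n, true) (i, false) = 0 := by
  simp [bas]
lemma bas_tt (L : ℕ) (n i : Fin (L + 1)) : bas L (n, true) (i, true) = if i = n then 1 else 0 := by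
  simp [bas]

/-- coordinate functional -/
noncomputable def pr (L : ℕ) (p : Wi L) : XL L →L[ℝ] ℝ :=
  PiLp.proj (𝕜 := ℝ) (pp true) (fun _ => ℝ) p

lemma pr_apply (L : ℕ) (p : Wi L) (a : XL L) : pr L p a = a p := rfl

/-- coefficient functionals of a window -/
noncomputable def fu (L : ℕ) : Wi L → (XL L →L[ℝ] ℝ)
  | (n, false) => pr L (n, false)
  | (n, true) => pr L (n, true) - ∑ m, Cm L n m • pr L (m, false)

lemma fu_f (L : ℕ) (n : Fin (L + 1)) (a : XL L) : fu L (n, false) a = a (n, false) := rfl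

lemma fu_t (L : ℕ) (n : Fin (L + 1)) (a : XL L) :
    fu L (n, true) a = a (n, true) - ∑ m, Cm L n m * a (m, false) := by
  simp only [fu, sub_apply, sum_apply, smul_apply, pr_apply, smul_eq_mul]

lemma fu_bas (L : ℕ) (p q : Wi L) : fu L p (bas L q) = if p = q then 1 else 0 := by
  obtain ⟨n, b⟩ := p
  obtain ⟨m, c⟩ := q
  cases b <;> cases c
  · rw [fu_f, bas_ff]
    simp
  · rw [fu_f, bas_tf]
    simp
  · rw [fu_t, bas_ft]
    simp only [bas_ff, mul_ite, mul_one, mul_zero, Finset.sum_ite_eq', Finset.mem_univ, if_true,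
      sub_self]
    simp
  · rw [fu_t, bas_tt]
    simp only [bas_tf, mul_zero, Finset.sum_const_zero, sub_zero]
    simp

lemma XL_norm (L : ℕ) (a : XL L) : ‖a‖ ^ 2 =
    ∑ i, a (i, false) ^ 2 + ∑ i, a (i, true) ^ 2 := by
  have h := normpow a
  simp only [rr, if_true, sq_abs] at h
  rw [h, Fintype.sum_prod_type]
  simp only [Fintype.sum_bool]
  rw [Finset.sum_add_distrib, add_comm]

/-- position in the window -/
def pos {L : ℕ} (p : Wi L) : ℕ := 2 * (p.1 : ℕ) + p.2.toNat

/-- partial sums -/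
noncomputable def Su (L u : ℕ) (a : XL L) : XL L :=
  ∑ p ∈ Finset.univ.filter (fun p : Wi L => pos p < u), fu L p a • bas L p

lemma Su_f (L u : ℕ) (a : XL L) (i : Fin (L + 1)) :
    Su L u a (i, false) = if 2 * (i : ℕ) < u then a (i, false) else 0 := by
  rw [Su, sum_Sp_apply, Finset.sum_filter, Fintype.sum_prod_type]
  simp only [Fintype.sum_bool, Sp_smul_apply, bas_tf, bas_ff, mul_zero, fu_f, pos, Bool.toNat_false,
    Bool.toNat_true, add_zero, ite_self, zero_add, mul_ite, mul_one]
  rw [Finset.sum_eq_single i]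
  · simp
  · intro j _ hj
    rw [if_neg (Ne.symm hj)]
    simp
  · exact fun h => absurd (Finset.mem_univ i) h

lemma Su_t (L u : ℕ) (a : XL L) (i : Fin (L + 1)) :
    Su L u a (i, true) = if 2 * (i : ℕ) + 1 < u then a (i, true) else
      ∑ n : Fin (L + 1), (if 2 * (n : ℕ) < u then Cm L i n else 0) * a (n, false) := by
  rw [Su, sum_Sp_apply, Finset.sum_filter, Fintype.sum_prod_type]
  simp only [Fintype.sum_bool, Sp_smul_apply, bas_tt, bas_ft, fu_f, pos, Bool.toNat_false,
    Bool.toNat_true, add_zero, mul_ite, mul_one, mul_zero]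
  rw [Finset.sum_add_distrib]
  have h1 : ∑ x : Fin (L + 1), (if 2 * (x : ℕ) + 1 < u then (if i = x then fu L (x, true) a else 0)
      else 0) = if 2 * (i : ℕ) + 1 < u then fu L (i, true) a else 0 := by
    rw [Finset.sum_eq_single i]
    · simp
    · intro j _ hj
      rw [if_neg (Ne.symm hj)]
      simp
    · exact fun h => absurd (Finset.mem_univ i) h
  rw [h1]
  have h2 : ∀ n : Fin (L + 1), (if 2 * (n : ℕ) < u then a (n, false) * Cm L i n else 0) =
      (if 2 * (n : ℕ) < u then Cm L i n else 0) * a (n, false) := by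
    intro n
    split_ifs <;> ring
  simp only [h2]
  split_ifs with hi
  · rw [fu_t]
    have h3 : ∑ n : Fin (L + 1), (if 2 * (n : ℕ) < u then Cm L i n else 0) * a (n, false) =
        ∑ n, Cm L i n * a (n, false) := by
      apply Finset.sum_congr rfl
      intro n _
      by_cases hn : n ≤ i
      · rw [if_pos]
        rw [Fin.le_def] at hn
        omega
      · have : Cm L i n = 0 := by rw [Cm, if_neg hn]
        rw [this]; simp
    rw [h3]; ring
  · rw [zero_add]

lemma HS (L u : ℕ) : ∑ i : Fin (L + 1), ∑ n : Fin (L + 1),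
    (if ¬ (2 * (i : ℕ) + 1 < u) then (if 2 * (n : ℕ) < u then Cm L i n else 0) ^ 2 else 0) ≤ 2 := by
  rw [Finset.sum_comm]
  set n₀ := (u + 1) / 2 with hn₀
  rcases le_or_gt n₀ (L + 1) with hN | hN
  · have h1 : ∀ n : Fin (L + 1), ∑ i : Fin (L + 1), (if ¬ (2 * (i : ℕ) + 1 < u) then
        (if 2 * (n : ℕ) < u then Cm L i n else 0) ^ 2 else 0) ≤
        if (n : ℕ) < n₀ then th L ^ 2 * (2 / (((n₀ - 1 - n : ℕ) : ℝ) + 1)) else 0 := by
      intro n
      by_cases hn : (n : ℕ) < n₀
      · rw [if_pos hn]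
        refine (Finset.sum_le_sum fun i _ => ?_).trans (col_sq L n (n₀ - 1) (by omega))
        by_cases h1 : 2 * (i : ℕ) + 1 < u
        · rw [if_neg (by simpa using h1)]
          split_ifs <;> positivity
        · rw [if_pos h1, if_pos (by omega), if_pos (by omega)]
      · rw [if_neg hn]
        apply Finset.sum_nonpos
        intro i _
        rw [if_neg (by omega : ¬ (2 * (n : ℕ) < u))]
        split_ifs <;> norm_num
    refine (Finset.sum_le_sum fun n _ => h1 n).trans ?_
    rw [Fin.sum_univ_eq_sum_range (fun n => if n < n₀ then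
      th L ^ 2 * (2 / (((n₀ - 1 - n : ℕ) : ℝ) + 1)) else 0) (L + 1), ← Finset.sum_filter]
    have h2 : (Finset.range (L + 1)).filter (fun n => n < n₀) = Finset.range n₀ := by
      ext i; simp; omega
    rw [h2]
    have h3 : ∑ n ∈ Finset.range n₀, th L ^ 2 * (2 / (((n₀ - 1 - n : ℕ) : ℝ) + 1)) =
        th L ^ 2 * 2 * hs n₀ := by
      rw [Finset.sum_range_reflect (fun n => th L ^ 2 * (2 / ((n : ℝ) + 1))) n₀, hs,
        Finset.mul_sum]
      apply Finset.sum_congr rfl
      intro n _
      ring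
    rw [h3]
    have h4 := hs_mono hN
    have h5 := th_sq L
    have h6 : 0 ≤ th L ^ 2 := by positivity
    nlinarith
  · have : ∀ (n i : Fin (L + 1)), (if ¬ (2 * (i : ℕ) + 1 < u) then
        (if 2 * (n : ℕ) < u then Cm L i n else 0) ^ 2 else 0) = 0 := by
      intro n i
      rw [if_neg]
      have := i.2
      push Not
      omega
    rw [Finset.sum_eq_zero fun n _ => Finset.sum_eq_zero fun i _ => this n i]
    norm_num

lemma Su_le (L u : ℕ) (a : XL L) : ‖Su L u a‖ ≤ 3 * ‖a‖ := by
  have h1 : ‖Su L u a‖ ^ 2 ≤ 3 * ‖a‖ ^ 2 := by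
    rw [XL_norm, XL_norm]
    have e1 : ∑ i, (Su L u a (i, false)) ^ 2 ≤ ∑ i, a (i, false) ^ 2 := by
      apply Finset.sum_le_sum
      intro i _
      rw [Su_f]
      split_ifs
      · exact le_rfl
      · have : 0 ≤ a (i, false) ^ 2 := by positivity
        simpa using this
    have e2 : ∑ i, (Su L u a (i, true)) ^ 2 ≤ ∑ i, a (i, true) ^ 2 +
        ∑ i : Fin (L + 1), (∑ n : Fin (L + 1), (if ¬ (2 * (i : ℕ) + 1 < u) then
          (if 2 * (n : ℕ) < u then Cm L i n else 0) ^ 2 else 0)) * ∑ n, a (n, false) ^ 2 := by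
      rw [← Finset.sum_add_distrib]
      apply Finset.sum_le_sum
      intro i _
      rw [Su_t]
      split_ifs with hi
      · have : 0 ≤ (∑ n : Fin (L + 1), (if ¬ (2 * (i : ℕ) + 1 < u) then
          (if 2 * (n : ℕ) < u then Cm L i n else 0) ^ 2 else 0)) * ∑ n, a (n, false) ^ 2 := by
          apply mul_nonneg
          · apply Finset.sum_nonneg; intros; split_ifs <;> positivity
          · apply Finset.sum_nonneg; intros; positivity
        simp [hi]
      · have e3 := Finset.sum_mul_sq_le_sq_mul_sq Finset.univ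
          (fun n : Fin (L + 1) => if 2 * (n : ℕ) < u then Cm L i n else 0)
          (fun n => a (n, false))
        have e4 : 0 ≤ a (i, true) ^ 2 := by positivity
        simp only [hi, not_false_eq_true, if_true]
        linarith
    rw [← Finset.sum_mul] at e2
    have e5 := HS L u
    have e6 : 0 ≤ ∑ n, a (n, false) ^ 2 := Finset.sum_nonneg fun _ _ => by positivity
    have e7 : 0 ≤ ∑ n, a (n, true) ^ 2 := Finset.sum_nonneg fun _ _ => by positivity
    nlinarith
  have h2 := norm_nonneg a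
  have h3 := norm_nonneg (Su L u a)
  nlinarith

lemma Su_all (L u : ℕ) (a : XL L) (hu : 2 * (L + 1) ≤ u) : Su L u a = a := by
  ext ⟨i, b⟩
  have := i.2
  cases b
  · rw [Su_f, if_pos (by omega)]
  · rw [Su_t, if_pos (by omega)]

lemma bas_le (L : ℕ) (p : Wi L) : ‖bas L p‖ ≤ 2 := by
  obtain ⟨n, b⟩ := p
  have h1 : ‖bas L (n, b)‖ ^ 2 ≤ 2 ^ 2 := by
    rw [XL_norm]
    cases b
    · simp only [bas_ff, bas_ft]
      have e1 : ∑ x : Fin (L + 1), (if x = n then (1:ℝ) else 0) ^ 2 = 1 := by
        rw [Finset.sum_eq_single n]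
        · simp
        · intro j _ hj; simp [hj]
        · exact fun h => absurd (Finset.mem_univ n) h
      have e2 := col_sq L n n le_rfl
      have e3 : ∑ x, Cm L x n ^ 2 = ∑ i : Fin (L + 1), (if (n : ℕ) ≤ (i : ℕ) then (Cm L i n) ^ 2 else 0) := by
        apply Finset.sum_congr rfl
        intro i _
        by_cases h : n ≤ i
        · rw [if_pos (Fin.le_def.1 h)]
        · rw [if_neg (fun h' => h (Fin.le_def.2 h')), Cm, if_neg h]; norm_num
      rw [e1, e3]
      simp only [Nat.sub_self, Nat.cast_zero, zero_add, div_one] at e2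
      have e4 := th_le L
      have e5 := th_pos L
      nlinarith
    · simp only [bas_tf, bas_tt]
      have e1 : ∑ x : Fin (L + 1), (if x = n then (1:ℝ) else 0) ^ 2 = 1 := by
        rw [Finset.sum_eq_single n]
        · simp
        · intro j _ hj; simp [hj]
        · exact fun h => absurd (Finset.mem_univ n) h
      rw [e1]
      norm_num
  exact le_of_pow_le_pow_left₀ two_ne_zero (by norm_num) h1

lemma one_le_bas (L : ℕ) (p : Wi L) : 1 ≤ ‖bas L p‖ := by
  have h1 : ‖bas L p p‖ ≤ ‖bas L p‖ := PiLp.norm_apply_le (bas L p) p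
  have h2 : bas L p p = 1 := by
    obtain ⟨n, b⟩ := p
    cases b
    · rw [bas_ff, if_pos rfl]
    · rw [bas_tt, if_pos rfl]
  rw [h2] at h1
  simpa using h1

lemma fu_le (L : ℕ) (p : Wi L) (a : XL L) : |fu L p a| ≤ 6 * ‖a‖ := by
  have h1 : fu L p a • bas L p = Su L (pos p + 1) a - Su L (pos p) a := by
    rw [Su, Su]
    have : Finset.univ.filter (fun q : Wi L => pos q < pos p + 1) =
        insert p (Finset.univ.filter (fun q : Wi L => pos q < pos p)) := by
      ext q
      simp only [Finset.mem_filter, Finset.mem_univ, true_and, Finset.mem_insert]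
      constructor
      · intro h
        rcases Nat.lt_or_ge (pos q) (pos p) with h' | h'
        · exact Or.inr h'
        · left
          have h3 : pos q = pos p := by omega
          obtain ⟨n, b⟩ := q
          obtain ⟨m, c⟩ := p
          simp only [pos] at h3
          have hb : b.toNat ≤ 1 := Bool.toNat_le b
          have hc : c.toNat ≤ 1 := Bool.toNat_le c
          have e1 : (n : ℕ) = (m : ℕ) := by omega
          have e2 : b.toNat = c.toNat := by omega
          have e3 : b = c := by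
            revert e2
            cases b <;> cases c <;> simp
          rw [Fin.ext e1, e3]
      · rintro (rfl | h)
        · omega
        · omega
    rw [this, Finset.sum_insert (by simp)]
    abel
  have h2 : |fu L p a| * ‖bas L p‖ ≤ 6 * ‖a‖ := by
    rw [← Real.norm_eq_abs, ← norm_smul, h1]
    have e1 := norm_sub_le (Su L (pos p + 1) a) (Su L (pos p) a)
    have e2 := Su_le L (pos p + 1) a
    have e3 := Su_le L (pos p) a
    linarith
  have h3 := one_le_bas L p
  have h4 := abs_nonneg (fu L p a)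
  nlinarith

end H647R3.QF
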