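import Pool.Agent.H647R3.QFF

open scoped ENNReal

namespace H647R3.QF

/-- sum of all windows -/
abbrev XX : Type := lp (fun L : ℕ => XL L) 4

/-- index of the conditional basis -/
abbrev KK : Type := Σ L : ℕ, Wi L

/-- exponents -/
def kap (k : KK) : ℕ := 4 ^ (k.1 + 1) + pos k.2

lemma pos_lt {L : ℕ} (p : Wi L) : pos p < 2 * (L + 1) := by
  have h1 := p.1.2
  have h2 : p.2.toNat ≤ 1 := Bool.toNat_le p.2
  unfold pos
  omega

lemma pos_inj {L : ℕ} : Function.Injective (pos : Wi L → ℕ) := by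
  rintro ⟨n, b⟩ ⟨m, c⟩ h3
  simp only [pos] at h3
  have hb : b.toNat ≤ 1 := Bool.toNat_le b
  have hc : c.toNat ≤ 1 := Bool.toNat_le c
  have e1 : (n : ℕ) = (m : ℕ) := by omega
  have e2 : b.toNat = c.toNat := by omega
  have e3 : b = c := by
    revert e2
    cases b <;> cases c <;> simp
  rw [Fin.ext e1, e3]

lemma four_pow (L : ℕ) : 3 * (L + 1) ≤ 4 ^ (L + 1) := by
  induction L with
  | zero => norm_num
  | succ n ih => rw [pow_succ]; omega

lemma kap_lt {k l : KK} (h : k.1 < l.1) : kap k < kap l := by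
  have h1 := pos_lt k.2
  have h2 := four_pow k.1
  have h3 : 4 ^ (k.1 + 1 + 1) ≤ 4 ^ (l.1 + 1) := Nat.pow_le_pow_right (by norm_num) (by omega)
  rw [pow_succ] at h3
  unfold kap
  omega

lemma kap_inj : Function.Injective kap := by
  rintro ⟨L, p⟩ ⟨M, q⟩ h
  rcases lt_trichotomy L M with h1 | h1 | h1
  · have := kap_lt (k := ⟨L, p⟩) (l := ⟨M, q⟩) h1; omega
  · subst h1
    have : pos p = pos q := by
      simp only [kap] at h
      omega
    rw [pos_inj this]
  · have := kap_lt (k := ⟨M, q⟩) (l := ⟨L, p⟩) h1; omega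

/-- basis vectors -/
noncomputable def vx (k : KK) : XX := lp.single 4 k.1 (bas k.1 k.2)

/-- functionals -/
noncomputable def vf (k : KK) : XX →L[ℝ] ℝ :=
  (fu k.1 k.2).comp (lp.evalCLM ℝ (fun L : ℕ => XL L) 4 k.1)

lemma vf_apply (k : KK) (x : XX) : vf k x = fu k.1 k.2 (x k.1) := rfl

lemma vf_vx (i k : KK) : vf i (vx k) = if i = k then 1 else 0 := by
  obtain ⟨L, p⟩ := i
  obtain ⟨M, q⟩ := k
  rw [vf_apply, vx]
  simp only
  by_cases h : L = M
  · subst h
    rw [lp.single_apply_self, fu_bas]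
    by_cases hpq : p = q
    · rw [if_pos hpq, if_pos (by rw [hpq])]
    · rw [if_neg hpq, if_neg]
      intro h'
      simp only [Sigma.mk.injEq, heq_eq_eq, true_and] at h'
      exact hpq h'
  · rw [lp.single_apply_ne _ _ _ h, map_zero, if_neg]
    intro h'
    simp only [Sigma.mk.injEq] at h'
    exact h h'.1

lemma single_sum (L : ℕ) (s : Finset (Wi L)) (f : Wi L → XL L) :
    lp.single (E := fun L => XL L) 4 L (∑ p ∈ s, f p) = ∑ p ∈ s, lp.single 4 L (f p) :=
  map_sum (lp.singleContinuousLinearMap ℝ (fun L : ℕ => XL L) 4 L) f s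

lemma vx_dense : Dense (Submodule.span ℝ (Set.range vx) : Set XX) := by
  intro s
  have h1 := lp.hasSum_single (E := fun L : ℕ => XL L) (p := 4) (by norm_num) s
  apply mem_closure_of_tendsto h1
  filter_upwards with F
  apply Submodule.sum_mem
  intro L _
  rw [← Su_all L (2 * (L + 1)) (s L) le_rfl, Su, single_sum]
  apply Submodule.sum_mem
  intro p _
  rw [lp.single_smul]
  exact Submodule.smul_mem _ _ (Submodule.subset_span ⟨⟨L, p⟩, rfl⟩)

lemma P_bound (t : ℕ) (F : Finset KK) (hF : ∀ k, k ∈ F ↔ kap k < t) (x : XX) :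
    ‖∑ k ∈ F, vf k x • vx k‖ ≤ 6 * ‖x‖ := by
  have h1 : F = (F.image Sigma.fst).sigma (fun L =>
      Finset.univ.filter (fun p : Wi L => pos p < t - 4 ^ (L + 1))) := by
    ext ⟨L, p⟩
    rw [Finset.mem_sigma, hF]
    simp only [Finset.mem_filter, Finset.mem_univ, true_and, Finset.mem_image]
    constructor
    · intro h
      refine ⟨⟨⟨L, p⟩, (hF _).2 h, rfl⟩, ?_⟩
      simp only [kap] at h
      omega
    · rintro ⟨-, h⟩
      simp only [kap]
      omega
  have h2 : ∑ k ∈ F, vf k x • vx k =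
      ∑ L ∈ F.image Sigma.fst, lp.single 4 L (Su L (t - 4 ^ (L + 1)) (x L)) := by
    conv_lhs => rw [h1]
    rw [Finset.sum_sigma]
    apply Finset.sum_congr rfl
    intro L _
    rw [Su, single_sum]
    apply Finset.sum_congr rfl
    intro p _
    rw [lp.single_smul]
    rfl
  rw [h2]
  have h3 := lpdom x (fun L => Su L (t - 4 ^ (L + 1)) (x L)) (F.image Sigma.fst)
    (by norm_num : (0:ℝ) ≤ 3) (fun L _ => Su_le L _ _)
  have := norm_nonneg x
  linarith

/-- the data -/
noncomputable def DD : Data XX KK where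
  κ := kap
  κinj := kap_inj
  bb := fun k => k.2.2
  xk := vx
  xs := vf
  biorth := vf_vx
  dense := vx_dense
  c := 6
  c_one := by norm_num
  xk_le := fun k => by
    rw [vx, lp.norm_single (by norm_num)]
    exact (bas_le k.1 k.2).trans (by norm_num)
  xs_le := fun k x => by
    rw [vf_apply]
    have h1 := fu_le k.1 k.2 (x k.1)
    have h2 := lp_norm_apply x k.1
    linarith
  P_le := P_bound

lemma qq_true (e : ℕ) : qq true e = ((2:ℝ) ^ e)⁻¹ := by
  rw [qq, mm_cast]
  simp only [rr, if_true]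
  field_simp

lemma qq_false (e : ℕ) : qq false e = (((2:ℝ) ^ e) ^ 3)⁻¹ := by
  rw [qq, mm_cast]
  simp only [rr, Bool.false_eq_true, if_false]
  field_simp

theorem DD_not_dual (C : ℝ) (hC : 0 ≤ C) : ∃ (g : DD.W →L[ℝ] ℝ) (A : Finset DD.Ix),
      (∀ n ∈ A, ∀ k ∉ A, |g (DD.xW k)| ≤ |g (DD.xW n)|) ∧
      C * ‖g‖ < ‖∑ n ∈ A, g (DD.xW n) • DD.fW n‖ := by
  classical
  -- choose the window
  obtain ⟨L, hL⟩ : ∃ L : ℕ, (C + 2) ^ 2 ≤ hs (L + 1) := by
    have h := Real.tendsto_sum_range_one_div_nat_succ_atTop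
    rw [Filter.tendsto_atTop] at h
    obtain ⟨n, hn⟩ := (h ((C + 2) ^ 2)).exists
    exact ⟨n, (show (C + 2) ^ 2 ≤ hs n from hn).trans (hs_mono (by omega))⟩
  set N : ℝ := ((L + 1 : ℕ) : ℝ) with hN
  have hNpos : 0 < N := by rw [hN]; positivity
  set h : ℝ := hs (L + 1) with hh
  have hh1 : 1 ≤ h := one_le_hs L
  -- the functional
  let ξ₀ : XL L →L[ℝ] ℝ := ∑ i, pr L (i, true)
  have hξ₀ : ∀ a, ξ₀ a = ∑ i, a (i, true) := by
    intro a
    simp only [ξ₀, sum_apply, pr_apply]
  have hξ₀n : ∀ a, |ξ₀ a| ≤ Real.sqrt N * ‖a‖ := by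
    intro a
    apply abs_le_of_sq_le_sq _ (by positivity)
    rw [hξ₀, mul_pow, Real.sq_sqrt hNpos.le]
    have e1 := Finset.sum_mul_sq_le_sq_mul_sq Finset.univ (fun _ : Fin (L + 1) => (1:ℝ))
      (fun i => a (i, true))
    simp only [one_mul, one_pow, Finset.sum_const, Finset.card_univ, Fintype.card_fin,
      nsmul_eq_mul, mul_one] at e1
    refine e1.trans ?_
    rw [XL_norm]
    apply mul_le_mul_of_nonneg_left _ hNpos.le
    have : 0 ≤ ∑ i, a (i, false) ^ 2 := Finset.sum_nonneg fun _ _ => by positivity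
    linarith
  let ξ : XX →L[ℝ] ℝ := ξ₀.comp (lp.evalCLM ℝ (fun L : ℕ => XL L) 4 L)
  have hξ : ‖ξ‖ ≤ Real.sqrt N := by
    apply ContinuousLinearMap.opNorm_le_bound _ (by positivity)
    intro x
    have e1 := hξ₀n (x L)
    have e2 := lp_norm_apply x L
    calc ‖ξ x‖ = |ξ₀ (x L)| := rfl
      _ ≤ Real.sqrt N * ‖x L‖ := e1
      _ ≤ Real.sqrt N * ‖x‖ := mul_le_mul_of_nonneg_left e2 (by positivity)
  -- the set
  let emb : Fin (L + 1) ↪ KK := ⟨fun i => ⟨L, (i, true)⟩, by
    intro i j hij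
    simp only [Sigma.mk.injEq, heq_eq_eq, true_and, Prod.mk.injEq, and_true] at hij
    exact hij⟩
  let Z : Finset KK := Finset.univ.map emb
  -- test vector
  let w : XL L := WithLp.toLp (pp true) (fun q : Wi L => if q.2 then 0 else 1)
  have hwf : ∀ i, w (i, false) = 1 := fun i => by simp [w]
  have hwt : ∀ i, w (i, true) = 0 := fun i => by simp [w]
  have hw : ‖w‖ = Real.sqrt N := by
    rw [← Real.sqrt_sq (norm_nonneg w), XL_norm]
    simp only [hwf, hwt]
    simp [hN]
  let x₀ : XX := lp.single 4 L w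
  have hx₀ : ‖x₀‖ = Real.sqrt N := by
    rw [← hw]
    exact lp.norm_single (by norm_num) L w
  have hsum : ∑ k ∈ Z, DD.xs k x₀ = -(th L * ((N + 1) * h - N)) := by
    rw [Finset.sum_map]
    have e1 : ∀ i : Fin (L + 1), DD.xs (emb i) x₀ = - (th L * hs (i + 1)) := by
      intro i
      change fu L (i, true) (x₀ L) = _
      have e2 : x₀ L = w := lp.single_apply_self 4 L w
      rw [e2, fu_t, hwt, zero_sub]
      congr 1
      simp only [hwf, mul_one]
      have e3 : ∀ m : Fin (L + 1), Cm L i m =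
          if (m : ℕ) ≤ (i : ℕ) then th L * (1 / (((i : ℕ) - (m : ℕ) : ℕ) + 1 : ℝ)) else 0 := by
        intro m
        unfold Cm
        by_cases hm : m ≤ i
        · rw [if_pos hm, if_pos (Fin.le_def.1 hm)]; ring
        · rw [if_neg hm, if_neg (fun h' => hm (Fin.le_def.2 h'))]
      simp only [e3]
      rw [Fin.sum_univ_eq_sum_range (fun m => if m ≤ (i : ℕ) then
        th L * (1 / (((i : ℕ) - m : ℕ) + 1 : ℝ)) else 0) (L + 1), ← Finset.sum_filter]
      have e4 : (Finset.range (L + 1)).filter (fun m => m ≤ (i : ℕ)) = Finset.range (i + 1) := by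
        ext m
        have := i.2
        simp
        omega
      rw [e4, ← Finset.mul_sum]
      congr 1
      rw [hs, ← Finset.sum_range_reflect (fun k => 1 / ((k : ℝ) + 1))]
      apply Finset.sum_congr rfl
      intro m _
      congr 3
    simp only [e1]
    rw [Finset.sum_neg_distrib, ← Finset.mul_sum,
      Fin.sum_univ_eq_sum_range (fun i => hs (i + 1)) (L + 1), hs_sum]
  refine DD.not_dual C (Real.sqrt N) ξ hξ Z ?_ ?_ hC x₀ ?_
  · intro k hk
    rw [Finset.mem_map] at hk
    obtain ⟨i, -, rfl⟩ := hk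
    change ξ₀ ((vx ⟨L, (i, true)⟩ : XX) L) = 1
    have e2 : (vx ⟨L, (i, true)⟩ : XX) L = bas L (i, true) := lp.single_apply_self 4 L _
    rw [e2, hξ₀]
    simp only [bas_tt]
    simp
  · intro k hk l hl
    rw [Finset.mem_map] at hk
    obtain ⟨i, -, rfl⟩ := hk
    obtain ⟨M, ⟨n, b⟩⟩ := l
    by_cases hM : M = L
    · subst hM
      cases b with
      | true =>
        exfalso
        apply hl
        rw [Finset.mem_map]
        exact ⟨n, Finset.mem_univ _, rfl⟩
      | false =>
        change |ξ₀ ((vx ⟨M, (n, false)⟩ : XX) M)| * qq false (kap ⟨M, (n, false)⟩) ≤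
          qq true (kap ⟨M, (i, true)⟩)
        have e2 : (vx ⟨M, (n, false)⟩ : XX) M = bas M (n, false) := lp.single_apply_self 4 M _
        rw [e2, hξ₀]
        simp only [bas_ft]
        rw [qq_true, qq_false]
        have e3 : |∑ i, Cm M i n| ≤ N := by
          rw [abs_of_nonneg (Finset.sum_nonneg fun i _ => Cm_nonneg M i n)]
          calc ∑ i, Cm M i n ≤ ∑ _i : Fin (M + 1), (1:ℝ) := by
                apply Finset.sum_le_sum
                intro i _
                unfold Cm
                split_ifs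
                · rw [div_le_one (by positivity)]
                  have := th_le M
                  have : (0:ℝ) ≤ (((i : ℕ) - (n : ℕ) : ℕ) : ℝ) := Nat.cast_nonneg _
                  linarith
                · norm_num
            _ = N := by simp [hN]
        have e4 : N ≤ 2 ^ (M + 1) := by
          rw [hN]
          have : (M + 1) < 2 ^ (M + 1) := Nat.lt_two_pow_self
          exact_mod_cast this.le
        have e5 : (2:ℝ) ^ (M + 1) * 2 ^ (kap ⟨M, (i, true)⟩) ≤
            (2 ^ (kap ⟨M, (n, false)⟩)) ^ 3 := by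
          rw [← pow_add, ← pow_mul]
          apply pow_le_pow_right₀ (by norm_num)
          have e6 := four_pow M
          have e7 := pos_lt (L := M) (i, true)
          simp only [kap]
          omega
        rw [← div_eq_mul_inv, div_le_iff₀ (by positivity)]
        rw [inv_mul_eq_div, le_div_iff₀ (by positivity)]
        calc |∑ i, Cm M i n| * 2 ^ (kap ⟨M, (i, true)⟩) ≤
            2 ^ (M + 1) * 2 ^ (kap ⟨M, (i, true)⟩) :=
              mul_le_mul_of_nonneg_right (e3.trans e4) (by positivity)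
          _ ≤ _ := e5
    · have : ξ (DD.xk ⟨M, (n, b)⟩) = 0 := by
        change ξ₀ ((vx ⟨M, (n, b)⟩ : XX) L) = 0
        have e2 : (vx ⟨M, (n, b)⟩ : XX) L = 0 := lp.single_apply_ne 4 M _ (Ne.symm hM)
        rw [e2, map_zero]
      rw [this, abs_zero, zero_mul]
      exact (qq_pos _ _).le
  · rw [hsum, abs_neg, hx₀, mul_assoc, Real.mul_self_sqrt hNpos.le]
    have hs1 : Real.sqrt h ^ 2 = h := Real.sq_sqrt (by linarith)
    have hs2 : C + 2 ≤ Real.sqrt h := by
      rw [← Real.sqrt_sq (by linarith : 0 ≤ C + 2)]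
      exact Real.sqrt_le_sqrt hL
    have hs3 : 0 < Real.sqrt h := by linarith
    have hth : th L = 1 / Real.sqrt h := rfl
    have e1 : th L * ((N + 1) * h - N) = (N + 1) * Real.sqrt h - N / Real.sqrt h := by
      calc th L * ((N + 1) * h - N) = 1 / Real.sqrt h * ((N + 1) * Real.sqrt h ^ 2 - N) := by
            rw [hth, hs1]
        _ = (N + 1) * Real.sqrt h - N / Real.sqrt h := by
            field_simp
    rw [e1]
    have e2 : N / Real.sqrt h ≤ N := by
      apply div_le_self hNpos.le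
      linarith
    have e3 : C * N < (N + 1) * Real.sqrt h - N / Real.sqrt h := by nlinarith
    exact e3.trans_le (le_abs_self _)

end H647R3.QF
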