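import Pool.Agent.H647R3.QFG

open scoped ENNReal

namespace H647R3.QF

/-- transport to `ℓ_4` -/
theorem transport {W ι : Type} [NormedAddCommGroup W] [NormedSpace ℝ W] [Countable ι]
    [Nonempty ι] [DecidableEq ι] (xW : ι → W) (fW : ι → (W →L[ℝ] ℝ))
    (biorthW : ∀ m n, fW m (xW n) = if m = n then 1 else 0)
    (denseW : Dense (Submodule.span ℝ (Set.range xW) : Set W))
    (boundW : ∃ M : ℝ, ∀ n, ‖xW n‖ ≤ M ∧ ‖fW n‖ ≤ M)
    (qg : ∃ C : ℝ, ∀ (z : W) (A : Finset ι), (∀ n ∈ A, ∀ k ∉ A, |fW k z| ≤ |fW n z|) →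
      ‖∑ n ∈ A, fW n z • xW n‖ ≤ C * ‖z‖)
    (not_dual : ∀ C : ℝ, 0 ≤ C → ∃ (g : W →L[ℝ] ℝ) (A : Finset ι),
      (∀ n ∈ A, ∀ k ∉ A, |g (xW k)| ≤ |g (xW n)|) ∧ C * ‖g‖ < ‖∑ n ∈ A, g (xW n) • fW n‖)
    (e : H ≃L[ℝ] (W × H)) : ∃ (x : ℕ → H) (f : ℕ → (H →L[ℝ] ℝ)),
    (∀ m n : ℕ, f m (x n) = if m = n then 1 else 0) ∧
    Dense (Submodule.span ℝ (Set.range x) : Set H) ∧
    (∃ M : ℝ, ∀ n : ℕ, ‖x n‖ ≤ M ∧ ‖f n‖ ≤ M) ∧
    (∃ C : ℝ, ∀ (y : H) (A : Finset ℕ), (∀ n ∈ A, ∀ k ∉ A, |f k y| ≤ |f n y|) →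
      ‖∑ n ∈ A, f n y • x n‖ ≤ C * ‖y‖) ∧
    ¬ (∃ C : ℝ, ∀ (g : H →L[ℝ] ℝ) (A : Finset ℕ), (∀ n ∈ A, ∀ k ∉ A, |g (x k)| ≤ |g (x n)|) →
      ‖∑ n ∈ A, g (x n) • f n‖ ≤ C * ‖g‖) := by
  classical
  -- the system
  let ux : ℕ → H := fun m => lp.single 4 m (1:ℝ)
  let uf : ℕ → (H →L[ℝ] ℝ) := fun m => lp.evalCLM ℝ (fun _ : ℕ => ℝ) 4 m
  let x' : ι ⊕ ℕ → W × H := Sum.elim (fun n => (xW n, 0)) (fun m => (0, ux m))
  let f' : ι ⊕ ℕ → (W × H →L[ℝ] ℝ) := Sum.elim
    (fun n => (fW n).comp (ContinuousLinearMap.fst ℝ W H))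
    (fun m => (uf m).comp (ContinuousLinearMap.snd ℝ W H))
  obtain ⟨σ⟩ : Nonempty (ℕ ≃ ι ⊕ ℕ) := nonempty_equiv_of_countable
  have hu : ∀ m n, uf m (ux n) = if m = n then 1 else 0 := by
    intro m n
    change (lp.single (E := fun _ : ℕ => ℝ) 4 n (1:ℝ) : H) m = _
    by_cases h : m = n
    · subst h
      rw [lp.single_apply_self, if_pos rfl]
    · rw [lp.single_apply_ne _ _ _ h, if_neg h]
  have hb' : ∀ i j, f' i (x' j) = if i = j then 1 else 0 := by
    intro i j
    rcases i with i | i <;> rcases j with j | j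
    · change fW i (xW j) = _
      rw [biorthW]
      simp
    · change fW i 0 = _
      rw [map_zero]
      simp
    · change uf i 0 = _
      rw [map_zero]
      simp
    · change uf i (ux j) = _
      rw [hu]
      simp
  have hspan' : ∀ z : W × H, z ∈ (Submodule.span ℝ (Set.range x')).topologicalClosure := by
    set U := (Submodule.span ℝ (Set.range x')).topologicalClosure with hU
    have hUc : IsClosed (U : Set (W × H)) := Submodule.isClosed_topologicalClosure _
    have hmem : ∀ n, x' n ∈ U := fun n =>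
      Submodule.le_topologicalClosure _ (Submodule.subset_span ⟨n, rfl⟩)
    have hA : ∀ w : W, ((w, 0) : W × H) ∈ U := by
      intro w
      let inj : W →L[ℝ] W × H := ContinuousLinearMap.inl ℝ W H
      have h2 : (Submodule.span ℝ (Set.range xW) : Set W) ⊆ inj ⁻¹' (U : Set (W × H)) := by
        intro y hy
        have : Submodule.span ℝ (Set.range xW) ≤ U.comap inj.toLinearMap := by
          rw [Submodule.span_le]
          rintro _ ⟨k, rfl⟩
          exact hmem (Sum.inl k)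
        exact this hy
      exact (closure_minimal h2 (hUc.preimage inj.continuous)) (denseW w)
    have hB : ∀ h : H, ((0, h) : W × H) ∈ U := by
      intro h
      let inj : H →L[ℝ] W × H := ContinuousLinearMap.inr ℝ W H
      have h1 := lp.hasSum_single (E := fun _ : ℕ => ℝ) (p := 4) (by norm_num) h
      have h2 : h ∈ closure (inj ⁻¹' (U : Set (W × H))) := by
        apply mem_closure_of_tendsto h1
        filter_upwards with F
        change inj (∑ m ∈ F, lp.single 4 m (h m)) ∈ U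
        rw [map_sum]
        apply Submodule.sum_mem
        intro m _
        have e3 : lp.single (E := fun _ : ℕ => ℝ) 4 m (h m) = h m • ux m := by
          change _ = h m • lp.single (E := fun _ : ℕ => ℝ) 4 m (1:ℝ)
          rw [← lp.single_smul, smul_eq_mul, mul_one]
        rw [e3, map_smul]
        exact Submodule.smul_mem _ _ (hmem (Sum.inr m))
      rw [(hUc.preimage inj.continuous).closure_eq] at h2
      exact h2
    intro z
    have : z = ((z.1, 0) : W × H) + ((0, z.2) : W × H) := by simp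
    rw [this]
    exact Submodule.add_mem _ (hA _) (hB _)
  obtain ⟨M, hM⟩ := boundW
  have hM' : ∀ i, ‖x' i‖ ≤ M + 1 ∧ ‖f' i‖ ≤ M + 1 := by
    have hM0 : 0 ≤ M := (norm_nonneg _).trans (hM (Classical.arbitrary ι)).1
    intro i
    rcases i with i | i
    · constructor
      · change ‖((xW i, 0) : W × H)‖ ≤ _
        rw [Prod.norm_mk, norm_zero, max_eq_left (norm_nonneg _)]
        have := (hM i).1
        linarith
      · apply ContinuousLinearMap.opNorm_le_bound _ (by linarith)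
        intro z
        have e3 := (fW i).le_opNorm z.1
        have e4 : ‖z.1‖ ≤ ‖z‖ := norm_fst_le z
        calc ‖f' (Sum.inl i) z‖ ≤ ‖fW i‖ * ‖z.1‖ := e3
          _ ≤ (M + 1) * ‖z‖ := mul_le_mul ((hM i).2.trans (by linarith)) e4 (norm_nonneg _)
              (by linarith)
    · constructor
      · change ‖((0, ux i) : W × H)‖ ≤ _
        rw [Prod.norm_mk, norm_zero, max_eq_right (norm_nonneg _)]
        have : ‖ux i‖ = 1 := by
          change ‖lp.single (E := fun _ : ℕ => ℝ) 4 i (1:ℝ)‖ = 1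
          rw [lp.norm_single (by norm_num), norm_one]
        linarith
      · apply ContinuousLinearMap.opNorm_le_bound _ (by linarith)
        intro z
        have e3 := lp_norm_apply z.2 i
        have e4 : ‖z.2‖ ≤ ‖z‖ := norm_snd_le z
        have e5 := norm_nonneg z
        calc ‖f' (Sum.inr i) z‖ ≤ ‖z.2‖ := e3
          _ ≤ (M + 1) * ‖z‖ := by nlinarith
  obtain ⟨C₀, hC₀⟩ := qg
  have hqg' : ∀ (z : W × H) (A : Finset (ι ⊕ ℕ)),
      (∀ n ∈ A, ∀ k ∉ A, |f' k z| ≤ |f' n z|) →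
      ‖∑ n ∈ A, f' n z • x' n‖ ≤ (|C₀| + 1) * ‖z‖ := by
    intro z A hA
    conv_lhs => rw [← Finset.toLeft_disjSum_toRight (u := A)]
    rw [Finset.sum_disjSum]
    have e3 : ∑ n ∈ A.toLeft, f' (Sum.inl n) z • x' (Sum.inl n) =
        (∑ n ∈ A.toLeft, fW n z.1 • xW n, (0 : H)) := by
      have : (0 : H) = ∑ n ∈ A.toLeft, (0 : H) := by simp
      rw [this, mk_sum]
      apply Finset.sum_congr rfl
      intro n _
      apply Prod.ext
      · rfl
      · change _ • (0 : H) = 0
        rw [smul_zero]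
    have e4 : ∑ m ∈ A.toRight, f' (Sum.inr m) z • x' (Sum.inr m) =
        ((0 : W), ∑ m ∈ A.toRight, lp.single (E := fun _ : ℕ => ℝ) 4 m (z.2 m)) := by
      have : (0 : W) = ∑ n ∈ A.toRight, (0 : W) := by simp
      rw [this, mk_sum]
      apply Finset.sum_congr rfl
      intro m _
      apply Prod.ext
      · change _ • (0 : W) = 0
        rw [smul_zero]
      · change z.2 m • lp.single (E := fun _ : ℕ => ℝ) 4 m (1:ℝ) = _
        rw [← lp.single_smul, smul_eq_mul, mul_one]
    have e5 := hC₀ z.1 A.toLeft (fun n hn k hk => hA (Sum.inl n) (Finset.mem_toLeft.1 hn)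
      (Sum.inl k) (fun h => hk (Finset.mem_toLeft.2 h)))
    have e6 := lpdom z.2 (fun m => z.2 m) A.toRight zero_le_one (fun m _ => by rw [one_mul])
    have e7 : ‖z.1‖ ≤ ‖z‖ := norm_fst_le z
    have e8 : ‖z.2‖ ≤ ‖z‖ := norm_snd_le z
    have e9 := le_abs_self C₀
    have e10 := norm_nonneg z.1
    have e11 := abs_nonneg C₀
    refine (norm_add_le _ _).trans ?_
    rw [e3, e4, Prod.norm_mk, Prod.norm_mk, norm_zero, norm_zero,
      max_eq_left (norm_nonneg _), max_eq_right (norm_nonneg _)]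
    nlinarith
  -- the final system
  refine ⟨fun n => e.symm (x' (σ n)), fun n => (f' (σ n)).comp (e : H →L[ℝ] W × H),
    ?_, ?_, ?_, ?_, ?_⟩
  · intro m n
    change f' (σ m) (e (e.symm (x' (σ n)))) = _
    rw [ContinuousLinearEquiv.apply_symm_apply, hb']
    simp
  · intro y
    have h3 := hspan' (e y)
    set U := (Submodule.span ℝ (Set.range fun n => e.symm (x' (σ n)))).topologicalClosure with hU
    have hUc : IsClosed (U : Set H) := Submodule.isClosed_topologicalClosure _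
    have h4 : (Submodule.span ℝ (Set.range x') : Set (W × H)) ⊆ e.symm ⁻¹' (U : Set H) := by
      intro z hz
      have : Submodule.span ℝ (Set.range x') ≤
          U.comap ((e.symm : (W × H) →L[ℝ] H).toLinearMap) := by
        rw [Submodule.span_le]
        rintro _ ⟨k, rfl⟩
        apply Submodule.le_topologicalClosure
        apply Submodule.subset_span
        exact ⟨σ.symm k, by simp⟩
      exact this hz
    have h5 := closure_minimal h4 (hUc.preimage e.symm.continuous) h3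
    have h6 : e.symm (e y) ∈ U := h5
    rw [ContinuousLinearEquiv.symm_apply_apply] at h6
    exact h6
  · refine ⟨max (‖(e.symm : (W × H) →L[ℝ] H)‖ * (M + 1))
      ((M + 1) * ‖(e : H →L[ℝ] (W × H))‖), fun n => ⟨?_, ?_⟩⟩
    · refine le_trans ?_ (le_max_left _ _)
      refine ((e.symm : (W × H) →L[ℝ] H).le_opNorm _).trans ?_
      exact mul_le_mul_of_nonneg_left (hM' _).1 (norm_nonneg _)
    · refine le_trans ?_ (le_max_right _ _)
      refine (ContinuousLinearMap.opNorm_comp_le _ _).trans ?_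
      exact mul_le_mul_of_nonneg_right (hM' _).2 (norm_nonneg _)
  · refine ⟨‖(e.symm : (W × H) →L[ℝ] H)‖ * ((|C₀| + 1) * ‖(e : H →L[ℝ] (W × H))‖),
      fun y A hA => ?_⟩
    have h3 := hqg' (e y) (A.map σ.toEmbedding) (by
      intro n hn k hk
      rw [Finset.mem_map_equiv] at hn hk
      have := hA _ hn _ hk
      simpa using this)
    rw [Finset.sum_map] at h3
    have h4 : ∑ n ∈ A, ((f' (σ n)).comp (e : H →L[ℝ] W × H)) y • e.symm (x' (σ n)) =
        e.symm (∑ n ∈ A, f' (σ n) (e y) • x' (σ n)) := by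
      rw [map_sum]
      apply Finset.sum_congr rfl
      intro n _
      rw [map_smul]
      rfl
    rw [h4]
    refine ((e.symm : (W × H) →L[ℝ] H).le_opNorm _).trans ?_
    rw [mul_assoc]
    apply mul_le_mul_of_nonneg_left _ (norm_nonneg _)
    refine h3.trans ?_
    rw [mul_assoc]
    apply mul_le_mul_of_nonneg_left _ (by positivity)
    exact (e : H →L[ℝ] (W × H)).le_opNorm y
  · rintro ⟨C, hC⟩
    set a : ℝ := ‖(e : H →L[ℝ] (W × H))‖ with ha
    set b : ℝ := ‖(e.symm : (W × H) →L[ℝ] H)‖ with hb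
    have ha0 : 0 ≤ a := norm_nonneg _
    have hb0 : 0 ≤ b := norm_nonneg _
    obtain ⟨g, A, hg1, hg2⟩ := not_dual (|C| * a * b) (by positivity)
    let g' : W × H →L[ℝ] ℝ := g.comp (ContinuousLinearMap.fst ℝ W H)
    let g'' : H →L[ℝ] ℝ := g'.comp (e : H →L[ℝ] (W × H))
    let A' : Finset ℕ := (A.map Function.Embedding.inl).map σ.symm.toEmbedding
    have hg'' : ∀ n, g'' (e.symm (x' (σ n))) = g' (x' (σ n)) := by
      intro n
      change g' (e (e.symm (x' (σ n)))) = _
      rw [ContinuousLinearEquiv.apply_symm_apply]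
    have h3 := hC g'' A' (by
      intro n hn k hk
      rw [hg'', hg'']
      rw [Finset.mem_map_equiv, Equiv.symm_symm, Finset.mem_map] at hn
      obtain ⟨i, hi, hin⟩ := hn
      rw [Finset.mem_map_equiv, Equiv.symm_symm] at hk
      rw [← hin]
      have e3 : g' (x' (Function.Embedding.inl i)) = g (xW i) := rfl
      rw [e3]
      rcases hk' : σ k with j | j
      · have e4 : g' (x' (Sum.inl j)) = g (xW j) := rfl
        rw [e4]
        apply hg1 i hi j
        intro hj
        apply hk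
        rw [hk', Finset.mem_map]
        exact ⟨j, hj, rfl⟩
      · have e4 : g' (x' (Sum.inr j)) = g 0 := rfl
        rw [e4, map_zero, abs_zero]
        exact abs_nonneg _)
    rw [Finset.sum_map, Finset.sum_map] at h3
    set Φ : W →L[ℝ] ℝ := ∑ n ∈ A, g (xW n) • fW n with hΦ
    set Ψ : H →L[ℝ] ℝ := ∑ i ∈ A, g'' (e.symm (x' (σ (σ.symm.toEmbedding
      (Function.Embedding.inl i))))) • (f' (σ (σ.symm.toEmbedding
      (Function.Embedding.inl i)))).comp (e : H →L[ℝ] W × H) with hΨ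
    have h4 : ∀ y, Ψ y = Φ (e y).1 := by
      intro y
      rw [hΨ, hΦ, sum_apply, sum_apply]
      apply Finset.sum_congr rfl
      intro i _
      rw [hg'']
      have e5 : σ (σ.symm.toEmbedding (Function.Embedding.inl i)) = Sum.inl i :=
        σ.apply_symm_apply _
      rw [e5]
      rfl
    have h5 : ‖Φ‖ ≤ ‖Ψ‖ * b := by
      apply ContinuousLinearMap.opNorm_le_bound _ (by positivity)
      intro w
      have e6 : Φ w = Ψ (e.symm (w, 0)) := by
        rw [h4, ContinuousLinearEquiv.apply_symm_apply]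
      rw [e6]
      have e7 : ‖((w, 0) : W × H)‖ = ‖w‖ := by
        rw [Prod.norm_mk, norm_zero, max_eq_left (norm_nonneg _)]
      calc ‖Ψ (e.symm (w, 0))‖ ≤ ‖Ψ‖ * ‖e.symm ((w, 0) : W × H)‖ := Ψ.le_opNorm _
        _ ≤ ‖Ψ‖ * (b * ‖((w, 0) : W × H)‖) :=
            mul_le_mul_of_nonneg_left ((e.symm : (W × H) →L[ℝ] H).le_opNorm _)
              (norm_nonneg _)
        _ = ‖Ψ‖ * b * ‖w‖ := by rw [e7]; ring
    have h6 : ‖g''‖ ≤ ‖g‖ * a := by
      refine (ContinuousLinearMap.opNorm_comp_le _ _).trans ?_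
      apply mul_le_mul_of_nonneg_right _ ha0
      apply ContinuousLinearMap.opNorm_le_bound _ (norm_nonneg _)
      intro z
      calc ‖g' z‖ ≤ ‖g‖ * ‖z.1‖ := g.le_opNorm z.1
        _ ≤ ‖g‖ * ‖z‖ := mul_le_mul_of_nonneg_left (norm_fst_le z) (norm_nonneg _)
    have h7 : ‖Ψ‖ ≤ |C| * (‖g‖ * a) := by
      refine h3.trans ?_
      calc C * ‖g''‖ ≤ |C| * ‖g''‖ := mul_le_mul_of_nonneg_right (le_abs_self C) (norm_nonneg _)
        _ ≤ |C| * (‖g‖ * a) := mul_le_mul_of_nonneg_left h6 (abs_nonneg _)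
    have h8 : ‖Φ‖ ≤ |C| * (‖g‖ * a) * b := h5.trans (mul_le_mul_of_nonneg_right h7 hb0)
    have h9 : |C| * (‖g‖ * a) * b = |C| * a * b * ‖g‖ := by ring
    linarith

end H647R3.QF
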